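import Pool.Agent.Lib.MP_00ece3_co.EX.SpecA

set_option autoImplicit false

namespace Pool.Agent.Lib.MP_00ece3_co.EX

open Pool.Agent.Lib.MP_00ece3_co

namespace ArCrudeAux

private lemma sum_ind (m j : ℕ) (c : ℤ) (hc : c ≤ 0) :
    c ≤ ∑ a : Fin m, if (a : ℕ) = j then c else 0 := by
  by_cases h : j < m
  · rw [Finset.sum_eq_single (⟨j, h⟩ : Fin m)]
    · simp
    · intro b _ hb
      rw [if_neg]
      intro h'
      exact hb (Fin.ext h')
    · intro h'
      exact absurd (Finset.mem_univ _) h'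
  · rw [Finset.sum_eq_zero]
    · exact hc
    · intro a _
      rw [if_neg]
      intro h'
      exact h (h' ▸ a.2)

private lemma half_odd (u K M : ℤ) (hM : 11 ≤ M) (p : Prop) [Decidable p] (hu : (2 : ℤ) ∣ u)
    (hK0 : 0 ≤ K) (hK : (2 : ℤ) ∣ K) (hp : p → |u| = K ∨ |u| = M) :
    -8 ≤ u ^ 2 - 2 * |u| - (if p then 8 else 0) ∧
      (4 ≤ K → 0 ≤ u ^ 2 - 2 * |u| - (if p then 8 else 0)) := by
  have h1 : u ^ 2 = |u| ^ 2 := (sq_abs u).symm
  have h2 : (2 : ℤ) ∣ |u| := (dvd_abs 2 u).mpr hu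
  have h3 : 0 ≤ |u| := abs_nonneg u
  rw [h1]
  generalize |u| = w at *
  obtain ⟨k, rfl⟩ := h2
  have h4 : 0 ≤ k * (k - 1) := by
    rcases le_or_gt k 0 with h | h
    · have : k = 0 := by omega
      subst this
      norm_num
    · exact mul_nonneg (by omega) (by omega)
  by_cases hpp : p
  · rw [if_pos hpp]
    rcases hp hpp with h | h
    · refine ⟨by nlinarith, fun h5 => ?_⟩
      have h6 : 2 ≤ k := by omega
      nlinarith
    · have h6 : 6 ≤ k := by omega
      refine ⟨by nlinarith, fun _ => by nlinarith⟩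
  · rw [if_neg hpp]
    exact ⟨by nlinarith, fun _ => by nlinarith⟩

private lemma half_even (u K M : ℤ) (hM : 11 ≤ M) (p : Prop) [Decidable p] (hu : ¬ (2 : ℤ) ∣ u)
    (hK0 : 0 ≤ K) (hK : ¬ (2 : ℤ) ∣ K) (hp : p → |u| = K ∨ |u| = M) :
    -8 ≤ u ^ 2 - 2 * |u| + 1 - (if p then 8 else 0) ∧
      (3 ≤ K → -4 ≤ u ^ 2 - 2 * |u| + 1 - (if p then 8 else 0)) ∧
      (5 ≤ K → 0 ≤ u ^ 2 - 2 * |u| + 1 - (if p then 8 else 0)) := by
  have h1 : u ^ 2 = |u| ^ 2 := (sq_abs u).symm
  have h2 : ¬ (2 : ℤ) ∣ |u| := fun h => hu ((dvd_abs 2 u).mp h)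
  have h3 : 0 ≤ |u| := abs_nonneg u
  rw [h1]
  generalize |u| = w at *
  obtain ⟨k, rfl⟩ : ∃ k, w = 2 * k + 1 := ⟨w / 2, by omega⟩
  have h4 : 0 ≤ k := by omega
  by_cases hpp : p
  · rw [if_pos hpp]
    rcases hp hpp with h | h
    · refine ⟨by nlinarith, fun h5 => ?_, fun h5 => ?_⟩
      · have h6 : 1 ≤ k := by omega
        nlinarith
      · have h6 : 2 ≤ k := by omega
        nlinarith
    · have h6 : 5 ≤ k := by omega
      refine ⟨by nlinarith, fun _ => by nlinarith, fun _ => by nlinarith⟩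
  · rw [if_neg hpp]
    exact ⟨by nlinarith, fun _ => by nlinarith, fun _ => by nlinarith⟩

private lemma card_sum {m : ℕ} (Z : Finset (Fin m)) :
    8 * (Z.card : ℤ) = ∑ a, (if a ∈ Z then (8 : ℤ) else 0) := by
  rw [← Finset.sum_filter, Finset.filter_univ_mem, Finset.sum_const, nsmul_eq_mul, mul_comm]

end ArCrudeAux

open ArCrudeAux in
theorem tArCrude : S_ArCrude := by
  intro m hm U V Z Z' hU hV hZ hZ'
  rw [card_sum Z, card_sum Z', ← Finset.sum_sub_distrib, ← Finset.sum_sub_distrib]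
  have hM : (11 : ℤ) ≤ (m : ℤ) - 1 := by omega
  have habs : ∀ a, |U a - V a| ≤ |U a| + |V a| := fun a => by
    have := abs_sub (U a) (V a)
    exact this
  have hKn : ∀ a : Fin m, 0 ≤ KK a := fun a => abs_nonneg _
  rcases Nat.even_or_odd' m with ⟨k, hk | hk⟩
  · -- even
    have hm2 : ¬ (m % 2 = 1) := by omega
    simp only [if_neg hm2]
    have key : ∀ a : Fin m,
        (if (a : ℕ) = k - 1 then (-16 : ℤ) else 0) + (if (a : ℕ) = k then (-16 : ℤ) else 0) +
          (if (a : ℕ) = k - 2 then (-8 : ℤ) else 0) + (if (a : ℕ) = k + 1 then (-8 : ℤ) else 0) ≤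
        U a ^ 2 + V a ^ 2 - 2 * |U a - V a| + 2 - (if a ∈ Z then (8 : ℤ) else 0) -
          (if a ∈ Z' then (8 : ℤ) else 0) := by
      intro a
      have hKo : ¬ (2 : ℤ) ∣ KK a := by
        intro h
        have h' : (2 : ℤ) ∣ 2 * (a : ℤ) - ((m : ℤ) - 1) := (dvd_abs 2 _).mp h
        omega
      have hu : ¬ (2 : ℤ) ∣ U a := by
        have := hU a
        omega
      have hv : ¬ (2 : ℤ) ∣ V a := by
        have := hV a
        omega
      obtain ⟨a1, a2, a3⟩ := half_even (U a) (KK a) ((m : ℤ) - 1) hM (a ∈ Z) hu (hKn a) hKo (hZ a)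
      obtain ⟨b1, b2, b3⟩ := half_even (V a) (KK a) ((m : ℤ) - 1) hM (a ∈ Z') hv (hKn a) hKo (hZ' a)
      have h0 := habs a
      have hK3 : ¬ ((a : ℕ) = k - 1 ∨ (a : ℕ) = k) → 3 ≤ KK a := by
        intro h
        unfold KK
        rw [le_abs]
        omega
      have hK5 : ¬ ((a : ℕ) = k - 1 ∨ (a : ℕ) = k ∨ (a : ℕ) = k - 2 ∨ (a : ℕ) = k + 1) →
          5 ≤ KK a := by
        intro h
        unfold KK
        rw [le_abs]
        omega
      by_cases c1 : (a : ℕ) = k - 1 ∨ (a : ℕ) = k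
      · have e : (if (a : ℕ) = k - 1 then (-16 : ℤ) else 0) + (if (a : ℕ) = k then (-16 : ℤ) else 0) +
          (if (a : ℕ) = k - 2 then (-8 : ℤ) else 0) + (if (a : ℕ) = k + 1 then (-8 : ℤ) else 0)
            ≤ -16 := by
          split_ifs <;> omega
        linarith
      · by_cases c2 : (a : ℕ) = k - 2 ∨ (a : ℕ) = k + 1
        · have e : (if (a : ℕ) = k - 1 then (-16 : ℤ) else 0) +
            (if (a : ℕ) = k then (-16 : ℤ) else 0) +
            (if (a : ℕ) = k - 2 then (-8 : ℤ) else 0) + (if (a : ℕ) = k + 1 then (-8 : ℤ) else 0)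
              ≤ -8 := by
            split_ifs <;> omega
          have := a2 (hK3 c1)
          have := b2 (hK3 c1)
          linarith
        · have e : (if (a : ℕ) = k - 1 then (-16 : ℤ) else 0) +
            (if (a : ℕ) = k then (-16 : ℤ) else 0) +
            (if (a : ℕ) = k - 2 then (-8 : ℤ) else 0) + (if (a : ℕ) = k + 1 then (-8 : ℤ) else 0)
              ≤ 0 := by
            split_ifs <;> omega
          have h5 : 5 ≤ KK a := hK5 (by tauto)
          have := a3 h5
          have := b3 h5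
          linarith
    have h1 := Finset.sum_le_sum (s := Finset.univ) (fun a _ => key a)
    rw [Finset.sum_add_distrib, Finset.sum_add_distrib, Finset.sum_add_distrib] at h1
    have s1 := sum_ind m (k - 1) (-16) (by norm_num)
    have s2 := sum_ind m k (-16) (by norm_num)
    have s3 := sum_ind m (k - 2) (-8) (by norm_num)
    have s4 := sum_ind m (k + 1) (-8) (by norm_num)
    linarith
  · -- odd
    have hm2 : m % 2 = 1 := by omega
    simp only [if_pos hm2]
    have key : ∀ a : Fin m,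
        (if (a : ℕ) = k - 1 then (-16 : ℤ) else 0) + (if (a : ℕ) = k then (-16 : ℤ) else 0) +
          (if (a : ℕ) = k + 1 then (-16 : ℤ) else 0) ≤
        U a ^ 2 + V a ^ 2 - 2 * |U a - V a| + 0 - (if a ∈ Z then (8 : ℤ) else 0) -
          (if a ∈ Z' then (8 : ℤ) else 0) := by
      intro a
      have hKo : (2 : ℤ) ∣ KK a := by
        unfold KK
        rw [dvd_abs]
        omega
      have hu : (2 : ℤ) ∣ U a := by
        have := hU a
        omega
      have hv : (2 : ℤ) ∣ V a := by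
        have := hV a
        omega
      obtain ⟨a1, a2⟩ := half_odd (U a) (KK a) ((m : ℤ) - 1) hM (a ∈ Z) hu (hKn a) hKo (hZ a)
      obtain ⟨b1, b2⟩ := half_odd (V a) (KK a) ((m : ℤ) - 1) hM (a ∈ Z') hv (hKn a) hKo (hZ' a)
      have h0 := habs a
      by_cases c1 : (a : ℕ) = k - 1 ∨ (a : ℕ) = k ∨ (a : ℕ) = k + 1
      · have e : (if (a : ℕ) = k - 1 then (-16 : ℤ) else 0) + (if (a : ℕ) = k then (-16 : ℤ) else 0) +
          (if (a : ℕ) = k + 1 then (-16 : ℤ) else 0) ≤ -16 := by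
          split_ifs <;> omega
        linarith
      · have e : (if (a : ℕ) = k - 1 then (-16 : ℤ) else 0) + (if (a : ℕ) = k then (-16 : ℤ) else 0) +
          (if (a : ℕ) = k + 1 then (-16 : ℤ) else 0) ≤ 0 := by
          split_ifs <;> omega
        have h4 : 4 ≤ KK a := by
          unfold KK
          rw [le_abs]
          omega
        have := a2 h4
        have := b2 h4
        linarith
    have h1 := Finset.sum_le_sum (s := Finset.univ) (fun a _ => key a)
    rw [Finset.sum_add_distrib, Finset.sum_add_distrib] at h1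
    have s1 := sum_ind m (k - 1) (-16) (by norm_num)
    have s2 := sum_ind m k (-16) (by norm_num)
    have s4 := sum_ind m (k + 1) (-16) (by norm_num)
    linarith

end Pool.Agent.Lib.MP_00ece3_co.EX
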