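import Pool.Agent.Lib.MP_00ece3_co.EX.SpecA

/-!
# Project EX: `S_ArEnds`
-/

set_option autoImplicit false

namespace Pool.Agent.Lib.MP_00ece3_co.EX

open Pool.Agent.Lib.MP_00ece3_co

namespace ArEndsAux

/-- The gain of one index. -/
private theorem gain_abs (x y : ℤ) :
    (|x| - 1) ^ 2 + (|y| - 1) ^ 2 ≤ x ^ 2 + y ^ 2 - 2 * |x - y| + 2 := by
  have h1 : |x - y| ≤ |x| + |y| := abs_sub x y
  have h2 := sq_abs x
  have h3 := sq_abs y
  nlinarith

private theorem odd_abs {x : ℤ} (h : ¬ (2 : ℤ) ∣ x) : 1 ≤ |x| ∧ ¬ (2 : ℤ) ∣ |x| := by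
  have h1 : ¬ (2 : ℤ) ∣ |x| := by rwa [dvd_abs]
  have h2 := abs_nonneg x
  omega

private theorem gain_nonneg {x : ℤ} (y : ℤ) (hx : ¬ (2 : ℤ) ∣ x) :
    2 * (|x| - 1) ≤ x ^ 2 + y ^ 2 - 2 * |x - y| + 2 := by
  have h1 := gain_abs x y
  obtain ⟨h2, h3⟩ := odd_abs hx
  have h4 : 2 * (|x| - 1) ≤ (|x| - 1) ^ 2 := by
    rcases (show |x| = 1 ∨ 3 ≤ |x| by omega) with h | h
    · rw [h]; norm_num
    · nlinarith
  have h5 := sq_nonneg (|y| - 1)
  linarith

private theorem gain_sum {x y : ℤ} (hx : ¬ (2 : ℤ) ∣ x) (hy : ¬ (2 : ℤ) ∣ y) :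
    2 * |x + y| ≤ x ^ 2 + y ^ 2 - 2 * |x - y| + 2 := by
  obtain ⟨s, hs⟩ : ∃ s, x + y = 2 * s := ⟨(x + y) / 2, by omega⟩
  obtain ⟨d, hd⟩ : ∃ d, x - y = 2 * d := ⟨(x - y) / 2, by omega⟩
  have h1 : x ^ 2 + y ^ 2 = 2 * (|s| ^ 2 + |d| ^ 2) := by
    rw [sq_abs, sq_abs, show x = s + d by omega, show y = s - d by omega]
    ring
  rw [hs, hd, abs_mul, abs_mul, h1, abs_two]
  have h2 := abs_nonneg s
  have h3 := abs_nonneg d
  have h4 : ¬ (|s| = 1 ∧ |d| = 1) := by
    rintro ⟨h5, h6⟩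
    rcases abs_eq (by norm_num : (0 : ℤ) ≤ 1) |>.1 h5 with h | h <;>
    rcases abs_eq (by norm_num : (0 : ℤ) ≤ 1) |>.1 h6 with h' | h' <;> omega
  have h7 : 1 ≤ (|s| - 1) ^ 2 + (|d| - 1) ^ 2 := by
    by_cases h8 : |s| = 1
    · have h9 : |d| ≠ 1 := fun h => h4 ⟨h8, h⟩
      have h10 : |d| - 1 ≠ 0 := by omega
      have h11 : 0 < (|d| - 1) ^ 2 := by positivity
      have h12 := sq_nonneg (|s| - 1)
      omega
    · have h10 : |s| - 1 ≠ 0 := by omega
      have h11 : 0 < (|s| - 1) ^ 2 := by positivity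
      have h12 := sq_nonneg (|d| - 1)
      omega
  nlinarith

end ArEndsAux

open ArEndsAux in
theorem tArEnds : S_ArEnds := by
  intro m hm hm12 U V Z Z' ε hε i0 i1 hi0 hi1 hU hV hZ hZ' hZZ a0 a0' a1 a1' hE hE'
  have hKodd : ∀ a : Fin m, 1 ≤ KK a ∧ ¬ (2 : ℤ) ∣ KK a := by
    intro a
    unfold KK
    exact odd_abs (by omega)
  set φ : Fin m → ℤ := fun a =>
    (if a ∈ Z then 4 else 0) + (if a ∈ Z' then 4 else 0) - (if KK a = 1 then 4 else 0) with hφ
  set g : Fin m → ℤ := fun a => U a ^ 2 + V a ^ 2 - 2 * |U a - V a| + 2 with hg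
  have hgsym : ∀ a, g a = V a ^ 2 + U a ^ 2 - 2 * |V a - U a| + 2 := by
    intro a
    simp only [hg]
    rw [abs_sub_comm]
    ring
  -- every index
  have h1 : ∀ a, φ a ≤ g a := by
    intro a
    obtain ⟨k1, k2⟩ := hKodd a
    have g1 := gain_abs (U a) (V a)
    obtain ⟨u1, u2⟩ := odd_abs (hU a)
    obtain ⟨v1, v2⟩ := odd_abs (hV a)
    have g2 : (|U a| - 1) ^ 2 + (|V a| - 1) ^ 2 ≤ g a := g1
    have s1 := sq_nonneg (|U a| - 1)
    have s2 := sq_nonneg (|V a| - 1)
    simp only [hφ]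
    by_cases c1 : a ∈ Z <;> by_cases c2 : a ∈ Z' <;> by_cases c3 : KK a = 1
    · rw [if_pos c1, if_pos c2, if_pos c3]
      have e1 := hZZ a c1 c2 (by omega)
      have e2 := hZ a c1
      rw [c3] at e2
      have e3 : U a ^ 2 = 1 := by rw [← sq_abs, e2]; norm_num
      have e4 : g a = 4 := by
        simp only [hg]
        rw [← e1, e3, sub_self, abs_zero]
        norm_num
      rw [e4]
      norm_num
    · rw [if_pos c1, if_pos c2, if_neg c3]
      have e2 := hZ a c1
      have e3 := hZ' a c2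
      have e4 : 3 ≤ KK a := by omega
      rw [e2, e3] at g2
      nlinarith
    · rw [if_pos c1, if_neg c2, if_pos c3]
      omega
    · rw [if_pos c1, if_neg c2, if_neg c3]
      have e2 := hZ a c1
      have e4 : 3 ≤ KK a := by omega
      rw [e2] at g2
      nlinarith
    · rw [if_neg c1, if_pos c2, if_pos c3]
      omega
    · rw [if_neg c1, if_pos c2, if_neg c3]
      have e2 := hZ' a c2
      have e4 : 3 ≤ KK a := by omega
      rw [e2] at g2
      nlinarith
    · rw [if_neg c1, if_neg c2, if_pos c3]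
      omega
    · rw [if_neg c1, if_neg c2, if_neg c3]
      omega
  -- the ends
  have hK0 : KK i0 ≠ 1 := by
    unfold KK
    rw [hi0]
    intro h
    rcases abs_eq (by norm_num : (0 : ℤ) ≤ 1) |>.1 h with h | h <;> push_cast at h <;> omega
  have hK1 : KK i1 ≠ 1 := by
    unfold KK
    rw [hi1]
    intro h
    rcases abs_eq (by norm_num : (0 : ℤ) ≤ 1) |>.1 h with h | h <;> omega
  have hφ0 : φ i0 = 0 := by
    simp only [hφ]
    rw [if_neg a0, if_neg a0', if_neg hK0]
    norm_num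
  have hφ1 : φ i1 = 0 := by
    simp only [hφ]
    rw [if_neg a1, if_neg a1', if_neg hK1]
    norm_num
  have hne : i0 ≠ i1 := by
    intro h
    rw [h, hi1] at hi0
    omega
  have hεabs : ∀ x : ℤ, ε * x ≤ |x| := by
    intro x
    rcases hε with h | h <;> rw [h]
    · rw [one_mul]; exact le_abs_self x
    · rw [neg_one_mul]; exact neg_le_abs x
  have hends : 4 * ((Z.card : ℤ) + Z'.card - 2) ≤ g i0 + g i1 := by
    have n0 := gain_nonneg (V i0) (hU i0)
    have n1 := gain_nonneg (V i1) (hU i1)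
    have n0' := gain_nonneg (U i0) (hV i0)
    have n1' := gain_nonneg (U i1) (hV i1)
    rw [← hgsym] at n0' n1'
    have n2 : 2 * (|U i0| - 1) ≤ g i0 := n0
    have n3 : 2 * (|U i1| - 1) ≤ g i1 := n1
    have o0 := (odd_abs (hU i0)).1
    have o1 := (odd_abs (hU i1)).1
    rcases Z.eq_empty_or_nonempty with z1 | z1 <;> rcases Z'.eq_empty_or_nonempty with z2 | z2
    · rw [z1, z2, Finset.card_empty]
      push_cast
      omega
    · have e1 := hE' z2
      have e2 := (hεabs (V i1 - V i0)).trans (abs_sub (V i1) (V i0))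
      rw [z1, Finset.card_empty]
      push_cast
      omega
    · have e1 := hE z1
      have e2 := (hεabs (U i1 - U i0)).trans (abs_sub (U i1) (U i0))
      rw [z2, Finset.card_empty]
      push_cast
      omega
    · have e1 := hE z1
      have e1' := hE' z2
      have e2 := (hεabs ((U i1 + V i1) - (U i0 + V i0))).trans (abs_sub (U i1 + V i1) (U i0 + V i0))
      have e3 : 2 * |U i0 + V i0| ≤ g i0 := gain_sum (hU i0) (hV i0)
      have e4 : 2 * |U i1 + V i1| ≤ g i1 := gain_sum (hU i1) (hV i1)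
      have e5 : ε * ((U i1 + V i1) - (U i0 + V i0)) =
          ε * (U i1 - U i0) + ε * (V i1 - V i0) := by ring
      omega
  -- the sums
  have hsum : g i0 + g i1 ≤ ∑ a, (g a - φ a) := by
    calc g i0 + g i1 = ∑ a ∈ ({i0, i1} : Finset (Fin m)), (g a - φ a) := by
          rw [Finset.sum_pair hne, hφ0, hφ1]
          ring
      _ ≤ ∑ a, (g a - φ a) := Finset.sum_le_sum_of_subset_of_nonneg (Finset.subset_univ _)
          fun a _ _ => sub_nonneg.2 (h1 a)
  have hφsum : ∑ a, φ a = 4 * (Z.card : ℤ) + 4 * Z'.card -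
      4 * (Finset.univ.filter fun a : Fin m => KK a = 1).card := by
    simp only [hφ]
    rw [Finset.sum_sub_distrib, Finset.sum_add_distrib]
    have e1 : ∀ S : Finset (Fin m), ∑ a, (if a ∈ S then (4 : ℤ) else 0) = 4 * (S.card : ℤ) := by
      intro S
      rw [Finset.sum_ite_mem, Finset.univ_inter, Finset.sum_const, nsmul_eq_mul, mul_comm]
    rw [e1, e1, ← Finset.sum_filter, Finset.sum_const, nsmul_eq_mul]
    ring
  have hcard : (Finset.univ.filter fun a : Fin m => KK a = 1).card ≤ 2 := by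
    have e1 : (Finset.univ.filter fun a : Fin m => KK a = 1).card ≤
        ({m / 2, m / 2 - 1} : Finset ℕ).card := by
      refine Finset.card_le_card_of_injOn (fun a => (a : ℕ)) ?_ ?_
      · intro a ha
        rw [Finset.mem_coe, Finset.mem_filter] at ha
        have h := ha.2
        unfold KK at h
        rw [Finset.mem_coe, Finset.mem_insert, Finset.mem_singleton]
        rcases abs_eq (by norm_num : (0 : ℤ) ≤ 1) |>.1 h with h | h <;> beta_reduce <;> omega
      · intro a _ b _ h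
        exact Fin.ext h
    exact e1.trans Finset.card_le_two
  rw [Finset.sum_sub_distrib, hφsum] at hsum
  have hcard' : ((Finset.univ.filter fun a : Fin m => KK a = 1).card : ℤ) ≤ 2 := by
    exact_mod_cast hcard
  have hgoal : ∑ a, (U a ^ 2 + V a ^ 2 - 2 * |U a - V a| + 2) = ∑ a, g a := rfl
  rw [hgoal]
  omega

end Pool.Agent.Lib.MP_00ece3_co.EX
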