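import Pool.Agent.Lib.MP_00ece3_co.EX.SpecA

/-! ArEven (helper59). -/

set_option autoImplicit false

namespace Pool.Agent.Lib.MP_00ece3_co.EX

open Pool.Agent.Lib.MP_00ece3_co

private theorem ArEven_card {m : ℕ} (k : ℤ) :
    (Finset.univ.filter fun a : Fin m => KK a = k).card ≤ 2 := by
  classical
  refine (Finset.card_le_card_of_injOn (fun a : Fin m => 2 * (a : ℤ) - ((m : ℤ) - 1))
    (t := {k, -k}) ?_ ?_).trans Finset.card_le_two
  · intro a ha
    have h1 : |2 * (a : ℤ) - ((m : ℤ) - 1)| = k := (Finset.mem_filter.1 ha).2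
    simp only [Finset.coe_insert, Finset.coe_singleton, Set.mem_insert_iff,
      Set.mem_singleton_iff]
    rcases abs_choice (2 * (a : ℤ) - ((m : ℤ) - 1)) with h2 | h2
    · left
      omega
    · right
      omega
  · intro a _ b _ h
    have h1 : 2 * (a : ℤ) - ((m : ℤ) - 1) = 2 * (b : ℤ) - ((m : ℤ) - 1) := h
    exact Fin.ext (by omega)

private theorem ArEven_loc (K U V : ℤ) (p q : Prop) [Decidable p] [Decidable q]
    (hK : K = 1 ∨ K = 3 ∨ 5 ≤ K) (hU : ¬ (2 : ℤ) ∣ U) (hV : ¬ (2 : ℤ) ∣ V)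
    (h1 : p → |U| = K) (h2 : q → |V| = K) (h3 : p → q → K ≤ 3 → U = V) :
    (if K = 1 then (-12 : ℤ) else 0) + (if K = 3 then (-4 : ℤ) else 0) ≤
      U ^ 2 + V ^ 2 - 2 * |U - V| + 2 - 8 * (if p then (1 : ℤ) else 0) -
        8 * (if q then (1 : ℤ) else 0) := by
  have hx : 1 ≤ |U| := by
    rcases abs_cases U with ⟨h, _⟩ | ⟨h, _⟩ <;> omega
  have hy : 1 ≤ |V| := by
    rcases abs_cases V with ⟨h, _⟩ | ⟨h, _⟩ <;> omega
  have hxy : |U - V| ≤ |U| + |V| := abs_sub U V
  have hx2 : |U| ^ 2 = U ^ 2 := sq_abs U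
  have hy2 : |V| ^ 2 = V ^ 2 := sq_abs V
  by_cases hp : p
  · rw [if_pos hp]
    by_cases hq : q
    · rw [if_pos hq]
      have e1 := h1 hp
      have e2 := h2 hq
      rcases hK with rfl | rfl | hK
      · have e3 := h3 hp hq (by norm_num)
        subst e3
        rw [sub_self, abs_zero, ← hx2, e1]
        norm_num
      · have e3 := h3 hp hq (by norm_num)
        subst e3
        rw [sub_self, abs_zero, ← hx2, e1]
        norm_num
      · rw [if_neg (by omega), if_neg (by omega), ← hx2, ← hy2, e1, e2]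
        rw [e1, e2] at hxy
        nlinarith
    · rw [if_neg hq]
      have e1 := h1 hp
      rw [← hx2, ← hy2, e1]
      rw [e1] at hxy
      rcases hK with rfl | rfl | hK
      · norm_num
        nlinarith [sq_nonneg (|V| - 1)]
      · norm_num
        nlinarith [sq_nonneg (|V| - 1)]
      · rw [if_neg (by omega), if_neg (by omega)]
        nlinarith [sq_nonneg (|V| - 1)]
  · rw [if_neg hp]
    by_cases hq : q
    · rw [if_pos hq]
      have e2 := h2 hq
      rw [← hx2, ← hy2, e2]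
      rw [e2] at hxy
      rcases hK with rfl | rfl | hK
      · norm_num
        nlinarith [sq_nonneg (|U| - 1)]
      · norm_num
        nlinarith [sq_nonneg (|U| - 1)]
      · rw [if_neg (by omega), if_neg (by omega)]
        nlinarith [sq_nonneg (|U| - 1)]
    · rw [if_neg hq, ← hx2, ← hy2]
      have h4 : (if K = 1 then (-12 : ℤ) else 0) + (if K = 3 then (-4 : ℤ) else 0) ≤ 0 := by
        split_ifs <;> norm_num
      nlinarith [sq_nonneg (|U| - 1), sq_nonneg (|V| - 1)]

theorem tArEven : S_ArEven := by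
  intro m hm U V Z Z' hU hV hZ hZ' hZZ
  classical
  have hK : ∀ a : Fin m, KK a = 1 ∨ KK a = 3 ∨ 5 ≤ KK a := by
    intro a
    unfold KK
    rcases abs_cases (2 * (a : ℤ) - ((m : ℤ) - 1)) with ⟨h, _⟩ | ⟨h, _⟩ <;> omega
  have hcard : ∀ S : Finset (Fin m), 8 * (S.card : ℤ) =
      ∑ a, 8 * (if a ∈ S then (1 : ℤ) else 0) := by
    intro S
    rw [← Finset.mul_sum, Finset.sum_ite_mem, Finset.univ_inter, Finset.sum_const, nsmul_eq_mul,
      mul_one]
  rw [hcard Z, hcard Z', ← Finset.sum_sub_distrib, ← Finset.sum_sub_distrib]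
  refine le_trans ?_ (Finset.sum_le_sum fun a _ => ArEven_loc (KK a) (U a) (V a) (a ∈ Z) (a ∈ Z')
    (hK a) (hU a) (hV a) (hZ a) (hZ' a) (hZZ a))
  rw [Finset.sum_add_distrib, ← Finset.sum_filter, ← Finset.sum_filter, Finset.sum_const,
    Finset.sum_const, nsmul_eq_mul, nsmul_eq_mul]
  have h1 := ArEven_card (m := m) 1
  have h3 := ArEven_card (m := m) 3
  have h1' : ((Finset.univ.filter fun a : Fin m => KK a = 1).card : ℤ) ≤ 2 := by exact_mod_cast h1
  have h3' : ((Finset.univ.filter fun a : Fin m => KK a = 3).card : ℤ) ≤ 2 := by exact_mod_cast h3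
  linarith

end Pool.Agent.Lib.MP_00ece3_co.EX
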