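import Pool.Agent.Lib.MP_00ece3_co.EX.SpecA

/-!
MP_00ece3_co, EX/ArOdd: the total gain for odd `m` (helper48).
-/

set_option autoImplicit false

namespace Pool.Agent.Lib.MP_00ece3_co.EX

open Pool.Agent.Lib.MP_00ece3_co

namespace ArOddAux

/-- the part of one hub -/
private theorem part_nonneg (x : ℤ) (h : (2 : ℤ) ∣ x) : 0 ≤ x ^ 2 - 2 * |x| := by
  obtain ⟨u, rfl⟩ := h
  have h1 : |2 * u| = 2 * |u| := by rw [abs_mul]; norm_num
  have h2 : (2 * u) ^ 2 = 4 * |u| ^ 2 := by rw [sq_abs]; ring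
  rw [h1, h2]
  rcases eq_or_lt_of_le (abs_nonneg u) with h3 | h3
  · rw [← h3]; norm_num
  · nlinarith

private theorem part_large (x : ℤ) (h : 4 ≤ |x|) : 8 ≤ x ^ 2 - 2 * |x| := by
  have h2 : x ^ 2 = |x| ^ 2 := (sq_abs x).symm
  rw [h2]
  nlinarith

/-- the gain of one point of the path -/
private theorem gain (m : ℕ) (hm : m % 2 = 1) (U V K : ℤ) (a : Fin m) (hK : K = KK a)
    (z z' : Prop) [Decidable z] [Decidable z']
    (hU : (2 : ℤ) ∣ U) (hV : (2 : ℤ) ∣ V) (hz : z → |U| = K) (hz' : z' → |V| = K)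
    (hzz : z → z' → K = 2 → U = V) :
    -((if 2 * (a : ℤ) = m - 1 then (16 : ℤ) else 0) + (if 2 * (a : ℤ) = m + 1 then (8 : ℤ) else 0) +
      (if 2 * (a : ℤ) = m - 3 then (8 : ℤ) else 0)) ≤
      U ^ 2 + V ^ 2 - 2 * |U - V| - 8 * (if z then (1 : ℤ) else 0) -
        8 * (if z' then (1 : ℤ) else 0) := by
  have h1 : |U - V| ≤ |U| + |V| := abs_sub U V
  have h2 := part_nonneg U hU
  have h3 := part_nonneg V hV
  have hz1 : 0 ≤ (if z then (1 : ℤ) else 0) ∧ (if z then (1 : ℤ) else 0) ≤ 1 := by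
    split_ifs <;> norm_num
  have hz2 : 0 ≤ (if z' then (1 : ℤ) else 0) ∧ (if z' then (1 : ℤ) else 0) ≤ 1 := by
    split_ifs <;> norm_num
  have e1 : 0 ≤ (if 2 * (a : ℤ) = m - 1 then (16 : ℤ) else 0) := by split_ifs <;> norm_num
  have e2 : 0 ≤ (if 2 * (a : ℤ) = m + 1 then (8 : ℤ) else 0) := by split_ifs <;> norm_num
  have e3 : 0 ≤ (if 2 * (a : ℤ) = m - 3 then (8 : ℤ) else 0) := by split_ifs <;> norm_num
  unfold KK at hK
  -- the three cases
  by_cases c0 : 2 * (a : ℤ) = m - 1
  · rw [if_pos c0]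
    linarith [hz1.2, hz2.2]
  · by_cases c2 : 2 * (a : ℤ) = m + 1 ∨ 2 * (a : ℤ) = m - 3
    · have hK2 : K = 2 := by
        rw [hK]
        rcases c2 with c | c
        · rw [c]
          have : (m : ℤ) + 1 - (m - 1) = 2 := by ring
          rw [this]; norm_num
        · rw [c]
          have : (m : ℤ) - 3 - (m - 1) = -2 := by ring
          rw [this]; norm_num
      have h8 : (8 : ℤ) ≤ (if 2 * (a : ℤ) = m + 1 then (8 : ℤ) else 0) +
          (if 2 * (a : ℤ) = m - 3 then (8 : ℤ) else 0) := by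
        rcases c2 with c | c
        · rw [if_pos c]; linarith
        · rw [if_pos c]; linarith
      by_cases hzt : z
      · by_cases hzt' : z'
        · have h4 := hzz hzt hzt' hK2
          have h5 : |V| = 2 := (hz' hzt').trans hK2
          have h6 : V ^ 2 = 4 := by rw [← sq_abs, h5]; norm_num
          rw [h4, sub_self, abs_zero, h6, if_pos hzt, if_pos hzt']
          linarith
        · rw [if_neg hzt', if_pos hzt]
          linarith
      · rw [if_neg hzt]
        linarith [hz2.2]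
    · have hK4 : 4 ≤ K := by
        rw [hK]
        rw [not_or] at c2
        obtain ⟨c3, c4⟩ := c2
        rcases le_or_gt (2 * (a : ℤ) - ((m : ℤ) - 1)) 0 with h | h
        · rw [abs_of_nonpos h]
          omega
        · rw [abs_of_pos h]
          omega
      have h4 : 8 * (if z then (1 : ℤ) else 0) ≤ U ^ 2 - 2 * |U| := by
        by_cases hzt : z
        · rw [if_pos hzt]
          have := part_large U (by rw [hz hzt]; exact hK4)
          linarith
        · rw [if_neg hzt]
          linarith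
      have h5 : 8 * (if z' then (1 : ℤ) else 0) ≤ V ^ 2 - 2 * |V| := by
        by_cases hzt : z'
        · rw [if_pos hzt]
          have := part_large V (by rw [hz' hzt]; exact hK4)
          linarith
        · rw [if_neg hzt]
          linarith
      linarith

/-- a function supported at one point -/
private theorem one_sum (m : ℕ) (t c : ℤ) (hc : 0 ≤ c) :
    ∑ a : Fin m, (if 2 * (a : ℤ) = t then c else 0) ≤ c := by
  rw [← Finset.sum_filter, Finset.sum_const, nsmul_eq_mul]
  have h : ((Finset.univ.filter (fun a : Fin m => 2 * (a : ℤ) = t)).card : ℤ) ≤ 1 := by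
    have h1 : (Finset.univ.filter (fun a : Fin m => 2 * (a : ℤ) = t)).card ≤ 1 := by
      rw [Finset.card_le_one]
      intro a ha b hb
      rw [Finset.mem_filter] at ha hb
      apply Fin.ext
      have h2 := ha.2
      have h3 := hb.2
      omega
    exact_mod_cast h1
  nlinarith

end ArOddAux

open ArOddAux in
theorem tArOdd : S_ArOdd := by
  classical
  intro m hm U V Z Z' hU hV hZ hZ' hZZ
  have key : ∀ a ∈ (Finset.univ : Finset (Fin m)), -((if 2 * (a : ℤ) = (m : ℤ) - 1 then (16 : ℤ) else 0) +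
      (if 2 * (a : ℤ) = (m : ℤ) + 1 then (8 : ℤ) else 0) +
      (if 2 * (a : ℤ) = (m : ℤ) - 3 then (8 : ℤ) else 0)) ≤
      U a ^ 2 + V a ^ 2 - 2 * |U a - V a| - 8 * (if a ∈ Z then (1 : ℤ) else 0) -
        8 * (if a ∈ Z' then (1 : ℤ) else 0) := fun a _ =>
    gain m hm (U a) (V a) (KK a) a rfl (a ∈ Z) (a ∈ Z') (hU a) (hV a) (hZ a) (hZ' a) (hZZ a)
  have h1 := Finset.sum_le_sum key
  rw [Finset.sum_neg_distrib, Finset.sum_add_distrib, Finset.sum_add_distrib,
    Finset.sum_sub_distrib, Finset.sum_sub_distrib, ← Finset.mul_sum, ← Finset.mul_sum] at h1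
  have hcard : ∀ S : Finset (Fin m), ∑ a : Fin m, (if a ∈ S then (1 : ℤ) else 0) = (S.card : ℤ) := by
    intro S
    rw [Finset.sum_ite_mem, Finset.univ_inter, Finset.sum_const, nsmul_eq_mul, mul_one]
  rw [hcard, hcard] at h1
  have h2 := one_sum m ((m : ℤ) - 1) 16 (by norm_num)
  have h3 := one_sum m ((m : ℤ) + 1) 8 (by norm_num)
  have h4 := one_sum m ((m : ℤ) - 3) 8 (by norm_num)
  linarith

end Pool.Agent.Lib.MP_00ece3_co.EX
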