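import Pool.Agent.Lib.MP_00ece3_co.EX.SpecA

/-!
# Project EX, module ArOne: crude lower bound for the gains with one extreme deviation
-/

set_option autoImplicit false

namespace Pool.Agent.Lib.MP_00ece3_co.EX

namespace ArOneAux

/-- the small indices -/
def small (m : ℕ) : Finset (Fin m) := Finset.univ.filter (fun a => KK a ≤ 3)

lemma small_card (m : ℕ) (hm : 12 ≤ m) : (small m).card ≤ 4 := by
  have h : (small m).card ≤ (Finset.Icc ((m - 3) / 2) ((m - 3) / 2 + 3)).card := by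
    refine Finset.card_le_card_of_injOn (fun a => (a : ℕ)) ?_ ?_
    · intro a ha
      have h1 : KK a ≤ 3 := (Finset.mem_filter.1 ha).2
      unfold KK at h1
      rw [abs_le] at h1
      obtain ⟨h2, h3⟩ := h1
      simp only [Finset.coe_Icc, Set.mem_Icc]
      omega
    · intro a _ b _ hab
      exact Fin.ext hab
  rw [Nat.card_Icc] at h
  omega

/-- one half of the gain -/
noncomputable def half (m : ℕ) (U : Fin m → ℤ) (Z : Finset (Fin m)) (a : Fin m) : ℤ :=
  U a ^ 2 - 2 * |U a| + (if m % 2 = 1 then 0 else 1) - (if a ∈ Z then 8 else 0)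

lemma base (m : ℕ) (x : ℤ) (hx : (2 : ℤ) ∣ x - ((m : ℤ) - 1)) :
    0 ≤ x ^ 2 - 2 * |x| + (if m % 2 = 1 then 0 else 1) := by
  rw [← sq_abs x]
  split_ifs with h
  · have h2 : (2 : ℤ) ∣ x := by omega
    obtain ⟨k, rfl⟩ := h2
    rw [abs_mul, abs_two]
    rcases (abs_nonneg k).eq_or_lt with h0 | h0
    · rw [← h0]
      norm_num
    · nlinarith
  · nlinarith [sq_nonneg (|x| - 1)]

lemma half_lower (m : ℕ) (hm : 12 ≤ m) (U : Fin m → ℤ) (Z : Finset (Fin m))
    (hU : ∀ a, (2 : ℤ) ∣ U a - ((m : ℤ) - 1))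
    (hZ : ∀ a ∈ Z, |U a| = KK a ∨ |U a| = (m : ℤ) - 1) (a : Fin m) :
    0 ≤ half m U Z a + (if a ∈ small m then 8 else 0) := by
  have hb := base m (U a) (hU a)
  unfold half
  by_cases haZ : a ∈ Z
  · by_cases has : a ∈ small m
    · rw [if_pos haZ, if_pos has]
      linarith
    · rw [if_pos haZ, if_neg has]
      have hK : 4 ≤ KK a := by
        by_contra hcon
        exact has (Finset.mem_filter.2 ⟨Finset.mem_univ _, by omega⟩)
      have hx : 4 ≤ |U a| := by
        rcases hZ a haZ with h | h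
        · omega
        · omega
      have h8 : 8 ≤ U a ^ 2 - 2 * |U a| := by
        rw [← sq_abs (U a)]
        nlinarith
      have h01 : (0 : ℤ) ≤ (if m % 2 = 1 then 0 else 1) := by split_ifs <;> norm_num
      linarith
  · rw [if_neg haZ]
    have h01 : (0 : ℤ) ≤ (if a ∈ small m then 8 else 0) := by split_ifs <;> norm_num
    linarith

lemma half_big (m : ℕ) (hm : 12 ≤ m) (U : Fin m → ℤ) (Z : Finset (Fin m)) (a : Fin m)
    (ha : |U a| = (m : ℤ) - 1) :
    91 ≤ half m U Z a + (if a ∈ small m then 8 else 0) := by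
  unfold half
  have h8 : 99 ≤ U a ^ 2 - 2 * |U a| := by
    rw [← sq_abs (U a), ha]
    have hm' : (12 : ℤ) ≤ m := by exact_mod_cast hm
    nlinarith
  have h01 : (0 : ℤ) ≤ (if m % 2 = 1 then 0 else 1) := by split_ifs <;> norm_num
  have h02 : (0 : ℤ) ≤ (if a ∈ small m then 8 else 0) := by split_ifs <;> norm_num
  have h03 : (if a ∈ Z then (8 : ℤ) else 0) ≤ 8 := by split_ifs <;> norm_num
  linarith

lemma sum_ind (m : ℕ) (Z : Finset (Fin m)) :
    ∑ a, (if a ∈ Z then (8 : ℤ) else 0) = 8 * (Z.card : ℤ) := by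
  rw [Finset.sum_ite_mem, Finset.univ_inter, Finset.sum_const, nsmul_eq_mul]
  ring

lemma sum_half (m : ℕ) (hm : 12 ≤ m) (U : Fin m → ℤ) (Z : Finset (Fin m))
    (hU : ∀ a, (2 : ℤ) ∣ U a - ((m : ℤ) - 1))
    (hZ : ∀ a ∈ Z, |U a| = KK a ∨ |U a| = (m : ℤ) - 1) :
    -32 ≤ ∑ a, half m U Z a ∧
      ((∃ a, |U a| = (m : ℤ) - 1) → 59 ≤ ∑ a, half m U Z a) := by
  have hc := small_card m hm
  have hc' : ((small m).card : ℤ) ≤ 4 := by exact_mod_cast hc
  have h1 : ∑ a, (half m U Z a + (if a ∈ small m then 8 else 0)) =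
      ∑ a, half m U Z a + 8 * ((small m).card : ℤ) := by
    rw [Finset.sum_add_distrib, sum_ind]
  have h0 : ∀ a ∈ (Finset.univ : Finset (Fin m)),
      0 ≤ half m U Z a + (if a ∈ small m then 8 else 0) :=
    fun a _ => half_lower m hm U Z hU hZ a
  constructor
  · have h2 := Finset.sum_nonneg h0
    rw [h1] at h2
    linarith
  · rintro ⟨a, ha⟩
    have h2 := Finset.single_le_sum h0 (Finset.mem_univ a)
    rw [h1] at h2
    have h3 := half_big m hm U Z a ha
    linarith

end ArOneAux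

open ArOneAux in
theorem tArOne : S_ArOne := by
  intro m hm U V Z Z' hU hV hZ hZ' hex
  obtain ⟨hu1, hu2⟩ := sum_half m hm U Z hU hZ
  obtain ⟨hv1, hv2⟩ := sum_half m hm V Z' hV hZ'
  have hsum : ∑ a, half m U Z a + ∑ a, half m V Z' a ≤
      ∑ a, (U a ^ 2 + V a ^ 2 - 2 * |U a - V a| + (if m % 2 = 1 then 0 else 2)) -
        8 * (Z.card : ℤ) - 8 * (Z'.card : ℤ) := by
    rw [← sum_ind m Z, ← sum_ind m Z', ← Finset.sum_add_distrib, ← Finset.sum_sub_distrib,
      ← Finset.sum_sub_distrib]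
    refine Finset.sum_le_sum fun a _ => ?_
    unfold half
    have habs : |U a - V a| ≤ |U a| + |V a| := abs_sub _ _
    have hif : (if m % 2 = 1 then (0 : ℤ) else 2) =
        (if m % 2 = 1 then 0 else 1) + (if m % 2 = 1 then 0 else 1) := by
      split_ifs <;> norm_num
    rw [hif]
    linarith
  obtain ⟨a, ha | ha⟩ := hex
  · have := hu2 ⟨a, ha⟩
    linarith
  · have := hv2 ⟨a, ha⟩
    linarith

end Pool.Agent.Lib.MP_00ece3_co.EX
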