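import Pool.Agent.Lib.MP_00ece3_co.EX.SpecD

/-!
# Concatenation of three lists (`S_Blk`)
-/

set_option autoImplicit false

namespace Pool.Agent.Lib.MP_00ece3_co.EX

open Pool.Agent.Lib.MP_00ece3_co

/-- **Blk**: concatenation of three lists. -/
theorem tBlk : S_Blk := by
  intro n a b c f g h X Y Z hf hg hh hXY hXZ hYZ
  classical
  have hfX : ∀ j, f j ∈ X := fun j => (hf.2 _).1 ⟨j, rfl⟩
  have hgY : ∀ j, g j ∈ Y := fun j => (hg.2 _).1 ⟨j, rfl⟩
  have hhZ : ∀ j, h j ∈ Z := fun j => (hh.2 _).1 ⟨j, rfl⟩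
  have dXY : ∀ x, x ∈ X → x ∈ Y → False := fun x h1 h2 => Finset.disjoint_left.1 hXY h1 h2
  have dXZ : ∀ x, x ∈ X → x ∈ Z → False := fun x h1 h2 => Finset.disjoint_left.1 hXZ h1 h2
  have dYZ : ∀ x, x ∈ Y → x ∈ Z → False := fun x h1 h2 => Finset.disjoint_left.1 hYZ h1 h2
  let r : Fin (a + b + c) → Fin n := fun i =>
    if h1 : (i : ℕ) < a then f ⟨i, h1⟩
    else if h2 : (i : ℕ) < a + b then g ⟨i - a, by omega⟩
    else h ⟨i - (a + b), by omega⟩
  have rA : ∀ (i : Fin (a + b + c)) (j : Fin a), (i : ℕ) = j → r i = f j := by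
    intro i j hij
    have h1 : (i : ℕ) < a := by omega
    have : r i = f ⟨i, h1⟩ := by simp [r, h1]
    rw [this]
    congr 1
    exact Fin.ext hij
  have rB : ∀ (i : Fin (a + b + c)) (j : Fin b), (i : ℕ) = a + j → r i = g j := by
    intro i j hij
    have h1 : ¬ (i : ℕ) < a := by omega
    have h2 : (i : ℕ) < a + b := by omega
    have : r i = g ⟨i - a, by omega⟩ := by simp [r, h1, h2]
    rw [this]
    congr 1
    apply Fin.ext
    show (i : ℕ) - a = j
    omega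
  have rC : ∀ (i : Fin (a + b + c)) (j : Fin c), (i : ℕ) = a + b + j → r i = h j := by
    intro i j hij
    have h1 : ¬ (i : ℕ) < a := by omega
    have h2 : ¬ (i : ℕ) < a + b := by omega
    have : r i = h ⟨i - (a + b), by omega⟩ := by simp [r, h1, h2]
    rw [this]
    congr 1
    apply Fin.ext
    show (i : ℕ) - (a + b) = j
    omega
  have cases3 : ∀ i : Fin (a + b + c), (∃ j : Fin a, (i : ℕ) = j) ∨ (∃ j : Fin b, (i : ℕ) = a + j) ∨
      (∃ j : Fin c, (i : ℕ) = a + b + j) := by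
    intro i
    by_cases h1 : (i : ℕ) < a
    · exact Or.inl ⟨⟨i, h1⟩, rfl⟩
    · by_cases h2 : (i : ℕ) < a + b
      · refine Or.inr (Or.inl ⟨⟨i - a, by omega⟩, ?_⟩)
        show (i : ℕ) = a + (i - a)
        omega
      · refine Or.inr (Or.inr ⟨⟨i - (a + b), by omega⟩, ?_⟩)
        show (i : ℕ) = a + b + (i - (a + b))
        omega
  refine ⟨r, ⟨?_, ?_⟩, ?_, rA, rB, rC⟩
  · intro i i' hii
    rcases cases3 i with ⟨j, hj⟩ | ⟨j, hj⟩ | ⟨j, hj⟩ <;>
    rcases cases3 i' with ⟨j', hj'⟩ | ⟨j', hj'⟩ | ⟨j', hj'⟩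
    · rw [rA i j hj, rA i' j' hj'] at hii
      have := hf.1 hii
      apply Fin.ext
      rw [hj, hj', this]
    · rw [rA i j hj, rB i' j' hj'] at hii
      exact (dXY _ (hfX j) (hii ▸ hgY j')).elim
    · rw [rA i j hj, rC i' j' hj'] at hii
      exact (dXZ _ (hfX j) (hii ▸ hhZ j')).elim
    · rw [rB i j hj, rA i' j' hj'] at hii
      exact (dXY _ (hfX j') (hii ▸ hgY j)).elim
    · rw [rB i j hj, rB i' j' hj'] at hii
      have := hg.1 hii
      apply Fin.ext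
      rw [hj, hj', this]
    · rw [rB i j hj, rC i' j' hj'] at hii
      exact (dYZ _ (hgY j) (hii ▸ hhZ j')).elim
    · rw [rC i j hj, rA i' j' hj'] at hii
      exact (dXZ _ (hfX j') (hii ▸ hhZ j)).elim
    · rw [rC i j hj, rB i' j' hj'] at hii
      exact (dYZ _ (hgY j') (hii ▸ hhZ j)).elim
    · rw [rC i j hj, rC i' j' hj'] at hii
      have := hh.1 hii
      apply Fin.ext
      rw [hj, hj', this]
  · intro x
    constructor
    · rintro ⟨i, rfl⟩
      rw [Finset.mem_union, Finset.mem_union]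
      rcases cases3 i with ⟨j, hj⟩ | ⟨j, hj⟩ | ⟨j, hj⟩
      · rw [rA i j hj]; exact Or.inl (Or.inl (hfX j))
      · rw [rB i j hj]; exact Or.inl (Or.inr (hgY j))
      · rw [rC i j hj]; exact Or.inr (hhZ j)
    · intro hx
      rw [Finset.mem_union, Finset.mem_union] at hx
      rcases hx with (hx | hx) | hx
      · obtain ⟨j, hj⟩ := (hf.2 x).2 hx
        refine ⟨⟨j, by omega⟩, ?_⟩
        rw [rA _ j rfl, hj]
      · obtain ⟨j, hj⟩ := (hg.2 x).2 hx
        refine ⟨⟨a + j, by omega⟩, ?_⟩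
        rw [rB _ j rfl, hj]
      · obtain ⟨j, hj⟩ := (hh.2 x).2 hx
        refine ⟨⟨a + b + j, by omega⟩, ?_⟩
        rw [rC _ j rfl, hj]
  · intro i
    rcases cases3 i with ⟨j, hj⟩ | ⟨j, hj⟩ | ⟨j, hj⟩
    · rw [rA i j hj]
      have hX := hfX j
      refine ⟨⟨fun _ => by omega, fun _ => hX⟩, ⟨fun hY => (dXY _ hX hY).elim, fun hY => by omega⟩,
        ⟨fun hZ => (dXZ _ hX hZ).elim, fun hZ => by omega⟩⟩
    · rw [rB i j hj]
      have hY := hgY j
      refine ⟨⟨fun hX => (dXY _ hX hY).elim, fun hX => by omega⟩, ⟨fun _ => by omega, fun _ => hY⟩,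
        ⟨fun hZ => (dYZ _ hY hZ).elim, fun hZ => by omega⟩⟩
    · rw [rC i j hj]
      have hZ := hhZ j
      refine ⟨⟨fun hX => (dXZ _ hX hZ).elim, fun hX => by omega⟩,
        ⟨fun hY => (dYZ _ hY hZ).elim, fun hY => by omega⟩, ⟨fun _ => by omega, fun _ => hZ⟩⟩

end Pool.Agent.Lib.MP_00ece3_co.EX
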