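import Pool.Agent.Lib.MP_00ece3_co.EX.SpecD
import Pool.Agent.Lib.MP_00ece3_co.Fragment
import Pool.Agent.Lib.MP_00ece3_co.Sep

/-!
# Project EX, part D: CI (a vertex of intermediate degree)
-/

set_option autoImplicit false

namespace Pool.Agent.Lib.MP_00ece3_co.EX

open Pool.Agent.Lib.MP_00ece3_co

namespace CIAux

/-- The final estimate. -/
theorem arith (O z a N : ℝ) (hN : 10 ^ 22 ≤ N) (ha : N / 60000 ≤ a)
    (hz : z ≤ 1668 * (N / 10 ^ 20))
    (h : 8 * O + 8 * a * a ^ 2 ≤ 2 * N ^ 3 + 404 * z * N ^ 2 + 16 * N ^ 2) :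
    O ≤ (1 / 4 - 1 / 10 ^ 20 / 2) * N ^ 3 := by
  have hN0 : 0 ≤ N := le_trans (by positivity) hN
  have h1 : (N / 60000) ^ 3 ≤ a ^ 3 := pow_le_pow_left₀ (by positivity) ha 3
  have h2 : z * N ^ 2 ≤ 1668 * (N / 10 ^ 20) * N ^ 2 :=
    mul_le_mul_of_nonneg_right hz (by positivity)
  have h3 : 10 ^ 22 * N ^ 2 ≤ N * N ^ 2 := mul_le_mul_of_nonneg_right hN (by positivity)
  have h4 : N * N ^ 2 = N ^ 3 := by ring
  have h5 : 1668 * (N / 10 ^ 20) * N ^ 2 = 1668 / 10 ^ 20 * N ^ 3 := by ring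
  have h6 : (N / 60000) ^ 3 = 1 / 60000 ^ 3 * N ^ 3 := by ring
  have h7 : 8 * a * a ^ 2 = 8 * a ^ 3 := by ring
  have h8 : 404 * z * N ^ 2 = 404 * (z * N ^ 2) := by ring
  rw [h4] at h3
  rw [h5] at h2
  rw [h6] at h1
  rw [h7, h8] at h
  have hX : 0 ≤ N ^ 3 := by positivity
  norm_num at h1 h2 h3 h hX ⊢
  linarith

end CIAux

theorem tCI (hCI0 : S_CI0) (hSep : S_Sep) (hFew : S_Few) (hT0R : S_T0R) : S_CI := by
  obtain ⟨n1, h1⟩ := hT0R (1 / 10 ^ 20) (by positivity) (by norm_num)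
  obtain ⟨n2, h2⟩ := fragment separator (1 / 10 ^ 20) (by positivity)
  refine ⟨1 / 10 ^ 20 / 2, by positivity, max n1 (max n2 (10 ^ 22)), fun n hn G hG hc => ?_⟩
  obtain ⟨c, hc1, hc2⟩ := hc
  have hn1 : n1 ≤ n := (le_max_left _ _).trans hn
  have hn2 : n2 ≤ n := ((le_max_left _ _).trans (le_max_right _ _)).trans hn
  have hn3 : 10 ^ 22 ≤ n := ((le_max_right _ _).trans (le_max_right _ _)).trans hn
  have hN : (10 : ℝ) ^ 22 ≤ n := by exact_mod_cast hn3
  obtain ⟨S0, hS0, hC0⟩ := h2 (Fin n) G hG.1 (by simpa using hn2)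
  rw [Fintype.card_fin] at hS0 hC0
  set t : ℝ := (n : ℝ) / 10 ^ 20 with ht
  have ht1 : 100 ≤ t := by
    rw [ht, le_div_iff₀ (by positivity)]
    norm_num at hN ⊢
    exact hN
  have htn : (1 / 10 ^ 20 : ℝ) * n = t := by
    rw [ht]
    ring
  rw [htn] at hS0 hC0
  set S : Finset (Fin n) := insert c S0 with hS
  have hcS : c ∈ S := Finset.mem_insert_self _ _
  have hScard : (S.card : ℝ) ≤ t + 1 := by
    have h3 : S.card ≤ S0.card + 1 := Finset.card_insert_le _ _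
    have h4 : (S.card : ℝ) ≤ S0.card + 1 := by exact_mod_cast h3
    linarith
  have hS0S : S0 ⊆ S := Finset.subset_insert _ _
  have hconn : ∀ C : Finset (Fin n), Disjoint C S →
      (G.induce (C : Set (Fin n))).Connected → (C.card : ℝ) ≤ t :=
    fun C h3 h4 => hC0 C (Finset.disjoint_of_subset_right hS0S h3) h4
  have hn0 : (n : ℝ) = 10 ^ 20 * t := by
    rw [ht]
    field_simp
  by_cases hcase : (eO G S Sᶜ : ℝ) ≤ (2 - 200 * (1 / 10 ^ 20)) * n
  · refine h1 n hn1 G hG S ?_ ?_ hcase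
    · have h3 : 2 * (1 / 10 ^ 20 : ℝ) * n = 2 * t := by
        rw [mul_assoc, htn]
      rw [h3]
      linarith
    · intro C h3 h4
      rw [htn]
      exact hconn C h3 h4
  · rw [not_le] at hcase
    have hfew : (eO G S Sᶜ : ℝ) + (low G S).card ≤ 2 * Sᶜ.card + 244 * S.card := by
      exact_mod_cast hFew n G hG S
    have hSc : (Sᶜ.card : ℝ) ≤ n := by
      have h3 := Finset.card_le_univ Sᶜ
      rw [Fintype.card_fin] at h3
      exact_mod_cast h3
    have hlow : ((low G S).card : ℝ) ≤ 444 * t + 244 := by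
      have h3 : (2 - 200 * (1 / 10 ^ 20)) * (n : ℝ) = 2 * n - 200 * t := by
        rw [ht]
        ring
      rw [h3] at hcase
      linarith
    obtain ⟨Z1, hSZ, hZ1, hsep⟩ := hSep n G hG S {c} (Finset.singleton_subset_iff.mpr hcS)
    have hZ1R : (Z1.card : ℝ) ≤ 489 * S.card + (low G S).card := by exact_mod_cast hZ1
    set D : ℕ := ⌊t⌋₊ with hD
    have hDt : (D : ℝ) ≤ t := Nat.floor_le (by linarith)
    have hCb : Cb G Z1 D := by
      intro C h3 h4
      exact Nat.le_floor (hconn C (Finset.disjoint_of_subset_right hSZ h3) h4)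
    set z : ℕ := Z1.card + D + 1 with hz
    have hzR : (z : ℝ) ≤ 1668 * t := by
      rw [hz]
      push_cast
      linarith
    have hzn : 10 ^ 16 * z ≤ n := by
      have h3 : (10 : ℝ) ^ 16 * z ≤ n := by
        rw [hn0]
        norm_num
        linarith
      exact_mod_cast h3
    have hprop : ∀ a b, a ∉ Z1 → b ∉ Z1 → G.Adj c a → ¬ G.Adj c b → ¬ G.Adj a b := by
      intro a b ha hb hca hcb
      refine hsep a b ha hb ⟨c, Finset.mem_singleton_self c, hca⟩ ?_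
      intro s hs
      rw [Finset.mem_singleton] at hs
      rw [hs]
      exact hcb
    have hmain := hCI0 n G hG c Z1 D (n / 50000) (n / 50000) (hSZ hcS) hCb hprop
      (by rw [← hz]; omega) (by rw [← hz]; omega) (by rw [← hz]; omega)
    rw [← hz] at hmain
    have hmainR : 8 * (OCN G : ℝ) + 8 * ((n / 50000 : ℕ) : ℝ) * ((n / 50000 : ℕ) : ℝ) ^ 2 ≤
        2 * (n : ℝ) ^ 3 + 404 * (z : ℝ) * (n : ℝ) ^ 2 + 16 * (n : ℝ) ^ 2 := by
      exact_mod_cast hmain
    have ha : (n : ℝ) / 60000 ≤ ((n / 50000 : ℕ) : ℝ) := by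
      have h3 : n ≤ 60000 * (n / 50000) := by omega
      have h4 : (n : ℝ) ≤ 60000 * ((n / 50000 : ℕ) : ℝ) := by exact_mod_cast h3
      rw [div_le_iff₀ (by norm_num)]
      linarith
    exact CIAux.arith _ _ _ _ hN ha (by rw [← ht]; exact hzR) hmainR

end Pool.Agent.Lib.MP_00ece3_co.EX
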