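import Pool.Agent.Lib.MP_00ece3_co.EX.SpecD
import Pool.Agent.Lib.MP_00ece3_co.Upper

/-!
# Project EX, CI1: upper bound for the orchard crossing number, one hub
-/

set_option autoImplicit false

namespace Pool.Agent.Lib.MP_00ece3_co.EX

open Pool.Agent.Lib.MP_00ece3_co

namespace CI1Aux

open Classical in
theorem key {n : ℕ} (G : SimpleGraph (Fin n)) (w : Fin n → Fin n → ℕ) (P Q : Finset (Fin n))
    (K : ℕ) (hK : ∀ x ∈ P, ∀ y ∈ Q, G.Adj x y → w x y ≤ K) :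
    (∑ x ∈ P, ∑ y ∈ Q, if G.Adj x y then w x y else 0) ≤ eO G P Q * K := by
  unfold eO
  rw [← Finset.sum_product', ← smul_eq_mul, ← Finset.sum_const, Finset.sum_filter]
  refine Finset.sum_le_sum fun e he => ?_
  rw [Finset.mem_product] at he
  by_cases hadj : G.Adj e.1 e.2
  · rw [if_pos hadj, if_pos hadj]
    exact hK _ he.1 _ he.2 hadj
  · rw [if_neg hadj, if_neg hadj]

open Classical in
theorem eO_sum {n : ℕ} (G : SimpleGraph (Fin n)) (P Q : Finset (Fin n)) :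
    eO G P Q = ∑ x ∈ P, ∑ y ∈ Q, if G.Adj x y then 1 else 0 := by
  unfold eO
  rw [← Finset.sum_product', Finset.card_filter]

open Classical in
theorem split {n : ℕ} (G : SimpleGraph (Fin n)) (w : Fin n → Fin n → ℕ)
    (hw : ∀ x y, w x y = w y x) (S : Finset (Fin n)) :
    (∑ x : Fin n, ∑ y : Fin n, if G.Adj x y then w x y else 0) =
      (∑ x ∈ S, ∑ y ∈ S, if G.Adj x y then w x y else 0) +
      2 * (∑ x ∈ S, ∑ y ∈ Sᶜ, if G.Adj x y then w x y else 0) +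
      (∑ x ∈ Sᶜ, ∑ y ∈ Sᶜ, if G.Adj x y then w x y else 0) := by
  have hsplit : ∀ f : Fin n → ℕ, ∑ x, f x = ∑ x ∈ S, f x + ∑ x ∈ Sᶜ, f x := fun f =>
    (Finset.sum_add_sum_compl S f).symm
  rw [hsplit]
  have h1 : ∀ P : Finset (Fin n), (∑ x ∈ P, ∑ y : Fin n, if G.Adj x y then w x y else 0) =
      (∑ x ∈ P, ∑ y ∈ S, if G.Adj x y then w x y else 0) +
      (∑ x ∈ P, ∑ y ∈ Sᶜ, if G.Adj x y then w x y else 0) := by
    intro P
    rw [← Finset.sum_add_distrib]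
    exact Finset.sum_congr rfl fun x _ => hsplit _
  rw [h1 S, h1 Sᶜ]
  have h2 : (∑ x ∈ Sᶜ, ∑ y ∈ S, if G.Adj x y then w x y else 0) =
      (∑ x ∈ S, ∑ y ∈ Sᶜ, if G.Adj x y then w x y else 0) := by
    rw [Finset.sum_comm]
    refine Finset.sum_congr rfl fun x _ => Finset.sum_congr rfl fun y _ => ?_
    rw [hw y x, G.adj_comm y x]
  rw [h2]
  ring

/-- Sums over the neighbours of `c` outside `Z`. -/
theorem sum_c {n : ℕ} (G : SimpleGraph (Fin n)) (c : Fin n) (T : Finset (Fin n))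
    (q a0 b0 : ℕ) (r : Fin (2 * q + 1) → Fin n) (hr : Ls r T) (hb : b0 ≤ 2 * q + 1)
    (hA : ∀ i, G.Adj c (r i) ↔ a0 ≤ (i : ℕ) ∧ (i : ℕ) < b0) (F : Fin n → ℕ) (f : ℕ → ℕ)
    (hF : ∀ i, G.Adj c (r i) → F (r i) ≤ f i) :
    (open Classical in ∑ y ∈ T, if G.Adj c y then F y else 0) ≤ ∑ i ∈ Finset.Ico a0 b0, f i := by
  classical
  have hT : T = Finset.univ.image r := by
    ext x
    rw [Finset.mem_image, ← hr.2 x]
    simp
  have h1 : (∑ y ∈ T, if G.Adj c y then F y else 0) =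
      ∑ i : Fin (2 * q + 1), if G.Adj c (r i) then F (r i) else 0 := by
    rw [hT, Finset.sum_image fun a _ b _ h => hr.1 h]
  have h2 : (∑ i : Fin (2 * q + 1), if G.Adj c (r i) then F (r i) else 0) ≤
      ∑ i : Fin (2 * q + 1), if a0 ≤ (i : ℕ) ∧ (i : ℕ) < b0 then f i else 0 := by
    refine Finset.sum_le_sum fun i _ => ?_
    by_cases h : G.Adj c (r i)
    · rw [if_pos h, if_pos ((hA i).1 h)]
      exact hF i h
    · rw [if_neg h]
      exact Nat.zero_le _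
  have h3 : (∑ i : Fin (2 * q + 1), if a0 ≤ (i : ℕ) ∧ (i : ℕ) < b0 then f i else 0) =
      ∑ i ∈ Finset.Ico a0 b0, f i := by
    rw [Fin.sum_univ_eq_sum_range (fun i => if a0 ≤ i ∧ i < b0 then f i else 0) (2 * q + 1),
      ← Finset.sum_filter]
    refine Finset.sum_congr ?_ fun _ _ => rfl
    ext i
    rw [Finset.mem_filter, Finset.mem_range, Finset.mem_Ico]
    constructor
    · exact fun h => h.2
    · exact fun h => ⟨by omega, h⟩
  rw [← h3]
  convert h1.trans_le h2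

theorem card_c {n : ℕ} (G : SimpleGraph (Fin n)) (c : Fin n) (T : Finset (Fin n))
    (q a0 b0 : ℕ) (r : Fin (2 * q + 1) → Fin n) (hr : Ls r T) (hb : b0 ≤ 2 * q + 1)
    (hA : ∀ i, G.Adj c (r i) ↔ a0 ≤ (i : ℕ) ∧ (i : ℕ) < b0) :
    b0 - a0 ≤ eO G {c} T := by
  classical
  have h1 : (Finset.Ico a0 b0).card ≤ ((({c} : Finset (Fin n)) ×ˢ T).filter
      (fun e => G.Adj e.1 e.2)).card := by
    refine Finset.card_le_card_of_injOn
      (fun i => (c, if h : i < 2 * q + 1 then r ⟨i, h⟩ else c)) ?_ ?_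
    · intro i hi
      rw [Finset.coe_Ico, Set.mem_Ico] at hi
      have h : i < 2 * q + 1 := by omega
      simp only [Finset.coe_filter, Finset.mem_product, Finset.mem_singleton, Set.mem_ofPred_eq,
        true_and]
      rw [dif_pos h]
      exact ⟨(hr.2 _).1 ⟨_, rfl⟩, (hA _).2 hi⟩
    · intro i hi j hj hij
      rw [Finset.coe_Ico, Set.mem_Ico] at hi hj
      have h : i < 2 * q + 1 := by omega
      have h' : j < 2 * q + 1 := by omega
      simp only [Prod.mk.injEq, true_and] at hij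
      rw [dif_pos h, dif_pos h'] at hij
      have := hr.1 hij
      simpa using this
  rw [Nat.card_Ico] at h1
  unfold eO
  convert h1

theorem exE {n q M : ℕ} (c : Fin n) (Z : Finset (Fin n)) (r : Fin (2 * q + 1) → Fin n)
    (hc : c ∈ Z) (hr : Ls r Zᶜ) (hM : Z.card = M + 1) :
    ∃ E : Fin (2 * q + 2) ⊕ Fin M ≃ Fin n,
      (∀ (i : Fin (2 * q + 2)) (h : (i : ℕ) < 2 * q + 1), E (Sum.inl i) = r ⟨i, h⟩) ∧
      (∀ i : Fin (2 * q + 2), (i : ℕ) = 2 * q + 1 → E (Sum.inl i) = c) ∧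
      (∀ x ∈ Z, x ≠ c → ∃ s, x = E (Sum.inr s)) := by
  have hcard : (Z.erase c).card = M := by
    rw [Finset.card_erase_of_mem hc, hM]
    rfl
  let e2 : Fin M ≃ {x // x ∈ Z.erase c} := ((Z.erase c).equivFinOfCardEq hcard).symm
  have hrZ : ∀ i, r i ∉ Z := fun i => Finset.mem_compl.1 ((hr.2 _).1 ⟨i, rfl⟩)
  have he2 : ∀ s, (e2 s : Fin n) ≠ c ∧ (e2 s : Fin n) ∈ Z := fun s =>
    Finset.mem_erase.1 (e2 s).2
  let f : Fin (2 * q + 2) ⊕ Fin M → Fin n :=
    Sum.elim (fun i => if h : (i : ℕ) < 2 * q + 1 then r ⟨i, h⟩ else c) (fun s => (e2 s : Fin n))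
  have f1 : ∀ (i : Fin (2 * q + 2)) (h : (i : ℕ) < 2 * q + 1), f (Sum.inl i) = r ⟨i, h⟩ :=
    fun i h => dif_pos h
  have f2 : ∀ (i : Fin (2 * q + 2)), ¬ (i : ℕ) < 2 * q + 1 → f (Sum.inl i) = c :=
    fun i h => dif_neg h
  have f3 : ∀ s, f (Sum.inr s) = e2 s := fun s => rfl
  have hinj : Function.Injective f := by
    rintro (i | s) (j | t) h
    · by_cases hi : (i : ℕ) < 2 * q + 1
      · by_cases hj : (j : ℕ) < 2 * q + 1
        · rw [f1 i hi, f1 j hj] at h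
          have := hr.1 h
          rw [Fin.mk.injEq] at this
          rw [Fin.ext this]
        · rw [f1 i hi, f2 j hj] at h
          exact absurd (h ▸ hc) (hrZ _)
      · by_cases hj : (j : ℕ) < 2 * q + 1
        · rw [f2 i hi, f1 j hj] at h
          exact absurd (h ▸ hc) (hrZ _)
        · have : i = j := Fin.ext (by omega)
          rw [this]
    · by_cases hi : (i : ℕ) < 2 * q + 1
      · rw [f1 i hi, f3] at h
        exact absurd (h ▸ (he2 t).2) (hrZ _)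
      · rw [f2 i hi, f3] at h
        exact absurd h.symm (he2 t).1
    · by_cases hj : (j : ℕ) < 2 * q + 1
      · rw [f1 j hj, f3] at h
        exact absurd (h ▸ (he2 s).2) (hrZ _)
      · rw [f2 j hj, f3] at h
        exact absurd h (he2 s).1
    · rw [f3, f3] at h
      rw [e2.injective (Subtype.ext h)]
  have hsurj : Function.Surjective f := by
    intro x
    by_cases hx : x ∈ Z
    · by_cases hxc : x = c
      · exact ⟨Sum.inl ⟨2 * q + 1, by omega⟩, by rw [f2 _ (by simp), hxc]⟩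
      · refine ⟨Sum.inr (e2.symm ⟨x, Finset.mem_erase.2 ⟨hxc, hx⟩⟩), ?_⟩
        rw [f3, Equiv.apply_symm_apply]
    · obtain ⟨i, hi⟩ := (hr.2 x).2 (Finset.mem_compl.2 hx)
      exact ⟨Sum.inl ⟨i, by omega⟩, by rw [f1 _ i.2, ← hi]⟩
  refine ⟨Equiv.ofBijective f ⟨hinj, hsurj⟩, f1, fun i h => f2 i (by omega), fun x hx hxc => ?_⟩
  refine ⟨e2.symm ⟨x, Finset.mem_erase.2 ⟨hxc, hx⟩⟩, ?_⟩
  change x = (e2 (e2.symm ⟨x, _⟩) : Fin n)
  rw [Equiv.apply_symm_apply]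

end CI1Aux

open CI1Aux in
theorem tCI1 (hTwo : S_Two) (hReg : S_Reg) (hEA : S_EA) (hEB : S_EB) : S_CI1 := by
  intro n G hG c Z q a0 b0 D k1 r hc hk1 hr hab hb hA hD
  obtain ⟨M, hM⟩ : ∃ M, Z.card = M + 1 :=
    ⟨Z.card - 1, by have := Finset.card_pos.2 ⟨c, hc⟩; omega⟩
  obtain ⟨P, hP, hP1, hP2, hP3⟩ := hTwo q k1 M hk1
  obtain ⟨E, hE1, hE2, hE3⟩ := exE c Z r hc hr hM
  have hn : 2 * q + 2 + M = n := by
    have h := Fintype.card_congr E
    rw [Fintype.card_sum, Fintype.card_fin, Fintype.card_fin, Fintype.card_fin] at h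
    exact h
  rw [hn, ← hM] at hP1 hP2 hP3
  set z := Z.card with hz
  have hp : IsPlacement (P ∘ E.symm) := Upper.isPlacement_comp P E hP
  set p : Fin n → ℝ × ℝ := P ∘ E.symm with hpdef
  have hsep : ∀ x y, sepCount p (E x) (E y) = sepCount P x y := fun x y =>
    Upper.sepCount_comp P E x y
  have hOCN : OCN G ≤ crossings G p := Nat.sInf_le ⟨p, hp, rfl⟩
  have hw : ∀ x y, sepCount p x y = sepCount p y x := fun x y => Upper.sepCount_comm p x y
  have hout : ∀ x ∉ Z, ∃ i : Fin (2 * q + 1), x = r i := by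
    intro x hx
    obtain ⟨i, hi⟩ := (hr.2 x).2 (Finset.mem_compl.2 hx)
    exact ⟨i, hi.symm⟩
  have hEr : ∀ i : Fin (2 * q + 1), r i = E (Sum.inl ⟨i, by omega⟩) := fun i =>
    (hE1 ⟨i, by omega⟩ i.2).symm
  have hEc : c = E (Sum.inl ⟨2 * q + 1, by omega⟩) := (hE2 _ rfl).symm
  -- costs
  have cA : ∀ x ∈ Z, ∀ y ∈ Z, G.Adj x y → sepCount p x y ≤ n ^ 2 := by
    intro x _ y _ _
    have h := Upper.sepCount_le p x y
    rw [Fintype.card_fin] at h
    rw [pow_two]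
    exact h
  have cB : ∀ x ∈ Z.erase c, ∀ y ∈ Zᶜ, G.Adj x y → 2 * sepCount p x y ≤ q ^ 2 + 2 * (z * n) := by
    intro x hx y hy _
    obtain ⟨hxc, hxZ⟩ := Finset.mem_erase.1 hx
    obtain ⟨s, rfl⟩ := hE3 x hxZ hxc
    obtain ⟨i, rfl⟩ := hout y (Finset.mem_compl.1 hy)
    rw [hEr, hsep]
    have h1 := hP1 ⟨i, by omega⟩ s i.2
    have h2 := hReg q i i.2
    have h3 : q ^ 2 = q * q := pow_two q
    dsimp only at h1
    omega
  have cC : ∀ x ∈ Zᶜ, ∀ y ∈ Zᶜ, G.Adj x y → sepCount p x y ≤ (D + z) * n := by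
    have hC0 : ∀ i j : Fin (2 * q + 1), i < j → G.Adj (r i) (r j) →
        sepCount p (r i) (r j) ≤ (D + z) * n := by
      intro i j hij hadj
      have h3 := hD i j hij hadj
      rw [hEr, hEr, hsep]
      have h := hP3 ⟨i, by omega⟩ ⟨j, by omega⟩ hij j.2
      dsimp only at h
      refine h.trans ?_
      rw [add_mul]
      exact Nat.add_le_add_right (Nat.mul_le_mul_right n (by omega)) _
    intro x hx y hy hadj
    obtain ⟨i, rfl⟩ := hout x (Finset.mem_compl.1 hx)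
    obtain ⟨j, rfl⟩ := hout y (Finset.mem_compl.1 hy)
    rcases lt_trichotomy i j with h | h | h
    · exact hC0 i j h hadj
    · subst h
      exact absurd rfl hadj.ne
    · rw [hw]
      exact hC0 j i h hadj.symm
  have cD : ∀ i, G.Adj c (r i) → sepCount p c (r i) ≤ Cnt q k1 i + z * n := by
    intro i _
    rw [hEr, hEc, hsep]
    exact hP2 ⟨i, by omega⟩ ⟨2 * q + 1, by omega⟩ i.2 rfl
  -- sums
  classical
  have hsplit := split G (fun x y => sepCount p x y) hw Z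
  have h2c := Upper.two_mul_crossings G p
  have s1 := key G (fun x y => sepCount p x y) Z Z (n ^ 2) cA
  have s3 := key G (fun x y => sepCount p x y) Zᶜ Zᶜ ((D + z) * n) cC
  have s2 := key G (fun x y => 2 * sepCount p x y) (Z.erase c) Zᶜ (q ^ 2 + 2 * (z * n)) cB
  have s4 := sum_c G c Zᶜ q a0 b0 r hr hb hA (fun y => sepCount p c y)
    (fun i => Cnt q k1 i + z * n) cD
  have s5 := card_c G c Zᶜ q a0 b0 r hr hb hA
  obtain ⟨e1, e2, e3⟩ := hEB n G hG
  have e1' : eO G Z Z ≤ 8 * z := e1 Z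
  have t1 := s1.trans (Nat.mul_le_mul_right (n ^ 2) e1')
  have t3 := s3.trans (Nat.mul_le_mul_right ((D + z) * n) (e3 Zᶜ Zᶜ))
  have hU : Z = (Z.erase c) ∪ {c} := by
    rw [Finset.union_comm, ← Finset.insert_eq, Finset.insert_erase hc]
  have hdis : Disjoint (Z.erase c) {c} := by
    rw [Finset.disjoint_singleton_right]
    exact Finset.notMem_erase c Z
  have u1 : eO G Z Zᶜ = eO G (Z.erase c) Zᶜ + eO G {c} Zᶜ := by
    have h := (hEA n G (Z.erase c) {c} Zᶜ).2.1 hdis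
    rw [← hU] at h
    exact h
  have u2 : (∑ x ∈ Z, ∑ y ∈ Zᶜ, if G.Adj x y then sepCount p x y else 0) =
      (∑ x ∈ Z.erase c, ∑ y ∈ Zᶜ, if G.Adj x y then sepCount p x y else 0) +
        ∑ y ∈ Zᶜ, if G.Adj c y then sepCount p c y else 0 :=
    (Finset.sum_erase_add Z _ hc).symm
  have u3 : 2 * (∑ x ∈ Z.erase c, ∑ y ∈ Zᶜ, if G.Adj x y then sepCount p x y else 0) =
      ∑ x ∈ Z.erase c, ∑ y ∈ Zᶜ, if G.Adj x y then 2 * sepCount p x y else 0 := by
    rw [Finset.mul_sum]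
    refine Finset.sum_congr rfl fun x _ => ?_
    rw [Finset.mul_sum]
    refine Finset.sum_congr rfl fun y _ => ?_
    split_ifs <;> rfl
  have u4 : ∑ i ∈ Finset.Ico a0 b0, (Cnt q k1 i + z * n) =
      ∑ i ∈ Finset.Ico a0 b0, Cnt q k1 i + (b0 - a0) * (z * n) := by
    rw [Finset.sum_add_distrib, Finset.sum_const, Nat.card_Ico, smul_eq_mul]
  have u5 : (b0 - a0) * (q ^ 2 + 2 * (z * n)) ≤ eO G {c} Zᶜ * (q ^ 2 + 2 * (z * n)) :=
    Nat.mul_le_mul_right _ s5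
  have u6 : (b0 - a0) * (q ^ 2 + 2 * (z * n)) = (b0 - a0) * q ^ 2 + 2 * ((b0 - a0) * (z * n)) := by
    ring
  have u7 : eO G Z Zᶜ * q ^ 2 + 2 * eO G Z Zᶜ * (z * n) =
      eO G (Z.erase c) Zᶜ * (q ^ 2 + 2 * (z * n)) + eO G {c} Zᶜ * (q ^ 2 + 2 * (z * n)) := by
    rw [u1]
    ring
  rw [u4] at s4
  rw [← u3] at s2
  rw [u2] at hsplit
  rw [hsplit] at h2c
  omega

end Pool.Agent.Lib.MP_00ece3_co.EX
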