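import Pool.Agent.Lib.MP_00ece3_co.EX.SpecD

/-!
# The order of the vertices in case I (`S_CI2`)
-/

set_option autoImplicit false

namespace Pool.Agent.Lib.MP_00ece3_co.EX

open Pool.Agent.Lib.MP_00ece3_co

/-- **CI2**: the list `B1, A, B2`. -/
theorem tCI2 (hOrdR : S_OrdR) (hBlk : S_Blk) : S_CI2 := by
  classical
  intro n G c Z1 D hc hCb hsep hn
  obtain ⟨A, hA⟩ : ∃ A : Finset (Fin n), A = (Z1ᶜ).filter (fun x => G.Adj c x) := ⟨_, rfl⟩
  obtain ⟨B, hB⟩ : ∃ B : Finset (Fin n), B = (Z1ᶜ).filter (fun x => ¬ G.Adj c x) := ⟨_, rfl⟩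
  have memA : ∀ x, x ∈ A ↔ x ∉ Z1 ∧ G.Adj c x := by
    intro x
    rw [hA, Finset.mem_filter, Finset.mem_compl]
  have memB : ∀ x, x ∈ B ↔ x ∉ Z1 ∧ ¬ G.Adj c x := by
    intro x
    rw [hB, Finset.mem_filter, Finset.mem_compl]
  have hCbA : Cb G Aᶜ D := by
    intro C hd hcon
    refine hCb C ?_ hcon
    refine Finset.disjoint_left.2 fun x hxC hxZ => ?_
    refine Finset.disjoint_left.1 hd hxC ?_
    rw [Finset.mem_compl, memA]
    exact fun h => h.1 hxZ
  have hCbB : Cb G Bᶜ D := by
    intro C hd hcon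
    refine hCb C ?_ hcon
    refine Finset.disjoint_left.2 fun x hxC hxZ => ?_
    refine Finset.disjoint_left.1 hd hxC ?_
    rw [Finset.mem_compl, memB]
    exact fun h => h.1 hxZ
  obtain ⟨rA, hrA, hrAb⟩ := hOrdR n G A D hCbA
  obtain ⟨rB, hrB, hrBb⟩ := hOrdR n G B D hCbB
  have hAB : A.card + B.card + Z1.card = n := by
    have h1 : A.card + B.card = (Z1ᶜ).card := by
      rw [hA, hB]
      exact Finset.card_filter_add_card_filter_not (fun x => G.Adj c x)
    have h2 : (Z1ᶜ).card = n - Z1.card := by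
      rw [Finset.card_compl, Fintype.card_fin]
    have h3 : Z1.card ≤ n := by
      have := Finset.card_le_univ Z1
      rwa [Fintype.card_fin] at this
    omega
  -- the two halves of `B`
  obtain ⟨b, hb⟩ : ∃ b, b = B.card := ⟨_, rfl⟩
  obtain ⟨h, hh⟩ : ∃ h, h = (b - D) / 2 := ⟨_, rfl⟩
  obtain ⟨h2, hh2⟩ : ∃ h2, h2 = b - D - h := ⟨_, rfl⟩
  have hh2' : h ≤ h2 ∧ h2 ≤ h + 1 := by omega
  let f1 : Fin h → Fin n := fun i => rB ⟨i, by omega⟩
  let f2 : Fin h2 → Fin n := fun i => rB ⟨h + D + i, by omega⟩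
  have hf1 : Ls f1 (Finset.univ.image f1) := by
    refine ⟨fun i j hij => ?_, fun x => by simp⟩
    have := hrB.1 hij
    have := congrArg Fin.val this
    exact Fin.ext this
  have hf2 : Ls f2 (Finset.univ.image f2) := by
    refine ⟨fun i j hij => ?_, fun x => by simp⟩
    have := hrB.1 hij
    have := congrArg Fin.val this
    apply Fin.ext
    dsimp only at this
    omega
  have f1B : ∀ i, f1 i ∈ B := fun i => (hrB.2 _).1 ⟨_, rfl⟩
  have f2B : ∀ i, f2 i ∈ B := fun i => (hrB.2 _).1 ⟨_, rfl⟩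
  have d1A : Disjoint (Finset.univ.image f1) A := by
    refine Finset.disjoint_left.2 fun x hx hxA => ?_
    obtain ⟨i, -, rfl⟩ := Finset.mem_image.1 hx
    exact ((memB _).1 (f1B i)).2 ((memA _).1 hxA).2
  have dA2 : Disjoint A (Finset.univ.image f2) := by
    refine Finset.disjoint_left.2 fun x hxA hx => ?_
    obtain ⟨i, -, rfl⟩ := Finset.mem_image.1 hx
    exact ((memB _).1 (f2B i)).2 ((memA _).1 hxA).2
  have d12 : Disjoint (Finset.univ.image f1) (Finset.univ.image f2) := by
    refine Finset.disjoint_left.2 fun x hx1 hx2 => ?_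
    obtain ⟨i, -, hi⟩ := Finset.mem_image.1 hx1
    obtain ⟨j, -, hj⟩ := Finset.mem_image.1 hx2
    have := hrB.1 (hi.trans hj.symm)
    have := congrArg Fin.val this
    dsimp only at this
    omega
  obtain ⟨r, hr, hpos, hr1, hrA', hr2⟩ := hBlk n h A.card h2 f1 rA f2 (Finset.univ.image f1) A
    (Finset.univ.image f2) hf1 hrA hf2 d1A d12 dA2
  -- the number of elements of the list
  have hN : n ≤ h + A.card + h2 + (Z1.card + D) := by omega
  have hN1 : 1 ≤ h + A.card + h2 := by omega
  obtain ⟨q, hq⟩ : ∃ q, q = (h + A.card + h2 - 1) / 2 := ⟨_, rfl⟩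
  have hq1 : 2 * q + 1 ≤ h + A.card + h2 := by omega
  have hq2 : h + A.card + h2 ≤ 2 * q + 2 := by omega
  let r' : Fin (2 * q + 1) → Fin n := fun i => r ⟨i, by omega⟩
  have hr'inj : Function.Injective r' := by
    intro i j hij
    have := hr.1 hij
    have := congrArg Fin.val this
    exact Fin.ext this
  have hrZ : ∀ i, r i ∉ Z1 := by
    intro i hi
    have := (hr.2 (r i)).1 ⟨i, rfl⟩
    rw [Finset.mem_union, Finset.mem_union] at this
    rcases this with (h' | h') | h'
    · obtain ⟨k, -, hk⟩ := Finset.mem_image.1 h'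
      exact ((memB _).1 (hk ▸ f1B k)).1 hi
    · exact ((memA _).1 h').1 hi
    · obtain ⟨k, -, hk⟩ := Finset.mem_image.1 h'
      exact ((memB _).1 (hk ▸ f2B k)).1 hi
  have hadj : ∀ i, G.Adj c (r i) ↔ h ≤ (i : ℕ) ∧ (i : ℕ) < h + A.card := by
    intro i
    rw [← (hpos i).2.1, memA]
    exact ⟨fun h' => ⟨hrZ i, h'⟩, fun h' => h'.2⟩
  have hband : ∀ i j : Fin (h + A.card + h2), i < j → G.Adj (r i) (r j) →
      (j : ℕ) ≤ i + D := by
    intro i j hij hadjij
    have hij' : (i : ℕ) < j := hij
    have hi := i.2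
    have hj := j.2
    by_cases hi1 : (i : ℕ) < h
    · -- `r i` in `B1`
      have hri := hr1 i ⟨i, hi1⟩ rfl
      have hriB : r i ∈ B := by rw [hri]; exact f1B _
      by_cases hj1 : (j : ℕ) < h
      · have hrj := hr1 j ⟨j, hj1⟩ rfl
        rw [hri, hrj] at hadjij
        have := hrBb ⟨i, by omega⟩ ⟨j, by omega⟩ hij' hadjij
        exact this
      · by_cases hj2 : (j : ℕ) < h + A.card
        · exfalso
          have hjA : G.Adj c (r j) := (hadj j).2 ⟨by omega, hj2⟩
          exact hsep (r j) (r i) (hrZ j) (hrZ i) hjA ((memB _).1 hriB).2 hadjij.symm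
        · exfalso
          have hrj := hr2 j ⟨j - (h + A.card), by omega⟩ (by dsimp only; omega)
          rw [hri, hrj] at hadjij
          have := hrBb ⟨i, by omega⟩ ⟨h + D + (j - (h + A.card)), by omega⟩
            (by
              show (i : ℕ) < h + D + (j - (h + A.card))
              omega) hadjij
          dsimp only at this
          omega
    · by_cases hi2 : (i : ℕ) < h + A.card
      · have hiA : G.Adj c (r i) := (hadj i).2 ⟨by omega, hi2⟩
        by_cases hj2 : (j : ℕ) < h + A.card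
        · have hri := hrA' i ⟨i - h, by omega⟩ (by dsimp only; omega)
          have hrj := hrA' j ⟨j - h, by omega⟩ (by dsimp only; omega)
          rw [hri, hrj] at hadjij
          have := hrAb ⟨i - h, by omega⟩ ⟨j - h, by omega⟩
            (by
              show (i : ℕ) - h < j - h
              omega) hadjij
          dsimp only at this
          omega
        · exfalso
          have hjB : ¬ G.Adj c (r j) := fun h' => hj2 ((hadj j).1 h').2
          exact hsep (r i) (r j) (hrZ i) (hrZ j) hiA hjB hadjij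
      · have hri := hr2 i ⟨i - (h + A.card), by omega⟩ (by dsimp only; omega)
        have hrj := hr2 j ⟨j - (h + A.card), by omega⟩ (by dsimp only; omega)
        rw [hri, hrj] at hadjij
        have := hrBb ⟨h + D + (i - (h + A.card)), by omega⟩ ⟨h + D + (j - (h + A.card)), by omega⟩
          (by
            show h + D + ((i : ℕ) - (h + A.card)) < h + D + (j - (h + A.card))
            omega) hadjij
        dsimp only at this
        omega
  have hcard : (Finset.univ.image r').card = 2 * q + 1 := by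
    rw [Finset.card_image_of_injective _ hr'inj, Finset.card_univ, Fintype.card_fin]
  refine ⟨(Finset.univ.image r')ᶜ, q, h, min (h + A.card) (2 * q + 1), r', ?_, ?_, ?_, ?_, ?_, ?_,
    ?_, ?_, ?_⟩
  · intro x hx
    rw [Finset.mem_compl, Finset.mem_image]
    rintro ⟨i, -, rfl⟩
    exact hrZ _ hx
  · rw [Finset.card_compl, Fintype.card_fin, hcard]
    omega
  · refine ⟨hr'inj, fun x => ?_⟩
    rw [compl_compl]
    simp
  · omega
  · omega
  · omega
  · omega
  · intro i
    have hi := i.2
    have := hadj ⟨i, by omega⟩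
    dsimp only at this
    show G.Adj c (r ⟨i, by omega⟩) ↔ _
    rw [this]
    omega
  · intro i j hij hadjij
    exact hband ⟨i, by omega⟩ ⟨j, by omega⟩ hij hadjij

end Pool.Agent.Lib.MP_00ece3_co.EX
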