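import Pool.Agent.Lib.MP_00ece3_co.EX.SpecD
import Pool.Agent.Lib.MP_00ece3_co.Fragment
import Pool.Agent.Lib.MP_00ece3_co.Sep

/-!
# Project EX, part D: CII (no vertex of intermediate degree)
-/

set_option autoImplicit false

namespace Pool.Agent.Lib.MP_00ece3_co.EX

open Pool.Agent.Lib.MP_00ece3_co

namespace CIIAux

/-- The final estimate. -/
theorem arith (O z W D N : ℝ) (hN : 0 ≤ N) (hW : N / 40 ≤ W)
    (hz : z ≤ 1668 * (N / 10 ^ 20)) (hD : D ≤ N / 10 ^ 20)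
    (h : 16 * O + W * N ^ 2 ≤ 4 * N ^ 3 + 2400 * z * N ^ 2 + 64 * D * N ^ 2) :
    O ≤ (1 / 4 - 1 / 10 ^ 20 / 2) * N ^ 3 := by
  have h1 : N / 40 * N ^ 2 ≤ W * N ^ 2 := mul_le_mul_of_nonneg_right hW (by positivity)
  have h2 : z * N ^ 2 ≤ 1668 * (N / 10 ^ 20) * N ^ 2 :=
    mul_le_mul_of_nonneg_right hz (by positivity)
  have h3 : D * N ^ 2 ≤ N / 10 ^ 20 * N ^ 2 := mul_le_mul_of_nonneg_right hD (by positivity)
  have h4 : N / 40 * N ^ 2 = 1 / 40 * N ^ 3 := by ring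
  have h5 : 1668 * (N / 10 ^ 20) * N ^ 2 = 1668 / 10 ^ 20 * N ^ 3 := by ring
  have h6 : N / 10 ^ 20 * N ^ 2 = 1 / 10 ^ 20 * N ^ 3 := by ring
  have h7 : 2400 * z * N ^ 2 = 2400 * (z * N ^ 2) := by ring
  have h8 : 64 * D * N ^ 2 = 64 * (D * N ^ 2) := by ring
  rw [h4] at h1
  rw [h5] at h2
  rw [h6] at h3
  rw [h7, h8] at h
  have hX : 0 ≤ N ^ 3 := by positivity
  norm_num at h1 h2 h3 h hX ⊢
  linarith

end CIIAux

theorem tCII (hCII0 : S_CII0) (hSep : S_Sep) (hFew : S_Few) (hT0R : S_T0R)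
    (hGreedy : S_Greedy) (hEA : S_EA) (hEB : S_EB) : S_CII := by
  obtain ⟨n1, h1⟩ := hT0R (1 / 10 ^ 20) (by positivity) (by norm_num)
  obtain ⟨n2, h2⟩ := fragment separator (1 / 10 ^ 20) (by positivity)
  refine ⟨1 / 10 ^ 20 / 2, by positivity, max n1 (max n2 (10 ^ 22)),
    fun n hn G hG hall huni => ?_⟩
  have hn1 : n1 ≤ n := (le_max_left _ _).trans hn
  have hn2 : n2 ≤ n := ((le_max_left _ _).trans (le_max_right _ _)).trans hn
  have hn3 : 10 ^ 22 ≤ n := ((le_max_right _ _).trans (le_max_right _ _)).trans hn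
  have hN : (10 : ℝ) ^ 22 ≤ n := by exact_mod_cast hn3
  obtain ⟨S0, hS0, hC0⟩ := h2 (Fin n) G hG.1 (by simpa using hn2)
  rw [Fintype.card_fin] at hS0 hC0
  set t : ℝ := (n : ℝ) / 10 ^ 20 with ht
  have ht1 : 100 ≤ t := by
    rw [ht, le_div_iff₀ (by positivity)]
    norm_num at hN ⊢
    exact hN
  have htn : (1 / 10 ^ 20 : ℝ) * n = t := by
    rw [ht]
    ring
  rw [htn] at hS0 hC0
  have hn0 : (n : ℝ) = 10 ^ 20 * t := by
    rw [ht]
    field_simp
  set L0 : Finset (Fin n) := Finset.univ.filter (fun x => 2499 * n < 2500 * dg G x) with hL0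
  have hL0card : L0.card ≤ 1 := by
    rw [Finset.card_le_one]
    intro a ha b hb
    rw [hL0, Finset.mem_filter] at ha hb
    exact huni a b ha.2 hb.2
  set T : Finset (Fin n) := S0 \ L0 with hT
  set S : Finset (Fin n) := L0 ∪ T with hS
  have hdLT : Disjoint L0 T := by
    rw [hT]
    exact Finset.disjoint_sdiff
  have hS0S : S0 ⊆ S := by
    intro x hx
    rw [hS, Finset.mem_union, hT, Finset.mem_sdiff]
    by_cases h : x ∈ L0
    · exact Or.inl h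
    · exact Or.inr ⟨hx, h⟩
  have hScard : (S.card : ℝ) ≤ t + 1 := by
    have h3 : S.card ≤ L0.card + T.card := Finset.card_union_le _ _
    have h4 : T.card ≤ S0.card := Finset.card_le_card Finset.sdiff_subset
    have h5 : S.card ≤ S0.card + 1 := by omega
    have h6 : (S.card : ℝ) ≤ S0.card + 1 := by exact_mod_cast h5
    linarith
  have hconn : ∀ C : Finset (Fin n), Disjoint C S →
      (G.induce (C : Set (Fin n))).Connected → (C.card : ℝ) ≤ t :=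
    fun C h3 h4 => hC0 C (Finset.disjoint_of_subset_right hS0S h3) h4
  by_cases hcase : (eO G S Sᶜ : ℝ) ≤ (2 - 200 * (1 / 10 ^ 20)) * n
  · refine h1 n hn1 G hG S ?_ ?_ hcase
    · have h3 : 2 * (1 / 10 ^ 20 : ℝ) * n = 2 * t := by
        rw [mul_assoc, htn]
      rw [h3]
      linarith
    · intro C h3 h4
      rw [htn]
      exact hconn C h3 h4
  · rw [not_le] at hcase
    have hcase2 : 2 * (n : ℝ) - 200 * t < eO G S Sᶜ := by
      have h3 : (2 - 200 * (1 / 10 ^ 20)) * (n : ℝ) = 2 * n - 200 * t := by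
        rw [ht]
        ring
      rw [h3] at hcase
      exact hcase
    have hfew : (eO G S Sᶜ : ℝ) + (low G S).card ≤ 2 * Sᶜ.card + 244 * S.card := by
      exact_mod_cast hFew n G hG S
    have hSc : (Sᶜ.card : ℝ) ≤ n := by
      have h3 := Finset.card_le_univ Sᶜ
      rw [Fintype.card_fin] at h3
      exact_mod_cast h3
    have hlow : ((low G S).card : ℝ) ≤ 444 * t + 244 := by
      linarith
    have hdgn : ∀ x, dg G x ≤ n := by
      intro x
      have h3 : dg G x ≤ Fintype.card (Fin n) := Finset.card_le_univ _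
      rwa [Fintype.card_fin] at h3
    -- the elements of `T`
    have hfT : ∀ s ∈ T, eO G {s} Sᶜ ≤ n / 32 := by
      intro s hs
      have h3 : eO G {s} Sᶜ ≤ dg G s := by
        have h4 := (hEA n G {s} {s} Sᶜ).2.2.2.2.1
        rwa [Finset.sum_singleton] at h4
      rw [hT, Finset.mem_sdiff, hL0, Finset.mem_filter] at hs
      have h5 : ¬ (2499 * n < 2500 * dg G s) := fun h => hs.2 ⟨Finset.mem_univ _, h⟩
      have h6 : ¬ (n ≤ 32 * dg G s) := fun h => h5 (hall s h)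
      omega
    have heL : eO G L0 Sᶜ ≤ n := by
      refine (hEA n G L0 L0 Sᶜ).2.2.2.2.1.trans ?_
      refine (Finset.sum_le_card_nsmul L0 _ n (fun x _ => hdgn x)).trans ?_
      rw [smul_eq_mul]
      have := Nat.mul_le_mul_right n hL0card
      omega
    have heT : eO G S Sᶜ = eO G L0 Sᶜ + eO G T Sᶜ := (hEA n G L0 T Sᶜ).2.1 hdLT
    have hsumT : eO G T Sᶜ = ∑ s ∈ T, eO G {s} Sᶜ := (hEA n G T T Sᶜ).2.2.2.1
    have hlo : n / 32 ≤ ∑ s ∈ T, eO G {s} Sᶜ := by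
      rw [← hsumT]
      have h3 : (n : ℝ) - 200 * t ≤ eO G T Sᶜ := by
        have h4 : (eO G S Sᶜ : ℝ) = eO G L0 Sᶜ + eO G T Sᶜ := by exact_mod_cast heT
        have h5 : (eO G L0 Sᶜ : ℝ) ≤ n := by exact_mod_cast heL
        linarith
      have h6 : (n : ℝ) ≤ 32 * eO G T Sᶜ := by
        rw [hn0] at h3 ⊢
        norm_num at h3 ⊢
        linarith
      have h7 : n ≤ 32 * eO G T Sᶜ := by exact_mod_cast h6
      omega
    obtain ⟨S1, hS1T, hS1lo, hS1hi⟩ := hGreedy n T (fun s => eO G {s} Sᶜ) (n / 32) hfT hlo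
    have hS1sum : eO G S1 Sᶜ = ∑ s ∈ S1, eO G {s} Sᶜ := (hEA n G S1 S1 Sᶜ).2.2.2.1
    rw [← hS1sum] at hS1lo hS1hi
    have hTS : T ⊆ S := Finset.subset_union_right
    have hS1S : S1 ⊆ S := hS1T.trans hTS
    obtain ⟨Z1, hSZ, hZ1, hsep⟩ := hSep n G hG S S1 hS1S
    have hZ1R : (Z1.card : ℝ) ≤ 489 * S.card + (low G S).card := by exact_mod_cast hZ1
    set D : ℕ := ⌊t⌋₊ with hD
    have hDt : (D : ℝ) ≤ t := Nat.floor_le (by linarith)
    have hCb : Cb G Z1 D := by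
      intro C h3 h4
      exact Nat.le_floor (hconn C (Finset.disjoint_of_subset_right hSZ h3) h4)
    set z : ℕ := Z1.card + 1 with hz
    have hzR : (z : ℝ) ≤ 1668 * t := by
      rw [hz]
      push_cast
      linarith
    have hzn : 10 ^ 16 * z ≤ n := by
      have h3 : (10 : ℝ) ^ 16 * z ≤ n := by
        rw [hn0]
        norm_num
        linarith
      exact_mod_cast h3
    -- the number `W`
    set W : ℕ := eO G S1 Z1ᶜ with hW
    have hW1 : W ≤ eO G S1 Sᶜ := by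
      have h3 : Z1ᶜ ⊆ Sᶜ := Finset.compl_subset_compl.mpr hSZ
      exact ((hEA n G Z1ᶜ Sᶜ S1).2.2.1 h3).2
    have hW2 : eO G S1 Sᶜ ≤ W + 8 * Z1.card := by
      have h3 : Sᶜ ⊆ Z1ᶜ ∪ Z1 := by
        rw [Finset.union_comm, Finset.union_compl]
        exact Finset.subset_univ _
      have h4 : eO G S1 Sᶜ ≤ eO G S1 (Z1ᶜ ∪ Z1) := ((hEA n G Sᶜ (Z1ᶜ ∪ Z1) S1).2.2.1 h3).2
      have h5 : eO G S1 (Z1ᶜ ∪ Z1) = eO G (Z1ᶜ ∪ Z1) S1 :=
        (hEA n G S1 (Z1ᶜ ∪ Z1) S1).1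
      have h6 : eO G (Z1ᶜ ∪ Z1) S1 = eO G Z1ᶜ S1 + eO G Z1 S1 :=
        (hEA n G Z1ᶜ Z1 S1).2.1 disjoint_compl_left
      have h7 : eO G Z1ᶜ S1 = W := (hEA n G Z1ᶜ S1 S1).1
      have h8 : eO G Z1 S1 ≤ eO G Z1 Z1 := ((hEA n G S1 Z1 Z1).2.2.1 (hS1S.trans hSZ)).2
      have h9 : eO G Z1 Z1 ≤ 8 * Z1.card := (hEB n G hG).1 Z1
      omega
    have hW3 : 16 * W ≤ n := by omega
    have hW4 : (n : ℝ) / 40 ≤ W := by
      have h3 : n ≤ 40 * W := by omega
      have h4 : (n : ℝ) ≤ 40 * W := by exact_mod_cast h3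
      rw [div_le_iff₀ (by norm_num)]
      linarith
    have hmain := hCII0 n G hG S1 Z1 D (hS1S.trans hSZ) hCb hsep (by omega) hW3
    rw [← hz, ← hW] at hmain
    have hmainR : 16 * (OCN G : ℝ) + (W : ℝ) * (n : ℝ) ^ 2 ≤
        4 * (n : ℝ) ^ 3 + 2400 * (z : ℝ) * (n : ℝ) ^ 2 + 64 * (D : ℝ) * (n : ℝ) ^ 2 := by
      exact_mod_cast hmain
    exact CIIAux.arith _ _ _ _ _ (Nat.cast_nonneg n) hW4 (by rw [← ht]; exact hzR)
      (by rw [← ht]; exact hDt) hmainR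

end Pool.Agent.Lib.MP_00ece3_co.EX
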