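import Pool.Agent.Lib.MP_00ece3_co.EX.SpecD

/-!
Project EX, module CII0 (helper47).
-/

set_option autoImplicit false

namespace Pool.Agent.Lib.MP_00ece3_co.EX

open Pool.Agent.Lib.MP_00ece3_co

/-- The bounds for the numbers of edges. -/
private theorem CII0_edges (hEA : S_EA) (hEB : S_EB) (n : ℕ) (G : SimpleGraph (Fin n))
    (hG : Planar G) (S1 Z1 Z' : Finset (Fin n)) (z : ℕ) (hS : S1 ⊆ Z1) (hZ : Z1 ⊆ Z')
    (hz : Z'.card ≤ z) :
    eO G (Z' \ S1) (Z' \ S1)ᶜ + eO G S1 Z1ᶜ ≤ 2 * n + 260 * z ∧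
      eO G S1 (Z' \ S1)ᶜ ≤ 8 * z + eO G S1 Z1ᶜ := by
  obtain ⟨hB1, hB2, hB3⟩ := hEB n G hG
  have hS' : S1 ⊆ Z' := hS.trans hZ
  have hsym : ∀ A B, eO G A B = eO G B A := fun A B => (hEA n G A B A).1
  have hadd : ∀ A B C, Disjoint A B → eO G (A ∪ B) C = eO G A C + eO G B C :=
    fun A B C h => (hEA n G A B C).2.1 h
  have hm1 : ∀ A B C, A ⊆ B → eO G A C ≤ eO G B C := fun A B C h => ((hEA n G A B C).2.2.1 h).1
  have hm2 : ∀ A B C, A ⊆ B → eO G C A ≤ eO G C B := fun A B C h => ((hEA n G A B C).2.2.1 h).2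
  have hadd' : ∀ A B C, Disjoint A B → eO G C (A ∪ B) = eO G C A + eO G C B := by
    intro A B C h
    rw [hsym C (A ∪ B), hadd A B C h, hsym A C, hsym B C]
  have hc : (Z' \ S1)ᶜ = S1 ∪ Z'ᶜ := by
    ext x
    simp only [Finset.mem_compl, Finset.mem_sdiff, Finset.mem_union]
    tauto
  have hd1 : Disjoint S1 Z'ᶜ := by
    rw [Finset.disjoint_left]
    intro x hx hx'
    exact (Finset.mem_compl.1 hx') (hS' hx)
  have hZZ : eO G Z' Z' ≤ 8 * z := (hB1 Z').trans (Nat.mul_le_mul_left 8 hz)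
  have hcc : Z'ᶜ.card ≤ n := by
    calc Z'ᶜ.card ≤ (Finset.univ : Finset (Fin n)).card := Finset.card_le_card (Finset.subset_univ _)
      _ = n := by simp
  have h1 : eO G Z' Z'ᶜ ≤ 2 * n + 244 * z := by
    have := hB2 Z'
    omega
  have h2 : eO G Z' Z'ᶜ = eO G (Z' \ S1) Z'ᶜ + eO G S1 Z'ᶜ := by
    rw [← hadd (Z' \ S1) S1 Z'ᶜ Finset.sdiff_disjoint, Finset.sdiff_union_of_subset hS']
  have h3 : eO G S1 Z1ᶜ ≤ eO G S1 Z'ᶜ + 8 * z := by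
    have e1 : Z1ᶜ = Z'ᶜ ∪ (Z' \ Z1) := by
      ext x
      simp only [Finset.mem_compl, Finset.mem_sdiff, Finset.mem_union]
      constructor
      · intro h
        by_cases hx : x ∈ Z'
        · exact Or.inr ⟨hx, h⟩
        · exact Or.inl hx
      · rintro (h | h)
        · exact fun hx => h (hZ hx)
        · exact h.2
    have e2 : Disjoint Z'ᶜ (Z' \ Z1) := by
      rw [Finset.disjoint_left]
      intro x hx hx'
      exact (Finset.mem_compl.1 hx) (Finset.mem_sdiff.1 hx').1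
    have e3 : eO G S1 (Z' \ Z1) ≤ eO G Z' Z' :=
      (hm1 S1 Z' _ hS').trans (hm2 _ Z' Z' Finset.sdiff_subset)
    rw [e1, hadd' _ _ _ e2]
    omega
  have h4 : eO G S1 Z'ᶜ ≤ eO G S1 Z1ᶜ := hm2 _ _ _ (Finset.compl_subset_compl.2 hZ)
  have h5 : eO G (Z' \ S1) S1 ≤ 8 * z :=
    ((hm1 _ Z' _ Finset.sdiff_subset).trans (hm2 _ Z' Z' hS')).trans hZZ
  have h6 : eO G S1 S1 ≤ 8 * z := ((hm1 _ Z' _ hS').trans (hm2 _ Z' Z' hS')).trans hZZ
  rw [hc, hadd' _ _ _ hd1, hadd' _ _ _ hd1]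
  omega

/-- The arithmetic. -/
private theorem CII0_arith {n O z W e1 e2 k Zc L D : ℕ}
    (h : 2 * O ≤ 8 * Zc * n ^ 2 + e1 * (k ^ 2 + 2 * (Zc * n)) + 2 * e2 * ((L + Zc) * n) +
      8 * n * ((D + Zc) * n))
    (h1 : e1 + W ≤ 2 * n + 260 * z) (h2 : e1 ≤ 8 * n) (h3 : e2 ≤ 8 * z + W) (hk : 2 * k ≤ n)
    (hZ : Zc ≤ z) (hL : L + Zc ≤ z + W) (hz : z ≤ n) (hW : 16 * W ≤ n) :
    16 * O + W * n ^ 2 ≤ 4 * n ^ 3 + 2400 * z * n ^ 2 + 64 * D * n ^ 2 := by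
  have a1 : 8 * Zc * n ^ 2 ≤ 8 * z * n ^ 2 := by gcongr
  have a2 : 4 * (e1 * k ^ 2) ≤ e1 * n ^ 2 := by
    calc 4 * (e1 * k ^ 2) = e1 * (2 * k) ^ 2 := by ring
      _ ≤ e1 * n ^ 2 := by gcongr
  have a3 : e1 * (2 * (Zc * n)) ≤ 16 * z * n ^ 2 := by
    calc e1 * (2 * (Zc * n)) ≤ (8 * n) * (2 * (z * n)) := by gcongr
      _ = 16 * z * n ^ 2 := by ring
  have a4 : 2 * e2 * ((L + Zc) * n) ≤ 2 * (8 * z + W) * ((z + W) * n) := by gcongr
  have a5 : z * z * n ≤ z * n ^ 2 := by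
    calc z * z * n ≤ z * n * n := by gcongr
      _ = z * n ^ 2 := by ring
  have a6 : 16 * (z * W * n) ≤ z * n ^ 2 := by
    calc 16 * (z * W * n) = z * (16 * W) * n := by ring
      _ ≤ z * n * n := by gcongr
      _ = z * n ^ 2 := by ring
  have a7 : 16 * (W * W * n) ≤ W * n ^ 2 := by
    calc 16 * (W * W * n) = W * (16 * W) * n := by ring
      _ ≤ W * n * n := by gcongr
      _ = W * n ^ 2 := by ring
  have a8 : 8 * n * ((D + Zc) * n) ≤ 8 * D * n ^ 2 + 8 * z * n ^ 2 := by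
    calc 8 * n * ((D + Zc) * n) ≤ 8 * n * ((D + z) * n) := by gcongr
      _ = 8 * D * n ^ 2 + 8 * z * n ^ 2 := by ring
  have a9 : (e1 + W) * n ^ 2 ≤ (2 * n + 260 * z) * n ^ 2 := by gcongr
  nlinarith [a1, a2, a3, a4, a5, a6, a7, a8, a9]

theorem tCII0 (hCII1 : S_CII1) (hCII2 : S_CII2) (hEA : S_EA) (hEB : S_EB) : S_CII0 := by
  intro n G hG S1 Z1 D hS hCb hab hn hW
  obtain ⟨Z', k, r, hZ, hz, hr, hL, hD⟩ := hCII2 n G S1 Z1 D hS hCb hab hn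
  have hS' : S1 ⊆ Z' := hS.trans hZ
  have hdis : Disjoint S1 (Z' \ S1) := Finset.disjoint_sdiff
  have h := hCII1 n G hG (Z' \ S1) S1 k D (S1.card + eO G S1 Z1ᶜ) r hr hdis hL hD
  obtain ⟨h1, h3⟩ := CII0_edges hEA hEB n G hG S1 Z1 Z' (Z1.card + 1) hS hZ hz
  have h2 : eO G (Z' \ S1) (Z' \ S1)ᶜ ≤ 8 * n := (hEB n G hG).2.2 _ _
  have hk : 2 * k ≤ n := by
    have h4 : Fintype.card (Fin (2 * k + 1)) ≤ Fintype.card (Fin n) :=
      Fintype.card_le_of_injective r hr.1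
    simp only [Fintype.card_fin] at h4
    omega
  have hcard : (Z' \ S1).card + S1.card = Z'.card := Finset.card_sdiff_add_card_eq_card hS'
  exact CII0_arith h h1 h2 h3 hk (by omega) (by omega) (by omega) hW

end Pool.Agent.Lib.MP_00ece3_co.EX
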