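import Pool.Agent.Lib.MP_00ece3_co.EX.SpecD
import Pool.Agent.Lib.MP_00ece3_co.Upper
import Pool.Agent.Lib.MP_00ece3_co.Place
import Pool.Agent.Lib.MP_00ece3_co.Gon
import Pool.Agent.Lib.MP_00ece3_co.Centre

/-!
# Project EX, part D: CII1 (the placement by an order with a special set)
-/

set_option autoImplicit false

namespace Pool.Agent.Lib.MP_00ece3_co.EX

open Pool.Agent.Lib.MP_00ece3_co

namespace CII1Aux

open Classical in
/-- The sum of `w` over the ordered adjacent pairs in `P × Q`. -/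
noncomputable def F {n : ℕ} (G : SimpleGraph (Fin n)) (w : Fin n → Fin n → ℕ)
    (P Q : Finset (Fin n)) : ℕ :=
  ∑ x ∈ P, ∑ y ∈ Q, if G.Adj x y then w x y else 0

variable {n : ℕ} (G : SimpleGraph (Fin n)) (w : Fin n → Fin n → ℕ)

theorem F_comm (hw : ∀ x y, w x y = w y x) (P Q : Finset (Fin n)) : F G w P Q = F G w Q P := by
  unfold F
  rw [Finset.sum_comm]
  refine Finset.sum_congr rfl fun x _ => Finset.sum_congr rfl fun y _ => ?_
  rw [hw y x, G.adj_comm y x]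

theorem F_union (A B Q : Finset (Fin n)) (h : Disjoint A B) :
    F G w (A ∪ B) Q = F G w A Q + F G w B Q := by
  unfold F
  exact Finset.sum_union h

theorem F_le (P Q : Finset (Fin n)) (K : ℕ)
    (hK : ∀ x ∈ P, ∀ y ∈ Q, G.Adj x y → w x y ≤ K) : F G w P Q ≤ eO G P Q * K := by
  classical
  unfold F eO
  rw [← Finset.sum_product', ← smul_eq_mul, ← Finset.sum_const, Finset.sum_filter]
  refine Finset.sum_le_sum fun e he => ?_
  rw [Finset.mem_product] at he
  by_cases hadj : G.Adj e.1 e.2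
  · rw [if_pos hadj, if_pos hadj]
    exact hK _ he.1 _ he.2 hadj
  · rw [if_neg hadj, if_neg hadj]

/-- The bound for an abstract weight. -/
theorem total (hEA : S_EA) (hEB : S_EB) (hG : Planar G) (hw : ∀ x y, w x y = w y x)
    (Z S1 : Finset (Fin n)) (hdis : Disjoint S1 Z) (K0 K K1 K2 : ℕ)
    (h0 : ∀ x y, w x y ≤ K0)
    (h : ∀ x ∈ Z, ∀ y ∉ Z, G.Adj x y → 2 * w x y ≤ K)
    (h1 : ∀ x ∉ Z, ∀ y ∉ Z, G.Adj x y → (x ∈ S1 ∨ y ∈ S1) → w x y ≤ K1)
    (h2 : ∀ x ∉ Z, ∀ y ∉ Z, G.Adj x y → x ∉ S1 → y ∉ S1 → w x y ≤ K2) :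
    F G w Finset.univ Finset.univ ≤ 8 * Z.card * K0 + eO G Z Zᶜ * K + 2 * eO G S1 Zᶜ * K1 +
      8 * n * K2 := by
  have hS1 : ∀ x ∈ S1, x ∉ Z := fun x hx hz => Finset.disjoint_left.mp hdis hx hz
  have hsub : S1 ⊆ Zᶜ := fun x hx => Finset.mem_compl.mpr (hS1 x hx)
  set R : Finset (Fin n) := Zᶜ \ S1 with hR
  have hZc : Zᶜ = S1 ∪ R := by
    rw [hR, Finset.union_sdiff_of_subset hsub]
  have hdR : Disjoint S1 R := by
    rw [hR]
    exact Finset.disjoint_sdiff
  have hRm : ∀ x ∈ R, x ∉ Z ∧ x ∉ S1 := by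
    intro x hx
    rw [hR, Finset.mem_sdiff, Finset.mem_compl] at hx
    exact hx
  have hun : (Finset.univ : Finset (Fin n)) = Z ∪ Zᶜ := (Finset.union_compl Z).symm
  have hdZ : Disjoint Z Zᶜ := disjoint_compl_right
  have a1 : F G w Finset.univ Finset.univ =
      F G w Z Z + 2 * F G w Z Zᶜ + F G w Zᶜ Zᶜ := by
    rw [hun, F_union G w Z Zᶜ _ hdZ, F_comm G w hw Z (Z ∪ Zᶜ), F_comm G w hw Zᶜ (Z ∪ Zᶜ),
      F_union G w Z Zᶜ _ hdZ, F_union G w Z Zᶜ _ hdZ, F_comm G w hw Zᶜ Z]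
    ring
  have a2 : F G w Zᶜ Zᶜ = F G w S1 Zᶜ + F G w R S1 + F G w R R := by
    have b1 : F G w Zᶜ Zᶜ = F G w S1 Zᶜ + F G w R Zᶜ := by
      nth_rewrite 1 [hZc]
      exact F_union G w S1 R _ hdR
    have b2 : F G w R Zᶜ = F G w R S1 + F G w R R := by
      rw [F_comm G w hw R Zᶜ, hZc, F_union G w S1 R _ hdR, F_comm G w hw S1 R]
    rw [b1, b2]
    ring
  have c1 : F G w Z Z ≤ 8 * Z.card * K0 :=
    (F_le G w Z Z K0 (fun x _ y _ _ => h0 x y)).trans
      (Nat.mul_le_mul_right _ ((hEB n G hG).1 Z))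
  have c2 : 2 * F G w Z Zᶜ ≤ eO G Z Zᶜ * K := by
    have b1 := F_le G (fun x y => 2 * w x y) Z Zᶜ K
      (fun x hx y hy => h x hx y (Finset.mem_compl.mp hy))
    have b2 : F G (fun x y => 2 * w x y) Z Zᶜ = 2 * F G w Z Zᶜ := by
      unfold F
      rw [Finset.mul_sum]
      refine Finset.sum_congr rfl fun x _ => ?_
      rw [Finset.mul_sum]
      refine Finset.sum_congr rfl fun y _ => ?_
      split_ifs <;> rfl
    rw [b2] at b1
    exact b1
  have c3 : F G w S1 Zᶜ ≤ eO G S1 Zᶜ * K1 :=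
    F_le G w S1 Zᶜ K1
      (fun x hx y hy ha => h1 x (hS1 x hx) y (Finset.mem_compl.mp hy) ha (Or.inl hx))
  have c4 : F G w R S1 ≤ eO G S1 Zᶜ * K1 := by
    refine (F_le G w R S1 K1
      (fun x hx y hy ha => h1 x (hRm x hx).1 y (hS1 y hy) ha (Or.inr hy))).trans ?_
    apply Nat.mul_le_mul_right
    have hRs : R ⊆ Zᶜ := by
      rw [hR]
      exact Finset.sdiff_subset
    exact ((hEA n G R Zᶜ S1).2.2.1 hRs).1.trans (hEA n G Zᶜ S1 S1).1.le
  have c5 : F G w R R ≤ 8 * n * K2 := by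
    refine (F_le G w R R K2
      (fun x hx y hy ha => h2 x (hRm x hx).1 y (hRm y hy).1 ha (hRm x hx).2 (hRm y hy).2)).trans ?_
    apply Nat.mul_le_mul_right
    refine ((hEB n G hG).1 R).trans (Nat.mul_le_mul_left _ ?_)
    have := Finset.card_le_univ R
    rwa [Fintype.card_fin] at this
  rw [a1, a2]
  have e1 : 2 * eO G S1 Zᶜ * K1 = eO G S1 Zᶜ * K1 + eO G S1 Zᶜ * K1 := by ring
  rw [e1]
  omega

end CII1Aux

open CII1Aux in
theorem tCII1 (hEA : S_EA) (hEB : S_EB) : S_CII1 := by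
  intro n G hG Z S1 k D L r hr hdis hL hD
  classical
  have himg : Finset.univ.image r = Zᶜ := by
    ext x
    rw [Finset.mem_image, ← hr.2 x]
    simp
  have hcZ : Zᶜ.card = 2 * k + 1 := by
    rw [← himg, Finset.card_image_of_injective _ hr.1, Finset.card_univ, Fintype.card_fin]
  set m := Z.card with hm
  have hn : 2 * k + 1 + m = n := by
    have := Finset.card_add_card_compl Z
    rw [Fintype.card_fin, hcZ] at this
    omega
  obtain ⟨P, hP, hP1, hP2⟩ := place gon_pos gon_centre centre k m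
  let e2 : Fin m ≃ {x : Fin n // x ∈ Z} := Z.equivFin.symm
  let f : Fin (2 * k + 1) ⊕ Fin m → Fin n := Sum.elim r (fun i => (e2 i : Fin n))
  have hrZ : ∀ i, r i ∉ Z := fun i => Finset.mem_compl.mp ((hr.2 (r i)).mp ⟨i, rfl⟩)
  have hf : Function.Bijective f := by
    rw [Fintype.bijective_iff_injective_and_card]
    refine ⟨?_, by simp [hn]⟩
    rintro (i | i) (j | j) hij
    · exact congrArg Sum.inl (hr.1 hij)
    · exfalso
      have h1 : r i = (e2 j : Fin n) := hij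
      exact hrZ i (h1 ▸ (e2 j).2)
    · exfalso
      have h1 : (e2 i : Fin n) = r j := hij
      exact hrZ j (h1 ▸ (e2 i).2)
    · have h1 : (e2 i : Fin n) = (e2 j : Fin n) := hij
      exact congrArg Sum.inr (e2.injective (Subtype.ext h1))
  let E : Fin (2 * k + 1) ⊕ Fin m ≃ Fin n := Equiv.ofBijective f hf
  have hE1 : ∀ i, E (Sum.inl i) = r i := fun i => rfl
  have hE2 : ∀ i, E (Sum.inr i) = (e2 i : Fin n) := fun i => rfl
  let p : Fin n → ℝ × ℝ := P ∘ E.symm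
  have hp : IsPlacement p := Upper.isPlacement_comp P E hP
  have hZ : ∀ x ∈ Z, ∃ i, x = E (Sum.inr i) := by
    intro x hx
    refine ⟨e2.symm ⟨x, hx⟩, ?_⟩
    rw [hE2]
    simp
  have hZc : ∀ x ∉ Z, ∃ i, x = E (Sum.inl i) := by
    intro x hx
    obtain ⟨i, hi⟩ := (hr.2 x).mpr (Finset.mem_compl.mpr hx)
    exact ⟨i, by rw [hE1, hi]⟩
  have hw : ∀ x y, sepCount p x y = sepCount p y x := fun x y => Upper.sepCount_comm p x y
  have h0 : ∀ x y, sepCount p x y ≤ n ^ 2 := by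
    intro x y
    have := Upper.sepCount_le p x y
    rw [Fintype.card_fin] at this
    rw [sq]
    exact this
  have hB : ∀ x ∈ Z, ∀ y ∉ Z, G.Adj x y → 2 * sepCount p x y ≤ k ^ 2 + 2 * (m * n) := by
    intro x hx y hy _
    obtain ⟨i, rfl⟩ := hZ x hx
    obtain ⟨j, rfl⟩ := hZc y hy
    have h := hP1 j i
    rw [hn] at h
    have h2 : sepCount p (E (Sum.inr i)) (E (Sum.inl j)) = sepCount P (Sum.inr i) (Sum.inl j) :=
      Upper.sepCount_comp P E _ _
    rw [h2, sq]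
    exact h
  have hlt : ∀ (i j : Fin (2 * k + 1)) (T : ℕ), i < j → (j : ℕ) ≤ i + T →
      sepCount p (E (Sum.inl i)) (E (Sum.inl j)) ≤ (T + m) * n := by
    intro i j T hij hT
    have h := hP2 i j hij
    rw [hn] at h
    have h2 : sepCount p (E (Sum.inl i)) (E (Sum.inl j)) = sepCount P (Sum.inl i) (Sum.inl j) :=
      Upper.sepCount_comp P E _ _
    have h3 : j.val - i.val ≤ T := by omega
    rw [h2]
    have h4 : (j.val - i.val) * n ≤ T * n := Nat.mul_le_mul_right n h3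
    have h5 : (T + m) * n = T * n + m * n := by ring
    omega
  have hC1 : ∀ x ∉ Z, ∀ y ∉ Z, G.Adj x y → (x ∈ S1 ∨ y ∈ S1) →
      sepCount p x y ≤ (L + m) * n := by
    intro x hx y hy hadj hor
    obtain ⟨i, rfl⟩ := hZc x hx
    obtain ⟨j, rfl⟩ := hZc y hy
    rcases lt_trichotomy i j with h | h | h
    · exact hlt i j L h (hL i j h hadj hor)
    · subst h
      exact absurd rfl hadj.ne
    · rw [hw]
      exact hlt j i L h (hL j i h hadj.symm hor.symm)
  have hC2 : ∀ x ∉ Z, ∀ y ∉ Z, G.Adj x y → x ∉ S1 → y ∉ S1 →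
      sepCount p x y ≤ (D + m) * n := by
    intro x hx y hy hadj hx1 hy1
    obtain ⟨i, rfl⟩ := hZc x hx
    obtain ⟨j, rfl⟩ := hZc y hy
    rcases lt_trichotomy i j with h | h | h
    · exact hlt i j D h (hD i j h hadj hx1 hy1)
    · subst h
      exact absurd rfl hadj.ne
    · rw [hw]
      exact hlt j i D h (hD j i h hadj.symm hy1 hx1)
  have hmain := total G (sepCount p) hEA hEB hG hw Z S1 hdis _ _ _ _ h0 hB hC1 hC2
  have hOCN : OCN G ≤ crossings G p := Nat.sInf_le ⟨p, hp, rfl⟩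
  have h2c : 2 * crossings G p = F G (sepCount p) Finset.univ Finset.univ := by
    rw [Upper.two_mul_crossings]
    rfl
  rw [← h2c] at hmain
  exact (Nat.mul_le_mul_left 2 hOCN).trans hmain

end Pool.Agent.Lib.MP_00ece3_co.EX
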