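import Pool.Agent.Lib.MP_00ece3_co.EX.SpecD

/-!
# Project EX, part D: the order for a small set with few edges (CII2)
-/

set_option autoImplicit false

namespace Pool.Agent.Lib.MP_00ece3_co.EX

open Pool.Agent.Lib.MP_00ece3_co

namespace CII2Aux

theorem exists_list {n : ℕ} (S : Finset (Fin n)) : ∃ f : Fin S.card → Fin n, Ls f S := by
  refine ⟨fun i => (S.equivFin.symm i : Fin n), ?_, ?_⟩
  · intro i j h
    exact S.equivFin.symm.injective (Subtype.ext h)
  · intro x
    constructor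
    · rintro ⟨i, rfl⟩
      exact (S.equivFin.symm i).2
    · intro hx
      exact ⟨S.equivFin ⟨x, hx⟩, by simp⟩

theorem cb_sub {n : ℕ} {G : SimpleGraph (Fin n)} {Z1 A : Finset (Fin n)} {D : ℕ}
    (h : Cb G Z1 D) (hA : ∀ x ∈ A, x ∉ Z1) : Cb G Aᶜ D := by
  intro C hC hc
  refine h C ?_ hc
  rw [Finset.disjoint_left] at hC ⊢
  intro x hx
  have h1 := hC hx
  rw [Finset.mem_compl, not_not] at h1
  exact hA x h1

theorem card_le_eO {n : ℕ} {G : SimpleGraph (Fin n)} {S1 Y A : Finset (Fin n)}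
    (hA : ∀ x ∈ A, x ∈ Y ∧ ∃ s ∈ S1, G.Adj s x) : A.card ≤ eO G S1 Y := by
  classical
  unfold eO
  refine le_trans ?_ (Finset.card_image_le (f := Prod.snd))
  refine Finset.card_le_card fun x hx => ?_
  obtain ⟨h1, s, hs, h2⟩ := hA x hx
  rw [Finset.mem_image]
  refine ⟨(s, x), ?_, rfl⟩
  rw [Finset.mem_filter, Finset.mem_product]
  exact ⟨⟨hs, h1⟩, h2⟩

end CII2Aux

open CII2Aux in
theorem tCII2 (hOrdR : S_OrdR) (hBlk : S_Blk) : S_CII2 := by
  classical
  intro n G S1 Z1 D hS hCb hsep hn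
  set A : Finset (Fin n) := Z1ᶜ.filter (fun x => ∃ s ∈ S1, G.Adj s x) with hA
  set B : Finset (Fin n) := Z1ᶜ.filter (fun x => ∀ s ∈ S1, ¬ G.Adj s x) with hB
  have mA : ∀ x, x ∈ A ↔ x ∉ Z1 ∧ ∃ s ∈ S1, G.Adj s x := by
    intro x
    rw [hA, Finset.mem_filter, Finset.mem_compl]
  have mB : ∀ x, x ∈ B ↔ x ∉ Z1 ∧ ∀ s ∈ S1, ¬ G.Adj s x := by
    intro x
    rw [hB, Finset.mem_filter, Finset.mem_compl]
  have hAB : ∀ x, x ∉ Z1 → x ∈ A ∨ x ∈ B := by
    intro x hx
    by_cases h : ∃ s ∈ S1, G.Adj s x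
    · exact Or.inl ((mA x).2 ⟨hx, h⟩)
    · push Not at h
      exact Or.inr ((mB x).2 ⟨hx, h⟩)
  obtain ⟨f, hf⟩ := exists_list S1
  obtain ⟨g, hg, hg2⟩ := hOrdR n G A D (cb_sub hCb fun x hx => ((mA x).1 hx).1)
  obtain ⟨h, hh, hh2⟩ := hOrdR n G B D (cb_sub hCb fun x hx => ((mB x).1 hx).1)
  have d1 : Disjoint S1 A := by
    rw [Finset.disjoint_left]
    exact fun x hx hx2 => ((mA x).1 hx2).1 (hS hx)
  have d2 : Disjoint S1 B := by
    rw [Finset.disjoint_left]
    exact fun x hx hx2 => ((mB x).1 hx2).1 (hS hx)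
  have d3 : Disjoint A B := by
    rw [Finset.disjoint_left]
    intro x hx hx2
    obtain ⟨s, hs, hs2⟩ := ((mA x).1 hx).2
    exact ((mB x).1 hx2).2 s hs hs2
  obtain ⟨r, hr, hi, -, ra, rb⟩ := hBlk n S1.card A.card B.card f g h S1 A B hf hg hh d1 d2 d3
  -- the length
  have hpos : 0 < A.card + B.card := by
    have h1 : ∃ x, x ∉ Z1 := by
      by_contra hcon
      push Not at hcon
      have h2 : Z1 = Finset.univ := Finset.eq_univ_iff_forall.2 hcon
      rw [h2, Finset.card_univ, Fintype.card_fin] at hn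
      exact lt_irrefl _ hn
    obtain ⟨x, hx⟩ := h1
    rcases hAB x hx with h2 | h2
    · have := Finset.card_pos.2 ⟨x, h2⟩
      omega
    · have := Finset.card_pos.2 ⟨x, h2⟩
      omega
  obtain ⟨k, hk1, hk2⟩ : ∃ k, 2 * k + 1 ≤ S1.card + A.card + B.card ∧
      S1.card + A.card + B.card ≤ 2 * k + 2 :=
    ⟨(S1.card + A.card + B.card - 1) / 2, by omega, by omega⟩
  have hmem : ∀ x, x ∈ S1 ∪ A ∪ B ↔ (x ∈ S1 ∨ x ∉ Z1) := by
    intro x
    rw [Finset.mem_union, Finset.mem_union]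
    constructor
    · rintro ((h1 | h1) | h1)
      · exact Or.inl h1
      · exact Or.inr ((mA x).1 h1).1
      · exact Or.inr ((mB x).1 h1).1
    · rintro (h1 | h1)
      · exact Or.inl (Or.inl h1)
      · rcases hAB x h1 with h2 | h2
        · exact Or.inl (Or.inr h2)
        · exact Or.inr h2
  set T : Finset (Fin (S1.card + A.card + B.card)) :=
    Finset.univ.filter (fun j => 2 * k + 1 ≤ (j : ℕ)) with hT
  have mT : ∀ j, j ∈ T ↔ 2 * k + 1 ≤ (j : ℕ) := by
    intro j
    rw [hT, Finset.mem_filter]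
    exact ⟨fun h => h.2, fun h => ⟨Finset.mem_univ _, h⟩⟩
  have hTc : T.card ≤ 1 := by
    rw [Finset.card_le_one]
    intro x hx y hy
    have h1 := (mT x).1 hx
    have h2 := (mT y).1 hy
    have h3 := x.2
    have h4 := y.2
    apply Fin.ext
    omega
  have hTS : ∀ j ∈ T, r j ∉ S1 := by
    intro j hj hjS
    have h1 := (mT j).1 hj
    have h2 := (hi j).1.1 hjS
    omega
  refine ⟨Z1 ∪ T.image r, k, fun i => r (Fin.castLE hk1 i), Finset.subset_union_left, ?_,
    ⟨?_, ?_⟩, ?_, ?_⟩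
  · exact (Finset.card_union_le _ _).trans
      (Nat.add_le_add_left (Finset.card_image_le.trans hTc) _)
  · intro i j hij
    have h1 := hr.1 hij
    exact Fin.castLE_injective hk1 h1
  · intro x
    rw [Finset.mem_compl, Finset.mem_sdiff, Finset.mem_union, Finset.mem_image]
    constructor
    · rintro ⟨i, rfl⟩
      rintro ⟨h1 | ⟨j, hj, hji⟩, h2⟩
      · have h3 : r (Fin.castLE hk1 i) ∈ S1 ∪ A ∪ B := (hr.2 _).1 ⟨_, rfl⟩
        rcases (hmem _).1 h3 with h4 | h4
        · exact h2 h4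
        · exact h4 h1
      · have h3 := hr.1 hji
        have h4 := (mT j).1 hj
        rw [h3] at h4
        have h5 := i.2
        rw [Fin.val_castLE] at h4
        omega
    · intro hx
      have h1 : x ∈ S1 ∪ A ∪ B := by
        rw [hmem]
        by_contra hcon
        push Not at hcon
        exact hx ⟨Or.inl hcon.2, hcon.1⟩
      obtain ⟨j, hj⟩ := (hr.2 x).2 h1
      have h2 : ¬ 2 * k + 1 ≤ (j : ℕ) := by
        intro h3
        have h4 := (mT j).2 h3
        refine hx ⟨Or.inr ⟨j, h4, hj⟩, ?_⟩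
        rw [← hj]
        exact hTS j h4
      refine ⟨⟨j, by omega⟩, ?_⟩
      rw [← hj]
      rfl
  · intro i j hij hadj hor
    have hA2 : A.card ≤ eO G S1 Z1ᶜ := card_le_eO fun x hx => by
      obtain ⟨h1, h2⟩ := (mA x).1 hx
      exact ⟨Finset.mem_compl.2 h1, h2⟩
    have hj : (j : ℕ) < S1.card + A.card := by
      by_cases hjS : r (Fin.castLE hk1 j) ∈ S1
      · have h1 := (hi _).1.1 hjS
        rw [Fin.val_castLE] at h1
        omega
      · have hiS : r (Fin.castLE hk1 i) ∈ S1 := by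
          rcases hor with h1 | h1
          · exact h1
          · exact absurd h1 hjS
        have h3 : r (Fin.castLE hk1 j) ∈ S1 ∪ A ∪ B := (hr.2 _).1 ⟨_, rfl⟩
        have h4 : r (Fin.castLE hk1 j) ∉ Z1 := by
          rcases (hmem _).1 h3 with h4 | h4
          · exact absurd h4 hjS
          · exact h4
        have h5 : r (Fin.castLE hk1 j) ∈ A := (mA _).2 ⟨h4, _, hiS, hadj⟩
        have h6 := ((hi _).2.1.1 h5).2
        rw [Fin.val_castLE] at h6
        exact h6
    omega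
  · intro i j hij hadj hiS hjS
    replace hadj : G.Adj (r (Fin.castLE hk1 i)) (r (Fin.castLE hk1 j)) := hadj
    have key : ∀ m : Fin (2 * k + 1), r (Fin.castLE hk1 m) ∉ S1 →
        (r (Fin.castLE hk1 m) ∈ A ∧ ∃ m' : Fin A.card, (m : ℕ) = S1.card + m' ∧
          r (Fin.castLE hk1 m) = g m') ∨
        (r (Fin.castLE hk1 m) ∈ B ∧ ∃ m' : Fin B.card, (m : ℕ) = S1.card + A.card + m' ∧
          r (Fin.castLE hk1 m) = h m') := by
      intro m hm
      have h3 : r (Fin.castLE hk1 m) ∈ S1 ∪ A ∪ B := (hr.2 _).1 ⟨_, rfl⟩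
      have hm2 := m.2
      rw [Finset.mem_union, Finset.mem_union] at h3
      rcases h3 with (h3 | h3) | h3
      · exact absurd h3 hm
      · left
        obtain ⟨h4, h5⟩ := (hi _).2.1.1 h3
        rw [Fin.val_castLE] at h4 h5
        refine ⟨h3, ⟨(m : ℕ) - S1.card, by omega⟩, ?_, ?_⟩
        · show (m : ℕ) = S1.card + ((m : ℕ) - S1.card)
          omega
        · refine ra _ _ ?_
          rw [Fin.val_castLE]
          show (m : ℕ) = S1.card + ((m : ℕ) - S1.card)
          omega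
      · right
        have h4 := (hi _).2.2.1 h3
        rw [Fin.val_castLE] at h4
        refine ⟨h3, ⟨(m : ℕ) - (S1.card + A.card), by omega⟩, ?_, ?_⟩
        · show (m : ℕ) = S1.card + A.card + ((m : ℕ) - (S1.card + A.card))
          omega
        · refine rb _ _ ?_
          rw [Fin.val_castLE]
          show (m : ℕ) = S1.card + A.card + ((m : ℕ) - (S1.card + A.card))
          omega
    have hij' : (i : ℕ) < j := hij
    rcases key i hiS with ⟨hi1, i', hi2, hi3⟩ | ⟨hi1, i', hi2, hi3⟩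
    · rcases key j hjS with ⟨hj1, j', hj2, hj3⟩ | ⟨hj1, j', hj2, hj3⟩
      · rw [hi3, hj3] at hadj
        have h1 := hg2 i' j' (by rw [Fin.lt_def]; omega) hadj
        omega
      · obtain ⟨a1, a2⟩ := (mA _).1 hi1
        obtain ⟨b1, b2⟩ := (mB _).1 hj1
        exact absurd hadj (hsep _ _ a1 b1 a2 b2)
    · rcases key j hjS with ⟨hj1, j', hj2, hj3⟩ | ⟨hj1, j', hj2, hj3⟩
      · obtain ⟨a1, a2⟩ := (mA _).1 hj1
        obtain ⟨b1, b2⟩ := (mB _).1 hi1
        exact absurd hadj.symm (hsep _ _ a1 b1 a2 b2)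
      · rw [hi3, hj3] at hadj
        have h1 := hh2 i' j' (by rw [Fin.lt_def]; omega) hadj
        omega

end Pool.Agent.Lib.MP_00ece3_co.EX
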