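import Pool.Agent.Lib.MP_00ece3_co.EX.SpecB
import Pool.Agent.Lib.MP_00ece3_co.Upper

/-!
MP_00ece3_co, EX/CrG: graphs with two hubs.
-/

set_option autoImplicit false
set_option linter.unusedVariables false

namespace Pool.Agent.Lib.MP_00ece3_co.EX

open Pool.Agent.Lib.MP_00ece3_co

namespace CrGAux

private lemma sp_symm (a b x y : ℝ × ℝ) : sp a b x y = sp a b y x := by
  unfold sp Sp
  rw [mul_comm]

private lemma N2_symm {m : ℕ} (P : Fin m → ℝ × ℝ) (u v x y : ℝ × ℝ) :
    N2 P u v x y = N2 P u v y x := by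
  unfold N2
  simp only [sp_symm _ _ x y]

private lemma hub_ne (m : ℕ) : kU m ≠ kV m := by
  intro h
  have h1 := congrArg Prod.snd h
  unfold kU kV hh at h1
  simp only at h1
  have h2 : (4 : ℝ) ^ ((m + 1) / 2) < 4 ^ ((m + 1) / 2 + 1) :=
    pow_lt_pow_right₀ (by norm_num) (Nat.lt_succ_self _)
  linarith

private lemma perm {x y z : ℝ × ℝ} (h : orient x y z ≠ 0) : orient x z y ≠ 0 ∧
    orient y x z ≠ 0 ∧ orient y z x ≠ 0 ∧ orient z x y ≠ 0 ∧ orient z y x ≠ 0 := by
  have e1 : orient x z y = -orient x y z := by unfold orient; ring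
  have e2 : orient y x z = -orient x y z := by unfold orient; ring
  have e3 : orient y z x = orient x y z := by unfold orient; ring
  have e4 : orient z x y = orient x y z := by unfold orient; ring
  have e5 : orient z y x = -orient x y z := by unfold orient; ring
  rw [e1, e2, e3, e4, e5]
  exact ⟨neg_ne_zero.2 h, neg_ne_zero.2 h, h, h, neg_ne_zero.2 h⟩

/-- splitting a sum over all vertices -/
private lemma split {n m : ℕ} {u0 v0 : Fin n} {r : Fin m → Fin n} (huv : u0 ≠ v0)
    (hr : Function.Injective r) (hrange : ∀ x, (∃ i, r i = x) ↔ x ≠ u0 ∧ x ≠ v0)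
    (f : Fin n → ℤ) : ∑ x, f x = f u0 + f v0 + ∑ i, f (r i) := by
  classical
  have h1 : (Finset.univ : Finset (Fin n)) = insert u0 (insert v0 (Finset.univ.image r)) := by
    ext x
    simp only [Finset.mem_univ, true_iff, Finset.mem_insert, Finset.mem_image, true_and]
    by_cases hu : x = u0
    · exact Or.inl hu
    · by_cases hv : x = v0
      · exact Or.inr (Or.inl hv)
      · exact Or.inr (Or.inr ((hrange x).2 ⟨hu, hv⟩))
  have h2 : v0 ∉ Finset.univ.image r := by
    intro h
    obtain ⟨i, -, hi⟩ := Finset.mem_image.1 h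
    exact ((hrange v0).1 ⟨i, hi⟩).2 rfl
  have h3 : u0 ∉ insert v0 (Finset.univ.image r) := by
    intro h
    rcases Finset.mem_insert.1 h with h | h
    · exact huv h
    · obtain ⟨i, -, hi⟩ := Finset.mem_image.1 h
      exact ((hrange u0).1 ⟨i, hi⟩).1 rfl
  rw [h1, Finset.sum_insert h3, Finset.sum_insert h2, Finset.sum_image fun a _ b _ h => hr h,
    add_assoc]

end CrGAux

open Classical in
open CrGAux in
theorem tCrG (hSepR : S_SepR) (hKGP : S_KGP) (hPX : S_PX) : S_CrG := by
  intro n m G u0 v0 r huv hr hrange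
  obtain ⟨g1, g2, g3, g4⟩ := hKGP m
  have o1 : ∀ a b : ℝ × ℝ, orient a a b = 0 := fun a b => by unfold orient; ring
  have o2 : ∀ a b : ℝ × ℝ, orient a b a = 0 := fun a b => by unfold orient; ring
  -- the placement
  obtain ⟨p, hp⟩ : ∃ p : Fin n → ℝ × ℝ, p = fun x => if x = u0 then kU m else
      if x = v0 then kV m else if h : ∃ i, r i = x then kP m h.choose else (0, 0) := ⟨_, rfl⟩
  have pu : p u0 = kU m := by
    rw [hp]
    exact if_pos rfl
  have pv : p v0 = kV m := by
    rw [hp]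
    simp only
    rw [if_neg (Ne.symm huv)]
    exact if_pos trivial
  have pr : ∀ i, p (r i) = kP m i := by
    intro i
    have h1 := (hrange (r i)).1 ⟨i, rfl⟩
    have h2 : ∃ j, r j = r i := ⟨i, rfl⟩
    rw [hp]
    simp only
    rw [if_neg h1.1, if_neg h1.2, dif_pos h2, hr h2.choose_spec]
  have hcase : ∀ x, x = u0 ∨ x = v0 ∨ ∃ i, r i = x := by
    intro x
    by_cases hu : x = u0
    · exact Or.inl hu
    · by_cases hv : x = v0
      · exact Or.inr (Or.inl hv)
      · exact Or.inr (Or.inr ((hrange x).2 ⟨hu, hv⟩))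
  have k1 : ∀ i j, i ≠ j → kP m i ≠ kP m j := by
    intro i j hij h
    apply g1 i j hij
    rw [h]
    exact o1 _ _
  have k2 : ∀ i, kP m i ≠ kU m := by
    intro i h
    apply g3 i
    rw [h]
    exact o1 _ _
  have k3 : ∀ i, kP m i ≠ kV m := by
    intro i h
    apply g3 i
    rw [h]
    exact o2 _ _
  have hinj : Function.Injective p := by
    intro x y hxy
    rcases hcase x with rfl | rfl | ⟨i, rfl⟩ <;> rcases hcase y with rfl | rfl | ⟨j, rfl⟩
    · rfl
    · rw [pu, pv] at hxy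
      exact absurd hxy (hub_ne m)
    · rw [pu, pr] at hxy
      exact absurd hxy.symm (k2 j)
    · rw [pu, pv] at hxy
      exact absurd hxy.symm (hub_ne m)
    · rfl
    · rw [pv, pr] at hxy
      exact absurd hxy.symm (k3 j)
    · rw [pu, pr] at hxy
      exact absurd hxy (k2 i)
    · rw [pv, pr] at hxy
      exact absurd hxy (k3 i)
    · rw [pr, pr] at hxy
      by_contra hne
      exact k1 i j (fun h => hne (by rw [h])) hxy
  have G1 : ∀ {a b : Fin n} {i j : Fin m}, a = r i → b = r j → a ≠ b →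
      orient (kP m i) (kP m j) (kU m) ≠ 0 := fun ha hb h => g1 _ _ fun e => h (by rw [ha, hb, e])
  have G2 : ∀ {a b : Fin n} {i j : Fin m}, a = r i → b = r j → a ≠ b →
      orient (kP m i) (kP m j) (kV m) ≠ 0 := fun ha hb h => g2 _ _ fun e => h (by rw [ha, hb, e])
  have G4 : ∀ {a b c : Fin n} {i j k : Fin m}, a = r i → b = r j → c = r k → a ≠ b → a ≠ c →
      b ≠ c → orient (kP m i) (kP m j) (kP m k) ≠ 0 := fun ha hb hc h h' h'' =>
    g4 _ _ _ (fun e => h (by rw [ha, hb, e])) (fun e => h' (by rw [ha, hc, e]))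
      fun e => h'' (by rw [hb, hc, e])
  have hcase' : ∀ x, (x = u0 ∧ p x = kU m) ∨ (x = v0 ∧ p x = kV m) ∨
      ∃ i, x = r i ∧ p x = kP m i := by
    intro x
    rcases hcase x with h | h | ⟨i, h⟩
    · exact Or.inl ⟨h, by rw [h, pu]⟩
    · exact Or.inr (Or.inl ⟨h, by rw [h, pv]⟩)
    · exact Or.inr (Or.inr ⟨i, h.symm, by rw [← h, pr]⟩)
  have hgen : ∀ a b c, a ≠ b → a ≠ c → b ≠ c → orient (p a) (p b) (p c) ≠ 0 := by
    intro a b c hab hac hbc
    rcases hcase' a with ⟨ha, ea⟩ | ⟨ha, ea⟩ | ⟨i, ha, ea⟩ <;>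
      rcases hcase' b with ⟨hb, eb⟩ | ⟨hb, eb⟩ | ⟨j, hb, eb⟩ <;>
      rcases hcase' c with ⟨hc, ec⟩ | ⟨hc, ec⟩ | ⟨k, hc, ec⟩ <;> rw [ea, eb, ec] <;>
      first
      | exact absurd (ha.trans hb.symm) hab
      | exact absurd (ha.trans hc.symm) hac
      | exact absurd (hb.trans hc.symm) hbc
      | exact g3 _
      | exact (perm (g3 _)).1
      | exact (perm (g3 _)).2.1
      | exact (perm (g3 _)).2.2.1
      | exact (perm (g3 _)).2.2.2.1
      | exact (perm (g3 _)).2.2.2.2
      | exact G1 ha hb hab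
      | exact (perm (G1 ha hc hac)).1
      | exact (perm (G1 hb hc hbc)).2.2.2.1
      | exact G2 ha hb hab
      | exact (perm (G2 ha hc hac)).1
      | exact (perm (G2 hb hc hbc)).2.2.2.1
      | exact G4 ha hb hc hab hac hbc
  have hle : OCN G ≤ crossings G p := Nat.sInf_le ⟨p, ⟨hinj, hgen⟩, rfl⟩
  have hP : (fun i => p (r i)) = kP m := funext pr
  have hN : ∀ x y, 2 * (sepCount p x y : ℤ) = N2 (kP m) (kU m) (kV m) (p x) (p y) := by
    intro x y
    have h := hSepR n m p u0 v0 r huv hr hrange x y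
    rw [hP, pu, pv] at h
    exact h
  obtain ⟨g, hg⟩ : ∃ g : Fin n → Fin n → ℤ, g = fun x y =>
      if G.Adj x y then N2 (kP m) (kU m) (kV m) (p x) (p y) else 0 := ⟨_, rfl⟩
  have gs : ∀ x y, g x y = g y x := by
    intro x y
    rw [hg]
    simp only
    rw [N2_symm, G.adj_comm]
  have g0 : ∀ x, g x x = 0 := by
    intro x
    rw [hg]
    exact if_neg (G.loopless.irrefl x)
  have htot : (4 * crossings G p : ℤ) = ∑ x, ∑ y, g x y := by
    have h := Upper.two_mul_crossings G p
    have h' : (2 * crossings G p : ℤ) = ∑ x : Fin n, ∑ y : Fin n,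
        if G.Adj x y then (sepCount p x y : ℤ) else 0 := by
      have h3 := congrArg (fun t : ℕ => (t : ℤ)) h
      push_cast at h3
      exact h3
    calc (4 * crossings G p : ℤ) = 2 * (2 * crossings G p : ℤ) := by ring
      _ = ∑ x, ∑ y, g x y := by
        rw [h', Finset.mul_sum]
        refine Finset.sum_congr rfl fun x _ => ?_
        rw [Finset.mul_sum]
        refine Finset.sum_congr rfl fun y _ => ?_
        rw [hg]
        simp only
        split_ifs
        · exact hN x y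
        · rfl
  have hsp := split huv hr hrange
  have hsum : ∑ x, ∑ y, g x y = 2 * ∑ i, g u0 (r i) + 2 * ∑ i, g v0 (r i) + 2 * g u0 v0 +
      ∑ i, ∑ j, g (r i) (r j) := by
    rw [hsp]
    simp only [hsp, Finset.sum_add_distrib, g0]
    rw [gs v0 u0, Finset.sum_congr rfl fun i _ => gs (r i) u0,
      Finset.sum_congr rfl fun i _ => gs (r i) v0]
    ring
  have hfin : (4 * OCN G : ℤ) ≤ 4 * crossings G p := by exact_mod_cast Nat.mul_le_mul_left 4 hle
  refine hfin.trans (le_of_eq ?_)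
  rw [htot, hsum, hg]
  have hU : ∀ i, N2 (kP m) (kU m) (kV m) (kU m) (kP m i) =
      N2 (kP m) (kU m) (kV m) (kP m i) (kU m) := fun i => N2_symm _ _ _ _ _
  have hV : ∀ i, N2 (kP m) (kU m) (kV m) (kV m) (kP m i) =
      N2 (kP m) (kU m) (kV m) (kP m i) (kV m) := fun i => N2_symm _ _ _ _ _
  simp only [pu, pv, pr, hU, hV]

end Pool.Agent.Lib.MP_00ece3_co.EX
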