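import Pool.Agent.Lib.MP_00ece3_co.EX.SpecA
set_option autoImplicit false

/-!
MP_00ece3_co, project EX, module CrK: the crossings of `K_2 + P_m` (helper9).
-/

namespace Pool.Agent.Lib.MP_00ece3_co.EX

open Pool.Agent.Lib.MP_00ece3_co

namespace CrKAux

theorem sp_symm (a b x y : ℝ × ℝ) : sp a b x y = sp a b y x := by
  unfold sp Sp
  rw [mul_comm]

theorem N2_symm {m : ℕ} (P : Fin m → ℝ × ℝ) (u v x y : ℝ × ℝ) : N2 P u v x y = N2 P u v y x := by
  unfold N2
  simp only [sp_symm _ _ x y]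

theorem range_iff (m : ℕ) (x : Fin (m + 2)) : (∃ i : Fin m, i.succ.succ = x) ↔ x ≠ 0 ∧ x ≠ 1 := by
  constructor
  · rintro ⟨i, rfl⟩
    constructor
    · exact Fin.succ_ne_zero _
    · intro h
      have := congrArg Fin.val h
      simp at this
  · rintro ⟨h0, h1⟩
    have hx0 : (x : ℕ) ≠ 0 := fun h => h0 (Fin.ext h)
    have hx1 : (x : ℕ) ≠ 1 := fun h => h1 (Fin.ext (by simpa using h))
    refine ⟨⟨(x : ℕ) - 2, by have := x.isLt; omega⟩, Fin.ext ?_⟩
    simp only [Fin.val_succ]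
    omega

theorem cond_ss (m : ℕ) (i j : Fin m) :
    (i.succ.succ < j.succ.succ ∧ (Kg (m + 2)).Adj i.succ.succ j.succ.succ) ↔ (i : ℕ) + 1 = j := by
  show (i.succ.succ < j.succ.succ ∧ (i.succ.succ ≠ j.succ.succ ∧ ((i.succ.succ).val < 2 ∨
    (j.succ.succ).val < 2 ∨ (i.succ.succ).val + 1 = (j.succ.succ).val ∨
      (j.succ.succ).val + 1 = (i.succ.succ).val))) ↔ (i : ℕ) + 1 = j
  rw [Fin.lt_def, Ne, Fin.ext_iff]
  simp only [Fin.val_succ]
  omega

theorem cond_hub (m : ℕ) (x y : Fin (m + 2)) (hx : (x : ℕ) < 2) :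
    (x < y ∧ (Kg (m + 2)).Adj x y) ↔ x < y := by
  show (x < y ∧ (x ≠ y ∧ (x.val < 2 ∨ y.val < 2 ∨ x.val + 1 = y.val ∨ y.val + 1 = x.val))) ↔ x < y
  constructor
  · exact fun h => h.1
  · exact fun h => ⟨h, h.ne, Or.inl hx⟩

theorem path_exch {m : ℕ} (f : Fin m → Fin m → Fin m → ℤ) :
    ∑ a, pathSum (f a) = pathSum (fun i j => ∑ a, f a i j) := by
  unfold pathSum
  rw [Finset.sum_comm]
  refine Finset.sum_congr rfl fun i _ => ?_
  rw [Finset.sum_comm]
  refine Finset.sum_congr rfl fun j _ => ?_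
  split_ifs with h
  · rfl
  · simp

end CrKAux

open CrKAux in
theorem tCrK (hSepR : S_SepR) : S_CrK := by
  classical
  intro m p
  have hsep : ∀ x y, 2 * (sepCount p x y : ℤ) =
      N2 (fun i : Fin m => p i.succ.succ) (p 0) (p 1) (p x) (p y) := fun x y =>
    hSepR (m + 2) m p 0 1 (fun i => i.succ.succ)
      (by intro h; have := congrArg Fin.val h; simp at this)
      (fun i j h => Fin.succ_injective _ (Fin.succ_injective _ h)) (range_iff m) x y
  set P : Fin m → ℝ × ℝ := fun i => p i.succ.succ with hP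
  have h1 : 2 * (crossings (Kg (m + 2)) p : ℤ) =
      ∑ x : Fin (m + 2), ∑ y : Fin (m + 2),
        if x < y ∧ (Kg (m + 2)).Adj x y then N2 P (p 0) (p 1) (p x) (p y) else 0 := by
    unfold crossings
    push_cast
    rw [Finset.mul_sum]
    refine Finset.sum_congr rfl fun x _ => ?_
    rw [Finset.mul_sum]
    refine Finset.sum_congr rfl fun y _ => ?_
    rw [← hsep x y]
    split_ifs with h
    · rfl
    · simp
  have hpath : (∑ i : Fin m, ∑ j : Fin m,
      if (i.succ.succ < j.succ.succ ∧ (Kg (m + 2)).Adj i.succ.succ j.succ.succ) then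
        N2 P (p 0) (p 1) (p i.succ.succ) (p j.succ.succ) else 0) =
      PR2 P + 2 * ∑ a, PU P (p 0) a + 2 * ∑ a, PU P (p 1) a + 2 * P0 P (p 0) (p 1) := by
    unfold PU PR2 P0
    rw [path_exch (fun a i j => sp (P a) (p 0) (P i) (P j)),
      path_exch (fun a i j => sp (P a) (p 1) (P i) (P j))]
    unfold pathSum
    simp only [Finset.mul_sum]
    simp only [← Finset.sum_add_distrib]
    refine Finset.sum_congr rfl fun i _ => Finset.sum_congr rfl fun j _ => ?_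
    by_cases h : (i : ℕ) + 1 = j
    · rw [if_pos ((cond_ss m i j).2 h)]
      simp only [if_pos h]
      unfold N2
      simp only [Finset.mul_sum]
      rfl
    · rw [if_neg (fun h' => h ((cond_ss m i j).1 h'))]
      simp only [if_neg h]
      simp
  have key : ∀ G : Fin (m + 2) → ℤ, ∑ y, G y = G 0 + G 1 + ∑ j : Fin m, G j.succ.succ := by
    intro G
    rw [Fin.sum_univ_succ, Fin.sum_univ_succ, ← add_assoc]
    rfl
  have v0 : ((0 : Fin (m + 2)) : ℕ) = 0 := rfl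
  have v1 : ((1 : Fin (m + 2)) : ℕ) = 1 := by simp
  have c01 : (0 : Fin (m + 2)) < 1 := by rw [Fin.lt_def, v0, v1]; omega
  have c0 : ∀ j : Fin m, (0 : Fin (m + 2)) < j.succ.succ := fun j => by
    rw [Fin.lt_def, v0]
    simp only [Fin.val_succ]
    omega
  have c1 : ∀ j : Fin m, (1 : Fin (m + 2)) < j.succ.succ := fun j => by
    rw [Fin.lt_def, v1]
    simp only [Fin.val_succ]
    omega
  have e1 : ∀ y : Fin (m + 2), 0 < y →
      (if (0 : Fin (m + 2)) < y ∧ (Kg (m + 2)).Adj 0 y then N2 P (p 0) (p 1) (p 0) (p y) else 0) =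
        N2 P (p 0) (p 1) (p 0) (p y) := fun y hy => if_pos ((cond_hub m 0 y (by rw [v0]; omega)).2 hy)
  have e2 : ∀ y : Fin (m + 2), 1 < y →
      (if (1 : Fin (m + 2)) < y ∧ (Kg (m + 2)).Adj 1 y then N2 P (p 0) (p 1) (p 1) (p y) else 0) =
        N2 P (p 0) (p 1) (p 1) (p y) := fun y hy => if_pos ((cond_hub m 1 y (by rw [v1]; omega)).2 hy)
  have e3 : ∀ x y : Fin (m + 2), ¬ x < y →
      (if x < y ∧ (Kg (m + 2)).Adj x y then N2 P (p 0) (p 1) (p x) (p y) else 0) = 0 :=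
    fun x y h => if_neg fun h' => h h'.1
  rw [h1, key]
  rw [key (fun y => if (0 : Fin (m + 2)) < y ∧ (Kg (m + 2)).Adj 0 y then
    N2 P (p 0) (p 1) (p 0) (p y) else 0)]
  rw [key (fun y => if (1 : Fin (m + 2)) < y ∧ (Kg (m + 2)).Adj 1 y then
    N2 P (p 0) (p 1) (p 1) (p y) else 0)]
  simp only [key (fun y => if (Fin.succ (Fin.succ _) : Fin (m + 2)) < y ∧
    (Kg (m + 2)).Adj (Fin.succ (Fin.succ _)) y then
    N2 P (p 0) (p 1) (p (Fin.succ (Fin.succ _))) (p y) else 0)]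
  have s0 : ∑ j : Fin m, (if (0 : Fin (m + 2)) < j.succ.succ ∧ (Kg (m + 2)).Adj 0 j.succ.succ then
      N2 P (p 0) (p 1) (p 0) (p j.succ.succ) else 0) = ∑ c, N2 P (p 0) (p 1) (P c) (p 0) :=
    Finset.sum_congr rfl fun j _ => by rw [e1 _ (c0 j), N2_symm]
  have s1 : ∑ j : Fin m, (if (1 : Fin (m + 2)) < j.succ.succ ∧ (Kg (m + 2)).Adj 1 j.succ.succ then
      N2 P (p 0) (p 1) (p 1) (p j.succ.succ) else 0) = ∑ c, N2 P (p 0) (p 1) (P c) (p 1) :=
    Finset.sum_congr rfl fun j _ => by rw [e2 _ (c1 j), N2_symm]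
  rw [s0, s1, e1 1 c01, e3 0 0 (lt_irrefl _), e3 1 0 (not_lt.2 c01.le), e3 1 1 (lt_irrefl _)]
  rw [Finset.sum_add_distrib, Finset.sum_add_distrib, hpath]
  have z0 : ∑ i : Fin m, (if i.succ.succ < (0 : Fin (m + 2)) ∧ (Kg (m + 2)).Adj i.succ.succ 0 then
      N2 P (p 0) (p 1) (p i.succ.succ) (p 0) else 0) = 0 :=
    Finset.sum_eq_zero fun i _ => e3 i.succ.succ 0 (not_lt.2 (c0 i).le)
  have z1 : ∑ i : Fin m, (if i.succ.succ < (1 : Fin (m + 2)) ∧ (Kg (m + 2)).Adj i.succ.succ 1 then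
      N2 P (p 0) (p 1) (p i.succ.succ) (p 1) else 0) = 0 :=
    Finset.sum_eq_zero fun i _ => e3 i.succ.succ 1 (not_lt.2 (c1 i).le)
  rw [z0, z1]
  unfold H2
  ring

end Pool.Agent.Lib.MP_00ece3_co.EX
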