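import Pool.Agent.Lib.MP_00ece3_co.EX.SpecC

/-!
# Project EX, module Cyc3: the graph of common neighbours has no cycle
-/

set_option autoImplicit false

namespace Pool.Agent.Lib.MP_00ece3_co.EX

open Pool.Agent.Lib.MP_00ece3_co

namespace Cyc3Aux

variable {C : Type} {Γ : SimpleGraph C} {b : Prop}

theorem conn_image {X : Set C} (h : (Γ.induce X).Connected) :
    ((Jn Γ b).induce (Sum.inl '' X)).Connected := by
  let f : Γ.induce X →g (Jn Γ b).induce (Sum.inl '' X) :=
    { toFun := fun x => ⟨Sum.inl x.1, ⟨x.1, x.2, rfl⟩⟩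
      map_rel' := fun {x y} h => h }
  refine h.map f ?_
  rintro ⟨_, x, hx, rfl⟩
  exact ⟨⟨x, hx⟩, rfl⟩

/-- The branch sets. -/
def BB (X : Fin 3 → Set C) (D : Set (C ⊕ Bool)) : Fin 3 ⊕ Bool → Set (C ⊕ Bool)
  | .inl i => Sum.inl '' X i
  | .inr true => {Sum.inr true}
  | .inr false => D

theorem minor (X : Fin 3 → Set C) (hX : ∀ i, (Γ.induce (X i)).Connected)
    (hd : ∀ i j, i ≠ j → Disjoint (X i) (X j))
    (ha : ∀ i j, i ≠ j → ∃ a ∈ X i, ∃ c ∈ X j, Γ.Adj a c) (D : Set (C ⊕ Bool))
    (hD : ((Jn Γ b).induce D).Connected) (hXD : ∀ i, Disjoint (Sum.inl '' X i) D)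
    (htD : Sum.inr true ∉ D) (hfD : Sum.inr false ∈ D)
    (heD : ∃ d ∈ D, (Jn Γ b).Adj (Sum.inr true) d) :
    IsMinor (⊤ : SimpleGraph (Fin 5)) (Jn Γ b) := by
  have hne : ∀ i, ∃ a, a ∈ X i := fun i => by
    obtain ⟨a⟩ := (hX i).nonempty
    exact ⟨a.1, a.2⟩
  have e : Fin 5 ≃ Fin 3 ⊕ Bool := Fintype.equivOfCardEq (by simp)
  have h1 : ∀ z, ((Jn Γ b).induce (BB X D z)).Connected := fun z => by
    match z with
    | .inl i => exact conn_image (hX i)
    | .inr true =>
      have h2 : Nonempty (BB X D (.inr true)) := ⟨⟨Sum.inr true, rfl⟩⟩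
      have h3 : Subsingleton (BB X D (.inr true)) :=
        inferInstanceAs (Subsingleton ({Sum.inr true} : Set (C ⊕ Bool)))
      exact SimpleGraph.Connected.of_subsingleton
    | .inr false => exact hD
  have h2 : ∀ z z', z ≠ z' → Disjoint (BB X D z) (BB X D z') := fun z z' hz => by
    match z, z' with
    | .inl i, .inl j =>
      exact (Set.disjoint_image_iff Sum.inl_injective).2 (hd i j fun h => hz (by rw [h]))
    | .inl i, .inr true =>
      change Disjoint (Sum.inl '' X i) {Sum.inr true}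
      rw [Set.disjoint_singleton_right]
      rintro ⟨x, _, h⟩
      cases h
    | .inr true, .inl i =>
      change Disjoint {Sum.inr true} (Sum.inl '' X i)
      rw [Set.disjoint_singleton_left]
      rintro ⟨x, _, h⟩
      cases h
    | .inl i, .inr false => exact hXD i
    | .inr false, .inl i => exact (hXD i).symm
    | .inr true, .inr true => exact absurd rfl hz
    | .inr false, .inr false => exact absurd rfl hz
    | .inr true, .inr false => exact Set.disjoint_singleton_left.2 htD
    | .inr false, .inr true => exact Set.disjoint_singleton_right.2 htD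
  have h3 : ∀ z z', z ≠ z' → ∃ a ∈ BB X D z, ∃ c ∈ BB X D z', (Jn Γ b).Adj a c :=
      fun z z' hz => by
    match z, z' with
    | .inl i, .inl j =>
      obtain ⟨a, haX, c, hc, hac⟩ := ha i j fun h => hz (by rw [h])
      exact ⟨.inl a, ⟨a, haX, rfl⟩, .inl c, ⟨c, hc, rfl⟩, hac⟩
    | .inl i, .inr true =>
      obtain ⟨a, haX⟩ := hne i
      exact ⟨.inl a, ⟨a, haX, rfl⟩, .inr true, rfl, trivial⟩
    | .inr true, .inl i =>
      obtain ⟨a, haX⟩ := hne i
      exact ⟨.inr true, rfl, .inl a, ⟨a, haX, rfl⟩, trivial⟩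
    | .inl i, .inr false =>
      obtain ⟨a, haX⟩ := hne i
      exact ⟨.inl a, ⟨a, haX, rfl⟩, .inr false, hfD, trivial⟩
    | .inr false, .inl i =>
      obtain ⟨a, haX⟩ := hne i
      exact ⟨.inr false, hfD, .inl a, ⟨a, haX, rfl⟩, trivial⟩
    | .inr true, .inr true => exact absurd rfl hz
    | .inr false, .inr false => exact absurd rfl hz
    | .inr true, .inr false =>
      obtain ⟨d, hdD, hdA⟩ := heD
      exact ⟨.inr true, rfl, d, hdD, hdA⟩
    | .inr false, .inr true =>
      obtain ⟨d, hdD, hdA⟩ := heD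
      exact ⟨d, hdD, .inr true, rfl, hdA.symm⟩
  exact ⟨fun w => BB X D (e w), fun w => h1 (e w),
    fun w w' hw => h2 _ _ fun h => hw (e.injective h),
    fun w w' hw => h3 _ _ fun h => (SimpleGraph.ne_of_adj _ hw) (e.injective h)⟩

end Cyc3Aux

theorem tCyc3 : S_Cyc3 := by
  intro C Γ b hP X hX hd ha hb
  refine hP.1 ?_
  rcases hb with hb | ⟨c, hc⟩
  · refine Cyc3Aux.minor X hX hd ha {Sum.inr false} ?_ (fun i => ?_) ?_ rfl
      ⟨Sum.inr false, rfl, ⟨Bool.true_eq_false_eq_False, hb⟩⟩
    · exact SimpleGraph.Connected.of_subsingleton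
    · rw [Set.disjoint_singleton_right]
      rintro ⟨x, _, h⟩
      cases h
    · intro h
      have := Sum.inr_injective h
      cases this
  · refine Cyc3Aux.minor X hX hd ha {Sum.inr false, Sum.inl c} ?_ (fun i => ?_) ?_
      (Or.inl rfl) ⟨Sum.inl c, Or.inr rfl, trivial⟩
    · exact SimpleGraph.induce_pair_connected_of_adj (G := Jn Γ b) trivial
    · rw [Set.disjoint_left]
      rintro _ ⟨x, hx, rfl⟩ (h | h)
      · cases h
      · have h1 := Sum.inl_injective h
        rw [h1] at hx
        exact hc i hx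
    · rintro (h | h)
      · have := Sum.inr_injective h
        cases this
      · cases h

end Pool.Agent.Lib.MP_00ece3_co.EX
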