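import Pool.Agent.Lib.MP_00ece3_co.EX.SpecC

/-!
# Project EX: the base of a planar join with two hubs has maximum degree two
-/

set_option autoImplicit false

namespace Pool.Agent.Lib.MP_00ece3_co.EX

open Pool.Agent.Lib.MP_00ece3_co

namespace Deg2Aux

/-- The six vertices. -/
def f {C : Type} (x y1 y2 y3 : C) : Fin 3 ⊕ Fin 3 → C ⊕ Bool :=
  Sum.elim ![Sum.inr true, Sum.inr false, Sum.inl x] ![Sum.inl y1, Sum.inl y2, Sum.inl y3]

theorem f_inj {C : Type} {x y1 y2 y3 : C} (h12 : y1 ≠ y2) (h13 : y1 ≠ y3) (h23 : y2 ≠ y3)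
    (h1 : x ≠ y1) (h2 : x ≠ y2) (h3 : x ≠ y3) : Function.Injective (f x y1 y2 y3) := by
  rintro (i | i) (j | j) h <;> fin_cases i <;> fin_cases j <;>
    simp_all [f, Ne.symm]

theorem singleton_connected {V : Type} (G : SimpleGraph V) (v : V) :
    (G.induce ({v} : Set V)).Connected := by
  have : Nonempty ({v} : Set V) := ⟨⟨v, rfl⟩⟩
  refine ⟨fun a b => ?_⟩
  have : a = b := Subsingleton.elim a b
  rw [this]

theorem adj_aux {C : Type} {Γ : SimpleGraph C} {b : Prop} {x y1 y2 y3 : C}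
    (h1 : Γ.Adj x y1) (h2 : Γ.Adj x y2) (h3 : Γ.Adj x y3) (i j : Fin 3) :
    (Jn Γ b).Adj (f x y1 y2 y3 (Sum.inl i)) (f x y1 y2 y3 (Sum.inr j)) := by
  fin_cases i <;> fin_cases j <;> trivial

end Deg2Aux

open Deg2Aux

theorem tDeg2 : S_Deg2 := by
  intro C Γ b hP x y1 y2 y3 h12 h13 h23 h1 h2 h3
  apply hP.2
  have hf := f_inj h12 h13 h23 h1.ne h2.ne h3.ne
  refine ⟨fun w => {f x y1 y2 y3 w}, fun w => singleton_connected _ _, fun w w' hw => ?_,
    fun w w' hw => ?_⟩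
  · rw [Set.disjoint_singleton]
    exact hf.ne hw
  · refine ⟨_, rfl, _, rfl, ?_⟩
    rcases w with i | i <;> rcases w' with j | j
    · simp [completeBipartiteGraph] at hw
    · exact adj_aux h1 h2 h3 i j
    · exact (adj_aux h1 h2 h3 j i).symm
    · simp [completeBipartiteGraph] at hw

end Pool.Agent.Lib.MP_00ece3_co.EX
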