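import Pool.Agent.Lib.MP_00ece3_co.EX.SpecD

/-!
# Project EX, EA: elementary rules for `eO`
-/

set_option autoImplicit false

namespace Pool.Agent.Lib.MP_00ece3_co.EX

open Pool.Agent.Lib.MP_00ece3_co

namespace EAAux

variable {n : ℕ} (G : SimpleGraph (Fin n))

open Classical in
/-- `eO` as a double sum -/
theorem eO_eq (A B : Finset (Fin n)) :
    eO G A B = ∑ a ∈ A, ∑ b ∈ B, if G.Adj a b then 1 else 0 := by
  unfold eO
  rw [Finset.card_filter, Finset.sum_product]

theorem comm (A B : Finset (Fin n)) : eO G A B = eO G B A := by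
  classical
  rw [eO_eq, eO_eq, Finset.sum_comm]
  refine Finset.sum_congr rfl fun a _ => Finset.sum_congr rfl fun b _ => ?_
  simp only [G.adj_comm]

theorem union (A B C : Finset (Fin n)) (h : Disjoint A B) :
    eO G (A ∪ B) C = eO G A C + eO G B C := by
  classical
  rw [eO_eq, eO_eq, eO_eq, Finset.sum_union h]

theorem mono (A B C : Finset (Fin n)) (h : A ⊆ B) : eO G A C ≤ eO G B C := by
  classical
  rw [eO_eq, eO_eq]
  exact Finset.sum_le_sum_of_subset h

open Classical in
theorem single (a : Fin n) (C : Finset (Fin n)) :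
    eO G {a} C = (C.filter (fun y => G.Adj a y)).card := by
  classical
  rw [eO_eq, Finset.sum_singleton, Finset.card_filter]

theorem sum (A C : Finset (Fin n)) : eO G A C = ∑ a ∈ A, eO G {a} C := by
  classical
  rw [eO_eq]
  refine Finset.sum_congr rfl fun a _ => ?_
  rw [eO_eq, Finset.sum_singleton]

theorem univ (a : Fin n) : eO G {a} Finset.univ = dg G a := by
  classical
  rw [single]
  unfold dg
  congr

end EAAux

theorem tEA : S_EA := by
  intro n G A B C
  refine ⟨EAAux.comm G A B, EAAux.union G A B C, ?_, EAAux.sum G A C, ?_, EAAux.univ G⟩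
  · intro h
    refine ⟨EAAux.mono G A B C h, ?_⟩
    rw [EAAux.comm G C A, EAAux.comm G C B]
    exact EAAux.mono G A B C h
  · rw [EAAux.sum G A C]
    refine Finset.sum_le_sum fun a _ => ?_
    rw [← EAAux.univ G a, EAAux.comm G {a} C, EAAux.comm G {a} Finset.univ]
    exact EAAux.mono G C Finset.univ {a} (Finset.subset_univ C)

end Pool.Agent.Lib.MP_00ece3_co.EX
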