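import Pool.Agent.Lib.MP_00ece3_co.EX.SpecD
import Pool.Agent.Lib.MP_00ece3_co.Contract
import Pool.Agent.Lib.MP_00ece3_co.Edges
import Pool.Agent.Lib.MP_00ece3_co.Cross

/-!
# Edge bounds for planar graphs on `Fin n`
-/

set_option autoImplicit false

namespace Pool.Agent.Lib.MP_00ece3_co.EX

open Pool.Agent.Lib.MP_00ece3_co

/-- **EB.** -/
theorem tEB : S_EB := by
  classical
  intro n G hG
  have h1 : ∀ S : Finset (Fin n), eO G S S ≤ 8 * S.card := by
    intro S
    have h := pairs contract_minor (Fin n) G hG.1 S
    unfold eO
    exact h
  refine ⟨h1, ?_, ?_⟩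
  · intro S
    have h := cross contract_minor (pairs contract_minor) (Fin n) G hG S
    have hinst : (fun a b : Fin n => Classical.propDecidable (a = b)) = instDecidableEqFin n :=
      Subsingleton.elim _ _
    rw [hinst] at h
    unfold eO
    exact h
  · intro A B
    have h2 : eO G A B ≤ eO G Finset.univ Finset.univ := by
      unfold eO
      exact Finset.card_le_card (Finset.filter_subset_filter _
        (Finset.product_subset_product (Finset.subset_univ A) (Finset.subset_univ B)))
    have h3 := h1 Finset.univ
    rw [Finset.card_univ, Fintype.card_fin] at h3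
    exact h2.trans h3

end Pool.Agent.Lib.MP_00ece3_co.EX
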