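import Pool.Agent.Lib.MP_00ece3_co.EX.SpecA

set_option autoImplicit false

namespace Pool.Agent.Lib.MP_00ece3_co.EX

open Pool.Agent.Lib.MP_00ece3_co

namespace EndsUAux

variable {m : ℕ}

theorem tri_nonneg (x a b c : ℝ × ℝ) : 0 ≤ tri x a b c := by
  unfold tri
  split_ifs <;> norm_num

theorem noTri {P : Fin m → ℝ × ℝ} {u : ℝ × ℝ} (h : T2 P u = 0) (a b d : Fin m) :
    ¬ Tri (P a) u (P b) (P d) := by
  unfold T2 at h
  rw [Finset.sum_eq_zero_iff_of_nonneg fun a _ => Finset.sum_nonneg fun b _ =>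
    Finset.sum_nonneg fun d _ => tri_nonneg _ _ _ _] at h
  have h1 := h a (Finset.mem_univ a)
  rw [Finset.sum_eq_zero_iff_of_nonneg fun b _ => Finset.sum_nonneg fun d _ =>
    tri_nonneg _ _ _ _] at h1
  have h2 := h1 b (Finset.mem_univ b)
  rw [Finset.sum_eq_zero_iff_of_nonneg fun d _ => tri_nonneg _ _ _ _] at h2
  have h3 := h2 d (Finset.mem_univ d)
  intro h4
  unfold tri at h3
  rw [if_pos h4] at h3
  exact one_ne_zero h3

theorem or1 (a b u : ℝ × ℝ) : orient a u b = - orient u a b := by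
  unfold orient
  ring

theorem or2 (a b u : ℝ × ℝ) : orient u b a = - orient u a b := by
  unfold orient
  ring

theorem or3 (a b c : ℝ × ℝ) : orient b c a = orient a b c := by
  unfold orient
  ring

theorem or0 (a u : ℝ × ℝ) : orient a u a = 0 := by
  unfold orient
  ring

/-- the arrow `x → y` -/
def Ar (P : Fin m → ℝ × ℝ) (u : ℝ × ℝ) (s : ℝ) (x y : Fin m) : Prop :=
  0 < s * orient u (P x) (P y)

theorem ar_tot {P : Fin m → ℝ × ℝ} {u : ℝ × ℝ} {s : ℝ} (hs : s ≠ 0)
    (hg : ∀ i j, i ≠ j → orient (P i) (P j) u ≠ 0) {x y : Fin m} (hxy : x ≠ y)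
    (h : ¬ Ar P u s x y) : Ar P u s y x := by
  unfold Ar at *
  rw [or2 (P x) (P y) u, mul_neg]
  have h1 : orient u (P x) (P y) ≠ 0 := by
    have := hg x y hxy
    rwa [← or3 (P x) (P y) u, ← or3 (P y) u (P x)] at this
  have h2 : s * orient u (P x) (P y) ≠ 0 := mul_ne_zero hs h1
  push Not at h
  have h3 := lt_of_le_of_ne h h2
  linarith

/-- the three exclusions, `s = 1` or `s = -1` -/
theorem excl {P : Fin m → ℝ × ℝ} {u : ℝ × ℝ} {s : ℝ} (hs : s = 1 ∨ s = -1)
    (hh : ∀ i j k : Fin m, i < j → j < k → 0 < s * orient (P i) (P j) (P k))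
    (hT : ∀ a b d, ¬ Tri (P a) u (P b) (P d)) {i k l : Fin m} (h1 : i < k) (h2 : k < l) :
    ¬ (Ar P u s k i ∧ Ar P u s l k) ∧ ¬ (Ar P u s l k ∧ Ar P u s i l) ∧
      ¬ (Ar P u s i l ∧ Ar P u s k i) := by
  have hw := hh i k l h1 h2
  unfold Ar
  have a1 := or2 (P i) (P k) u
  have a2 := or2 (P k) (P l) u
  have a3 := or2 (P l) (P i) u
  have b1 := or1 (P i) (P k) u
  have b2 := or1 (P k) (P l) u
  have b3 := or1 (P l) (P i) u
  have c1 := or3 (P i) (P k) (P l)
  have c2 := or3 (P k) (P l) (P i)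
  refine ⟨?_, ?_, ?_⟩
  · rintro ⟨h3, h4⟩
    apply hT k l i
    rw [a1] at h3
    rw [a2] at h4
    rcases hs with h | h
    · left
      rw [h] at h3 h4 hw
      refine ⟨?_, ?_, ?_⟩
      · rw [a2]
        linarith
      · rw [c2, c1]
        linarith
      · rw [b1]
        linarith
    · right
      rw [h] at h3 h4 hw
      refine ⟨?_, ?_, ?_⟩
      · rw [a2]
        linarith
      · rw [c2, c1]
        linarith
      · rw [b1]
        linarith
  · rintro ⟨h3, h4⟩
    apply hT l i k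
    rw [a2] at h3
    rw [a3] at h4
    rcases hs with h | h
    · left
      rw [h] at h3 h4 hw
      refine ⟨?_, ?_, ?_⟩
      · rw [a3]
        linarith
      · linarith
      · rw [b2]
        linarith
    · right
      rw [h] at h3 h4 hw
      refine ⟨?_, ?_, ?_⟩
      · rw [a3]
        linarith
      · linarith
      · rw [b2]
        linarith
  · rintro ⟨h3, h4⟩
    apply hT i k l
    rw [a3] at h3
    rw [a1] at h4
    rcases hs with h | h
    · left
      rw [h] at h3 h4 hw
      refine ⟨?_, ?_, ?_⟩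
      · rw [a1]
        linarith
      · rw [c1]
        linarith
      · rw [b3]
        linarith
    · right
      rw [h] at h3 h4 hw
      refine ⟨?_, ?_, ?_⟩
      · rw [a1]
        linarith
      · rw [c1]
        linarith
      · rw [b3]
        linarith

open Classical in
/-- the in-degree -/
noncomputable def ins (P : Fin m → ℝ × ℝ) (u : ℝ × ℝ) (s : ℝ) (a : Fin m) : ℤ :=
  ∑ b, if Ar P u s b a then 1 else 0

theorem not_both {P : Fin m → ℝ × ℝ} {u : ℝ × ℝ} {s : ℝ} {x y : Fin m} (h : Ar P u s x y) :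
    ¬ Ar P u s y x := by
  unfold Ar at *
  rw [or2 (P x) (P y) u, mul_neg]
  linarith

theorem irr {P : Fin m → ℝ × ℝ} {u : ℝ × ℝ} {s : ℝ} {x : Fin m} : ¬ Ar P u s x x := by
  intro h
  exact not_both h h

theorem inn_one (P : Fin m → ℝ × ℝ) (u : ℝ × ℝ) (a : Fin m) : inn P u a = ins P u 1 a := by
  unfold inn ins lft Ar
  refine Finset.sum_congr rfl fun b _ => ?_
  have h1 : orient (P a) u (P b) = orient u (P b) (P a) := by
    rw [or1, or2 (P a) (P b) u]
  rw [h1, one_mul]

theorem inn_neg (P : Fin m → ℝ × ℝ) (u : ℝ × ℝ)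
    (hg : ∀ i j, i ≠ j → orient (P i) (P j) u ≠ 0) (a : Fin m) :
    inn P u a = (m : ℤ) - 1 - ins P u (-1) a := by
  classical
  have h0 : inn P u a + ins P u (-1) a = (m : ℤ) - 1 := by
    rw [inn_one]
    unfold ins
    rw [← Finset.sum_add_distrib]
    have h1 : ∀ b : Fin m, ((if Ar P u 1 b a then (1 : ℤ) else 0) +
        if Ar P u (-1) b a then 1 else 0) = 1 - if b = a then 1 else 0 := by
      intro b
      by_cases hb : b = a
      · rw [if_pos hb, hb, if_neg irr, if_neg irr]
        norm_num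
      · rw [if_neg hb]
        by_cases h2 : Ar P u 1 b a
        · have h3 : ¬ Ar P u (-1) b a := by
            unfold Ar at *
            linarith
          rw [if_pos h2, if_neg h3]
          norm_num
        · have h3 : Ar P u (-1) b a := by
            have h4 := ar_tot one_ne_zero hg hb h2
            unfold Ar at *
            rw [or2 (P b) (P a) u] at h4
            linarith
          rw [if_neg h2, if_pos h3]
          norm_num
    rw [Finset.sum_congr rfl fun b _ => h1 b, Finset.sum_sub_distrib, Finset.sum_ite_eq',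
      if_pos (Finset.mem_univ a)]
    simp
  linarith

theorem zs_of {P : Fin m → ℝ × ℝ} {u : ℝ × ℝ} {a : Fin m} (s : ℝ)
    (h : (∀ i, i < a → Ar P u s i a) ∧ ∀ i, a < i → Ar P u s a i) :
    (s = 1 → Zp P u a) ∧ (s = -1 → Zm P u a) := by
  obtain ⟨h1, h2⟩ := h
  unfold Ar at h1 h2
  constructor
  · intro hs
    rw [hs] at h1 h2
    refine ⟨fun i hi => ?_, fun i hi => ?_⟩
    · have := h1 i hi
      rw [or1]
      rw [or2 (P a) (P i) u] at this
      linarith
    · have := h2 i hi
      rw [or1]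
      linarith
  · intro hs
    rw [hs] at h1 h2
    refine ⟨fun i hi => ?_, fun i hi => ?_⟩
    · have := h1 i hi
      rw [or1]
      rw [or2 (P a) (P i) u] at this
      linarith
    · have := h2 i hi
      rw [or1]
      linarith

theorem of_z {P : Fin m → ℝ × ℝ} {u : ℝ × ℝ} {a : Fin m} {s : ℝ} (hs : s = 1 ∨ s = -1)
    (h : Zp P u a ∨ Zm P u a) :
    ((∀ i, i < a → Ar P u s i a) ∧ ∀ i, a < i → Ar P u s a i) ∨
      ((∀ i, i < a → Ar P u s a i) ∧ ∀ i, a < i → Ar P u s i a) := by
  have key : ∀ i, Ar P u s i a ↔ 0 < s * orient (P a) u (P i) := by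
    intro i
    unfold Ar
    have e : orient (P a) u (P i) = orient u (P i) (P a) := by
      rw [or1, or2 (P a) (P i) u]
    rw [e]
  have key2 : ∀ i, Ar P u s a i ↔ s * orient (P a) u (P i) < 0 := by
    intro i
    unfold Ar
    rw [or1, mul_neg, neg_pos]
  simp only [key, key2]
  rcases h with ⟨h1, h2⟩ | ⟨h1, h2⟩ <;> rcases hs with h | h <;> rw [h]
  · left
    refine ⟨fun i hi => ?_, fun i hi => ?_⟩
    · have := h1 i hi
      linarith
    · have := h2 i hi
      linarith
  · right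
    refine ⟨fun i hi => ?_, fun i hi => ?_⟩
    · have := h1 i hi
      linarith
    · have := h2 i hi
      linarith
  · right
    refine ⟨fun i hi => ?_, fun i hi => ?_⟩
    · have := h1 i hi
      linarith
    · have := h2 i hi
      linarith
  · left
    refine ⟨fun i hi => ?_, fun i hi => ?_⟩
    · have := h1 i hi
      linarith
    · have := h2 i hi
      linarith

theorem main {P : Fin m → ℝ × ℝ} {u : ℝ × ℝ} {s : ℝ} (hs : s = 1 ∨ s = -1)
    (hg : ∀ i j, i ≠ j → orient (P i) (P j) u ≠ 0)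
    (hh : ∀ i j k : Fin m, i < j → j < k → 0 < s * orient (P i) (P j) (P k))
    (hT : T2 P u = 0) (i0 i1 : Fin m) (e0 : (i0 : ℕ) = 0) (e1 : (i1 : ℕ) = m - 1)
    (j J : Fin m) (hjJ : j ≤ J) (h0 : i0 < j) (h1 : J < i1) (hj : Zp P u j ∨ Zm P u j)
    (hJ : Zp P u J ∨ Zm P u J) :
    ((∀ i, i < j → Ar P u s i j) ∧ ∀ i, j < i → Ar P u s j i) ∧
      ((∀ i, i < J → Ar P u s i J) ∧ ∀ i, J < i → Ar P u s J i) ∧
      ins P u s i0 ≤ (m : ℤ) - 1 - J ∧ (m : ℤ) - 1 - j ≤ ins P u s i1 := by
  classical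
  have hs0 : s ≠ 0 := by
    rcases hs with h | h <;> rw [h] <;> norm_num
  have hex := fun {i k l : Fin m} (h1 : i < k) (h2 : k < l) => excl hs hh (noTri hT) h1 h2
  have good : ∀ a : Fin m, i0 < a → a < i1 → (Zp P u a ∨ Zm P u a) →
      (∀ i, i < a → Ar P u s i a) ∧ ∀ i, a < i → Ar P u s a i := by
    intro a ha0 ha1 ha
    rcases of_z hs ha with h | ⟨h2, h3⟩
    · exact h
    · exact absurd ⟨h2 i0 ha0, h3 i1 ha1⟩ (hex ha0 ha1).1
  have gj := good j h0 (lt_of_le_of_lt hjJ h1) hj
  have gJ := good J (lt_of_lt_of_le h0 hjJ) h1 hJ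
  refine ⟨gj, gJ, ?_, ?_⟩
  · have h2 : ∀ i, i0 < i → i ≤ J → Ar P u s i0 i := by
      intro i hi hiJ
      rcases hiJ.eq_or_lt with rfl | hlt
      · exact gJ.1 i0 hi
      · by_contra hcon
        have h3 := ar_tot hs0 hg hi.ne hcon
        exact (hex hi hlt).2.2 ⟨gJ.1 i0 (hi.trans hlt), h3⟩
    have h3 : ins P u s i0 ≤ ∑ b : Fin m, if J < b then (1 : ℤ) else 0 := by
      unfold ins
      refine Finset.sum_le_sum fun b _ => ?_
      by_cases hb : J < b
      · rw [if_pos hb]
        split_ifs <;> norm_num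
      · rw [if_neg hb, if_neg]
        intro h4
        by_cases hb0 : b = i0
        · rw [hb0] at h4
          exact irr h4
        · have h5 : i0 < b := by
            rw [Fin.lt_def, e0]
            have : (b : ℕ) ≠ i0 := fun h => hb0 (Fin.ext h)
            omega
          exact not_both h4 (h2 b h5 (not_lt.mp hb))
    refine h3.trans (le_of_eq ?_)
    rw [Finset.sum_boole]
    have h4 : (Finset.univ.filter fun b : Fin m => J < b) = Finset.Ioi J := by
      ext b
      simp
    rw [h4, Fin.card_Ioi]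
    have := J.isLt
    omega
  · have h2 : ∀ i, j ≤ i → i < i1 → Ar P u s i i1 := by
      intro i hi hi1
      rcases hi.eq_or_lt with rfl | hlt
      · exact gj.2 i1 hi1
      · by_contra hcon
        have h3 := ar_tot hs0 hg hi1.ne hcon
        exact (hex hlt hi1).2.1 ⟨h3, gj.2 i1 (hlt.trans hi1)⟩
    have h3 : (∑ b : Fin m, if j ≤ b ∧ b < i1 then (1 : ℤ) else 0) ≤ ins P u s i1 := by
      unfold ins
      refine Finset.sum_le_sum fun b _ => ?_
      by_cases hb : j ≤ b ∧ b < i1
      · rw [if_pos hb, if_pos (h2 b hb.1 hb.2)]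
      · rw [if_neg hb]
        split_ifs <;> norm_num
    refine le_trans (le_of_eq ?_) h3
    rw [Finset.sum_boole]
    have h4 : (Finset.univ.filter fun b : Fin m => j ≤ b ∧ b < i1) = Finset.Ico j i1 := by
      ext b
      simp
    rw [h4, Fin.card_Ico]
    have h5 := j.isLt
    have h6 : (j : ℕ) < i1 := lt_of_le_of_lt hjJ h1
    omega

end EndsUAux

open EndsUAux

theorem tEndsU : S_EndsU := by
  intro m P u hm hg ε hε hh hT i0 i1 e0 e1 j J hjJ h0 h1 hj hJ
  have hs : ((ε : ℝ) = 1 ∨ (ε : ℝ) = -1) := by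
    rcases hε with h | h
    · left
      rw [h]
      norm_num
    · right
      rw [h]
      norm_num
  obtain ⟨g1, g2, g3, g4⟩ := main hs hg hh hT i0 i1 e0 e1 j J hjJ h0 h1 hj hJ
  refine ⟨?_, ?_, ?_⟩
  · rcases hε with h | h
    · have h5 : (ε : ℝ) = 1 := by
        rw [h]
        norm_num
      rw [h5] at g3 g4
      unfold UU
      rw [inn_one, inn_one, h]
      linarith
    · have h5 : (ε : ℝ) = -1 := by
        rw [h]
        norm_num
      rw [h5] at g3 g4
      unfold UU
      rw [inn_neg P u hg i1, inn_neg P u hg i0, h]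
      linarith
  · intro h
    have h5 : (ε : ℝ) = 1 := by
      rw [h]
      norm_num
    exact ⟨(zs_of _ g1).1 h5, (zs_of _ g2).1 h5⟩
  · intro h
    have h5 : (ε : ℝ) = -1 := by
      rw [h]
      norm_num
    exact ⟨(zs_of _ g1).2 h5, (zs_of _ g2).2 h5⟩

end Pool.Agent.Lib.MP_00ece3_co.EX
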