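import Pool.Agent.Lib.MP_00ece3_co.EX.SpecD
import Pool.Agent.Lib.MP_00ece3_co.Edges
import Pool.Agent.Lib.MP_00ece3_co.Contract
import Pool.Agent.Lib.MP_00ece3_co.Cross

/-!
MP_00ece3_co, EX/Few: few vertices with at most one neighbour in `S` (helper48).
-/

set_option autoImplicit false

namespace Pool.Agent.Lib.MP_00ece3_co.EX

open Pool.Agent.Lib.MP_00ece3_co

namespace FewAux

private theorem eO_sum {n : ℕ} (G : SimpleGraph (Fin n)) (S B : Finset (Fin n)) :
    eO G S B = ∑ r ∈ B, sS G S r := by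
  classical
  unfold eO sS
  rw [Finset.card_filter, Finset.sum_product_right]
  refine Finset.sum_congr rfl fun r _ => ?_
  rw [Finset.card_filter]

private theorem planar_induce {n : ℕ} (G : SimpleGraph (Fin n)) (hG : Planar G)
    (X : Set (Fin n)) : Planar (G.induce X) :=
  ⟨fun h => hG.1 (Edges.minor_of_induce _ G X h), fun h => hG.2 (Edges.minor_of_induce _ G X h)⟩

private theorem cross_sub {n : ℕ} (G : SimpleGraph (Fin n)) (hG : Planar G)
    (S R : Finset (Fin n)) (hd : Disjoint S R) : eO G S R ≤ 2 * R.card + 244 * S.card := by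
  classical
  have h := (cross contract_minor (pairs contract_minor)) {x : Fin n // x ∈ ((S ∪ R : Finset (Fin n)) : Set (Fin n))}
    (G.induce ((S ∪ R : Finset (Fin n)) : Set (Fin n))) (planar_induce G hG _)
    (Finset.univ.filter fun x => x.1 ∈ S)
  have h1 : (Finset.univ.filter fun x : {x : Fin n // x ∈ ((S ∪ R : Finset (Fin n)) : Set (Fin n))} =>
      x.1 ∈ S).card ≤ S.card := by
    refine Finset.card_le_card_of_injOn Subtype.val ?_ Subtype.val_injective.injOn
    intro x hx
    exact (Finset.mem_filter.1 hx).2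
  have h2 : (Finset.univ.filter fun x : {x : Fin n // x ∈ ((S ∪ R : Finset (Fin n)) : Set (Fin n))} =>
      x.1 ∈ S)ᶜ.card ≤ R.card := by
    refine Finset.card_le_card_of_injOn Subtype.val ?_ Subtype.val_injective.injOn
    intro x hx
    have h3 : x.1 ∉ S := by
      intro hc
      exact (Finset.mem_compl.1 hx) (Finset.mem_filter.2 ⟨Finset.mem_univ _, hc⟩)
    have h4 : x.1 ∈ S ∪ R := Finset.mem_coe.1 x.2
    rcases Finset.mem_union.1 h4 with h5 | h5
    · exact absurd h5 h3
    · exact h5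
  have h3 : eO G S R ≤ (((Finset.univ.filter fun x : {x : Fin n // x ∈ ((S ∪ R : Finset (Fin n)) : Set (Fin n))} =>
      x.1 ∈ S) ×ˢ (Finset.univ.filter fun x : {x : Fin n // x ∈ ((S ∪ R : Finset (Fin n)) : Set (Fin n))} =>
      x.1 ∈ S)ᶜ).filter (fun e =>
        (G.induce ((S ∪ R : Finset (Fin n)) : Set (Fin n))).Adj e.1 e.2)).card := by
    unfold eO
    refine Finset.card_le_card_of_surjOn (fun e => (e.1.1, e.2.1)) ?_
    rintro ⟨a, b⟩ hab
    rw [Finset.mem_coe, Finset.mem_filter, Finset.mem_product] at hab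
    obtain ⟨⟨ha, hb⟩, hadj⟩ := hab
    refine ⟨(⟨a, Finset.mem_coe.2 (Finset.mem_union_left _ ha)⟩,
      ⟨b, Finset.mem_coe.2 (Finset.mem_union_right _ hb)⟩), ?_, rfl⟩
    rw [Finset.mem_coe, Finset.mem_filter, Finset.mem_product]
    refine ⟨⟨Finset.mem_filter.2 ⟨Finset.mem_univ _, ha⟩, ?_⟩, hadj⟩
    rw [Finset.mem_compl, Finset.mem_filter]
    rintro ⟨-, hc⟩
    exact (Finset.disjoint_left.1 hd) hc hb
  have h5 := Nat.add_le_add (Nat.mul_le_mul_left 2 h2) (Nat.mul_le_mul_left 244 h1)
  refine h3.trans (Nat.le_trans ?_ h5)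
  have hinst : (fun a b : {x : Fin n // x ∈ ((S ∪ R : Finset (Fin n)) : Set (Fin n))} =>
      Classical.propDecidable (a = b)) = (fun a b => Subtype.instDecidableEq a b) :=
    Subsingleton.elim _ _
  rw [hinst] at h
  exact h

end FewAux

open FewAux in
theorem tFew : S_Few := by
  classical
  intro n G hG S
  obtain ⟨R, hR⟩ : ∃ R, R = Sᶜ.filter (fun r => ¬ sS G S r ≤ 1) := ⟨_, rfl⟩
  have hlow : low G S = Sᶜ.filter (fun r => sS G S r ≤ 1) := rfl
  have hd : Disjoint S R := by
    rw [Finset.disjoint_left]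
    intro x hx hxR
    rw [hR, Finset.mem_filter, Finset.mem_compl] at hxR
    exact hxR.1 hx
  have h1 := cross_sub G hG S R hd
  have h2 : ∑ r ∈ low G S, sS G S r ≤ (low G S).card := by
    rw [Finset.card_eq_sum_ones]
    refine Finset.sum_le_sum fun r hr => ?_
    rw [hlow, Finset.mem_filter] at hr
    exact hr.2
  have h3 : eO G S Sᶜ = ∑ r ∈ low G S, sS G S r + eO G S R := by
    rw [eO_sum, eO_sum, hlow, hR]
    exact (Finset.sum_filter_add_sum_filter_not _ _ _).symm
  have h4 : (low G S).card + R.card = Sᶜ.card := by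
    rw [hlow, hR]
    exact Finset.card_filter_add_card_filter_not _
  omega

end Pool.Agent.Lib.MP_00ece3_co.EX
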