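import Pool.Agent.Lib.MP_00ece3_co.EX.SpecD

/-!
# Exact value of `M(n)`: the end of the proof (module Fin)
-/

set_option autoImplicit false

namespace Pool.Agent.Lib.MP_00ece3_co.EX

open Pool.Agent.Lib.MP_00ece3_co

namespace FinAux

open Classical in
theorem card_nonadj {n : ℕ} (G : SimpleGraph (Fin n)) (u : Fin n) :
    (Finset.univ.filter (fun x => x ≠ u ∧ ¬ G.Adj u x)).card + dg G u + 1 = n := by
  have h1 := Finset.card_filter_add_card_filter_not (s := (Finset.univ : Finset (Fin n)))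
    (fun x => G.Adj u x)
  rw [Finset.card_univ, Fintype.card_fin] at h1
  have h2 : Finset.univ.filter (fun x => x ≠ u ∧ ¬ G.Adj u x) =
      (Finset.univ.filter (fun x => ¬ G.Adj u x)).erase u := by
    ext x
    simp only [Finset.mem_filter, Finset.mem_univ, true_and, Finset.mem_erase]
  have h3 : u ∈ Finset.univ.filter (fun x => ¬ G.Adj u x) :=
    Finset.mem_filter.mpr ⟨Finset.mem_univ _, G.loopless.irrefl u⟩
  have h4 : 0 < (Finset.univ.filter (fun x => ¬ G.Adj u x)).card := Finset.card_pos.mpr ⟨u, h3⟩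
  rw [h2, Finset.card_erase_of_mem h3]
  unfold dg
  omega

theorem card_ot {n : ℕ} (G : SimpleGraph (Fin n)) (u v : Fin n) :
    Nat.card (Ot G u v) + dg G u + dg G v + 2 ≤ 2 * n := by
  classical
  have hu := card_nonadj G u
  have hv := card_nonadj G v
  have h1 : Nat.card (Ot G u v) = (Finset.univ.filter
      (fun x : Fin n => x ≠ u ∧ x ≠ v ∧ ¬ (G.Adj u x ∧ G.Adj v x))).card := by
    unfold Ot
    rw [Nat.card_eq_fintype_card, Fintype.card_subtype]
  have h2 : (Finset.univ.filter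
      (fun x : Fin n => x ≠ u ∧ x ≠ v ∧ ¬ (G.Adj u x ∧ G.Adj v x))) ⊆
      (Finset.univ.filter (fun x => x ≠ u ∧ ¬ G.Adj u x)) ∪
        (Finset.univ.filter (fun x => x ≠ v ∧ ¬ G.Adj v x)) := by
    intro x hx
    simp only [Finset.mem_union, Finset.mem_filter, Finset.mem_univ, true_and] at hx ⊢
    by_cases h : G.Adj u x
    · exact Or.inr ⟨hx.2.1, fun h' => hx.2.2 ⟨h, h'⟩⟩
    · exact Or.inl ⟨hx.1, h⟩
  have h3 := (Finset.card_le_card h2).trans (Finset.card_union_le _ _)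
  omega

theorem f4_ge (m : ℕ) (hm : 2 ≤ m) : m ^ 3 ≤ F4 m := by
  unfold F4
  split_ifs
  · have : 12 ≤ 7 * m := by omega
    omega
  · have : 4 ≤ 6 * m := by omega
    omega

theorem real_le (ε : ℝ) (hε : 0 < ε) (m : ℕ) (hm : 7 / ε ≤ m) (hm1 : 1 ≤ m) (c : ℕ)
    (hc : (c : ℝ) ≤ (1 / 4 - ε) * ((m + 2 : ℕ) : ℝ) ^ 3) : 4 * c ≤ m ^ 3 := by
  have h1 : 7 ≤ ε * m := by
    rw [div_le_iff₀ hε] at hm
    linarith
  have hm1' : (1 : ℝ) ≤ m := by exact_mod_cast hm1
  have h2 : (4 : ℝ) * c ≤ (m : ℝ) ^ 3 := by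
    push_cast at hc
    have h3 : (m : ℝ) ^ 2 * 7 ≤ (m : ℝ) ^ 2 * (ε * m) :=
      mul_le_mul_of_nonneg_left h1 (by positivity)
    have h4 : ε * (m : ℝ) ^ 3 ≤ ε * ((m : ℝ) + 2) ^ 3 :=
      mul_le_mul_of_nonneg_left (pow_le_pow_left₀ (by positivity) (by linarith) 3) hε.le
    have h5 : ((m : ℝ) + 2) ^ 3 ≤ (m : ℝ) ^ 3 + 28 * (m : ℝ) ^ 2 := by nlinarith
    nlinarith
  exact_mod_cast h2

end FinAux

open FinAux in
theorem tFin (hLowM : S_LowM) (hNear : S_Near) (hCI : S_CI) (hCII : S_CII) : S_Fin := by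
  obtain ⟨ε1, hε1, n1, h1⟩ := hCI
  obtain ⟨ε2, hε2, n2, h2⟩ := hCII
  refine ⟨max (max 3000 (max n1 n2)) (max ⌈7 / ε1⌉₊ ⌈7 / ε2⌉₊), ?_⟩
  intro m hm
  have m1 : 3000 ≤ m := ((le_max_left _ _).trans (le_max_left _ _)).trans hm
  have m2 : n1 ≤ m :=
    (((le_max_left _ _).trans (le_max_right _ _)).trans (le_max_left _ _)).trans hm
  have m3 : n2 ≤ m :=
    (((le_max_right _ _).trans (le_max_right _ _)).trans (le_max_left _ _)).trans hm
  have m4 : 7 / ε1 ≤ m := by
    refine (Nat.le_ceil _).trans ?_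
    exact_mod_cast ((le_max_left _ _).trans (le_max_right _ _)).trans hm
  have m5 : 7 / ε2 ≤ m := by
    refine (Nat.le_ceil _).trans ?_
    exact_mod_cast ((le_max_right _ _).trans (le_max_right _ _)).trans hm
  have key : ∀ G : SimpleGraph (Fin (m + 2)), Planar G → 4 * OCN G ≤ F4 m := by
    intro G hG
    by_cases hA : ∀ c c', 2499 * (m + 2) < 2500 * dg G c → 2499 * (m + 2) < 2500 * dg G c' →
        c = c'
    · by_cases hB : ∃ c, (m + 2) ≤ 32 * dg G c ∧ 2500 * dg G c ≤ 2499 * (m + 2)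
      · exact (real_le ε1 hε1 m m4 (by omega) _ (h1 (m + 2) (by omega) G hG hB)).trans
          (f4_ge m (by omega))
      · have hC : ∀ c, (m + 2) ≤ 32 * dg G c → 2499 * (m + 2) < 2500 * dg G c := by
          intro c hc
          by_contra h
          exact hB ⟨c, hc, not_lt.mp h⟩
        exact (real_le ε2 hε2 m m5 (by omega) _ (h2 (m + 2) (by omega) G hG hC hA)).trans
          (f4_ge m (by omega))
    · push Not at hA
      obtain ⟨u, v, hu, hv, huv⟩ := hA
      have h3 := card_ot G u v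
      exact hNear m m1 G u v huv hG (by omega)
  have h3 : M (m + 2) ≤ F4 m / 4 := by
    unfold M
    refine csSup_le' ?_
    rintro c ⟨G, hG, rfl⟩
    have := key G hG
    omega
  have h4 := hLowM m (by omega)
  omega

end Pool.Agent.Lib.MP_00ece3_co.EX
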