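import Pool.Agent.Lib.MP_00ece3_co.EX.SpecC

/-!
# The common neighbours of two hubs span a linear forest
-/

set_option autoImplicit false

namespace Pool.Agent.Lib.MP_00ece3_co.EX

open Pool.Agent.Lib.MP_00ece3_co

namespace ForAux

/-- A finite nonempty graph in which every vertex has two neighbours has a cycle. -/
theorem cyc {V : Type} [Fintype V] [Nonempty V] (H : SimpleGraph V)
    (h : ∀ v w : V, ∃ u, u ≠ w ∧ H.Adj v u) : ∃ (v : V) (c : H.Walk v v), c.IsCycle := by
  classical
  by_contra hno
  have hac : H.IsAcyclic := by
    intro v c hc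
    exact hno ⟨v, c, hc⟩
  have key : ∀ n : ℕ, ∃ (u v : V) (p : H.Walk u v), p.IsPath ∧ p.length = n := by
    intro n
    induction n with
    | zero =>
      obtain ⟨v⟩ := ‹Nonempty V›
      exact ⟨v, v, SimpleGraph.Walk.nil, SimpleGraph.Walk.IsPath.nil, rfl⟩
    | succ n ih =>
      obtain ⟨u, v, p, hp, hn⟩ := ih
      obtain ⟨w, hw, hvw⟩ := h v p.penultimate
      have h1 : w ∉ p.support := fun h2 => hw (hac.eq_penultimate_of_adj_end hp hvw h2)
      refine ⟨u, w, p.concat hvw, hp.concat h1 hvw, ?_⟩
      rw [SimpleGraph.Walk.length_concat, hn]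
  obtain ⟨u, v, p, hp, hn⟩ := key (Fintype.card V)
  have := hp.length_lt
  omega

/-- A cycle gives three disjoint connected sets, pairwise adjacent. -/
theorem three {C : Type} (Γ : SimpleGraph C) (v : C) (c : Γ.Walk v v) (hc : c.IsCycle) :
    ∃ X : Fin 3 → Set C, (∀ i, (Γ.induce (X i)).Connected) ∧
      (∀ i j, i ≠ j → Disjoint (X i) (X j)) ∧
      (∀ i j, i ≠ j → ∃ a ∈ X i, ∃ c ∈ X j, Γ.Adj a c) ∧ ∀ i, ∀ x ∈ X i, x ∈ c.support := by
  cases c with
  | nil => exact absurd hc (by simp)
  | @cons _ w _ h p =>
    rw [SimpleGraph.Walk.cons_isCycle_iff] at hc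
    obtain ⟨hp, he⟩ := hc
    cases p with
    | nil => exact absurd rfl h.ne
    | @cons _ w2 _ h2 p2 =>
      rw [SimpleGraph.Walk.cons_isPath_iff] at hp
      obtain ⟨hp2, hw⟩ := hp
      have hw2 : w2 ≠ v := by
        rintro rfl
        apply he
        rw [SimpleGraph.Walk.edges_cons, Sym2.eq_swap]
        exact List.mem_cons_self
      have hp3 := hp2.reverse
      have hsup : ∀ x, x ∈ p2.reverse.support → x ∈ p2.support := by
        intro x hx
        rwa [SimpleGraph.Walk.support_reverse, List.mem_reverse] at hx
      generalize p2.reverse = p3 at hp3 hsup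
      cases p3 with
      | nil => exact absurd rfl hw2
      | @cons _ w3 _ h3 p3 =>
        rw [SimpleGraph.Walk.cons_isPath_iff] at hp3
        obtain ⟨-, hv3⟩ := hp3
        have hs3 : ∀ x, x ∈ p3.support → x ∈ p2.support := by
          intro x hx
          apply hsup
          rw [SimpleGraph.Walk.support_cons]
          exact List.mem_cons_of_mem _ hx
        have hwv : w ≠ v := h.ne'
        have hw3 : w ∉ p3.support := fun hx => hw (hs3 w hx)
        refine ⟨![{x | x ∈ (SimpleGraph.Walk.nil : Γ.Walk v v).support},
          {x | x ∈ (SimpleGraph.Walk.nil : Γ.Walk w w).support}, {x | x ∈ p3.support}], ?_, ?_, ?_,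
          ?_⟩
        · intro i
          fin_cases i
          · exact (SimpleGraph.Walk.nil : Γ.Walk v v).connected_induce_support
          · exact (SimpleGraph.Walk.nil : Γ.Walk w w).connected_induce_support
          · exact p3.connected_induce_support
        · have d01 : Disjoint {x | x ∈ (SimpleGraph.Walk.nil : Γ.Walk v v).support}
              {x | x ∈ (SimpleGraph.Walk.nil : Γ.Walk w w).support} := by
            rw [Set.disjoint_left]
            intro x hx hx'
            simp only [SimpleGraph.Walk.support_nil, List.mem_singleton, Set.mem_ofPred_eq] at hx hx'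
            exact hwv (hx'.symm.trans hx)
          have d02 : Disjoint {x | x ∈ (SimpleGraph.Walk.nil : Γ.Walk v v).support}
              {x | x ∈ p3.support} := by
            rw [Set.disjoint_left]
            intro x hx hx'
            simp only [SimpleGraph.Walk.support_nil, List.mem_singleton, Set.mem_ofPred_eq] at hx hx'
            rw [hx] at hx'
            exact hv3 hx'
          have d12 : Disjoint {x | x ∈ (SimpleGraph.Walk.nil : Γ.Walk w w).support}
              {x | x ∈ p3.support} := by
            rw [Set.disjoint_left]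
            intro x hx hx'
            simp only [SimpleGraph.Walk.support_nil, List.mem_singleton, Set.mem_ofPred_eq] at hx hx'
            rw [hx] at hx'
            exact hw3 hx'
          intro i j hij
          fin_cases i <;> fin_cases j
          · exact absurd rfl hij
          · exact d01
          · exact d02
          · exact d01.symm
          · exact absurd rfl hij
          · exact d12
          · exact d02.symm
          · exact d12.symm
          · exact absurd rfl hij
        · have a0 : v ∈ {x | x ∈ (SimpleGraph.Walk.nil : Γ.Walk v v).support} := by simp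
          have a1 : w ∈ {x | x ∈ (SimpleGraph.Walk.nil : Γ.Walk w w).support} := by simp
          have a2 : w2 ∈ {x | x ∈ p3.support} := p3.end_mem_support
          have a3 : w3 ∈ {x | x ∈ p3.support} := p3.start_mem_support
          intro i j hij
          fin_cases i <;> fin_cases j
          · exact absurd rfl hij
          · exact ⟨v, a0, w, a1, h⟩
          · exact ⟨v, a0, w3, a3, h3⟩
          · exact ⟨w, a1, v, a0, h.symm⟩
          · exact absurd rfl hij
          · exact ⟨w, a1, w2, a2, h2⟩
          · exact ⟨w3, a3, v, a0, h3.symm⟩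
          · exact ⟨w2, a2, w, a1, h2.symm⟩
          · exact absurd rfl hij
        · intro i x hx
          fin_cases i
          · have hx' : x = v := by simpa using hx
            rw [hx']
            exact SimpleGraph.Walk.start_mem_support _
          · have hx' : x = w := by simpa using hx
            rw [hx']
            simp
          · have hx' : x ∈ p3.support := hx
            have := hs3 x hx'
            simp [this]

end ForAux

theorem tFor (hDeg2 : S_Deg2) (hCyc3 : S_Cyc3) : S_For := by
  classical
  intro C _ Γ b hpl X hX hb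
  by_contra hcon
  push Not at hcon
  have hne : Nonempty (X : Set C) := by
    obtain ⟨x, hx⟩ := hX
    exact ⟨⟨x, hx⟩⟩
  obtain ⟨v, c, hc⟩ := ForAux.cyc (Γ.induce (X : Set C)) (by
    rintro ⟨v, hv⟩ ⟨w, hw⟩
    have h1 := hcon v hv
    obtain ⟨u, hu, huw⟩ := Finset.exists_mem_ne (lt_of_lt_of_le one_lt_two h1) w
    rw [Finset.mem_filter] at hu
    refine ⟨⟨u, hu.1⟩, ?_, hu.2⟩
    intro h2
    exact huw (congrArg Subtype.val h2))
  let f : (Γ.induce (X : Set C)) →g Γ := (SimpleGraph.Embedding.induce (X : Set C)).toHom
  have hf : Function.Injective f := Subtype.val_injective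
  have hc' : (c.map f).IsCycle := (SimpleGraph.Walk.isCycle_map_iff_of_injective hf).2 hc
  have hsup : ∀ x ∈ (c.map f).support, x ∈ X := by
    intro x hx
    rw [SimpleGraph.Walk.support_map, List.mem_map] at hx
    obtain ⟨y, -, rfl⟩ := hx
    exact y.2
  obtain ⟨Y, h1, h2, h3, h4⟩ := ForAux.three Γ _ (c.map f) hc'
  refine hCyc3 C Γ b hpl Y h1 h2 h3 ?_
  rcases hb with hb | ⟨c', hc'⟩
  · exact Or.inl hb
  · exact Or.inr ⟨c', fun i hi => hc' (hsup _ (h4 i _ hi))⟩

end Pool.Agent.Lib.MP_00ece3_co.EX
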