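import Pool.Agent.Lib.MP_00ece3_co.EX.SpecD

/-! # Project EX, part D: the module `Gain` (author helper22) -/

set_option autoImplicit false

namespace Pool.Agent.Lib.MP_00ece3_co.EX

open Pool.Agent.Lib.MP_00ece3_co

namespace GainAux

/-- The term of a chord. -/
private theorem term {q a0 b0 w g x y : ℕ} (hab : a0 ≤ b0) (h1 : 2 * q + 1 ≤ a0 + b0 + 3)
    (h2 : a0 + b0 ≤ 2 * q + 4) (hw : w ≤ q / 2) (hg : g ≤ b0 - a0)
    (h3 : g + 4 + 2 * w ≤ 2 * (q / 2)) (h4 : g + (b0 - a0) + 4 * w ≤ 4 * (q / 2)) (hx : x < q)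
    (hy : q ≤ y) :
    (if x + (b0 - a0 + 1) / 2 ≤ y ∧ y ≤ x + q then
        ((b0 : ℤ) - a0) - 2 * ((min y b0 : ℕ) - (max (x + 1) a0 : ℕ) : ℤ) else 0) +
      (if (q - q / 2 ≤ x ∧ x < q - q / 2 + w) ∧ (q + q / 2 - w ≤ y ∧ y < q + q / 2) then
        (g : ℤ) else 0) ≤ 4 := by
  split_ifs with hc hs hs
  · rcases le_total y b0 with hm | hm <;> rcases le_total (x + 1) a0 with hn | hn
    · rw [min_eq_left hm, max_eq_right hn]
      omega
    · rw [min_eq_left hm, max_eq_left hn]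
      omega
    · rw [min_eq_right hm, max_eq_right hn]
      omega
    · rw [min_eq_right hm, max_eq_left hn]
      omega
  · rcases le_total y b0 with hm | hm <;> rcases le_total (x + 1) a0 with hn | hn
    · rw [min_eq_left hm, max_eq_right hn]
      omega
    · rw [min_eq_left hm, max_eq_left hn]
      omega
    · rw [min_eq_right hm, max_eq_right hn]
      omega
    · rw [min_eq_right hm, max_eq_left hn]
      omega
  · exfalso
    omega
  · omega

/-- The sum over the special chords. -/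
private theorem special {q w g : ℕ} (hw : w ≤ q / 2) :
    ∑ x ∈ Finset.range q, ∑ y ∈ Finset.Ico q (2 * q + 1),
      (if (q - q / 2 ≤ x ∧ x < q - q / 2 + w) ∧ (q + q / 2 - w ≤ y ∧ y < q + q / 2) then
        (g : ℤ) else 0) = g * w ^ 2 := by
  have hY : (Finset.Ico q (2 * q + 1)).filter (fun y => q + q / 2 - w ≤ y ∧ y < q + q / 2) =
      Finset.Ico (q + q / 2 - w) (q + q / 2) := by
    ext y
    simp only [Finset.mem_filter, Finset.mem_Ico]
    omega
  have hX : (Finset.range q).filter (fun x => q - q / 2 ≤ x ∧ x < q - q / 2 + w) =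
      Finset.Ico (q - q / 2) (q - q / 2 + w) := by
    ext x
    simp only [Finset.mem_filter, Finset.mem_range, Finset.mem_Ico]
    omega
  have h1 : ∀ x ∈ Finset.range q, ∑ y ∈ Finset.Ico q (2 * q + 1),
      (if (q - q / 2 ≤ x ∧ x < q - q / 2 + w) ∧ (q + q / 2 - w ≤ y ∧ y < q + q / 2) then
        (g : ℤ) else 0) =
      if q - q / 2 ≤ x ∧ x < q - q / 2 + w then (w : ℤ) * g else 0 := by
    intro x _
    by_cases hx : q - q / 2 ≤ x ∧ x < q - q / 2 + w
    · rw [if_pos hx]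
      have h2 : ∀ y ∈ Finset.Ico q (2 * q + 1),
          (if (q - q / 2 ≤ x ∧ x < q - q / 2 + w) ∧ (q + q / 2 - w ≤ y ∧ y < q + q / 2) then
            (g : ℤ) else 0) = if q + q / 2 - w ≤ y ∧ y < q + q / 2 then (g : ℤ) else 0 := by
        intro y _
        simp only [hx, true_and, and_self]
      rw [Finset.sum_congr rfl h2, ← Finset.sum_filter, hY, Finset.sum_const, Nat.card_Ico,
        nsmul_eq_mul]
      have h3 : q + q / 2 - (q + q / 2 - w) = w := by omega
      rw [h3]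
    · rw [if_neg hx]
      refine Finset.sum_eq_zero fun y _ => ?_
      rw [if_neg fun h => hx h.1]
  rw [Finset.sum_congr rfl h1, ← Finset.sum_filter, hX, Finset.sum_const, Nat.card_Ico,
    nsmul_eq_mul]
  have h3 : q - q / 2 + w - (q - q / 2) = w := by omega
  rw [h3]
  ring

end GainAux

open GainAux in
theorem tGain (hGainA : S_GainA) (hReg : S_Reg) : S_Gain := by
  intro q a0 b0 w g hab hb h1 h2 hw hg h3 h4
  have hk : (b0 - a0 + 1) / 2 ≤ q + 1 := by omega
  have hA := hGainA q ((b0 - a0 + 1) / 2) a0 b0 hk hab hb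
  have hR : 2 * ∑ i ∈ Finset.Ico a0 b0, Cnt q (q + 1) i ≤ (b0 - a0) * q ^ 2 := by
    rw [Finset.mul_sum]
    refine le_trans (Finset.sum_le_sum (g := fun _ => q ^ 2) fun i hi => ?_) ?_
    · rw [sq]
      exact hReg q i (lt_of_lt_of_le (Finset.mem_Ico.1 hi).2 hb)
    · rw [Finset.sum_const, Nat.card_Ico, smul_eq_mul]
  have hS : ∑ x ∈ Finset.range q, ∑ y ∈ Finset.Ico q (2 * q + 1),
      (if x + (b0 - a0 + 1) / 2 ≤ y ∧ y ≤ x + q then
        ((b0 : ℤ) - a0) - 2 * ((min y b0 : ℕ) - (max (x + 1) a0 : ℕ) : ℤ) else 0) +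
      g * w ^ 2 ≤ 4 * (q * (q + 1)) := by
    rw [← special (g := g) hw, ← Finset.sum_add_distrib]
    refine le_trans (Finset.sum_le_sum (g := fun _ => 4 * ((q : ℤ) + 1)) fun x hx => ?_) ?_
    · rw [← Finset.sum_add_distrib]
      refine le_trans (Finset.sum_le_sum (g := fun _ => (4 : ℤ)) fun y hy => ?_) ?_
      · exact term hab h1 h2 hw hg h3 h4 (Finset.mem_range.1 hx) (Finset.mem_Ico.1 hy).1
      · rw [Finset.sum_const, Nat.card_Ico, nsmul_eq_mul]
        have h5 : 2 * q + 1 - q = q + 1 := by omega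
        rw [h5]
        push_cast
        linarith
    · rw [Finset.sum_const, Finset.card_range, nsmul_eq_mul]
      linarith
  have hq : (4 : ℤ) * (q * (q + 1)) ≤ 8 * q ^ 2 := by
    rcases Nat.eq_zero_or_pos q with rfl | h0
    · norm_num
    · have h5 : (1 : ℤ) ≤ q := by exact_mod_cast h0
      nlinarith
  have hR' : 2 * ∑ i ∈ Finset.Ico a0 b0, (Cnt q (q + 1) i : ℤ) ≤ ((b0 - a0 : ℕ) : ℤ) * q ^ 2 := by
    exact_mod_cast hR
  have hF : 2 * ∑ i ∈ Finset.Ico a0 b0, (Cnt q ((b0 - a0 + 1) / 2) i : ℤ) + 2 * g * w ^ 2 ≤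
      ((b0 - a0 : ℕ) : ℤ) * q ^ 2 + 16 * q ^ 2 := by
    linarith
  exact_mod_cast hF

end Pool.Agent.Lib.MP_00ece3_co.EX
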