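import Pool.Agent.Lib.MP_00ece3_co.EX.SpecD

/-!
# Project EX: GainA
-/

set_option autoImplicit false

namespace Pool.Agent.Lib.MP_00ece3_co.EX

open Pool.Agent.Lib.MP_00ece3_co

namespace GainAAux

open Finset

/-- the condition for the chord `xy` to separate `i` and the hub -/
def Q (q k x y i : ℕ) : Prop :=
  x < y ∧ x ≠ i ∧ y ≠ i ∧ ((x < i ∧ i < y ∧ Abv q k x y) ∨ (¬ (x < i ∧ i < y) ∧ ¬ Abv q k x y))

open Classical in
/-- the number of points of the interval separated from the hub -/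
noncomputable def cc (q k a0 b0 x y : ℕ) : ℕ := ((Ico a0 b0).filter (fun i => Q q k x y i)).card

/-- the inner term -/
def T (a0 b0 x y : ℕ) : ℤ :=
  ((b0 : ℤ) - a0) - 2 * ((min y b0 : ℕ) - (max (x + 1) a0 : ℕ) : ℤ)

theorem exch (q k a0 b0 : ℕ) : ∑ i ∈ Ico a0 b0, (Cnt q k i : ℤ) =
    ∑ x ∈ range (2 * q + 1), ∑ y ∈ range (2 * q + 1), (cc q k a0 b0 x y : ℤ) := by
  classical
  have h : ∀ i, (Cnt q k i : ℤ) =
      ∑ x ∈ range (2 * q + 1), ∑ y ∈ range (2 * q + 1), if Q q k x y i then (1 : ℤ) else 0 := by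
    intro i
    unfold Cnt
    rw [Finset.card_filter, Finset.sum_product]
    push_cast
    refine Finset.sum_congr rfl fun x _ => Finset.sum_congr rfl fun y _ => ?_
    by_cases hQ : Q q k x y i
    · rw [if_pos hQ]
      exact if_pos hQ
    · rw [if_neg hQ]
      exact if_neg hQ
  simp only [h]
  rw [Finset.sum_comm]
  refine Finset.sum_congr rfl fun x _ => ?_
  rw [Finset.sum_comm]
  refine Finset.sum_congr rfl fun y _ => ?_
  unfold cc
  rw [Finset.card_filter]
  push_cast
  rfl

theorem rhs (q k1 a0 b0 : ℕ) :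
    ∑ x ∈ range q, ∑ y ∈ Ico q (2 * q + 1),
      (if x + k1 ≤ y ∧ y ≤ x + q then T a0 b0 x y else 0) =
    ∑ x ∈ range (2 * q + 1), ∑ y ∈ range (2 * q + 1),
      (if x < q ∧ q ≤ y ∧ x + k1 ≤ y ∧ y ≤ x + q then T a0 b0 x y else 0) := by
  have h1 : ∀ x ∈ range q, ∑ y ∈ Ico q (2 * q + 1),
      (if x + k1 ≤ y ∧ y ≤ x + q then T a0 b0 x y else 0) =
      ∑ y ∈ range (2 * q + 1),
        (if x < q ∧ q ≤ y ∧ x + k1 ≤ y ∧ y ≤ x + q then T a0 b0 x y else 0) := by
    intro x hx
    have hx' := Finset.mem_range.1 hx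
    have h2 : ∑ y ∈ Ico q (2 * q + 1),
        (if x + k1 ≤ y ∧ y ≤ x + q then T a0 b0 x y else 0) =
        ∑ y ∈ Ico q (2 * q + 1),
          (if x < q ∧ q ≤ y ∧ x + k1 ≤ y ∧ y ≤ x + q then T a0 b0 x y else 0) := by
      refine Finset.sum_congr rfl fun y hy => ?_
      have hy' := (Finset.mem_Ico.1 hy).1
      by_cases h : x + k1 ≤ y ∧ y ≤ x + q
      · rw [if_pos h, if_pos ⟨hx', hy', h⟩]
      · rw [if_neg h, if_neg (fun h' => h h'.2.2)]
    rw [h2]
    refine Finset.sum_subset ?_ ?_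
    · intro y hy
      rw [Finset.mem_range]
      exact (Finset.mem_Ico.1 hy).2
    · intro y hy hy'
      rw [if_neg]
      rintro ⟨_, h3, _⟩
      exact hy' (Finset.mem_Ico.2 ⟨h3, Finset.mem_range.1 hy⟩)
  rw [Finset.sum_congr rfl h1]
  refine Finset.sum_subset ?_ ?_
  · intro x hx
    rw [Finset.mem_range] at hx ⊢
    omega
  · intro x _ hx'
    refine Finset.sum_eq_zero fun y _ => ?_
    rw [if_neg]
    rintro ⟨h3, _⟩
    exact hx' (Finset.mem_range.2 h3)

theorem term (q k1 a0 b0 x y : ℕ) (hk : k1 ≤ q + 1) (hab : a0 ≤ b0) :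
    (cc q k1 a0 b0 x y : ℤ) ≤ cc q (q + 1) a0 b0 x y +
      (if x < q ∧ q ≤ y ∧ x + k1 ≤ y ∧ y ≤ x + q then T a0 b0 x y else 0) := by
  classical
  by_cases hC : x < q ∧ q ≤ y ∧ x + k1 ≤ y ∧ y ≤ x + q
  · rw [if_pos hC]
    obtain ⟨hx, hy, h1, h2⟩ := hC
    have hA : Abv q (q + 1) x y := by
      unfold Abv
      right
      right
      omega
    have hB : ¬ Abv q k1 x y := by
      unfold Abv
      omega
    -- the inner points
    set I := (Ico a0 b0).filter (fun i => x < i ∧ i < y) with hI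
    have hI1 : I.card ≤ cc q (q + 1) a0 b0 x y := by
      unfold cc
      refine Finset.card_le_card ?_
      intro i hi
      rw [hI, Finset.mem_filter] at hi
      rw [Finset.mem_filter]
      refine ⟨hi.1, ?_⟩
      unfold Q
      exact ⟨by omega, by omega, by omega, Or.inl ⟨hi.2.1, hi.2.2, hA⟩⟩
    have hI2 : cc q k1 a0 b0 x y + I.card ≤ b0 - a0 := by
      unfold cc
      rw [← Finset.card_union_of_disjoint]
      · calc _ ≤ (Ico a0 b0).card := by
              refine Finset.card_le_card ?_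
              intro i hi
              rw [hI, Finset.mem_union, Finset.mem_filter, Finset.mem_filter] at hi
              rcases hi with hi | hi
              · exact hi.1
              · exact hi.1
          _ = b0 - a0 := Nat.card_Ico _ _
      · rw [Finset.disjoint_left]
        intro i hi hi'
        rw [Finset.mem_filter] at hi
        rw [hI, Finset.mem_filter] at hi'
        obtain ⟨_, hQ⟩ := hi
        unfold Q at hQ
        rcases hQ.2.2.2 with h | h
        · exact hB h.2.2
        · exact h.1 hi'.2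
    have hI3 : ((min y b0 : ℕ) : ℤ) - (max (x + 1) a0 : ℕ) ≤ I.card := by
      have h3 : I = Ico (max (x + 1) a0) (min y b0) := by
        ext i
        rw [hI, Finset.mem_filter, Finset.mem_Ico, Finset.mem_Ico]
        omega
      rw [h3, Nat.card_Ico]
      omega
    unfold T
    omega
  · rw [if_neg hC, add_zero]
    have h3 : cc q k1 a0 b0 x y ≤ cc q (q + 1) a0 b0 x y := by
      unfold cc
      refine Finset.card_le_card ?_
      intro i hi
      rw [Finset.mem_filter] at hi ⊢
      refine ⟨hi.1, ?_⟩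
      have hQ := hi.2
      unfold Q Abv at hQ ⊢
      omega
    exact_mod_cast h3

end GainAAux

open GainAAux in
/-- **GainA.** -/
theorem tGainA : S_GainA := by
  intro q k1 a0 b0 hk hab _
  have h := rhs q k1 a0 b0
  unfold T at h
  rw [h, exch, exch, ← Finset.sum_add_distrib]
  refine Finset.sum_le_sum fun x _ => ?_
  rw [← Finset.sum_add_distrib]
  refine Finset.sum_le_sum fun y _ => ?_
  exact term q k1 a0 b0 x y hk hab

end Pool.Agent.Lib.MP_00ece3_co.EX
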