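import Pool.Agent.Lib.MP_00ece3_co.EX.SpecD

/-!
# Exact value of `M(n)`: a subset with a sum in a given window (module Greedy)
-/

set_option autoImplicit false

namespace Pool.Agent.Lib.MP_00ece3_co.EX

theorem tGreedy : S_Greedy := by
  intro n T f lo hf
  induction T using Finset.induction_on with
  | empty =>
    intro h
    refine ⟨∅, Finset.Subset.refl _, h, ?_⟩
    rw [Finset.sum_empty]
    exact Nat.zero_le _
  | insert a T ha ih =>
    intro h
    by_cases h1 : lo ≤ ∑ s ∈ T, f s
    · obtain ⟨S1, hS, h2, h3⟩ := ih (fun s hs => hf s (Finset.mem_insert_of_mem hs)) h1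
      exact ⟨S1, hS.trans (Finset.subset_insert a T), h2, h3⟩
    · refine ⟨insert a T, Finset.Subset.refl _, h, ?_⟩
      have h2 := hf a (Finset.mem_insert_self a T)
      rw [Finset.sum_insert ha]
      omega

end Pool.Agent.Lib.MP_00ece3_co.EX
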