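import Pool.Agent.Lib.MP_00ece3_co.EX.SpecA

/-!
# Project EX: `S_Hull`
-/

set_option autoImplicit false

namespace Pool.Agent.Lib.MP_00ece3_co.EX

open Pool.Agent.Lib.MP_00ece3_co

namespace HullAux

private theorem sp_nonneg (a b x y : ℝ × ℝ) : 0 ≤ sp a b x y := by
  unfold sp
  split_ifs <;> norm_num

/-- A path edge with points on both sides. -/
private theorem both (hQuad : S_Quad) {m : ℕ} {P : Fin m → ℝ × ℝ}
    (hP : ∀ i j k, i ≠ j → i ≠ k → j ≠ k → orient (P i) (P j) (P k) ≠ 0) (hC : Cvx P)
    {i j : Fin m} (hij : (i : ℕ) + 1 = j) {b c : Fin m} (hb : 0 < orient (P i) (P j) (P b))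
    (hc : orient (P i) (P j) (P c) < 0) : 2 * ((m : ℤ) - 3) ≤ PR2 P := by
  classical
  have hne : i ≠ j := by
    intro h
    rw [h] at hij
    omega
  set L : Finset (Fin m) := Finset.univ.filter (fun b => 0 < orient (P i) (P j) (P b)) with hL
  set R : Finset (Fin m) := Finset.univ.filter (fun b => orient (P i) (P j) (P b) < 0) with hR
  have hLR : Disjoint L R := by
    rw [hL, hR, Finset.disjoint_filter]
    intro x _ h1 h2
    exact lt_asymm h1 h2
  have hzero : ∀ x : Fin m, (x = i ∨ x = j) → orient (P i) (P j) (P x) = 0 := by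
    rintro x (h | h)
    · rw [h]; unfold orient; ring
    · rw [h]; unfold orient; ring
  have hcard : L.card + R.card = m - 2 := by
    rw [← Finset.card_union_of_disjoint hLR]
    have h1 : L ∪ R = (Finset.univ.erase i).erase j := by
      ext x
      rw [Finset.mem_union, hL, hR, Finset.mem_filter, Finset.mem_filter, Finset.mem_erase,
        Finset.mem_erase]
      constructor
      · intro h
        refine ⟨fun h' => ?_, fun h' => ?_, Finset.mem_univ x⟩
        · rw [hzero x (Or.inr h')] at h
          exact h.elim (fun h => lt_irrefl _ h.2) (fun h => lt_irrefl _ h.2)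
        · rw [hzero x (Or.inl h')] at h
          exact h.elim (fun h => lt_irrefl _ h.2) (fun h => lt_irrefl _ h.2)
      · rintro ⟨h1, h2, -⟩
        rcases lt_or_gt_of_ne (hP i j x hne (fun h => h2 h.symm) (fun h => h1 h.symm)) with h | h
        · exact Or.inr ⟨Finset.mem_univ x, h⟩
        · exact Or.inl ⟨Finset.mem_univ x, h⟩
    rw [h1, Finset.card_erase_of_mem (Finset.mem_erase.2 ⟨hne.symm, Finset.mem_univ j⟩),
      Finset.card_erase_of_mem (Finset.mem_univ i), Finset.card_univ, Fintype.card_fin]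
    omega
  have hLpos : 0 < L.card := Finset.card_pos.2 ⟨b, Finset.mem_filter.2 ⟨Finset.mem_univ b, hb⟩⟩
  have hRpos : 0 < R.card := Finset.card_pos.2 ⟨c, Finset.mem_filter.2 ⟨Finset.mem_univ c, hc⟩⟩
  -- separated pairs
  have hsep : ∀ x y : Fin m, orient (P i) (P j) (P x) * orient (P i) (P j) (P y) < 0 →
      sp (P x) (P y) (P i) (P j) = 1 := by
    intro x y hxy
    have hxi : x ≠ i := fun h => by rw [hzero x (Or.inl h), zero_mul] at hxy; exact lt_irrefl _ hxy
    have hxj : x ≠ j := fun h => by rw [hzero x (Or.inr h), zero_mul] at hxy; exact lt_irrefl _ hxy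
    have hyi : y ≠ i := fun h => by rw [hzero y (Or.inl h), mul_zero] at hxy; exact lt_irrefl _ hxy
    have hyj : y ≠ j := fun h => by rw [hzero y (Or.inr h), mul_zero] at hxy; exact lt_irrefl _ hxy
    have hxne : x ≠ y := by
      rintro rfl
      exact absurd hxy (not_lt.2 (mul_self_nonneg _))
    unfold sp
    rw [if_pos]
    exact hQuad (P i) (P j) (P x) (P y) hxy (hP x y i hxne hxi hyi) (hP x y j hxne hxj hyj)
      (hC i j x y) (hC j i x y) (hC x i j y) (hC y i j x)
  have hsum : 2 * ((L.card : ℤ) * R.card) ≤ ∑ a, ∑ b, sp (P a) (P b) (P i) (P j) := by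
    rw [← Finset.sum_product']
    have hd : Disjoint (L ×ˢ R) (R ×ˢ L) := by
      rw [Finset.disjoint_left]
      rintro ⟨x, y⟩ h1 h2
      rw [Finset.mem_product] at h1 h2
      exact Finset.disjoint_left.1 hLR h1.1 h2.1
    calc 2 * ((L.card : ℤ) * R.card) = ∑ q ∈ (L ×ˢ R) ∪ (R ×ˢ L), (1 : ℤ) := by
          rw [Finset.sum_union hd, Finset.sum_const, Finset.sum_const, Finset.card_product,
            Finset.card_product]
          simp only [nsmul_eq_mul, mul_one]
          push_cast
          ring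
      _ = ∑ q ∈ (L ×ˢ R) ∪ (R ×ˢ L), sp (P q.1) (P q.2) (P i) (P j) := by
          refine Finset.sum_congr rfl ?_
          rintro ⟨x, y⟩ hq
          refine (hsep x y ?_).symm
          rw [Finset.mem_union, Finset.mem_product, Finset.mem_product, hL, hR,
            Finset.mem_filter, Finset.mem_filter, Finset.mem_filter, Finset.mem_filter] at hq
          rcases hq with ⟨h1, h2⟩ | ⟨h1, h2⟩
          · exact mul_neg_of_pos_of_neg h1.2 h2.2
          · exact mul_neg_of_neg_of_pos h1.2 h2.2
      _ ≤ _ := Finset.sum_le_sum_of_subset_of_nonneg (by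
            intro q _
            exact Finset.mem_product.2 ⟨Finset.mem_univ _, Finset.mem_univ _⟩)
          fun q _ _ => sp_nonneg _ _ _ _
  have hpath : ∑ a, ∑ b, sp (P a) (P b) (P i) (P j) ≤ PR2 P := by
    have hnn : ∀ i' j' : Fin m, 0 ≤ (if (i' : ℕ) + 1 = j' then
        ∑ a, ∑ b, sp (P a) (P b) (P i') (P j') else 0) := by
      intro i' j'
      split_ifs
      · exact Finset.sum_nonneg fun a _ => Finset.sum_nonneg fun b _ => sp_nonneg _ _ _ _
      · exact le_rfl
    unfold PR2 pathSum
    calc ∑ a, ∑ b, sp (P a) (P b) (P i) (P j) =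
          (if (i : ℕ) + 1 = j then ∑ a, ∑ b, sp (P a) (P b) (P i) (P j) else 0) := by
          rw [if_pos hij]
      _ ≤ ∑ j' : Fin m, (if (i : ℕ) + 1 = j' then ∑ a, ∑ b, sp (P a) (P b) (P i) (P j') else 0) :=
          Finset.single_le_sum (f := fun j' : Fin m => (if (i : ℕ) + 1 = j' then
            ∑ a, ∑ b, sp (P a) (P b) (P i) (P j') else 0)) (fun j' _ => hnn i j')
            (Finset.mem_univ j)
      _ ≤ _ := Finset.single_le_sum (f := fun i' : Fin m => ∑ j' : Fin m,
            (if (i' : ℕ) + 1 = j' then ∑ a, ∑ b, sp (P a) (P b) (P i') (P j') else 0))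
            (fun i' _ => Finset.sum_nonneg fun j' _ => hnn i' j') (Finset.mem_univ i)
  have hprod : (m : ℤ) - 3 ≤ (L.card : ℤ) * R.card := by
    have h1 : (1 : ℤ) ≤ L.card := by exact_mod_cast hLpos
    have h2 : (1 : ℤ) ≤ R.card := by exact_mod_cast hRpos
    have h3 : (L.card : ℤ) + R.card = (m : ℤ) - 2 := by omega
    nlinarith
  linarith

end HullAux

open HullAux in
theorem tHull (hQuad : S_Quad) : S_Hull := by
  intro m P hm hP hC hPR
  -- every path edge has all points on one side
  have hA : ∀ (i : ℕ) (h : i + 1 < m),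
      (∀ k : Fin m, (k : ℕ) ≠ i → (k : ℕ) ≠ i + 1 →
        0 < orient (P ⟨i, by omega⟩) (P ⟨i + 1, h⟩) (P k)) ∨
      (∀ k : Fin m, (k : ℕ) ≠ i → (k : ℕ) ≠ i + 1 →
        orient (P ⟨i, by omega⟩) (P ⟨i + 1, h⟩) (P k) < 0) := by
    intro i h
    by_contra hcon
    push Not at hcon
    obtain ⟨⟨k1, a1, a2, a3⟩, k2, b1, b2, b3⟩ := hcon
    have hne : (⟨i, by omega⟩ : Fin m) ≠ ⟨i + 1, h⟩ := by
      intro h'
      have := congrArg Fin.val h'
      simp at this
    have g : ∀ k : Fin m, (k : ℕ) ≠ i → (k : ℕ) ≠ i + 1 →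
        orient (P ⟨i, by omega⟩) (P ⟨i + 1, h⟩) (P k) ≠ 0 := fun k h1 h2 =>
      hP _ _ _ hne (fun h' => h1 (congrArg Fin.val h').symm)
        (fun h' => h2 (congrArg Fin.val h').symm)
    have h1 := lt_of_le_of_ne a3 (g k1 a1 a2)
    have h2 := lt_of_le_of_ne b3 (g k2 b1 b2).symm
    have h3 := both hQuad hP hC (i := ⟨i, by omega⟩) (j := ⟨i + 1, h⟩) rfl h2 h1
    omega
  -- the sign
  obtain ⟨ε, hε, h0⟩ : ∃ ε : ℝ, (ε = 1 ∨ ε = -1) ∧ ∀ k : Fin m, (k : ℕ) ≠ 0 → (k : ℕ) ≠ 1 →
      0 < ε * orient (P ⟨0, by omega⟩) (P ⟨1, by omega⟩) (P k) := by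
    rcases hA 0 (by omega) with h | h
    · exact ⟨1, Or.inl rfl, fun k h1 h2 => by rw [one_mul]; exact h k h1 h2⟩
    · exact ⟨-1, Or.inr rfl, fun k h1 h2 => by
        have := h k h1 h2
        rw [neg_one_mul]
        exact neg_pos.2 this⟩
  have hrot : ∀ x y z : ℝ × ℝ, orient y z x = orient x y z := by
    intro x y z
    unfold orient
    ring
  have hB : ∀ (i : ℕ) (h : i + 1 < m), ∀ k : Fin m, (k : ℕ) ≠ i → (k : ℕ) ≠ i + 1 →
      0 < ε * orient (P ⟨i, by omega⟩) (P ⟨i + 1, h⟩) (P k) := by
    intro i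
    induction i with
    | zero => intro h k h1 h2; exact h0 k h1 h2
    | succ i ih =>
      intro h
      have h1 := ih (by omega) ⟨i + 2, h⟩ (by simp) (by simp)
      have h2 := hA (i + 1) h
      have h3 : orient (P ⟨i + 1, by omega⟩) (P ⟨i + 1 + 1, h⟩) (P ⟨i, by omega⟩) =
          orient (P ⟨i, by omega⟩) (P ⟨i + 1, by omega⟩) (P ⟨i + 2, h⟩) := hrot _ _ _
      rcases h2 with h2 | h2
      · have h4 := h2 ⟨i, by omega⟩ (by simp) (by simp; omega)
        rw [h3] at h4
        have hε1 : ε = 1 := by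
          rcases hε with h | h
          · exact h
          · rw [h] at h1
            linarith
        intro k k1 k2
        rw [hε1, one_mul]
        exact h2 k k1 k2
      · have h4 := h2 ⟨i, by omega⟩ (by simp) (by simp; omega)
        rw [h3] at h4
        have hε1 : ε = -1 := by
          rcases hε with h | h
          · rw [h] at h1
            linarith
          · exact h
        intro k k1 k2
        rw [hε1, neg_one_mul]
        exact neg_pos.2 (h2 k k1 k2)
  -- all triples
  have hD : ∀ (d i j : ℕ) (hi : i < m) (hj : j < m), j = i + d + 1 → ∀ k : Fin m, j < (k : ℕ) →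
      0 < ε * orient (P ⟨i, hi⟩) (P ⟨j, hj⟩) (P k) := by
    intro d
    induction d with
    | zero =>
      intro i j hi hj hij k hk
      subst hij
      exact hB i hj k (by omega) (by omega)
    | succ d ih =>
      intro i j hi hj hij k hk
      obtain ⟨l, rfl⟩ : ∃ l, j = l + 1 := ⟨j - 1, by omega⟩
      have h1 := ih i l hi (by omega) (by omega) k (by omega)
      have h2 := hB l hj k (by omega) (by omega)
      by_contra hcon
      have hnz : orient (P ⟨i, hi⟩) (P ⟨l + 1, hj⟩) (P k) ≠ 0 := by
        refine hP _ _ _ ?_ ?_ ?_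
        · intro h
          have := congrArg Fin.val h
          simp at this
          omega
        · intro h
          have := congrArg Fin.val h
          simp at this
          omega
        · intro h
          have := congrArg Fin.val h
          simp at this
          omega
      have h3 : orient (P ⟨l + 1, hj⟩) (P ⟨i, hi⟩) (P k) =
          - orient (P ⟨i, hi⟩) (P ⟨l + 1, hj⟩) (P k) := by
        unfold orient
        ring
      refine hC k ⟨i, hi⟩ ⟨l, by omega⟩ ⟨l + 1, hj⟩ ?_
      rcases hε with h | h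
      · rw [h, one_mul] at h1 h2 hcon
        refine Or.inl ⟨h1, h2, ?_⟩
        rw [h3]
        have := lt_of_le_of_ne (not_lt.1 hcon) hnz
        linarith
      · rw [h, neg_one_mul] at h1 h2 hcon
        refine Or.inr ⟨by linarith, by linarith, ?_⟩
        rw [h3]
        have h4 : 0 ≤ orient (P ⟨i, hi⟩) (P ⟨l + 1, hj⟩) (P k) := by linarith
        have := lt_of_le_of_ne h4 hnz.symm
        linarith
  have hall : ∀ i j k : Fin m, i < j → j < k → 0 < ε * orient (P i) (P j) (P k) := by
    intro i j k hij hjk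
    exact hD (j - i - 1) i j i.2 j.2 (by
      have : (i : ℕ) < j := hij
      omega) k hjk
  rcases hε with h | h
  · left
    intro i j k hij hjk
    have := hall i j k hij hjk
    rwa [h, one_mul] at this
  · right
    intro i j k hij hjk
    have := hall i j k hij hjk
    rw [h, neg_one_mul] at this
    linarith

end Pool.Agent.Lib.MP_00ece3_co.EX
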