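import Pool.Agent.Lib.MP_00ece3_co.EX.SpecA

/-!
MP_00ece3_co, EX/IdB: sum of PairId over all ordered pairs.
-/

set_option autoImplicit false

namespace Pool.Agent.Lib.MP_00ece3_co.EX

open Pool.Agent.Lib.MP_00ece3_co

private lemma IdB_sp {a b x y : ℝ × ℝ} (h : orient a b x = 0) : sp a b x y = 0 := by
  unfold sp Sp
  rw [h, zero_mul, if_neg (lt_irrefl _)]

private lemma IdB_lft {a b c : ℝ × ℝ} (h : orient a b c = 0) : lft a b c = 0 := by
  unfold lft
  rw [h, if_neg (lt_irrefl _)]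

private lemma IdB_tri {x a b c : ℝ × ℝ} (h : orient a b x = 0) : tri x a b c = 0 := by
  unfold tri Tri
  rw [h, if_neg]
  rintro (h1 | h1)
  · exact lt_irrefl _ h1.1
  · exact lt_irrefl _ h1.1

theorem tIdB (hPairId : S_PairId) : S_IdB := by
  intro m P u v ⟨g1, g2, g3, g4⟩
  have key : ∀ a b : Fin m, 2 * (sp (P a) v (P b) u + sp (P b) v (P a) u +
      (sp (P a) u (P b) v + sp (P b) u (P a) v)) + 2 * sp (P a) (P b) u v =
      4 * (if a = b then 0 else 1) - (sg P u v a * (lft (P a) u (P b) - lft (P a) v (P b)) +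
      sg P u v b * (lft (P b) u (P a) - lft (P b) v (P a))) +
      2 * (tri (P b) (P a) u v + tri (P a) (P b) u v) := by
    intro a b
    by_cases hab : a = b
    · subst hab
      have e1 : ∀ w : ℝ × ℝ, orient (P a) w (P a) = 0 := fun w => by unfold orient; ring
      have e2 : orient (P a) (P a) u = 0 := by unfold orient; ring
      rw [IdB_sp (e1 v), IdB_sp (e1 u), IdB_sp e2, IdB_lft (e1 u), IdB_lft (e1 v),
        IdB_tri (e1 u), if_pos rfl]
      ring
    · have h := hPairId (P a) (P b) u v (g1 a b hab) (g2 a b hab) (g3 a) (g3 b)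
      rw [if_neg hab]
      unfold sg
      linarith
  have hs := Finset.sum_congr (rfl : (Finset.univ : Finset (Fin m)) = Finset.univ)
    fun a _ => Finset.sum_congr (rfl : (Finset.univ : Finset (Fin m)) = Finset.univ)
      fun b _ => key a b
  simp only [Finset.sum_add_distrib, Finset.sum_sub_distrib, ← Finset.mul_sum] at hs
  have c1 : ∑ a, ∑ b, sp (P b) v (P a) u = ∑ a, ∑ b, sp (P a) v (P b) u := Finset.sum_comm
  have c2 : ∑ a, ∑ b, sp (P b) u (P a) v = ∑ a, ∑ b, sp (P a) u (P b) v := Finset.sum_comm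
  have c3 : ∑ a, ∑ b, sg P u v b * (lft (P b) u (P a) - lft (P b) v (P a)) =
      ∑ a, sg P u v a * (∑ b, lft (P a) u (P b) - ∑ b, lft (P a) v (P b)) := by
    rw [Finset.sum_comm]
    refine Finset.sum_congr rfl fun a _ => ?_
    rw [← Finset.mul_sum, Finset.sum_sub_distrib]
  have c4 : ∑ a, ∑ b, tri (P a) (P b) u v = ∑ a, ∑ b, tri (P b) (P a) u v := Finset.sum_comm
  have c5 : ∑ a : Fin m, ∑ b : Fin m, (if a = b then (0 : ℤ) else 1) = (m : ℤ) * (m - 1) := by
    have h4 : ∀ a : Fin m, ∑ b : Fin m, (if a = b then (0 : ℤ) else 1) = m - 1 := by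
      intro a
      have h5 : ∀ b : Fin m, (if a = b then (0 : ℤ) else 1) = 1 - if a = b then 1 else 0 := by
        intro b
        split_ifs <;> norm_num
      simp only [h5, Finset.sum_sub_distrib, Finset.sum_const, Finset.card_univ, Fintype.card_fin,
        Finset.sum_ite_eq, Finset.mem_univ, if_true, nsmul_eq_mul, mul_one]
    simp only [h4, Finset.sum_const, Finset.card_univ, Fintype.card_fin, nsmul_eq_mul]
  rw [c1, c2, c3, c4, c5] at hs
  have d1 : ∑ c, ∑ a, sp (P a) v (P c) u = ∑ a, ∑ b, sp (P a) v (P b) u := Finset.sum_comm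
  have d2 : ∑ c, ∑ a, sp (P a) u (P c) v = ∑ a, ∑ b, sp (P a) u (P b) v := Finset.sum_comm
  rw [d1, d2]
  unfold inn TT
  linarith

end Pool.Agent.Lib.MP_00ece3_co.EX
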