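import Pool.Agent.Lib.MP_00ece3_co.EX.SpecA

set_option autoImplicit false

/-!
# Project EX: the identity (1) of the note (module Ident, helper23)
-/

namespace Pool.Agent.Lib.MP_00ece3_co.EX

open Pool.Agent.Lib.MP_00ece3_co

namespace IdentAux

private theorem orient_ll (a b : ℝ × ℝ) : orient a b a = 0 := by
  simp only [orient]
  ring

private theorem orient_rr (a b : ℝ × ℝ) : orient a b b = 0 := by
  simp only [orient]
  ring

/-- No line through `b` separates `b` from a point. -/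
private theorem sp_r (a b x : ℝ × ℝ) : sp a b x b = 0 := by
  unfold sp Sp
  rw [orient_rr, mul_zero, if_neg (lt_irrefl 0)]

private theorem sp_l (a b x : ℝ × ℝ) : sp a b x a = 0 := by
  unfold sp Sp
  rw [orient_ll, mul_zero, if_neg (lt_irrefl 0)]

private theorem sp_m (a b x : ℝ × ℝ) : sp a b b x = 0 := by
  unfold sp Sp
  rw [orient_rr, zero_mul, if_neg (lt_irrefl 0)]

/-- `H2` without the terms which vanish. -/
private theorem H2_eq {m : ℕ} (P : Fin m → ℝ × ℝ) (u v : ℝ × ℝ) :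
    H2 P u v = ∑ c, ∑ a, ∑ b, sp (P a) (P b) (P c) u + ∑ c, ∑ a, ∑ b, sp (P a) (P b) (P c) v +
      (2 * ∑ c, ∑ a, sp (P a) v (P c) u + 2 * ∑ c, ∑ a, sp (P a) u (P c) v +
        ∑ a, ∑ b, sp (P a) (P b) u v) := by
  have h1 : ∀ c, N2 P u v (P c) u =
      ∑ a, ∑ b, sp (P a) (P b) (P c) u + 2 * ∑ a, sp (P a) v (P c) u := by
    intro c
    unfold N2
    rw [sp_l u v, Finset.sum_eq_zero fun a _ => sp_r (P a) u (P c)]
    ring
  have h2 : ∀ c, N2 P u v (P c) v =
      ∑ a, ∑ b, sp (P a) (P b) (P c) v + 2 * ∑ a, sp (P a) u (P c) v := by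
    intro c
    unfold N2
    rw [sp_r u v, Finset.sum_eq_zero fun a _ => sp_r (P a) v (P c)]
    ring
  have h3 : N2 P u v u v = ∑ a, ∑ b, sp (P a) (P b) u v := by
    unfold N2
    rw [sp_r u v, Finset.sum_eq_zero fun a _ => sp_r (P a) v u,
      Finset.sum_eq_zero fun a _ => sp_m (P a) u v]
    ring
  unfold H2
  rw [h3, Finset.sum_congr rfl fun c _ => h1 c, Finset.sum_congr rfl fun c _ => h2 c,
    Finset.sum_add_distrib, Finset.sum_add_distrib, ← Finset.mul_sum, ← Finset.mul_sum]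
  ring

/-- The sum over the numbers of out-neighbours. -/
private theorem out_sum {m : ℕ} (P : Fin m → ℝ × ℝ) (u : ℝ × ℝ) (h : ∑ a, UU P u a = 0) :
    4 * ∑ a, ((m : ℤ) - 1 - inn P u a) * ((m : ℤ) - 2 - inn P u a) =
      (m : ℤ) * ((m : ℤ) - 1) * ((m : ℤ) - 3) + ∑ a, UU P u a ^ 2 := by
  have h1 : ∀ a, 4 * (((m : ℤ) - 1 - inn P u a) * ((m : ℤ) - 2 - inn P u a)) =
      ((m : ℤ) - 1) * ((m : ℤ) - 3) + (4 - 2 * (m : ℤ)) * UU P u a + UU P u a ^ 2 := by
    intro a
    unfold UU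
    ring
  rw [Finset.mul_sum, Finset.sum_congr rfl fun a _ => h1 a, Finset.sum_add_distrib,
    Finset.sum_add_distrib, Finset.sum_const, ← Finset.mul_sum, h, Finset.card_univ,
    Fintype.card_fin, nsmul_eq_mul]
  ring

end IdentAux

theorem tIdent (hIdA : S_IdA) (hSumU : S_SumU) (hIdB : S_IdB) : S_Ident := by
  intro m P u v h
  have hA := hIdA m P u h.1 h.2.2.2
  have hB := hIdA m P v h.2.1 h.2.2.2
  have hU := (hSumU m P u h.1).2
  have hV := (hSumU m P v h.2.1).2
  have hC := hIdB m P u v h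
  have h1 := IdentAux.out_sum P u hU
  have h2 := IdentAux.out_sum P v hV
  have h3 : 2 * ∑ a, sg P u v a * (inn P u a - inn P v a) =
      ∑ a, sg P u v a * (UU P u a - UU P v a) := by
    rw [Finset.mul_sum]
    refine Finset.sum_congr rfl fun a _ => ?_
    unfold UU
    ring
  have h4 : ∑ a, (UU P u a ^ 2 + UU P v a ^ 2 - 2 * sg P u v a * (UU P u a - UU P v a)) =
      ∑ a, UU P u a ^ 2 + ∑ a, UU P v a ^ 2 - 2 * ∑ a, sg P u v a * (UU P u a - UU P v a) := by
    rw [Finset.sum_sub_distrib, Finset.sum_add_distrib, Finset.mul_sum]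
    refine congrArg _ (Finset.sum_congr rfl fun a _ => ?_)
    ring
  rw [IdentAux.H2_eq, hA, hB, hC, h4]
  linear_combination h1 + h2 - 2 * h3

end Pool.Agent.Lib.MP_00ece3_co.EX
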