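import Pool.Agent.Lib.MP_00ece3_co.EX.SpecA

/-!
# The inequality which follows from the identity for the cost of the hub edges
-/

set_option autoImplicit false

namespace Pool.Agent.Lib.MP_00ece3_co.EX

open Pool.Agent.Lib.MP_00ece3_co

theorem tIdentLe (hIdent : S_Ident) : S_IdentLe := by
  intro m P u v h
  rw [hIdent m P u v h]
  have h1 : ∑ a, WW P u v a ≤
      ∑ a, (UU P u a ^ 2 + UU P v a ^ 2 - 2 * sg P u v a * (UU P u a - UU P v a)) := by
    apply Finset.sum_le_sum
    intro a _
    unfold WW
    have h2 : sg P u v a * (UU P u a - UU P v a) ≤ |UU P u a - UU P v a| := by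
      unfold sg
      split_ifs with hs
      · rw [one_mul]
        exact le_abs_self _
      · rw [neg_one_mul]
        exact neg_le_abs _
    have h3 : 2 * sg P u v a * (UU P u a - UU P v a) =
        2 * (sg P u v a * (UU P u a - UU P v a)) := by ring
    rw [h3]
    linarith
  linarith

end Pool.Agent.Lib.MP_00ece3_co.EX
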