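import Pool.Agent.Lib.MP_00ece3_co.EX.SpecC

set_option autoImplicit false

/-!
# Project EX: insertion of elements into a cyclic order (module Ins, helper23)
-/

namespace Pool.Agent.Lib.MP_00ece3_co.EX

open Pool.Agent.Lib.MP_00ece3_co

namespace InsAux

/-- The rank of an element for the key `f`. -/
private def rk {Z : Type} [Fintype Z] (f : Z → ℕ) (z : Z) : ℕ :=
  (Finset.univ.filter fun y => f y < f z).card

private theorem rk_mono {Z : Type} [Fintype Z] {f : Z → ℕ} {z z' : Z} (h : f z < f z') :
    rk f z < rk f z' := by
  refine Finset.card_lt_card ((Finset.ssubset_iff_of_subset ?_).2 ⟨z, ?_, ?_⟩)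
  · intro y hy
    rw [Finset.mem_filter] at hy ⊢
    exact ⟨hy.1, hy.2.trans h⟩
  · rw [Finset.mem_filter]
    exact ⟨Finset.mem_univ _, h⟩
  · rw [Finset.mem_filter]
    exact fun h' => lt_irrefl _ h'.2

private theorem rk_lt {Z : Type} [Fintype Z] (f : Z → ℕ) (z : Z) : rk f z < Fintype.card Z := by
  refine Finset.card_lt_univ_of_notMem (x := z) ?_
  rw [Finset.mem_filter]
  exact fun h' => lt_irrefl _ h'.2

private theorem rk_inj {Z : Type} [Fintype Z] {f : Z → ℕ} (hf : Function.Injective f) :
    Function.Injective (rk f) := by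
  intro z z' h
  by_contra hne
  rcases lt_or_gt_of_ne fun e => hne (hf e) with h' | h'
  · exact (rk_mono h').ne h
  · exact (rk_mono h').ne' h

private theorem exists_rho {Z : Type} [Fintype Z] {f : Z → ℕ} (hf : Function.Injective f) (n : ℕ)
    (hn : Fintype.card Z = n) : ∃ ρ : Z ≃ Fin n, ∀ z, (ρ z : ℕ) = rk f z := by
  subst hn
  refine ⟨Equiv.ofBijective (fun z => ⟨rk f z, rk_lt f z⟩) ?_, fun z => rfl⟩
  rw [Fintype.bijective_iff_injective_and_card]
  refine ⟨fun z z' h => rk_inj hf ?_, (Fintype.card_fin _).symm⟩
  exact congrArg Fin.val h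

private theorem off {a b c K : ℕ} (hb : b < K) : a * K + b < c * K ↔ a < c := by
  constructor
  · intro h
    by_contra hc
    have := Nat.mul_le_mul_right K (not_lt.1 hc)
    omega
  · intro h
    have := Nat.mul_le_mul_right K (Nat.succ_le_of_lt h)
    rw [Nat.succ_mul] at this
    omega

private theorem off' {a b c K : ℕ} (hb : b < K) (h : c * K < a * K + b) : c ≤ a := by
  by_contra hc
  have := Nat.mul_le_mul_right K (Nat.succ_le_of_lt (not_le.1 hc))
  rw [Nat.succ_mul] at this
  omega

private theorem off0 {a c K : ℕ} (hK : 0 < K) : a * K < c * K ↔ a < c := by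
  have := off (a := a) (c := c) hK
  rwa [add_zero] at this

variable {t k : ℕ}

/-- The key. -/
private def key (γ : Fin k → Fin t) : Fin t ⊕ Fin k → ℕ
  | Sum.inl i => i * (k + 1)
  | Sum.inr x => γ x * (k + 1) + (1 + x)

private theorem key_inj (γ : Fin k → Fin t) : Function.Injective (key γ) := by
  have h0 : ∀ x : Fin k, 1 + (x : ℕ) < k + 1 := fun x => by have := x.2; omega
  have h1 : ∀ (i : Fin t) (x : Fin k), key γ (Sum.inl i) ≠ key γ (Sum.inr x) := by
    intro i x h
    change (i : ℕ) * (k + 1) = γ x * (k + 1) + (1 + x) at h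
    have h2 : (i : ℕ) ≤ γ x := by
      by_contra hc
      have := (off (h0 x)).2 (not_le.1 hc)
      omega
    have h3 := Nat.mul_le_mul_right (k + 1) h2
    omega
  rintro (i | x) (j | y) h
  · change (i : ℕ) * (k + 1) = j * (k + 1) at h
    exact congrArg Sum.inl (Fin.ext (Nat.eq_of_mul_eq_mul_right (Nat.succ_pos k) h))
  · exact absurd h (h1 i y)
  · exact absurd h.symm (h1 j x)
  · change (γ x : ℕ) * (k + 1) + (1 + x) = γ y * (k + 1) + (1 + y) at h
    have h2 : (γ x : ℕ) ≤ γ y := by
      by_contra hc
      have := (off (h0 y)).2 (not_le.1 hc)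
      omega
    have h3 : (γ y : ℕ) ≤ γ x := by
      by_contra hc
      have := (off (h0 x)).2 (not_le.1 hc)
      omega
    have h4 : (γ x : ℕ) = γ y := le_antisymm h2 h3
    rw [h4] at h
    exact congrArg Sum.inr (Fin.ext (by omega))

private theorem card_inr (s : Finset (Fin k)) :
    (s.image (Sum.inr : Fin k → Fin t ⊕ Fin k)).card = s.card :=
  Finset.card_image_of_injective _ Sum.inr_injective

private theorem card_inl (s : Finset (Fin t)) :
    (s.image (Sum.inl : Fin t → Fin t ⊕ Fin k)).card = s.card :=
  Finset.card_image_of_injective _ Sum.inl_injective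

end InsAux

open InsAux in
theorem tIns : S_Ins := by
  classical
  intro t k γ
  obtain ⟨ρ, hρ⟩ := exists_rho (key_inj γ) (t + k) (by simp)
  have h0 : ∀ x : Fin k, 1 + (x : ℕ) < k + 1 := fun x => by have := x.2; omega
  have hK : 0 < k + 1 := Nat.succ_pos k
  have hll : ∀ i j : Fin t, key γ (Sum.inl i) < key γ (Sum.inl j) ↔ (i : ℕ) < j :=
    fun i j => off0 hK
  have hrl : ∀ (x : Fin k) (j : Fin t), key γ (Sum.inr x) < key γ (Sum.inl j) ↔ (γ x : ℕ) < j :=
    fun x j => off (h0 x)
  have hlr : ∀ (i : Fin t) (x : Fin k), key γ (Sum.inl i) < key γ (Sum.inr x) ↔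
      (i : ℕ) ≤ γ x := by
    intro i x
    refine ⟨fun h => off' (h0 x) h, fun h => ?_⟩
    have h2 := Nat.mul_le_mul_right (k + 1) h
    change (i : ℕ) * (k + 1) < γ x * (k + 1) + (1 + x)
    omega
  refine ⟨ρ, ?_, ?_, ?_, ?_⟩
  · intro i j hij
    refine ⟨?_, ?_, ?_⟩
    · rw [Fin.lt_def, hρ, hρ]
      exact rk_mono ((hll i j).2 (by omega))
    · rw [hρ, hρ]
      have h1 : (Finset.univ.filter fun y => key γ y < key γ (Sum.inl j)) ⊆
          (Finset.univ.filter fun y => key γ y < key γ (Sum.inl i)) ∪
            insert (Sum.inl i) (Finset.univ.image Sum.inr) := by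
        intro y hy
        rw [Finset.mem_filter] at hy
        rw [Finset.mem_union, Finset.mem_insert]
        rcases y with l | x
        · have h2 := (hll l j).1 hy.2
          rcases Nat.lt_or_ge l i with h3 | h3
          · exact Or.inl (Finset.mem_filter.2 ⟨Finset.mem_univ _, (hll l i).2 h3⟩)
          · exact Or.inr (Or.inl (congrArg Sum.inl (Fin.ext (by omega))))
        · exact Or.inr (Or.inr (Finset.mem_image_of_mem _ (Finset.mem_univ x)))
      have h2 := (Finset.card_le_card h1).trans (Finset.card_union_le _ _)
      have h3 := Finset.card_insert_le (Sum.inl i : Fin t ⊕ Fin k)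
        (Finset.univ.image (Sum.inr : Fin k → Fin t ⊕ Fin k))
      rw [card_inr, Finset.card_univ, Fintype.card_fin] at h3
      unfold rk
      omega
    · intro hγ
      rw [hρ, hρ]
      have h1 : (Finset.univ.filter fun y => key γ y < key γ (Sum.inl j)) =
          insert (Sum.inl i) (Finset.univ.filter fun y => key γ y < key γ (Sum.inl i)) := by
        ext y
        rw [Finset.mem_insert, Finset.mem_filter, Finset.mem_filter]
        rcases y with l | x
        · rw [hll, hll, Sum.inl.injEq, Fin.ext_iff]
          simp only [Finset.mem_univ, true_and]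
          omega
        · rw [hrl, hrl]
          have h2 : (γ x : ℕ) ≠ i := fun h => hγ x (Fin.ext h)
          simp only [Finset.mem_univ, true_and, reduceCtorEq, false_or]
          omega
      unfold rk
      rw [h1, Finset.card_insert_of_notMem]
      rw [Finset.mem_filter]
      exact fun h' => lt_irrefl _ h'.2
  · intro i hi
    rw [hρ]
    unfold rk
    rw [Finset.card_eq_zero, Finset.filter_eq_empty_iff]
    intro y _ h
    have h2 : key γ (Sum.inl i) = 0 := by
      change (i : ℕ) * (k + 1) = 0
      rw [hi, zero_mul]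
    omega
  · intro i hi
    refine ⟨?_, ?_⟩
    · rw [hρ]
      have h1 : (Finset.univ.erase i).image Sum.inl ⊆
          (Finset.univ.filter fun y => key γ y < key γ (Sum.inl i)) := by
        intro y hy
        obtain ⟨l, hl, rfl⟩ := Finset.mem_image.1 hy
        rw [Finset.mem_filter]
        refine ⟨Finset.mem_univ _, (hll l i).2 ?_⟩
        have h2 := (Finset.mem_erase.1 hl).1
        have h3 : (l : ℕ) ≠ i := fun h => h2 (Fin.ext h)
        have := l.2
        omega
      have h2 := Finset.card_le_card h1
      rw [card_inl, Finset.card_erase_of_mem (Finset.mem_univ i), Finset.card_univ,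
        Fintype.card_fin] at h2
      unfold rk
      omega
    · intro hγ
      rw [hρ]
      have h1 : (Finset.univ.filter fun y => key γ y < key γ (Sum.inl i)) =
          Finset.univ.erase (Sum.inl i) := by
        ext y
        rw [Finset.mem_erase, Finset.mem_filter]
        rcases y with l | x
        · rw [hll, ne_eq, Sum.inl.injEq, Fin.ext_iff]
          simp only [Finset.mem_univ, true_and, and_true]
          have := l.2
          omega
        · rw [hrl]
          have h2 : (γ x : ℕ) ≠ i := fun h => hγ x (Fin.ext h)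
          simp only [Finset.mem_univ, true_and, and_true, ne_eq, reduceCtorEq,
            not_false_eq_true, iff_true]
          have := (γ x).2
          omega
      unfold rk
      rw [h1, Finset.card_erase_of_mem (Finset.mem_univ _), Finset.card_univ, Fintype.card_sum,
        Fintype.card_fin, Fintype.card_fin]
      have := i.2
      omega
  · intro x
    refine ⟨?_, ?_, ?_, ?_⟩
    · rw [Fin.lt_def, hρ, hρ]
      exact rk_mono ((hlr (γ x) x).2 le_rfl)
    · rw [hρ, hρ]
      have h1 : (Finset.univ.filter fun y => key γ y < key γ (Sum.inr x)) ⊆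
          (Finset.univ.filter fun y => key γ y < key γ (Sum.inl (γ x))) ∪
            insert (Sum.inl (γ x)) ((Finset.univ.erase x).image Sum.inr) := by
        intro y hy
        rw [Finset.mem_filter] at hy
        rw [Finset.mem_union, Finset.mem_insert]
        rcases y with l | z
        · have h2 := (hlr l x).1 hy.2
          rcases Nat.lt_or_ge l (γ x) with h3 | h3
          · exact Or.inl (Finset.mem_filter.2 ⟨Finset.mem_univ _, (hll l (γ x)).2 h3⟩)
          · exact Or.inr (Or.inl (congrArg Sum.inl (Fin.ext (by omega))))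
        · refine Or.inr (Or.inr (Finset.mem_image_of_mem _ (Finset.mem_erase.2
            ⟨fun h => ?_, Finset.mem_univ z⟩)))
          rw [h] at hy
          exact lt_irrefl _ hy.2
      have h2 := (Finset.card_le_card h1).trans (Finset.card_union_le _ _)
      have h3 := Finset.card_insert_le (Sum.inl (γ x) : Fin t ⊕ Fin k)
        ((Finset.univ.erase x).image (Sum.inr : Fin k → Fin t ⊕ Fin k))
      rw [card_inr, Finset.card_erase_of_mem (Finset.mem_univ x), Finset.card_univ,
        Fintype.card_fin] at h3
      have := x.2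
      unfold rk
      omega
    · intro j hj
      rw [Fin.lt_def, hρ, hρ]
      exact rk_mono ((hrl x j).2 (by omega))
    · intro hx
      rw [hρ]
      have h1 : Finset.univ.image Sum.inl ⊆
          (Finset.univ.filter fun y => key γ y < key γ (Sum.inr x)) := by
        intro y hy
        obtain ⟨l, _, rfl⟩ := Finset.mem_image.1 hy
        rw [Finset.mem_filter]
        refine ⟨Finset.mem_univ _, (hlr l x).2 ?_⟩
        have := l.2
        omega
      have h2 := Finset.card_le_card h1
      rw [card_inl, Finset.card_univ, Fintype.card_fin] at h2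
      exact h2

end Pool.Agent.Lib.MP_00ece3_co.EX
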