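import Pool.Agent.Lib.MP_00ece3_co.EX.SpecB

/-!
MP_00ece3_co, EX/KFar: a crude bound for the cost of the edges between points of the parabola.
-/

set_option autoImplicit false

namespace Pool.Agent.Lib.MP_00ece3_co.EX

open Pool.Agent.Lib.MP_00ece3_co

private lemma KFar_le_one (a b x y : ℝ × ℝ) : sp a b x y ≤ 1 := by
  unfold sp
  split_ifs <;> norm_num

private lemma KFar_sum {m : ℕ} (P : Fin m → ℝ × ℝ) (u : ℝ × ℝ) (i : Fin m) (y : ℝ × ℝ) :
    ∑ a, sp (P a) u (P i) y ≤ m - 1 := by
  have h1 : ∀ a : Fin m, sp (P a) u (P i) y ≤ 1 - if i = a then 1 else 0 := by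
    intro a
    split_ifs with h
    · subst h
      have h2 : orient (P i) u (P i) = 0 := by
        unfold orient
        ring
      unfold sp Sp
      rw [h2, zero_mul, if_neg (lt_irrefl _)]
      norm_num
    · rw [sub_zero]
      exact KFar_le_one _ _ _ _
  refine (Finset.sum_le_sum fun a _ => h1 a).trans (le_of_eq ?_)
  rw [Finset.sum_sub_distrib, Finset.sum_const, Finset.card_univ, Fintype.card_fin,
    Finset.sum_ite_eq, if_pos (Finset.mem_univ i), nsmul_eq_mul, mul_one]

theorem tKFar (hKRR : S_KRR) : S_KFar := by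
  intro m i j hij
  obtain ⟨-, -, h1, h2⟩ := hKRR m i j hij
  have h3 := KFar_sum (kP m) (kU m) i (kP m j)
  have h4 := KFar_sum (kP m) (kV m) i (kP m j)
  have h5 := KFar_le_one (kU m) (kV m) (kP m i) (kP m j)
  unfold N2
  constructor
  · have h6 : 2 * (((j : ℤ) - i + 1) * m) = 2 * (((j : ℤ) - i - 1) * m) + 4 * m := by ring
    rw [h6]
    linarith
  · have h6 : 2 * (((m : ℤ) - (j - i) + 1) * m) =
        2 * (((m : ℤ) - (j - i) - 1) * m) + 4 * m := by ring
    rw [h6]
    linarith

end Pool.Agent.Lib.MP_00ece3_co.EX
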