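import Pool.Agent.Lib.MP_00ece3_co.EX.SpecB

/-!
# Project EX, part B: general position of the placement (KGP)
-/

set_option autoImplicit false

namespace Pool.Agent.Lib.MP_00ece3_co.EX

open Pool.Agent.Lib.MP_00ece3_co

private theorem KGP_swap (x y z : ℝ × ℝ) : orient y x z = -orient x y z := by
  unfold orient
  ring

private theorem KGP_rot (x y z : ℝ × ℝ) : orient y z x = orient x y z := by
  unfold orient
  ring

private theorem KGP_pts (hPP : S_PP) (l i j k : ℕ) (hij : i ≠ j) (hik : i ≠ k) (hjk : j ≠ k) :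
    orient (pp l i) (pp l j) (pp l k) ≠ 0 := by
  rcases lt_or_gt_of_ne hij with h1 | h1 <;> rcases lt_or_gt_of_ne hjk with h2 | h2 <;>
    rcases lt_or_gt_of_ne hik with h3 | h3
  · exact (hPP l i j k h1 h2).ne'
  · omega
  · have h := hPP l i k j h3 h2
    intro h0
    have e4 : orient (pp l i) (pp l k) (pp l j) = -orient (pp l i) (pp l j) (pp l k) := by
      unfold orient
      ring
    rw [e4, h0] at h
    norm_num at h
  · have h := hPP l k i j h3 h1
    rw [← KGP_rot] at h
    exact h.ne'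
  · have h := hPP l j i k h1 h3
    rw [KGP_swap] at h
    intro h0
    rw [h0] at h
    norm_num at h
  · have h := hPP l j k i h2 h3
    rw [← KGP_rot, ← KGP_rot] at h
    exact h.ne'
  · omega
  · have h := hPP l k j i h2 h1
    have e4 : orient (pp l k) (pp l j) (pp l i) = -orient (pp l i) (pp l j) (pp l k) := by
      unfold orient
      ring
    intro h0
    rw [e4, h0] at h
    norm_num at h

private theorem KGP_hub (hPH : S_PH) (l k i j : ℕ) (hij : i ≠ j) :
    orient (pp l i) (pp l j) (hh k) ≠ 0 := by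
  rcases lt_or_gt_of_ne hij with h1 | h1
  · exact (hPH l k i j h1).2
  · rw [KGP_swap]
    exact neg_ne_zero.2 (hPH l k j i h1).2

theorem tKGP (hPX : S_PX) (hPP : S_PP) (hPH : S_PH) (hHHs : S_HHs) : S_KGP := by
  intro m
  have _ := hPX
  have hne : ∀ i j : Fin m, i ≠ j → (i : ℕ) ≠ (j : ℕ) := fun i j h h' => h (Fin.ext h')
  refine ⟨fun i j h => ?_, fun i j h => ?_, fun i => ?_, fun i j k h1 h2 h3 => ?_⟩
  · exact KGP_hub hPH _ _ _ _ (hne i j h)
  · exact KGP_hub hPH _ _ _ _ (hne i j h)
  · exact (hHHs (m / 2) ((m + 1) / 2) ((m + 1) / 2 + 1) i (Nat.lt_succ_self _)).2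
  · exact KGP_pts hPP _ _ _ _ (hne i j h1) (hne i k h2) (hne j k h3)

end Pool.Agent.Lib.MP_00ece3_co.EX
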