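import Pool.Agent.Lib.MP_00ece3_co.EX.SpecB

/-!
# EX: the cost of the closing edge of the cycle in the placement `KP(m)` (`S_KGap`)
-/

set_option autoImplicit false

namespace Pool.Agent.Lib.MP_00ece3_co.EX

open Pool.Agent.Lib.MP_00ece3_co

namespace KGapAux

private theorem sp_le_one (a b x y : ℝ × ℝ) : sp a b x y ≤ 1 := by
  unfold sp
  split_ifs <;> norm_num

private theorem sp_self (a w y : ℝ × ℝ) : sp a w a y = 0 ∧ sp a w y a = 0 := by
  have h : orient a w a = 0 := by unfold orient; ring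
  unfold sp Sp
  rw [h, zero_mul, mul_zero]
  simp

private theorem hub (m κ : ℕ) (w : ℝ × ℝ)
    (hw : ∀ i j : Fin m, i < j → (0 < orient (kP m i) (kP m j) w ↔ (j : ℕ) < i + κ))
    (hne : ∀ i j : Fin m, i ≠ j → orient (kP m i) (kP m j) w ≠ 0) (h2 : m ≤ 2 * κ) (hκ : κ ≤ m)
    (i j : Fin m) (hi : (i : ℕ) = 0) (hj : (j : ℕ) + 1 = m) :
    ∑ a, sp (kP m a) w (kP m i) (kP m j) ≤ 2 * (κ : ℤ) - m := by
  classical
  have h1 : ∀ a : Fin m, sp (kP m a) w (kP m i) (kP m j) ≤
      if (m - κ ≤ (a : ℕ) ∧ (a : ℕ) < κ) then 1 else 0 := by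
    intro a
    by_cases hai : a = i
    · rw [hai, (sp_self _ _ _).1]
      split_ifs <;> norm_num
    by_cases haj : a = j
    · rw [haj, (sp_self _ _ _).2]
      split_ifs <;> norm_num
    have ha0 : (a : ℕ) ≠ 0 := fun h => hai (Fin.ext (by rw [h, hi]))
    have ha1 : (a : ℕ) + 1 ≠ m := fun h => haj (Fin.ext (by omega))
    have halt := a.2
    have hia : i < a := by rw [Fin.lt_def]; omega
    have haj' : a < j := by rw [Fin.lt_def]; omega
    split_ifs with hc
    · exact sp_le_one _ _ _ _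
    · unfold sp
      rw [if_neg]
      unfold Sp
      have e1 : orient (kP m a) w (kP m i) = orient (kP m i) (kP m a) w := by
        unfold orient; ring
      have e2 : orient (kP m a) w (kP m j) = -orient (kP m a) (kP m j) w := by
        unfold orient; ring
      rw [e1, e2]
      intro hneg
      have hn1 := hne i a (fun h => hai h.symm)
      have hn2 := hne a j haj
      have w1 := hw i a hia
      have w2 := hw a j haj'
      rcases lt_or_gt_of_ne hn1 with k1 | k1
      · rcases lt_or_gt_of_ne hn2 with k2 | k2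
        · have q1 : ¬ ((a : ℕ) < i + κ) := fun h => absurd (w1.2 h) (not_lt_of_gt k1)
          have q2 : ¬ ((j : ℕ) < a + κ) := fun h => absurd (w2.2 h) (not_lt_of_gt k2)
          omega
        · nlinarith
      · rcases lt_or_gt_of_ne hn2 with k2 | k2
        · nlinarith
        · have q1 : (a : ℕ) < i + κ := w1.1 k1
          have q2 : (j : ℕ) < a + κ := w2.1 k2
          exact hc ⟨by omega, by omega⟩
  refine (Finset.sum_le_sum fun a _ => h1 a).trans ?_
  rw [← Nat.cast_one, ← Nat.cast_zero]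
  have h3 : (∑ a : Fin m, if (m - κ ≤ (a : ℕ) ∧ (a : ℕ) < κ) then ((1 : ℕ) : ℤ) else ((0 : ℕ) : ℤ)) =
      ((Finset.univ.filter (fun a : Fin m => m - κ ≤ (a : ℕ) ∧ (a : ℕ) < κ)).card : ℤ) := by
    rw [Finset.card_filter, Nat.cast_sum]
    exact Finset.sum_congr rfl fun a _ => by split_ifs <;> rfl
  rw [h3]
  have h4 : (Finset.univ.filter (fun a : Fin m => m - κ ≤ (a : ℕ) ∧ (a : ℕ) < κ)).card ≤
      (Finset.Ico (m - κ) κ).card := by
    refine Finset.card_le_card_of_injOn (fun a => (a : ℕ)) ?_ ?_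
    · intro a ha
      have := (Finset.mem_filter.1 ha).2
      exact Finset.mem_coe.2 (Finset.mem_Ico.2 this)
    · intro a _ b _ h
      exact Fin.ext h
  rw [Nat.card_Ico] at h4
  omega

end KGapAux

open KGapAux in
theorem tKGap (hKRR : S_KRR) (hKSign : S_KSign) (hKGP : S_KGP) (hHHs : S_HHs) : S_KGap := by
  intro m hm i j hi hj
  have hij : i < j := by rw [Fin.lt_def]; omega
  have h0 : ∑ a, ∑ b, sp (kP m a) (kP m b) (kP m i) (kP m j) = 0 :=
    Finset.sum_eq_zero fun a _ => Finset.sum_eq_zero fun b _ => (hKRR m i j hij).2.1 hi hj a b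
  have hU := hub m ((m + 1) / 2) (kU m) (fun i j h => (hKSign m i j h).1) (hKGP m).1
    (by omega) (by omega) i j hi hj
  have hV := hub m ((m + 1) / 2 + 1) (kV m) (fun i j h => (hKSign m i j h).2) (hKGP m).2.1
    (by omega) (by omega) i j hi hj
  have hW := sp_le_one (kU m) (kV m) (kP m i) (kP m j)
  unfold N2
  rw [h0]
  push_cast at hU hV
  split_ifs with hc
  · omega
  · omega

end Pool.Agent.Lib.MP_00ece3_co.EX
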