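import Pool.Agent.Lib.MP_00ece3_co.EX.SpecB

/-!
# Project EX, KH: the cost of the hub edges of the placement `KP(m)`

The identity `Ident` with the values of `UU` (KInn), `T2 = 0` (KT2), `TT = 0` (KTT), and the sign of
`orient (P a) u v` (HHs).
-/

set_option autoImplicit false

namespace Pool.Agent.Lib.MP_00ece3_co.EX

open Pool.Agent.Lib.MP_00ece3_co

namespace KHAux

/-- The sign of `orient (P a) u v` is `1` for `a < m/2`. -/
private theorem sg_lt (hHHs : S_HHs) (m : ℕ) (a : Fin m) (ha : (a : ℕ) < m / 2) :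
    sg (kP m) (kU m) (kV m) a = 1 := by
  have h := (hHHs (m / 2) ((m + 1) / 2) ((m + 1) / 2 + 1) (a : ℕ) (Nat.lt_succ_self _)).1.2 ha
  unfold sg
  exact if_pos h

/-- The sign of `orient (P a) u v` is `-1` for `m/2 ≤ a`. -/
private theorem sg_ge (hHHs : S_HHs) (m : ℕ) (a : Fin m) (ha : m / 2 ≤ (a : ℕ)) :
    sg (kP m) (kU m) (kV m) a = -1 := by
  have h : ¬ 0 < orient (kP m a) (kU m) (kV m) := fun h =>
    absurd ((hHHs (m / 2) ((m + 1) / 2) ((m + 1) / 2 + 1) (a : ℕ)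
      (Nat.lt_succ_self _)).1.1 h) (not_lt.2 ha)
  unfold sg
  exact if_neg h

/-- The summand of `Ident` for odd `m`. -/
private theorem term_odd (hKInn : S_KInn) (hHHs : S_HHs) (m : ℕ) (hm : 2 ≤ m) (ho : m % 2 = 1)
    (a : Fin m) : UU (kP m) (kU m) a ^ 2 + UU (kP m) (kV m) a ^ 2 -
      2 * sg (kP m) (kU m) (kV m) a * (UU (kP m) (kU m) a - UU (kP m) (kV m) a) = 0 := by
  obtain ⟨h0, h1, h2, h3⟩ := (hKInn m a hm).2 ho
  rcases lt_trichotomy (a : ℕ) (m / 2) with h | h | h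
  · rw [h0, h1 h, sg_lt hHHs m a h]; norm_num
  · rw [h0, h2 h]; norm_num
  · rw [h0, h3 h, sg_ge hHHs m a h.le]; norm_num

/-- The summand of `Ident` for even `m`. -/
private theorem term_even (hKInn : S_KInn) (hHHs : S_HHs) (m : ℕ) (hm : 2 ≤ m) (he : m % 2 = 0)
    (a : Fin m) : UU (kP m) (kU m) a ^ 2 + UU (kP m) (kV m) a ^ 2 -
      2 * sg (kP m) (kU m) (kV m) a * (UU (kP m) (kU m) a - UU (kP m) (kV m) a) = -2 := by
  obtain ⟨h1, h2⟩ := (hKInn m a hm).1 he
  rcases lt_or_ge (a : ℕ) (m / 2) with h | h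
  · rw [(h1 h).1, (h1 h).2, sg_lt hHHs m a h]; norm_num
  · rw [(h2 h).1, (h2 h).2, sg_ge hHHs m a h]; norm_num

end KHAux

/-- **KH**: the cost of the hub edges. -/
theorem tKH (hIdent : S_Ident) (hKGP : S_KGP) (hKInn : S_KInn) (hKT2 : S_KT2) (hKTT : S_KTT)
    (hHHs : S_HHs) : S_KH := by
  intro m hm
  have key := hIdent m (kP m) (kU m) (kV m) (hKGP m)
  rw [(hKT2 m).1, (hKT2 m).2, hKTT m] at key
  by_cases ho : m % 2 = 1
  · rw [if_pos ho, key, Finset.sum_congr rfl (fun a _ => KHAux.term_odd hKInn hHHs m hm ho a),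
      Finset.sum_const_zero]
    ring
  · have he : m % 2 = 0 := by omega
    rw [if_neg ho, key, Finset.sum_congr rfl (fun a _ => KHAux.term_even hKInn hHHs m hm he a),
      Finset.sum_const, Finset.card_univ, Fintype.card_fin, nsmul_eq_mul]
    ring

end Pool.Agent.Lib.MP_00ece3_co.EX
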