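import Pool.Agent.Lib.MP_00ece3_co.EX.SpecB

/-!
# Project EX, task KHub: a hub edge costs at least `m² / 33`

Instead of the triangles of chords of the docstring we count rectangles: chords `P_a P_b` with `a` in
an interval and `b` in another interval.
-/

set_option autoImplicit false

namespace Pool.Agent.Lib.MP_00ece3_co.EX

open Pool.Agent.Lib.MP_00ece3_co

namespace KHubAux

private lemma px_lt (l : ℕ) {i j : ℕ} (h : i < j) : px l i < px l j := by
  unfold px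
  have h4 : (1 : ℝ) < 4 := by norm_num
  split_ifs with h1 h2 h2
  · exact neg_lt_neg (pow_lt_pow_right₀ h4 (by omega))
  · have h5 : (0 : ℝ) < 4 ^ (l - i) := by positivity
    have h6 : (0 : ℝ) < 4 ^ (j - l + 1) := by positivity
    linarith
  · omega
  · exact pow_lt_pow_right₀ h4 (by omega)

private lemma orient_pp (a b c : ℝ) :
    orient (a, a ^ 2) (b, b ^ 2) (c, c ^ 2) = (b - a) * (c - a) * (c - b) := by
  unfold orient
  ring

private lemma hull {m : ℕ} {i j k : Fin m} (hij : i < j) (hjk : j < k) :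
    0 < orient (kP m i) (kP m j) (kP m k) := by
  have h1 := px_lt (m / 2) (show (i : ℕ) < (j : ℕ) from hij)
  have h2 := px_lt (m / 2) (show (j : ℕ) < (k : ℕ) from hjk)
  unfold kP pp
  rw [orient_pp]
  exact mul_pos (mul_pos (by linarith) (by linarith)) (by linarith)

private lemma out1 {m : ℕ} {a b i : Fin m} (hia : i < a) (hab : a < b) :
    0 < orient (kP m a) (kP m b) (kP m i) := by
  have h := hull hia hab
  have e : orient (kP m a) (kP m b) (kP m i) = orient (kP m i) (kP m a) (kP m b) := by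
    unfold orient
    ring
  rw [e]
  exact h

private lemma out2 {m : ℕ} {a b i : Fin m} (hab : a < b) (hbi : b < i) :
    0 < orient (kP m a) (kP m b) (kP m i) := hull hab hbi

private lemma inside {m : ℕ} {a b i : Fin m} (hai : a < i) (hib : i < b) :
    orient (kP m a) (kP m b) (kP m i) < 0 := by
  have h := hull hai hib
  have e : orient (kP m a) (kP m b) (kP m i) = - orient (kP m a) (kP m i) (kP m b) := by
    unfold orient
    ring
  rw [e]
  linarith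

private lemma sp_nonneg (a b x y : ℝ × ℝ) : 0 ≤ sp a b x y := by
  unfold sp
  split_ifs <;> norm_num

private lemma sp_one {a b x y : ℝ × ℝ} (h : Sp a b x y) : sp a b x y = 1 := by
  unfold sp
  exact if_pos h

private lemma sp_swap {a b x y : ℝ × ℝ} (h : Sp a b x y) : sp b a x y = 1 := by
  apply sp_one
  unfold Sp at h ⊢
  have e : ∀ z, orient b a z = - orient a b z := by
    intro z
    unfold orient
    ring
  rw [e, e]
  linarith

private lemma count {m : ℕ} (A B : ℕ) (hB : B ≤ m) :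
    ∑ a : Fin m, (if A ≤ (a : ℕ) ∧ (a : ℕ) < B then (1 : ℤ) else 0) = ((B - A : ℕ) : ℤ) := by
  rw [Fin.sum_univ_eq_sum_range (fun k => if A ≤ k ∧ k < B then (1 : ℤ) else 0) m,
    Finset.sum_boole]
  have e : (Finset.range m).filter (fun k => A ≤ k ∧ k < B) = Finset.Ico A B := by
    ext k
    rw [Finset.mem_filter, Finset.mem_range, Finset.mem_Ico]
    constructor
    · exact fun h => h.2
    · exact fun h => ⟨lt_of_lt_of_le h.2 hB, h⟩
  rw [e, Nat.card_Ico]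

/-- A rectangle of separating chords. -/
private lemma rect {m : ℕ} (P : Fin m → ℝ × ℝ) (w z : ℝ × ℝ) (A1 A2 B1 B2 : ℕ) (hA : A2 ≤ B1)
    (hAm : A2 ≤ m) (hB : B2 ≤ m)
    (h : ∀ a b : Fin m, A1 ≤ (a : ℕ) → (a : ℕ) < A2 → B1 ≤ (b : ℕ) → (b : ℕ) < B2 →
      Sp (P a) (P b) w z) :
    2 * (((A2 - A1 : ℕ) : ℤ) * ((B2 - B1 : ℕ) : ℤ)) ≤ ∑ a, ∑ b, sp (P a) (P b) w z := by
  have h1 : ∑ a : Fin m, ∑ b : Fin m,
      ((if A1 ≤ (a : ℕ) ∧ (a : ℕ) < A2 then (1 : ℤ) else 0) *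
        (if B1 ≤ (b : ℕ) ∧ (b : ℕ) < B2 then (1 : ℤ) else 0) +
      (if B1 ≤ (a : ℕ) ∧ (a : ℕ) < B2 then (1 : ℤ) else 0) *
        (if A1 ≤ (b : ℕ) ∧ (b : ℕ) < A2 then (1 : ℤ) else 0)) =
      2 * (((A2 - A1 : ℕ) : ℤ) * ((B2 - B1 : ℕ) : ℤ)) := by
    simp only [Finset.sum_add_distrib]
    rw [← Finset.sum_mul_sum, ← Finset.sum_mul_sum, count A1 A2 hAm, count B1 B2 hB]
    ring
  rw [← h1]
  refine Finset.sum_le_sum fun a _ => Finset.sum_le_sum fun b _ => ?_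
  by_cases hab : (A1 ≤ (a : ℕ) ∧ (a : ℕ) < A2) ∧ (B1 ≤ (b : ℕ) ∧ (b : ℕ) < B2)
  · obtain ⟨⟨h2, h3⟩, h4, h5⟩ := hab
    rw [if_pos ⟨h2, h3⟩, if_pos ⟨h4, h5⟩, if_neg (by omega), zero_mul,
      sp_one (h a b h2 h3 h4 h5)]
    norm_num
  · by_cases hba : (B1 ≤ (a : ℕ) ∧ (a : ℕ) < B2) ∧ (A1 ≤ (b : ℕ) ∧ (b : ℕ) < A2)
    · obtain ⟨⟨h2, h3⟩, h4, h5⟩ := hba
      have n1 : ¬ (A1 ≤ (a : ℕ) ∧ (a : ℕ) < A2) := by omega
      rw [if_neg n1, zero_mul, if_pos (⟨h2, h3⟩ : B1 ≤ (a : ℕ) ∧ (a : ℕ) < B2),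
        if_pos (⟨h4, h5⟩ : A1 ≤ (b : ℕ) ∧ (b : ℕ) < A2), sp_swap (h b a h4 h5 h2 h3)]
      norm_num
    · have e1 : (if A1 ≤ (a : ℕ) ∧ (a : ℕ) < A2 then (1 : ℤ) else 0) *
          (if B1 ≤ (b : ℕ) ∧ (b : ℕ) < B2 then (1 : ℤ) else 0) = 0 := by
        split_ifs with h2 h3
        · exact absurd ⟨h2, h3⟩ hab
        all_goals norm_num
      have e2 : (if B1 ≤ (a : ℕ) ∧ (a : ℕ) < B2 then (1 : ℤ) else 0) *
          (if A1 ≤ (b : ℕ) ∧ (b : ℕ) < A2 then (1 : ℤ) else 0) = 0 := by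
        split_ifs with h2 h3
        · exact absurd ⟨h2, h3⟩ hba
        all_goals norm_num
      rw [e1, e2, add_zero]
      exact sp_nonneg _ _ _ _

/-- The general statement for one hub. -/
private lemma hub {m : ℕ} (hm : 400 ≤ m) (w : ℝ × ℝ) (κ : ℕ) (h1 : (m + 1) / 2 ≤ κ)
    (h2 : κ ≤ (m + 1) / 2 + 1)
    (hs : ∀ i j : Fin m, i < j → (0 < orient (kP m i) (kP m j) w ↔ (j : ℕ) < i + κ))
    (hne : ∀ i j : Fin m, i ≠ j → orient (kP m i) (kP m j) w ≠ 0) (i : Fin m) :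
    2 * (m : ℤ) ^ 2 ≤ 33 * ∑ a, ∑ b, sp (kP m a) (kP m b) w (kP m i) := by
  have hi := i.2
  -- a chord which is not above, with `i` outside
  have hout : ∀ a b : Fin m, a < b → (a : ℕ) + κ ≤ b → (i < a ∨ b < i) →
      Sp (kP m a) (kP m b) w (kP m i) := by
    intro a b hab hκ hi
    have h3 : orient (kP m a) (kP m b) w < 0 := by
      refine lt_of_le_of_ne (not_lt.1 fun h => ?_) (hne a b hab.ne)
      have h4 := (hs a b hab).1 h
      omega
    have h5 : 0 < orient (kP m a) (kP m b) (kP m i) := by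
      rcases hi with hi | hi
      · exact out1 hi hab
      · exact out2 hab hi
    exact mul_neg_of_neg_of_pos h3 h5
  have hin : ∀ a b : Fin m, a < i → i < b → (b : ℕ) < a + κ →
      Sp (kP m a) (kP m b) w (kP m i) := by
    intro a b hai hib hκ
    exact mul_neg_of_pos_of_neg ((hs a b (hai.trans hib)).2 hκ) (inside hai hib)
  -- the two numerical facts
  have num1 : ∀ h k : ℕ, 3 * m ≤ 16 * h + 20 → 3 * m ≤ 16 * k + 12 →
      (m : ℤ) ^ 2 ≤ 33 * ((h : ℤ) * (k : ℤ)) := by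
    intro h k hh hk
    have a1 : (3 * m : ℤ) ≤ 16 * h + 20 := by exact_mod_cast hh
    have a2 : (3 * m : ℤ) ≤ 16 * k + 12 := by exact_mod_cast hk
    have a3 : (400 : ℤ) ≤ m := by exact_mod_cast hm
    have a4 : (3 * (m : ℤ) - 20) * (3 * m - 12) ≤ (16 * h) * (16 * k) :=
      mul_le_mul (by linarith) (by linarith) (by linarith) (by positivity)
    nlinarith
  have num2 : ∀ h k : ℕ, m ≤ 8 * h + 7 → 3 * m ≤ 8 * k + 8 →
      (m : ℤ) ^ 2 ≤ 33 * ((h : ℤ) * (k : ℤ)) := by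
    intro h k hh hk
    have a1 : (m : ℤ) ≤ 8 * h + 7 := by exact_mod_cast hh
    have a2 : (3 * m : ℤ) ≤ 8 * k + 8 := by exact_mod_cast hk
    have a3 : (400 : ℤ) ≤ m := by exact_mod_cast hm
    have a4 : ((m : ℤ) - 7) * (3 * m - 8) ≤ (8 * h) * (8 * k) :=
      mul_le_mul (by linarith) (by linarith) (by linarith) (by positivity)
    nlinarith
  have fin : ∀ A1 A2 B1 B2 : ℕ, A2 ≤ B1 → A2 ≤ m → B2 ≤ m →
      (∀ a b : Fin m, A1 ≤ (a : ℕ) → (a : ℕ) < A2 → B1 ≤ (b : ℕ) → (b : ℕ) < B2 →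
        Sp (kP m a) (kP m b) w (kP m i)) →
      (m : ℤ) ^ 2 ≤ 33 * (((A2 - A1 : ℕ) : ℤ) * ((B2 - B1 : ℕ) : ℤ)) →
      2 * (m : ℤ) ^ 2 ≤ 33 * ∑ a, ∑ b, sp (kP m a) (kP m b) w (kP m i) := by
    intro A1 A2 B1 B2 c1 c2 c3 c4 c5
    have := rect (kP m) w (kP m i) A1 A2 B1 B2 c1 c2 c3 c4
    linarith
  by_cases hhalf : 2 * (i : ℕ) < m
  · by_cases h8 : 8 * (i : ℕ) ≤ m
    · obtain ⟨D, hD⟩ : ∃ D, D = m - κ - i := ⟨_, rfl⟩
      refine fin (i + 1) (i + 1 + D / 2) (i + D / 2 + κ) m (by omega) (by omega) le_rfl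
        (fun a b p1 p2 p3 p4 => hout a b (Fin.lt_def.2 (by omega)) (by omega)
          (Or.inl (Fin.lt_def.2 (by omega)))) ?_
      have e1 : (i : ℕ) + 1 + D / 2 - (i + 1) = D / 2 := by omega
      rw [e1]
      exact num1 _ _ (by omega) (by omega)
    · refine fin (i - m / 8) i (i + 1) (i + 1 + ((m - 1) / 2 - m / 8)) (by omega) (by omega)
        (by omega) (fun a b p1 p2 p3 p4 => hin a b (Fin.lt_def.2 (by omega))
          (Fin.lt_def.2 (by omega)) (by omega)) ?_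
      exact num2 _ _ (by omega) (by omega)
  · by_cases h8 : 8 * (m - 1 - (i : ℕ)) ≤ m
    · obtain ⟨D, hD⟩ : ∃ D, D = (i : ℕ) + 1 - κ := ⟨_, rfl⟩
      refine fin 0 (D / 2) (D / 2 + κ - 1) i (by omega) (by omega) hi.le
        (fun a b p1 p2 p3 p4 => hout a b (Fin.lt_def.2 (by omega)) (by omega)
          (Or.inr (Fin.lt_def.2 (by omega)))) ?_
      exact num1 _ _ (by omega) (by omega)
    · refine fin (i - ((m - 1) / 2 - m / 8)) i (i + 1) (i + 1 + m / 8) (by omega) (by omega)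
        (by omega) (fun a b p1 p2 p3 p4 => hin a b (Fin.lt_def.2 (by omega))
          (Fin.lt_def.2 (by omega)) (by omega)) ?_
      have e2 := num2 (i + 1 + m / 8 - (i + 1)) (i - (i - ((m - 1) / 2 - m / 8))) (by omega)
        (by omega)
      linarith [mul_comm (((i + 1 + m / 8 - (i + 1) : ℕ) : ℤ))
        ((i - (i - ((m - 1) / 2 - m / 8)) : ℕ) : ℤ)]

end KHubAux

open KHubAux in
theorem tKHub (hKSign : S_KSign) (hKGP : S_KGP) : S_KHub := by
  intro m hm i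
  obtain ⟨g1, g2, _, _⟩ := hKGP m
  have h1 := hub hm (kU m) ((m + 1) / 2) le_rfl (Nat.le_succ _) (fun i j h => (hKSign m i j h).1)
    g1 i
  have h2 := hub hm (kV m) ((m + 1) / 2 + 1) (Nat.le_succ _) le_rfl
    (fun i j h => (hKSign m i j h).2) g2 i
  have h3 : ∀ w z : ℝ × ℝ, ∑ a, ∑ b, sp (kP m a) (kP m b) w z ≤ N2 (kP m) (kU m) (kV m) w z := by
    intro w z
    unfold N2
    have e1 : 0 ≤ ∑ a, sp (kP m a) (kU m) w z := Finset.sum_nonneg fun a _ => sp_nonneg _ _ _ _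
    have e2 : 0 ≤ ∑ a, sp (kP m a) (kV m) w z := Finset.sum_nonneg fun a _ => sp_nonneg _ _ _ _
    have e3 := sp_nonneg (kU m) (kV m) w z
    linarith
  exact ⟨by linarith [h3 (kU m) (kP m i)], by linarith [h3 (kV m) (kP m i)]⟩

end Pool.Agent.Lib.MP_00ece3_co.EX
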