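import Pool.Agent.Lib.MP_00ece3_co.EX.SpecB

/-!
# Project EX: the deviations `U_a`, `V_a` of the placement `KP(m)`
-/

set_option autoImplicit false

namespace Pool.Agent.Lib.MP_00ece3_co.EX

open Pool.Agent.Lib.MP_00ece3_co

namespace KInnAux

theorem orient_swap (x y z : ℝ × ℝ) : orient x z y = -orient x y z := by
  unfold orient
  ring

theorem orient_swap' (x y z : ℝ × ℝ) : orient x z y = orient y x z := by
  unfold orient
  ring

theorem orient_self (x y : ℝ × ℝ) : orient x y x = 0 := by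
  unfold orient
  ring

theorem lft_eq {m κ : ℕ} (P : Fin m → ℝ × ℝ) (w : ℝ × ℝ)
    (hs : ∀ i j : Fin m, i < j → (0 < orient (P i) (P j) w ↔ (j : ℕ) < i + κ))
    (hg : ∀ i j, i ≠ j → orient (P i) (P j) w ≠ 0) (a b : Fin m) :
    lft (P a) w (P b) =
      if ((b : ℕ) < a ∧ (a : ℕ) < b + κ) ∨ ((a : ℕ) < b ∧ ¬ (b : ℕ) < a + κ) then 1 else 0 := by
  have h : 0 < orient (P a) w (P b) ↔
      ((b : ℕ) < a ∧ (a : ℕ) < b + κ) ∨ ((a : ℕ) < b ∧ ¬ (b : ℕ) < a + κ) := by
    rcases lt_trichotomy a b with hab | hab | hab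
    · have h1 := hs a b hab
      have h2 := hg a b hab.ne
      have hab' : (a : ℕ) < b := hab
      rw [orient_swap, ← h1, neg_pos]
      constructor
      · intro h3
        exact Or.inr ⟨hab', not_lt.2 h3.le⟩
      · rintro (h3 | h3)
        · omega
        · exact lt_of_le_of_ne (not_lt.1 h3.2) h2
    · subst hab
      rw [orient_self]
      constructor
      · intro h3
        exact absurd h3 (lt_irrefl _)
      · rintro (h3 | h3) <;> omega
    · have h1 := hs b a hab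
      have hab' : (b : ℕ) < a := hab
      rw [orient_swap' , h1]
      constructor
      · intro h3
        exact Or.inl ⟨hab', h3⟩
      · rintro (h3 | h3)
        · exact h3.2
        · omega
  unfold lft
  simp only [h]

theorem cnt (m a κ : ℕ) (hκ : 1 ≤ κ) :
    ((Finset.range m).filter
      (fun b => (b < a ∧ a < b + κ) ∨ (a < b ∧ ¬ b < a + κ))).card =
      (min a m - (a + 1 - κ)) + (m - (a + κ)) := by
  have h : (Finset.range m).filter (fun b => (b < a ∧ a < b + κ) ∨ (a < b ∧ ¬ b < a + κ)) =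
      Finset.Ico (a + 1 - κ) (min a m) ∪ Finset.Ico (a + κ) m := by
    ext b
    simp only [Finset.mem_filter, Finset.mem_range, Finset.mem_union, Finset.mem_Ico]
    omega
  have hd : Disjoint (Finset.Ico (a + 1 - κ) (min a m)) (Finset.Ico (a + κ) m) := by
    rw [Finset.disjoint_left]
    intro b hb hb'
    simp only [Finset.mem_Ico] at hb hb'
    omega
  rw [h, Finset.card_union_of_disjoint hd, Nat.card_Ico, Nat.card_Ico]

theorem inn_eq {m κ : ℕ} (P : Fin m → ℝ × ℝ) (w : ℝ × ℝ) (hκ : 1 ≤ κ)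
    (hs : ∀ i j : Fin m, i < j → (0 < orient (P i) (P j) w ↔ (j : ℕ) < i + κ))
    (hg : ∀ i j, i ≠ j → orient (P i) (P j) w ≠ 0) (a : Fin m) :
    inn P w a = (((a : ℕ) - ((a : ℕ) + 1 - κ)) + (m - ((a : ℕ) + κ)) : ℕ) := by
  unfold inn
  rw [Finset.sum_congr rfl (fun b _ => lft_eq P w hs hg a b),
    Fin.sum_univ_eq_sum_range (fun b => if (b < (a : ℕ) ∧ (a : ℕ) < b + κ) ∨
      ((a : ℕ) < b ∧ ¬ b < (a : ℕ) + κ) then (1 : ℤ) else 0) m, Finset.sum_boole,
    cnt m a κ hκ]
  have := a.2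
  have h1 : min (a : ℕ) m = a := min_eq_left this.le
  rw [h1]

end KInnAux

open KInnAux

theorem tKInn (hKSign : S_KSign) (hKGP : S_KGP) : S_KInn := by
  intro m a hm
  have ha := a.2
  obtain ⟨hu, hv, -, -⟩ := hKGP m
  have hU := inn_eq (kP m) (kU m) (κ := (m + 1) / 2) (by omega)
    (fun i j hij => (hKSign m i j hij).1) hu a
  have hV := inn_eq (kP m) (kV m) (κ := (m + 1) / 2 + 1) (by omega)
    (fun i j hij => (hKSign m i j hij).2) hv a
  unfold UU
  rw [hU, hV]
  refine ⟨fun he => ⟨fun h1 => ⟨?_, ?_⟩, fun h1 => ⟨?_, ?_⟩⟩, fun ho => ⟨?_, fun h1 => ?_,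
    fun h1 => ?_, fun h1 => ?_⟩⟩ <;> omega

end Pool.Agent.Lib.MP_00ece3_co.EX
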