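import Pool.Agent.Lib.MP_00ece3_co.EX.SpecB

/-!
# The path edges of `KP(m)` which are separated by a line through a hub
-/

set_option autoImplicit false

namespace Pool.Agent.Lib.MP_00ece3_co.EX

open Pool.Agent.Lib.MP_00ece3_co

namespace KPUAux

theorem orient_cyc (x y z : ℝ × ℝ) : orient x y z = orient z x y := by
  unfold orient
  ring

theorem orient_swap (x y z : ℝ × ℝ) : orient x y z = -orient x z y := by
  unfold orient
  ring

theorem orient_self (x y : ℝ × ℝ) : orient x y x = 0 := by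
  unfold orient
  ring

theorem sum_one {m : ℕ} (R : Fin m → Fin m → Prop) [∀ i j, Decidable (R i j)] (i0 j0 : Fin m)
    (h : ∀ i j, R i j ↔ i = i0 ∧ j = j0) : ∑ i, ∑ j, (if R i j then (1 : ℤ) else 0) = 1 := by
  have h1 : ∀ i j, (if R i j then (1 : ℤ) else 0) = if i = i0 then (if j = j0 then 1 else 0) else 0 := by
    intro i j
    by_cases hi : i = i0
    · by_cases hj : j = j0
      · rw [if_pos ((h i j).2 ⟨hi, hj⟩), if_pos hi, if_pos hj]
      · rw [if_neg (fun hr => hj ((h i j).1 hr).2), if_pos hi, if_neg hj]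
    · rw [if_neg (fun hr => hi ((h i j).1 hr).1), if_neg hi]
  simp only [h1]
  rw [Finset.sum_eq_single i0]
  · simp
  · intro i _ hi
    simp [hi]
  · intro hi
    exact absurd (Finset.mem_univ _) hi

theorem sum_zero {m : ℕ} (R : Fin m → Fin m → Prop) [∀ i j, Decidable (R i j)]
    (h : ∀ i j, ¬ R i j) : ∑ i, ∑ j, (if R i j then (1 : ℤ) else 0) = 0 := by
  apply Finset.sum_eq_zero
  intro i _
  apply Finset.sum_eq_zero
  intro j _
  rw [if_neg (h i j)]

theorem edge (m κ : ℕ) (P : Fin m → ℝ × ℝ) (w : ℝ × ℝ) (hκ : 2 ≤ κ)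
    (hs : ∀ i j, i < j → (0 < orient (P i) (P j) w ↔ (j : ℕ) < i + κ))
    (h0 : ∀ i j, i ≠ j → orient (P i) (P j) w ≠ 0) (a i j : Fin m) (hij : (i : ℕ) + 1 = j) :
    sp (P a) w (P i) (P j) = (if (a : ℕ) = i + κ then (1 : ℤ) else 0) +
      if (j : ℕ) = a + κ then 1 else 0 := by
  classical
  have hlt : ∀ i : Fin m, i < a → (0 < orient (P a) w (P i) ↔ (a : ℕ) < i + κ) ∧
      orient (P a) w (P i) ≠ 0 := by
    intro i hi
    have h1 : orient (P a) w (P i) = orient (P i) (P a) w := orient_cyc _ _ _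
    rw [h1]
    exact ⟨hs i a hi, h0 i a (ne_of_lt hi)⟩
  have hgt : ∀ i : Fin m, a < i → (0 < orient (P a) w (P i) ↔ (a : ℕ) + κ ≤ i) ∧
      orient (P a) w (P i) ≠ 0 := by
    intro i hi
    have h1 : orient (P a) w (P i) = -orient (P a) (P i) w := orient_swap _ _ _
    have h2 := h0 a i (ne_of_lt hi)
    have h3 := hs a i hi
    rw [h1]
    refine ⟨?_, neg_ne_zero.2 h2⟩
    rw [neg_pos]
    constructor
    · intro h4
      by_contra h5
      exact absurd (h3.2 (by omega)) (not_lt.2 h4.le)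
    · intro h4
      rcases lt_trichotomy (orient (P a) (P i) w) 0 with h5 | h5 | h5
      · exact h5
      · exact absurd h5 h2
      · have := h3.1 h5
        omega
  unfold sp Sp
  rcases lt_trichotomy (j : ℕ) (a : ℕ) with h | h | h
  · -- both smaller than `a`
    obtain ⟨hi1, hi2⟩ := hlt i (Fin.lt_def.2 (by omega))
    obtain ⟨hj1, hj2⟩ := hlt j (Fin.lt_def.2 h)
    by_cases hc : (a : ℕ) = i + κ
    · have h1 : orient (P a) w (P i) < 0 := by
        rcases lt_trichotomy (orient (P a) w (P i)) 0 with h5 | h5 | h5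
        · exact h5
        · exact absurd h5 hi2
        · have := hi1.1 h5
          omega
      have h2 : 0 < orient (P a) w (P j) := hj1.2 (by omega)
      rw [if_pos (mul_neg_of_neg_of_pos h1 h2), if_pos hc, if_neg (by omega), add_zero]
    · rw [if_neg hc, if_neg (by omega : ¬ (j : ℕ) = a + κ), if_neg, add_zero]
      rw [not_lt]
      by_cases hd : (a : ℕ) < i + κ
      · exact (mul_pos (hi1.2 hd) (hj1.2 (by omega))).le
      · have h1 : orient (P a) w (P i) ≤ 0 := not_lt.1 fun h5 => hd (hi1.1 h5)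
        have h2 : orient (P a) w (P j) ≤ 0 := not_lt.1 fun h5 => by
          have := hj1.1 h5
          omega
        exact mul_nonneg_of_nonpos_of_nonpos h1 h2
  · -- `j = a`
    have h1 : P j = P a := congrArg P (Fin.ext h)
    rw [h1, orient_self, mul_zero, if_neg (lt_irrefl _), if_neg (by omega), if_neg (by omega),
      add_zero]
  · rcases Nat.lt_or_ge (a : ℕ) (i : ℕ) with h' | h'
    · obtain ⟨hi1, hi2⟩ := hgt i (Fin.lt_def.2 h')
      obtain ⟨hj1, hj2⟩ := hgt j (Fin.lt_def.2 h)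
      by_cases hc : (j : ℕ) = a + κ
      · have h1 : orient (P a) w (P i) < 0 := by
          rcases lt_trichotomy (orient (P a) w (P i)) 0 with h5 | h5 | h5
          · exact h5
          · exact absurd h5 hi2
          · have := hi1.1 h5
            omega
        have h2 : 0 < orient (P a) w (P j) := hj1.2 (by omega)
        rw [if_pos (mul_neg_of_neg_of_pos h1 h2), if_pos hc, if_neg (by omega), zero_add]
      · rw [if_neg hc, if_neg (by omega : ¬ (a : ℕ) = i + κ), if_neg, add_zero]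
        rw [not_lt]
        by_cases hd : (a : ℕ) + κ ≤ i
        · exact (mul_pos (hi1.2 hd) (hj1.2 (by omega))).le
        · have h1 : orient (P a) w (P i) ≤ 0 := not_lt.1 fun h5 => hd (hi1.1 h5)
          have h2 : orient (P a) w (P j) ≤ 0 := not_lt.1 fun h5 => by
            have := hj1.1 h5
            omega
          exact mul_nonneg_of_nonpos_of_nonpos h1 h2
    · -- `i = a`
      have h1 : P i = P a := congrArg P (Fin.ext (by omega))
      rw [h1, orient_self, zero_mul, if_neg (lt_irrefl _), if_neg (by omega), if_neg (by omega),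
        add_zero]

theorem gen (m κ : ℕ) (P : Fin m → ℝ × ℝ) (w : ℝ × ℝ) (hκ : 2 ≤ κ)
    (hs : ∀ i j, i < j → (0 < orient (P i) (P j) w ↔ (j : ℕ) < i + κ))
    (h0 : ∀ i j, i ≠ j → orient (P i) (P j) w ≠ 0) (a : Fin m) :
    PU P w a = (if κ ≤ (a : ℕ) then 1 else 0) + if κ + a + 1 ≤ m then 1 else 0 := by
  classical
  unfold PU pathSum
  have h1 : ∀ i j : Fin m, (if (i : ℕ) + 1 = j then sp (P a) w (P i) (P j) else 0) =
      (if (i : ℕ) + 1 = j ∧ (a : ℕ) = i + κ then (1 : ℤ) else 0) +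
      if (i : ℕ) + 1 = j ∧ (j : ℕ) = a + κ then 1 else 0 := by
    intro i j
    by_cases h : (i : ℕ) + 1 = j
    · rw [if_pos h, edge m κ P w hκ hs h0 a i j h]
      simp only [h, true_and]
    · rw [if_neg h, if_neg (fun h' => h h'.1), if_neg (fun h' => h h'.1), add_zero]
  simp only [h1, Finset.sum_add_distrib]
  congr 1
  · by_cases h : κ ≤ (a : ℕ)
    · rw [if_pos h]
      have ha := a.2
      apply sum_one _ (⟨(a : ℕ) - κ, by omega⟩ : Fin m) (⟨(a : ℕ) - κ + 1, by omega⟩ : Fin m)
      intro i j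
      rw [Fin.ext_iff, Fin.ext_iff]
      change _ ↔ (i : ℕ) = (a : ℕ) - κ ∧ (j : ℕ) = (a : ℕ) - κ + 1
      omega
    · rw [if_neg h]
      apply sum_zero
      intro i j
      omega
  · by_cases h : κ + a + 1 ≤ m
    · rw [if_pos h]
      apply sum_one _ (⟨(a : ℕ) + κ - 1, by omega⟩ : Fin m) (⟨(a : ℕ) + κ, by omega⟩ : Fin m)
      intro i j
      rw [Fin.ext_iff, Fin.ext_iff]
      change _ ↔ (i : ℕ) = (a : ℕ) + κ - 1 ∧ (j : ℕ) = (a : ℕ) + κ
      omega
    · rw [if_neg h]
      apply sum_zero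
      intro i j
      have hj := j.2
      omega

end KPUAux

theorem tKPU (hKSign : S_KSign) (hKGP : S_KGP) : S_KPU := by
  intro m a hm
  obtain ⟨hu, hv, -, -⟩ := hKGP m
  exact ⟨KPUAux.gen m ((m + 1) / 2) (kP m) (kU m) (by omega)
      (fun i j hij => (hKSign m i j hij).1) hu a,
    KPUAux.gen m ((m + 1) / 2 + 1) (kP m) (kV m) (by omega)
      (fun i j hij => (hKSign m i j hij).2) hv a⟩

end Pool.Agent.Lib.MP_00ece3_co.EX
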