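import Pool.Agent.Lib.MP_00ece3_co.EX.SpecB

/-!
# Lines through two points in hull order
-/

set_option autoImplicit false

namespace Pool.Agent.Lib.MP_00ece3_co.EX

open Pool.Agent.Lib.MP_00ece3_co

namespace KRRAux

/-- the sign of the orientation of three points in hull order -/
def sgm (a b c : ℕ) : ℤ := ((b : ℤ) - a) * ((c : ℤ) - a) * ((c : ℤ) - b)

theorem sgm_pos {a b c : ℕ} (h1 : a < b) (h2 : b < c) : 0 < sgm a b c := by
  unfold sgm
  have h3 : (0 : ℤ) < (b : ℤ) - a := by omega
  have h4 : (0 : ℤ) < (c : ℤ) - a := by omega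
  have h5 : (0 : ℤ) < (c : ℤ) - b := by omega
  positivity

/-- the orientation is a positive multiple of the sign -/
theorem orient_sgm (hPP : S_PP) (l a b c : ℕ) :
    ∃ t : ℝ, 0 < t ∧ orient (pp l a) (pp l b) (pp l c) = t * (sgm a b c : ℝ) := by
  have key : ∀ x y z : ℕ, x < y → y < z →
      ∃ t : ℝ, 0 < t ∧ orient (pp l x) (pp l y) (pp l z) = t * (sgm x y z : ℝ) := by
    intro x y z hxy hyz
    have h1 : (0 : ℝ) < (sgm x y z : ℝ) := by exact_mod_cast sgm_pos hxy hyz
    refine ⟨orient (pp l x) (pp l y) (pp l z) / (sgm x y z : ℝ), div_pos (hPP l x y z hxy hyz) h1, ?_⟩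
    rw [div_mul_cancel₀ _ h1.ne']
  rcases lt_trichotomy a b with hab | hab | hab
  · rcases lt_trichotomy b c with hbc | hbc | hbc
    · exact key a b c hab hbc
    · subst hbc
      refine ⟨1, one_pos, ?_⟩
      unfold orient sgm
      push_cast
      ring
    · rcases lt_trichotomy a c with hac | hac | hac
      · obtain ⟨t, ht, h⟩ := key a c b hac hbc
        refine ⟨t, ht, ?_⟩
        have h2 : orient (pp l a) (pp l b) (pp l c) = - orient (pp l a) (pp l c) (pp l b) := by
          unfold orient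
          ring
        rw [h2, h]
        unfold sgm
        push_cast
        ring
      · subst hac
        refine ⟨1, one_pos, ?_⟩
        unfold orient sgm
        push_cast
        ring
      · obtain ⟨t, ht, h⟩ := key c a b hac hab
        refine ⟨t, ht, ?_⟩
        have h2 : orient (pp l a) (pp l b) (pp l c) = orient (pp l c) (pp l a) (pp l b) := by
          unfold orient
          ring
        rw [h2, h]
        unfold sgm
        push_cast
        ring
  · subst hab
    refine ⟨1, one_pos, ?_⟩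
    unfold orient sgm
    push_cast
    ring
  · rcases lt_trichotomy a c with hac | hac | hac
    · obtain ⟨t, ht, h⟩ := key b a c hab hac
      refine ⟨t, ht, ?_⟩
      have h2 : orient (pp l a) (pp l b) (pp l c) = - orient (pp l b) (pp l a) (pp l c) := by
        unfold orient
        ring
      rw [h2, h]
      unfold sgm
      push_cast
      ring
    · subst hac
      refine ⟨1, one_pos, ?_⟩
      unfold orient sgm
      push_cast
      ring
    · rcases lt_trichotomy b c with hbc | hbc | hbc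
      · obtain ⟨t, ht, h⟩ := key b c a hbc hac
        refine ⟨t, ht, ?_⟩
        have h2 : orient (pp l a) (pp l b) (pp l c) = orient (pp l b) (pp l c) (pp l a) := by
          unfold orient
          ring
        rw [h2, h]
        unfold sgm
        push_cast
        ring
      · subst hbc
        refine ⟨1, one_pos, ?_⟩
        unfold orient sgm
        push_cast
        ring
      · obtain ⟨t, ht, h⟩ := key c b a hbc hab
        refine ⟨t, ht, ?_⟩
        have h2 : orient (pp l a) (pp l b) (pp l c) = - orient (pp l c) (pp l b) (pp l a) := by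
          unfold orient
          ring
        rw [h2, h]
        unfold sgm
        push_cast
        ring

/-- a separating chord has exactly one end between the two points -/
theorem sp_neg (hPP : S_PP) {m : ℕ} {i j a b : Fin m} (h : Sp (kP m a) (kP m b) (kP m i) (kP m j)) :
    (((i : ℕ) : ℤ) - (a : ℕ)) * (((j : ℕ) : ℤ) - (a : ℕ)) *
      ((((i : ℕ) : ℤ) - (b : ℕ)) * (((j : ℕ) : ℤ) - (b : ℕ))) < 0 := by
  unfold Sp kP at h
  obtain ⟨t, ht, h1⟩ := orient_sgm hPP (m / 2) a b i
  obtain ⟨s, hs, h2⟩ := orient_sgm hPP (m / 2) a b j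
  rw [h1, h2] at h
  have h3 : t * s * ((sgm a b i * sgm a b j : ℤ) : ℝ) < 0 := by
    push_cast
    calc t * s * ((sgm a b i : ℝ) * (sgm a b j : ℝ)) =
        t * (sgm a b i : ℝ) * (s * (sgm a b j : ℝ)) := by ring
      _ < 0 := h
  have h4 : ((sgm a b i * sgm a b j : ℤ) : ℝ) < 0 := by
    by_contra h5
    exact absurd h3 (not_lt.mpr (mul_nonneg (mul_pos ht hs).le (not_lt.mp h5)))
  have h5 : sgm a b i * sgm a b j < 0 := by exact_mod_cast h4
  have h6 : sgm a b i * sgm a b j = (((b : ℕ) : ℤ) - (a : ℕ)) ^ 2 *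
      ((((i : ℕ) : ℤ) - (a : ℕ)) * (((j : ℕ) : ℤ) - (a : ℕ)) *
        ((((i : ℕ) : ℤ) - (b : ℕ)) * (((j : ℕ) : ℤ) - (b : ℕ)))) := by
    unfold sgm
    ring
  rw [h6] at h5
  by_contra h7
  exact absurd h5 (not_lt.mpr (mul_nonneg (sq_nonneg _) (not_lt.mp h7)))

/-- the product is negative only between the two points -/
theorem btw {i j a : ℕ} (hij : i < j) (h : ((i : ℤ) - a) * ((j : ℤ) - a) < 0) : i < a ∧ a < j := by
  constructor
  · by_contra h1
    have h2 : (0 : ℤ) ≤ (i : ℤ) - a := by omega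
    have h3 : (0 : ℤ) ≤ (j : ℤ) - a := by omega
    exact absurd h (not_lt.mpr (mul_nonneg h2 h3))
  · by_contra h1
    have h2 : (i : ℤ) - a ≤ 0 := by omega
    have h3 : (j : ℤ) - a ≤ 0 := by omega
    exact absurd h (not_lt.mpr (mul_nonneg_of_nonpos_of_nonpos h2 h3))

/-- the product is positive only outside -/
theorem out {i j a : ℕ} (_hij : i < j) (h : 0 < ((i : ℤ) - a) * ((j : ℤ) - a)) : a < i ∨ j < a := by
  by_contra h1
  rw [not_or] at h1
  have h2 : (i : ℤ) - a ≤ 0 := by omega
  have h3 : (0 : ℤ) ≤ (j : ℤ) - a := by omega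
  exact absurd h (not_lt.mpr (mul_nonpos_of_nonpos_of_nonneg h2 h3))

theorem sp_cases (hPP : S_PP) {m : ℕ} {i j a b : Fin m} (hij : i < j)
    (h : Sp (kP m a) (kP m b) (kP m i) (kP m j)) :
    ((i < a ∧ a < j) ∧ (b < i ∨ j < b)) ∨ ((i < b ∧ b < j) ∧ (a < i ∨ j < a)) := by
  have h1 := sp_neg hPP h
  rcases mul_neg_iff.mp h1 with ⟨h2, h3⟩ | ⟨h2, h3⟩
  · exact Or.inr ⟨btw hij h3, out hij h2⟩
  · exact Or.inl ⟨btw hij h2, out hij h3⟩

theorem sum_le {m : ℕ} (A : Finset (Fin m)) (f : Fin m → Fin m → ℤ)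
    (h : ∀ a b, f a b ≤ (if a ∈ A then 1 else 0) + (if b ∈ A then 1 else 0)) :
    ∑ a, ∑ b, f a b ≤ 2 * ((A.card : ℤ) * m) := by
  have h1 : ∑ a, ∑ b, f a b ≤
      ∑ a : Fin m, ∑ b : Fin m, ((if a ∈ A then (1 : ℤ) else 0) + (if b ∈ A then 1 else 0)) :=
    Finset.sum_le_sum fun a _ => Finset.sum_le_sum fun b _ => h a b
  refine h1.trans (le_of_eq ?_)
  have h2 : ∑ b : Fin m, (if b ∈ A then (1 : ℤ) else 0) = A.card := by
    rw [Finset.sum_ite_mem, Finset.univ_inter, Finset.sum_const, nsmul_eq_mul, mul_one]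
  simp only [Finset.sum_add_distrib, h2, Finset.sum_const, Finset.card_univ, Fintype.card_fin,
    nsmul_eq_mul]
  rw [← Finset.mul_sum, h2]
  ring

end KRRAux

open KRRAux in
/-- **KRR.** -/
theorem tKRR (hPP : S_PP) : S_KRR := by
  classical
  intro m i j hij
  have h0 : ∀ a b, ¬ Sp (kP m a) (kP m b) (kP m i) (kP m j) →
      sp (kP m a) (kP m b) (kP m i) (kP m j) = 0 := by
    intro a b h
    unfold sp
    exact if_neg h
  have hb : ∀ (A : Finset (Fin m)), (∀ a b, Sp (kP m a) (kP m b) (kP m i) (kP m j) → a ∈ A ∨ b ∈ A) →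
      ∑ a, ∑ b, sp (kP m a) (kP m b) (kP m i) (kP m j) ≤ 2 * ((A.card : ℤ) * m) := by
    intro A hA
    refine sum_le A _ fun a b => ?_
    by_cases h : Sp (kP m a) (kP m b) (kP m i) (kP m j)
    · have h1 : sp (kP m a) (kP m b) (kP m i) (kP m j) = 1 := by
        unfold sp
        exact if_pos h
      rw [h1]
      rcases hA a b h with h2 | h2
      · rw [if_pos h2]
        split_ifs <;> norm_num
      · rw [if_pos h2]
        split_ifs <;> norm_num
    · rw [h0 a b h]
      split_ifs <;> norm_num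
  refine ⟨?_, ?_, ?_, ?_⟩
  · intro hj a b
    apply h0
    intro h
    rcases sp_cases hPP hij h with ⟨⟨h1, h2⟩, -⟩ | ⟨⟨h1, h2⟩, -⟩
    · rw [Fin.lt_def] at h1 h2
      omega
    · rw [Fin.lt_def] at h1 h2
      omega
  · intro hi hj a b
    apply h0
    intro h
    rcases sp_cases hPP hij h with ⟨-, h1 | h1⟩ | ⟨-, h1 | h1⟩
    · rw [Fin.lt_def] at h1
      omega
    · rw [Fin.lt_def] at h1
      have := b.isLt
      omega
    · rw [Fin.lt_def] at h1
      omega
    · rw [Fin.lt_def] at h1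
      have := a.isLt
      omega
  · have h1 := hb (Finset.Ioo i j) (by
      intro a b h
      rcases sp_cases hPP hij h with ⟨h2, -⟩ | ⟨h2, -⟩
      · exact Or.inl (Finset.mem_Ioo.mpr h2)
      · exact Or.inr (Finset.mem_Ioo.mpr h2))
    refine h1.trans (le_of_eq ?_)
    rw [Fin.card_Ioo]
    have h2 : (i : ℕ) < j := hij
    have h3 : (((j : ℕ) - (i : ℕ) - 1 : ℕ) : ℤ) = ((j : ℕ) : ℤ) - (i : ℕ) - 1 := by omega
    rw [h3]
  · have h1 := hb (Finset.Icc i j)ᶜ (by
      intro a b h
      rcases sp_cases hPP hij h with ⟨-, h2⟩ | ⟨-, h2⟩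
      · right
        rw [Finset.mem_compl, Finset.mem_Icc]
        rintro ⟨h3, h4⟩
        rcases h2 with h2 | h2
        · exact absurd h2 (not_lt.mpr h3)
        · exact absurd h2 (not_lt.mpr h4)
      · left
        rw [Finset.mem_compl, Finset.mem_Icc]
        rintro ⟨h3, h4⟩
        rcases h2 with h2 | h2
        · exact absurd h2 (not_lt.mpr h3)
        · exact absurd h2 (not_lt.mpr h4))
    refine h1.trans (le_of_eq ?_)
    rw [Finset.card_compl, Fin.card_Icc, Fintype.card_fin]
    have h2 : (i : ℕ) < j := hij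
    have h4 := j.isLt
    have h3 : ((m - ((j : ℕ) + 1 - (i : ℕ)) : ℕ) : ℤ) = (m : ℤ) - (((j : ℕ) : ℤ) - (i : ℕ)) - 1 := by
      omega
    rw [h3]

end Pool.Agent.Lib.MP_00ece3_co.EX
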