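import Pool.Agent.Lib.MP_00ece3_co.EX.SpecB

set_option autoImplicit false

namespace Pool.Agent.Lib.MP_00ece3_co.EX

open Pool.Agent.Lib.MP_00ece3_co

/-- **KSign**: on one side of the axis the condition on `j - i` holds anyway. -/
theorem tKSign (hPH : S_PH) : S_KSign := by
  intro m i j hij
  have hij' : (i : ℕ) < (j : ℕ) := hij
  have hj : (j : ℕ) < m := j.2
  refine ⟨(hPH (m / 2) ((m + 1) / 2) i j hij').1.trans ?_,
    (hPH (m / 2) ((m + 1) / 2 + 1) i j hij').1.trans ?_⟩
  · unfold Abv
    constructor
    · rintro (h | h | h) <;> omega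
    · intro h
      exact Or.inr (Or.inr h)
  · unfold Abv
    constructor
    · rintro (h | h | h) <;> omega
    · intro h
      exact Or.inr (Or.inr h)

end Pool.Agent.Lib.MP_00ece3_co.EX
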