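import Pool.Agent.Lib.MP_00ece3_co.EX.SpecB

/-!
# Project EX, module KT2: no point of the placement is in a triangle with a hub
-/

set_option autoImplicit false

namespace Pool.Agent.Lib.MP_00ece3_co.EX

open Pool.Agent.Lib.MP_00ece3_co

namespace KT2Aux

theorem swap (a b c : ℝ × ℝ) : orient b a c = -orient a b c := by
  unfold orient
  ring

theorem rot (a b c : ℝ × ℝ) : orient a b c = orient b c a := by
  unfold orient
  ring

theorem same (a b : ℝ × ℝ) : orient a a b = 0 := by
  unfold orient
  ring

variable {m : ℕ} {P : Fin m → ℝ × ℝ} {w : ℝ × ℝ} {κ : ℕ}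

theorem noTri (hS : ∀ i j : Fin m, i < j → (0 < orient (P i) (P j) w ↔ (j : ℕ) < i + κ))
    (hO : ∀ i j k : Fin m, i < j → j < k → 0 < orient (P i) (P j) (P k)) (hκ : m ≤ 2 * κ)
    (a b d : Fin m) : ¬ Tri (P a) w (P b) (P d) := by
  have hneg : ∀ i j : Fin m, i < j → orient (P i) (P j) w < 0 → (i : ℕ) + κ ≤ j := by
    intro i j hij h
    by_contra h1
    have := (hS i j hij).2 (by omega)
    linarith
  have hpos : ∀ i j : Fin m, i < j → 0 < orient (P i) (P j) w → (j : ℕ) < i + κ :=
    fun i j hij h => (hS i j hij).1 h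
  intro hT
  unfold Tri at hT
  rw [rot w (P b) (P a), ← rot (P a) (P d) w] at hT
  rcases lt_trichotomy a b with hab | rfl | hab
  · rcases lt_trichotomy b d with hbd | rfl | hbd
    · -- a < b < d
      rw [swap (P a) (P b) w, ← rot (P a) (P b) (P d)] at hT
      have h1 := hO a b d hab hbd
      rcases hT with ⟨h2, h3, h4⟩ | ⟨h2, h3, h4⟩
      · have h5 := hneg a b hab (by linarith)
        have h6 := hpos a d (hab.trans hbd) h4
        have h7 : (b : ℕ) < d := hbd
        omega
      · linarith
    · rw [same] at hT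
      rcases hT with ⟨h2, h3, h4⟩ | ⟨h2, h3, h4⟩ <;> linarith
    · rcases lt_trichotomy a d with had | rfl | had
      · -- a < d < b
        rw [swap (P a) (P b) w, swap (P d) (P b) (P a), ← rot (P a) (P d) (P b)] at hT
        have h1 := hO a d b had hbd
        rcases hT with ⟨h2, h3, h4⟩ | ⟨h2, h3, h4⟩
        · linarith
        · have h5 := hneg a d had h4
          have h6 := hpos a b hab (by linarith)
          have h7 : (d : ℕ) < b := hbd
          omega
      · rw [same] at hT
        rcases hT with ⟨h2, h3, h4⟩ | ⟨h2, h3, h4⟩ <;> linarith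
      · -- d < a < b
        rw [swap (P a) (P b) w, swap (P d) (P a) w, rot (P b) (P d) (P a)] at hT
        have h1 := hO d a b had hab
        rcases hT with ⟨h2, h3, h4⟩ | ⟨h2, h3, h4⟩
        · have h5 := hneg a b hab (by linarith)
          have h6 := hneg d a had (by linarith)
          have h7 := b.2
          omega
        · linarith
  · rw [same] at hT
    rcases hT with ⟨h2, h3, h4⟩ | ⟨h2, h3, h4⟩ <;> linarith
  · rcases lt_trichotomy a d with had | rfl | had
    · -- b < a < d
      rw [swap (P d) (P b) (P a), rot (P d) (P b) (P a)] at hT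
      have h1 := hO b a d hab had
      rcases hT with ⟨h2, h3, h4⟩ | ⟨h2, h3, h4⟩
      · linarith
      · have h5 := hneg b a hab h2
        have h6 := hneg a d had h4
        have h7 := d.2
        omega
    · rw [same] at hT
      rcases hT with ⟨h2, h3, h4⟩ | ⟨h2, h3, h4⟩ <;> linarith
    · rcases lt_trichotomy b d with hbd | rfl | hbd
      · -- b < d < a
        rw [swap (P d) (P a) w] at hT
        have h1 := hO b d a hbd had
        rcases hT with ⟨h2, h3, h4⟩ | ⟨h2, h3, h4⟩
        · have h5 := hneg d a had (by linarith)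
          have h6 := hpos b a hab h2
          have h7 : (b : ℕ) < d := hbd
          omega
        · linarith
      · rw [same] at hT
        rcases hT with ⟨h2, h3, h4⟩ | ⟨h2, h3, h4⟩ <;> linarith
      · -- d < b < a
        rw [swap (P d) (P b) (P a), swap (P d) (P a) w] at hT
        have h1 := hO d b a hbd hab
        rcases hT with ⟨h2, h3, h4⟩ | ⟨h2, h3, h4⟩
        · linarith
        · have h5 := hneg b a hab h2
          have h6 := hpos d a had (by linarith)
          have h7 : (d : ℕ) < b := hbd
          omega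

theorem t2 (hS : ∀ i j : Fin m, i < j → (0 < orient (P i) (P j) w ↔ (j : ℕ) < i + κ))
    (hO : ∀ i j k : Fin m, i < j → j < k → 0 < orient (P i) (P j) (P k)) (hκ : m ≤ 2 * κ) :
    T2 P w = 0 := by
  unfold T2 tri
  refine Finset.sum_eq_zero fun a _ => Finset.sum_eq_zero fun b _ =>
    Finset.sum_eq_zero fun d _ => if_neg (noTri hS hO hκ a b d)

end KT2Aux

theorem tKT2 (hPP : S_PP) (hKSign : S_KSign) (hKGP : S_KGP) : S_KT2 := by
  have _ := hKGP
  intro m
  have hO : ∀ i j k : Fin m, i < j → j < k → 0 < orient (kP m i) (kP m j) (kP m k) :=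
    fun i j k hij hjk => hPP (m / 2) i j k hij hjk
  exact ⟨KT2Aux.t2 (fun i j hij => (hKSign m i j hij).1) hO (by omega),
    KT2Aux.t2 (fun i j hij => (hKSign m i j hij).2) hO (by omega)⟩

end Pool.Agent.Lib.MP_00ece3_co.EX
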