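import Pool.Agent.Lib.MP_00ece3_co.EX.SpecB

/-!
# Project EX, module KTT: no point of the parabola is inside a triangle with the two hubs
-/

set_option autoImplicit false
set_option linter.unusedVariables false

namespace Pool.Agent.Lib.MP_00ece3_co.EX

open Pool.Agent.Lib.MP_00ece3_co

namespace KTTAux

/-- a point of the parabola is not inside the triangle -/
theorem notTri (a b y z : ℝ) (hy : 0 < y) (hz : y < z) :
    ¬ Tri (b, b ^ 2) (a, a ^ 2) (0, y) (0, z) := by
  have e1 : orient (a, a ^ 2) (0, y) (b, b ^ 2) = -((b - a) * (y + a * b)) := by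
    unfold orient
    ring
  have e2 : orient (0, y) (0, z) (b, b ^ 2) = -((z - y) * b) := by
    unfold orient
    ring
  have e3 : orient (0, z) (a, a ^ 2) (b, b ^ 2) = (b - a) * (z + a * b) := by
    unfold orient
    ring
  have hzy : 0 < z - y := sub_pos.mpr hz
  unfold Tri
  rw [e1, e2, e3]
  rintro (⟨h1, h2, h3⟩ | ⟨h1, h2, h3⟩)
  · have hb : b < 0 := by
      by_contra h
      have h4 : 0 ≤ (z - y) * b := mul_nonneg hzy.le (not_lt.mp h)
      linarith
    have ha : a < 0 := by
      have h4 : 0 < a * (y - z) := by
        have h5 : a * (y - z) = -((b - a) * (y + a * b)) + -((z - y) * b) +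
          (b - a) * (z + a * b) := by ring
        rw [h5]
        linarith
      by_contra h
      have h5 : 0 ≤ a * (z - y) := mul_nonneg (not_lt.mp h) hzy.le
      have h6 : a * (y - z) = -(a * (z - y)) := by ring
      linarith
    have hab : 0 < a * b := mul_pos_of_neg_of_neg ha hb
    have h7 : 0 < b - a := by
      by_contra h
      have h8 : 0 ≤ (a - b) * (z + a * b) :=
        mul_nonneg (by linarith [not_lt.mp h]) (by linarith)
      have h9 : (b - a) * (z + a * b) = -((a - b) * (z + a * b)) := by ring
      linarith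
    have h8 : 0 < (b - a) * (y + a * b) := mul_pos h7 (by linarith)
    linarith
  · have hb : 0 < b := by
      by_contra h
      have h4 : 0 ≤ (z - y) * (-b) := mul_nonneg hzy.le (by linarith [not_lt.mp h])
      have h5 : (z - y) * (-b) = -((z - y) * b) := by ring
      linarith
    have ha : 0 < a := by
      have h4 : a * (y - z) < 0 := by
        have h5 : a * (y - z) = -((b - a) * (y + a * b)) + -((z - y) * b) +
          (b - a) * (z + a * b) := by ring
        rw [h5]
        linarith
      by_contra h
      have h5 : 0 ≤ (-a) * (z - y) := mul_nonneg (by linarith [not_lt.mp h]) hzy.le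
      have h6 : a * (y - z) = (-a) * (z - y) := by ring
      linarith
    have hab : 0 < a * b := mul_pos ha hb
    have h7 : b - a < 0 := by
      by_contra h
      have h8 : 0 ≤ (b - a) * (z + a * b) := mul_nonneg (not_lt.mp h) (by linarith)
      linarith
    have h8 : 0 < (a - b) * (y + a * b) := mul_pos (by linarith) (by linarith)
    have h9 : -((b - a) * (y + a * b)) = (a - b) * (y + a * b) := by ring
    linarith

end KTTAux

theorem tKTT (hPX : S_PX) : S_KTT := by
  intro m
  unfold TT
  refine Finset.sum_eq_zero fun a _ => Finset.sum_eq_zero fun b _ => ?_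
  unfold tri
  rw [if_neg]
  have h1 : (0 : ℝ) < 2 * (4 : ℝ) ^ ((m + 1) / 2) := by positivity
  have h2 : 2 * (4 : ℝ) ^ ((m + 1) / 2) < 2 * (4 : ℝ) ^ ((m + 1) / 2 + 1) := by
    rw [pow_succ]
    have h3 : (0 : ℝ) < (4 : ℝ) ^ ((m + 1) / 2) := by positivity
    linarith
  exact KTTAux.notTri (px (m / 2) a) (px (m / 2) b) _ _ h1 h2

end Pool.Agent.Lib.MP_00ece3_co.EX
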