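import Pool.Agent.Lib.MP_00ece3_co.EX.SpecB

/-!
# KUV: the lines which separate the two hubs
-/

set_option autoImplicit false

namespace Pool.Agent.Lib.MP_00ece3_co.EX

open Pool.Agent.Lib.MP_00ece3_co

namespace KUVAux

theorem orient_swap (a b x : ℝ × ℝ) : orient b a x = -orient a b x := by
  unfold orient; ring

theorem orient_right (a b : ℝ × ℝ) : orient a b b = 0 := by
  unfold orient; ring

theorem orient_left (a b : ℝ × ℝ) : orient a b a = 0 := by
  unfold orient; ring

theorem orient_self (a x : ℝ × ℝ) : orient a a x = 0 := by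
  unfold orient; ring

theorem sp_symm (a b x y : ℝ × ℝ) : sp b a x y = sp a b x y := by
  unfold sp Sp
  rw [orient_swap a b x, orient_swap a b y, neg_mul_neg]

theorem sp_lt (hKSign : S_KSign) (hKGP : S_KGP) (m : ℕ) (i j : Fin m) (h : i < j) :
    sp (kP m i) (kP m j) (kU m) (kV m) = if (j : ℕ) = i + (m + 1) / 2 then 1 else 0 := by
  obtain ⟨h1, h2⟩ := hKSign m i j h
  obtain ⟨g1, g2, -, -⟩ := hKGP m
  have n1 := g1 i j (ne_of_lt h)
  have n2 := g2 i j (ne_of_lt h)
  unfold sp Sp
  refine if_congr ?_ rfl rfl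
  rw [mul_neg_iff]
  constructor
  · rintro (⟨ha, hb⟩ | ⟨ha, hb⟩)
    · have := h1.mp ha
      exact absurd (h2.mpr (by omega)) (not_lt.mpr hb.le)
    · have hn : ¬ ((j : ℕ) < i + (m + 1) / 2) := fun hh => absurd (h1.mpr hh) (not_lt.mpr ha.le)
      have := h2.mp hb
      omega
  · intro he
    right
    constructor
    · refine lt_of_le_of_ne (not_lt.mp fun hp => ?_) n1
      have := h1.mp hp
      omega
    · exact h2.mpr (by omega)

theorem sp_all (hKSign : S_KSign) (hKGP : S_KGP) (m : ℕ) (hm : 2 ≤ m) (i j : Fin m) :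
    sp (kP m i) (kP m j) (kU m) (kV m) =
      (if (j : ℕ) = i + (m + 1) / 2 then 1 else 0) +
        (if (i : ℕ) = j + (m + 1) / 2 then 1 else 0) := by
  rcases lt_trichotomy i j with h | h | h
  · rw [sp_lt hKSign hKGP m i j h]
    have : (i : ℕ) < j := h
    rw [if_neg (show ¬ ((i : ℕ) = j + (m + 1) / 2) by omega), add_zero]
  · subst h
    have : ¬ ((i : ℕ) = i + (m + 1) / 2) := by omega
    rw [if_neg this, add_zero]
    unfold sp Sp
    rw [orient_self, orient_self, mul_zero, if_neg (lt_irrefl _)]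
  · rw [sp_symm, sp_lt hKSign hKGP m j i h]
    have : (j : ℕ) < i := h
    rw [if_neg (show ¬ ((j : ℕ) = i + (m + 1) / 2) by omega), zero_add]

theorem sum_one (m c : ℕ) :
    ∑ b : Fin m, (if (b : ℕ) = c then (1 : ℤ) else 0) = if c < m then 1 else 0 := by
  by_cases h : c < m
  · rw [if_pos h, Finset.sum_eq_single (⟨c, h⟩ : Fin m)]
    · simp
    · intro b _ hb
      rw [if_neg]
      intro hc
      exact hb (Fin.ext hc)
    · intro hc
      exact absurd (Finset.mem_univ _) hc
  · rw [if_neg h]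
    refine Finset.sum_eq_zero fun b _ => ?_
    rw [if_neg]
    have := b.isLt
    omega

theorem sum_two (m c : ℕ) :
    ∑ a : Fin m, (if (a : ℕ) + c < m then (1 : ℤ) else 0) = ((m - c : ℕ) : ℤ) := by
  rw [Fin.sum_univ_eq_sum_range (fun a => if a + c < m then (1 : ℤ) else 0) m]
  rw [Finset.sum_ite, Finset.sum_const_zero, add_zero, Finset.sum_const, nsmul_eq_mul, mul_one]
  have : (Finset.range m).filter (fun a => a + c < m) = Finset.range (m - c) := by
    ext a
    simp only [Finset.mem_filter, Finset.mem_range]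
    omega
  rw [this, Finset.card_range]

end KUVAux

open KUVAux in
theorem tKUV (hKSign : S_KSign) (hKGP : S_KGP) : S_KUV := by
  intro m hm
  unfold N2
  have e1 : ∀ a : Fin m, sp (kP m a) (kU m) (kU m) (kV m) = 0 := by
    intro a
    unfold sp Sp
    rw [orient_right, zero_mul, if_neg (lt_irrefl _)]
  have e2 : ∀ a : Fin m, sp (kP m a) (kV m) (kU m) (kV m) = 0 := by
    intro a
    unfold sp Sp
    rw [orient_right, mul_zero, if_neg (lt_irrefl _)]
  have e3 : sp (kU m) (kV m) (kU m) (kV m) = 0 := by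
    unfold sp Sp
    rw [orient_right, mul_zero, if_neg (lt_irrefl _)]
  have e4 : ∑ a : Fin m, ∑ b : Fin m, sp (kP m a) (kP m b) (kU m) (kV m) =
      2 * ((m - (m + 1) / 2 : ℕ) : ℤ) := by
    have s1 : ∑ a : Fin m, ∑ b : Fin m, (if (b : ℕ) = a + (m + 1) / 2 then (1 : ℤ) else 0) =
        ((m - (m + 1) / 2 : ℕ) : ℤ) := by
      rw [← sum_two m ((m + 1) / 2)]
      exact Finset.sum_congr rfl fun a _ => sum_one m _
    have s2 : ∑ a : Fin m, ∑ b : Fin m, (if (a : ℕ) = b + (m + 1) / 2 then (1 : ℤ) else 0) =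
        ((m - (m + 1) / 2 : ℕ) : ℤ) := by
      rw [Finset.sum_comm, s1]
    calc ∑ a : Fin m, ∑ b : Fin m, sp (kP m a) (kP m b) (kU m) (kV m)
        = ∑ a : Fin m, ∑ b : Fin m, ((if (b : ℕ) = a + (m + 1) / 2 then (1 : ℤ) else 0) +
          (if (a : ℕ) = b + (m + 1) / 2 then (1 : ℤ) else 0)) :=
          Finset.sum_congr rfl fun a _ => Finset.sum_congr rfl fun b _ =>
            sp_all hKSign hKGP m hm a b
      _ = _ := by
          simp only [Finset.sum_add_distrib]
          rw [s1, s2]; ring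
  rw [e4, e3, Finset.sum_eq_zero (fun a _ => e1 a), Finset.sum_eq_zero (fun a _ => e2 a)]
  have : m - (m + 1) / 2 = m / 2 := by omega
  rw [this]; ring

end Pool.Agent.Lib.MP_00ece3_co.EX
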