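import Pool.Agent.Lib.MP_00ece3_co.EX.SpecA

/-!
# Project EX: `S_KgPlanar`
-/

set_option autoImplicit false

namespace Pool.Agent.Lib.MP_00ece3_co.EX

open Pool.Agent.Lib.MP_00ece3_co

namespace KgPlanarAux

/-- A connected set without hub is an interval of the path. -/
private theorem convex {n : ℕ} {B : Set (Fin n)} (hc : ((Kg n).induce B).Connected)
    (hB : ∀ x ∈ B, 2 ≤ x.val) {x y z : Fin n} (hx : x ∈ B) (hy : y ∈ B) (hz : z ∉ B)
    (hxz : x.val < z.val) (hzy : z.val < y.val) : False := by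
  obtain ⟨p⟩ := hc.preconnected ⟨x, hx⟩ ⟨y, hy⟩
  obtain ⟨d, -, hd1, hd2⟩ := p.exists_boundary_dart {w : B | w.val.val < z.val} hxz
    (by
      intro h
      have h' : y.val < z.val := h
      omega)
  have h1 : d.fst.val.val < z.val := hd1
  have h2 : ¬ d.snd.val.val < z.val := hd2
  have h3 : (Kg n).Adj d.fst.val d.snd.val := d.adj
  have h4 := hB _ d.fst.2
  have h5 := hB _ d.snd.2
  have h6 : d.snd.val.val ≠ z.val := fun h => hz (by rw [← Fin.ext h]; exact d.snd.2)
  obtain ⟨-, h | h | h | h⟩ := h3 <;> omega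

/-- Adjacent hub-free sets: no point of a third set is between them. -/
private theorem key {n : ℕ} {B B' : Set (Fin n)} (hc : ((Kg n).induce B).Connected)
    (hc' : ((Kg n).induce B').Connected) (hB : ∀ x ∈ B, 2 ≤ x.val) (hB' : ∀ x ∈ B', 2 ≤ x.val)
    (hadj : ∃ a ∈ B, ∃ b ∈ B', (Kg n).Adj a b) {x y z : Fin n} (hx : x ∈ B) (hy : y ∈ B')
    (hz : z ∉ B) (hz' : z ∉ B') :
    ¬ (x.val < z.val ∧ z.val < y.val) ∧ ¬ (y.val < z.val ∧ z.val < x.val) := by
  obtain ⟨a, ha, b, hb, hab⟩ := hadj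
  have h1 := hB a ha
  have h2 := hB' b hb
  have h3 : a.val ≠ z.val := fun h => hz (by rw [← Fin.ext h]; exact ha)
  have h4 : b.val ≠ z.val := fun h => hz' (by rw [← Fin.ext h]; exact hb)
  have h5 : a.val + 1 = b.val ∨ b.val + 1 = a.val := by
    obtain ⟨-, h | h | h | h⟩ := hab
    · omega
    · omega
    · exact Or.inl h
    · exact Or.inr h
  constructor
  · rintro ⟨h6, h7⟩
    have h8 : a.val < z.val := by
      by_contra hcon
      exact convex hc hB hx ha hz h6 (by omega)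
    have h9 : z.val < b.val := by
      by_contra hcon
      exact convex hc' hB' hb hy hz' (by omega) h7
    omega
  · rintro ⟨h6, h7⟩
    have h8 : z.val < a.val := by
      by_contra hcon
      exact convex hc hB ha hx hz (by omega) h7
    have h9 : b.val < z.val := by
      by_contra hcon
      exact convex hc' hB' hy hb hz' h6 (by omega)
    omega

/-- At most two disjoint sets contain a hub. -/
private theorem hubs {n : ℕ} {W : Type} [Fintype W] [DecidableEq W] {B : W → Set (Fin n)}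
    (hd : ∀ w w', w ≠ w' → Disjoint (B w) (B w')) (S : Finset W)
    (hS : ∀ w ∈ S, ∃ x ∈ B w, x.val < 2) : S.card ≤ 2 := by
  classical
  choose x hx using hS
  have h1 : S.attach.card ≤ (Finset.range 2).card := by
    refine Finset.card_le_card_of_injOn (fun w => (x w.1 w.2).val) ?_ ?_
    · intro w _
      rw [Finset.mem_coe, Finset.mem_range]
      exact (hx w.1 w.2).2
    · intro w _ w' _ h
      by_contra hne
      have hne' : w.1 ≠ w'.1 := fun h => hne (Subtype.ext h)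
      have h' : x w.1 w.2 = x w'.1 w'.2 := Fin.ext h
      refine Set.disjoint_left.mp (hd w.1 w'.1 hne') (hx w.1 w.2).1 ?_
      rw [h']
      exact (hx w'.1 w'.2).1
  rw [Finset.card_attach] at h1
  rwa [Finset.card_range] at h1

/-- Three numbers, none between two others. -/
private theorem three {a b c : ℕ} (hab : a ≠ b) (hac : a ≠ c) (hbc : b ≠ c)
    (k1 : ¬ (a < c ∧ c < b) ∧ ¬ (b < c ∧ c < a)) (k2 : ¬ (a < b ∧ b < c) ∧ ¬ (c < b ∧ b < a))
    (k3 : ¬ (b < a ∧ a < c) ∧ ¬ (c < a ∧ a < b)) : False := by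
  rcases lt_or_gt_of_ne hab with h1 | h1 <;> rcases lt_or_gt_of_ne hac with h2 | h2 <;>
  rcases lt_or_gt_of_ne hbc with h3 | h3
  · exact k2.1 ⟨h1, h3⟩
  · exact k1.1 ⟨h2, h3⟩
  · exact lt_asymm (h2.trans h1) h3
  · exact k3.2 ⟨h2, h1⟩
  · exact k3.1 ⟨h1, h2⟩
  · exact lt_asymm (h1.trans h2) h3
  · exact k1.2 ⟨h3, h2⟩
  · exact k2.2 ⟨h3, h1⟩

/-- Two numbers are on different sides of a third one. -/
private theorem side {a b j : ℕ} (hab : a ≠ b) (k1 : ¬ (a < b ∧ b < j) ∧ ¬ (j < b ∧ b < a))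
    (k2 : ¬ (b < a ∧ a < j) ∧ ¬ (j < a ∧ a < b)) : ¬ (a < j ∧ b < j) ∧ ¬ (j < a ∧ j < b) := by
  rcases lt_or_gt_of_ne hab with h1 | h1
  · exact ⟨fun h => k1.1 ⟨h1, h.2⟩, fun h => k2.2 ⟨h.1, h1⟩⟩
  · exact ⟨fun h => k2.1 ⟨h1, h.1⟩, fun h => k1.2 ⟨h.2, h1⟩⟩

/-- Three numbers can not be pairwise on different sides of a fourth one. -/
private theorem three_side {a b c j : ℕ} (ha : a ≠ j) (hb : b ≠ j) (hc : c ≠ j)
    (s1 : ¬ (a < j ∧ b < j) ∧ ¬ (j < a ∧ j < b)) (s2 : ¬ (a < j ∧ c < j) ∧ ¬ (j < a ∧ j < c))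
    (s3 : ¬ (b < j ∧ c < j) ∧ ¬ (j < b ∧ j < c)) : False := by
  rcases lt_or_gt_of_ne ha with h1 | h1 <;> rcases lt_or_gt_of_ne hb with h2 | h2 <;>
  rcases lt_or_gt_of_ne hc with h3 | h3
  · exact s1.1 ⟨h1, h2⟩
  · exact s1.1 ⟨h1, h2⟩
  · exact s2.1 ⟨h1, h3⟩
  · exact s3.2 ⟨h2, h3⟩
  · exact s3.1 ⟨h2, h3⟩
  · exact s2.2 ⟨h1, h3⟩
  · exact s1.2 ⟨h1, h2⟩
  · exact s1.2 ⟨h1, h2⟩

/-- A cycle of four. -/
private theorem four {a b c d : ℕ} (h1 : a ≠ c) (h2 : a ≠ d) (h3 : b ≠ c) (h4 : b ≠ d)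
    (sc : ¬ (a < c ∧ b < c) ∧ ¬ (c < a ∧ c < b)) (sd : ¬ (a < d ∧ b < d) ∧ ¬ (d < a ∧ d < b))
    (sa : ¬ (c < a ∧ d < a) ∧ ¬ (a < c ∧ a < d)) : False := by
  rcases lt_or_gt_of_ne h1 with k1 | k1
  · rcases lt_or_gt_of_ne h2 with k2 | k2
    · exact sa.2 ⟨k1, k2⟩
    · rcases lt_or_gt_of_ne h3 with k3 | k3
      · exact sc.1 ⟨k1, k3⟩
      · rcases lt_or_gt_of_ne h4 with k4 | k4
        · exact lt_asymm (k2.trans k1) (k3.trans k4)
        · exact sd.2 ⟨k2, k4⟩
  · rcases lt_or_gt_of_ne h2 with k2 | k2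
    · rcases lt_or_gt_of_ne h3 with k3 | k3
      · rcases lt_or_gt_of_ne h4 with k4 | k4
        · exact sd.1 ⟨k2, k4⟩
        · exact lt_asymm (k4.trans k3) (k1.trans k2)
      · exact sc.2 ⟨k1, k3⟩
    · exact sa.1 ⟨k1, k2⟩

end KgPlanarAux

open KgPlanarAux in
theorem tKgPlanar : S_KgPlanar := by
  classical
  intro n
  refine ⟨?_, ?_⟩
  · rintro ⟨B, hcon, hd, hadj⟩
    have hne : ∀ w, ∃ x, x ∈ B w := fun w => by
      obtain ⟨⟨x, hx⟩⟩ := (hcon w).nonempty
      exact ⟨x, hx⟩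
    choose r hr using hne
    set S : Finset (Fin 5) := Finset.univ.filter (fun w => ∃ x ∈ B w, x.val < 2) with hS
    have h1 : S.card ≤ 2 := hubs hd S fun w hw => (Finset.mem_filter.1 hw).2
    have h2 : 2 < Sᶜ.card := by
      rw [Finset.card_compl, Fintype.card_fin]
      omega
    obtain ⟨a, b, c, ha, hb, hc, hab, hac, hbc⟩ := Finset.two_lt_card_iff.1 h2
    have hfree : ∀ w, w ∈ Sᶜ → ∀ x ∈ B w, 2 ≤ x.val := by
      intro w hw x hx
      rw [Finset.mem_compl, hS, Finset.mem_filter] at hw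
      by_contra hcon'
      exact hw ⟨Finset.mem_univ w, x, hx, by omega⟩
    have hmem : ∀ w w', w ≠ w' → r w ∉ B w' := fun w w' h h' =>
      Set.disjoint_left.mp (hd w w' h) (hr w) h'
    have hval : ∀ w w', w ≠ w' → (r w).val ≠ (r w').val := fun w w' h h' =>
      hmem w w' h (by rw [Fin.ext h']; exact hr w')
    have k1 := key (hcon a) (hcon b) (hfree a ha) (hfree b hb) (hadj a b hab) (hr a) (hr b)
      (hmem c a hac.symm) (hmem c b hbc.symm)
    have k2 := key (hcon a) (hcon c) (hfree a ha) (hfree c hc) (hadj a c hac) (hr a) (hr c)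
      (hmem b a hab.symm) (hmem b c hbc)
    have k3 := key (hcon b) (hcon c) (hfree b hb) (hfree c hc) (hadj b c hbc) (hr b) (hr c)
      (hmem a b hab) (hmem a c hac)
    have v1 := hval a b hab
    have v2 := hval a c hac
    have v3 := hval b c hbc
    exact three v1 v2 v3 k1 k2 k3
  · rintro ⟨B, hcon, hd, hadj⟩
    have hne : ∀ w, ∃ x, x ∈ B w := fun w => by
      obtain ⟨⟨x, hx⟩⟩ := (hcon w).nonempty
      exact ⟨x, hx⟩
    choose r hr using hne
    set free : Fin 3 ⊕ Fin 3 → Prop := fun w => ∀ x ∈ B w, 2 ≤ x.val with hfr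
    have hmem : ∀ w w', w ≠ w' → r w ∉ B w' := fun w w' h h' =>
      Set.disjoint_left.mp (hd w w' h) (hr w) h'
    have hval : ∀ w w', w ≠ w' → (r w).val ≠ (r w').val := fun w w' h h' =>
      hmem w w' h (by rw [Fin.ext h']; exact hr w')
    have hk : ∀ i j : Fin 3, free (Sum.inl i) → free (Sum.inr j) → ∀ w, w ≠ Sum.inl i →
        w ≠ Sum.inr j →
        ¬ ((r (Sum.inl i)).val < (r w).val ∧ (r w).val < (r (Sum.inr j)).val) ∧
        ¬ ((r (Sum.inr j)).val < (r w).val ∧ (r w).val < (r (Sum.inl i)).val) := by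
      intro i j hi hj w h1 h2
      exact key (hcon _) (hcon _) hi hj (hadj _ _ (by simp)) (hr _) (hr _) (hmem w _ h1)
        (hmem w _ h2)
    -- numbers of free sets on the two sides
    set SL : Finset (Fin 3) := Finset.univ.filter (fun i => free (Sum.inl i)) with hSL
    set SR : Finset (Fin 3) := Finset.univ.filter (fun j => free (Sum.inr j)) with hSR
    have hL : ∀ i ∈ SL, free (Sum.inl i) := fun i hi => (Finset.mem_filter.1 hi).2
    have hR : ∀ i ∈ SR, free (Sum.inr i) := fun i hi => (Finset.mem_filter.1 hi).2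
    have hcard : (SLᶜ.card + SRᶜ.card : ℕ) ≤ 2 := by
      have h1 := hubs hd (SLᶜ.disjSum SRᶜ) (fun w hw => by
        by_contra hcon'
        push Not at hcon'
        rcases w with i | j
        · rw [Finset.inl_mem_disjSum, Finset.mem_compl, hSL, Finset.mem_filter] at hw
          exact hw ⟨Finset.mem_univ i, hcon'⟩
        · rw [Finset.inr_mem_disjSum, Finset.mem_compl, hSR, Finset.mem_filter] at hw
          exact hw ⟨Finset.mem_univ j, hcon'⟩)
      rwa [Finset.card_disjSum] at h1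
    rw [Finset.card_compl, Finset.card_compl, Fintype.card_fin] at hcard
    have cL : SL.card ≤ 3 := (Finset.card_le_univ _).trans (by rw [Fintype.card_fin])
    have cR : SR.card ≤ 3 := (Finset.card_le_univ _).trans (by rw [Fintype.card_fin])
    have nll : ∀ i i' : Fin 3, i ≠ i' → (Sum.inl i : Fin 3 ⊕ Fin 3) ≠ Sum.inl i' :=
      fun i i' h h' => h (Sum.inl_injective h')
    have nrr : ∀ i i' : Fin 3, i ≠ i' → (Sum.inr i : Fin 3 ⊕ Fin 3) ≠ Sum.inr i' :=
      fun i i' h h' => h (Sum.inr_injective h')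
    rcases (show (2 < SL.card ∧ 0 < SR.card) ∨ (2 < SR.card ∧ 0 < SL.card) ∨
        (1 < SL.card ∧ 1 < SR.card) by omega) with ⟨c1, c2⟩ | ⟨c1, c2⟩ | ⟨c1, c2⟩
    · obtain ⟨a, b, c, ha, hb, hc, hab, hac, hbc⟩ := Finset.two_lt_card_iff.1 c1
      obtain ⟨j, hj⟩ := Finset.card_pos.1 c2
      have v1 := hval _ _ (nll a b hab)
      have v2 := hval _ _ (nll a c hac)
      have v3 := hval _ _ (nll b c hbc)
      have w1 := hval (Sum.inl a) (Sum.inr j) (by simp)
      have w2 := hval (Sum.inl b) (Sum.inr j) (by simp)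
      have w3 := hval (Sum.inl c) (Sum.inr j) (by simp)
      have k1 := hk a j (hL a ha) (hR j hj) (Sum.inl b) (nll b a hab.symm) (by simp)
      have k2 := hk a j (hL a ha) (hR j hj) (Sum.inl c) (nll c a hac.symm) (by simp)
      have k3 := hk b j (hL b hb) (hR j hj) (Sum.inl a) (nll a b hab) (by simp)
      have k4 := hk b j (hL b hb) (hR j hj) (Sum.inl c) (nll c b hbc.symm) (by simp)
      have k5 := hk c j (hL c hc) (hR j hj) (Sum.inl a) (nll a c hac) (by simp)
      have k6 := hk c j (hL c hc) (hR j hj) (Sum.inl b) (nll b c hbc) (by simp)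
      exact three_side w1 w2 w3 (side v1 k1 k3) (side v2 k2 k5) (side v3 k4 k6)
    · obtain ⟨a, b, c, ha, hb, hc, hab, hac, hbc⟩ := Finset.two_lt_card_iff.1 c1
      obtain ⟨j, hj⟩ := Finset.card_pos.1 c2
      have v1 := hval _ _ (nrr a b hab)
      have v2 := hval _ _ (nrr a c hac)
      have v3 := hval _ _ (nrr b c hbc)
      have w1 := hval (Sum.inr a) (Sum.inl j) (by simp)
      have w2 := hval (Sum.inr b) (Sum.inl j) (by simp)
      have w3 := hval (Sum.inr c) (Sum.inl j) (by simp)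
      have k1 := hk j a (hL j hj) (hR a ha) (Sum.inr b) (by simp) (nrr b a hab.symm)
      have k2 := hk j a (hL j hj) (hR a ha) (Sum.inr c) (by simp) (nrr c a hac.symm)
      have k3 := hk j b (hL j hj) (hR b hb) (Sum.inr a) (by simp) (nrr a b hab)
      have k4 := hk j b (hL j hj) (hR b hb) (Sum.inr c) (by simp) (nrr c b hbc.symm)
      have k5 := hk j c (hL j hj) (hR c hc) (Sum.inr a) (by simp) (nrr a c hac)
      have k6 := hk j c (hL j hj) (hR c hc) (Sum.inr b) (by simp) (nrr b c hbc)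
      exact three_side w1 w2 w3 (side v1 k1.symm k3.symm) (side v2 k2.symm k5.symm)
        (side v3 k4.symm k6.symm)
    · obtain ⟨a, b, ha, hb, hab⟩ := Finset.one_lt_card_iff.1 c1
      obtain ⟨c, d, hc, hd', hcd⟩ := Finset.one_lt_card_iff.1 c2
      have v1 := hval _ _ (nll a b hab)
      have v2 := hval _ _ (nrr c d hcd)
      have w1 := hval (Sum.inl a) (Sum.inr c) (by simp)
      have w2 := hval (Sum.inl a) (Sum.inr d) (by simp)
      have w3 := hval (Sum.inl b) (Sum.inr c) (by simp)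
      have w4 := hval (Sum.inl b) (Sum.inr d) (by simp)
      have k1 := hk a c (hL a ha) (hR c hc) (Sum.inl b) (nll b a hab.symm) (by simp)
      have k2 := hk a c (hL a ha) (hR c hc) (Sum.inr d) (by simp) (nrr d c hcd.symm)
      have k3 := hk a d (hL a ha) (hR d hd') (Sum.inl b) (nll b a hab.symm) (by simp)
      have k4 := hk a d (hL a ha) (hR d hd') (Sum.inr c) (by simp) (nrr c d hcd)
      have k5 := hk b c (hL b hb) (hR c hc) (Sum.inl a) (nll a b hab) (by simp)
      have k6 := hk b c (hL b hb) (hR c hc) (Sum.inr d) (by simp) (nrr d c hcd.symm)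
      have k7 := hk b d (hL b hb) (hR d hd') (Sum.inl a) (nll a b hab) (by simp)
      have sc := side v1 k1 k5
      have sd := side v1 k3 k7
      have sa := side v2 k2.symm k4.symm
      exact four w1 w2 w3 w4 sc sd sa

end Pool.Agent.Lib.MP_00ece3_co.EX
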