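import Pool.Agent.Lib.MP_00ece3_co.EX.SpecA

/-!
# Project EX: the lower bound for even `m` (`S_LowEven`)
-/

set_option autoImplicit false

namespace Pool.Agent.Lib.MP_00ece3_co.EX

open Pool.Agent.Lib.MP_00ece3_co

namespace LowEvenAux

theorem sp_nonneg (a b x y : ℝ × ℝ) : 0 ≤ sp a b x y := by
  unfold sp; split_ifs <;> norm_num

theorem tri_nonneg (x a b c : ℝ × ℝ) : 0 ≤ tri x a b c := by
  unfold tri; split_ifs <;> norm_num

theorem pathSum_nonneg {m : ℕ} (f : Fin m → Fin m → ℤ) (hf : ∀ i j, 0 ≤ f i j) :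
    0 ≤ pathSum f := by
  unfold pathSum
  refine Finset.sum_nonneg fun i _ => Finset.sum_nonneg fun j _ => ?_
  split_ifs
  · exact hf i j
  · exact le_rfl

theorem T2_nonneg {m : ℕ} (P : Fin m → ℝ × ℝ) (u : ℝ × ℝ) : 0 ≤ T2 P u :=
  Finset.sum_nonneg fun _ _ => Finset.sum_nonneg fun _ _ => Finset.sum_nonneg fun _ _ =>
    tri_nonneg _ _ _ _

theorem TT_nonneg {m : ℕ} (P : Fin m → ℝ × ℝ) (u v : ℝ × ℝ) : 0 ≤ TT P u v :=
  Finset.sum_nonneg fun _ _ => Finset.sum_nonneg fun _ _ => tri_nonneg _ _ _ _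

theorem PR2_nonneg {m : ℕ} (P : Fin m → ℝ × ℝ) : 0 ≤ PR2 P :=
  pathSum_nonneg _ fun _ _ => Finset.sum_nonneg fun _ _ => Finset.sum_nonneg fun _ _ =>
    sp_nonneg _ _ _ _

theorem P0_nonneg {m : ℕ} (P : Fin m → ℝ × ℝ) (u v : ℝ × ℝ) : 0 ≤ P0 P u v :=
  pathSum_nonneg _ fun _ _ => sp_nonneg _ _ _ _

theorem orient_swap' (x y z : ℝ × ℝ) : orient x z y = - orient x y z := by
  unfold orient; ring

theorem GP_symm {m : ℕ} {P : Fin m → ℝ × ℝ} {u v : ℝ × ℝ} (h : GP P u v) : GP P v u :=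
  ⟨h.2.1, h.1, fun i => by rw [orient_swap']; exact neg_ne_zero.mpr (h.2.2.1 i), h.2.2.2⟩

theorem dvd_UU {m : ℕ} (P : Fin m → ℝ × ℝ) (u : ℝ × ℝ) (a : Fin m) :
    (2 : ℤ) ∣ UU P u a - ((m : ℤ) - 1) := by
  unfold UU
  exact ⟨inn P u a - ((m : ℤ) - 1), by ring⟩

theorem not_dvd_UU {m : ℕ} (hm : m % 2 = 0) (P : Fin m → ℝ × ℝ) (u : ℝ × ℝ) (a : Fin m) :
    ¬ (2 : ℤ) ∣ UU P u a := by
  unfold UU
  omega

/-- The number of elements of a nonempty set of zero lines. -/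
theorem card_le {m : ℕ} (Z : Finset (Fin m)) (h : Z.Nonempty) :
    (Z.card : ℤ) - 1 ≤ ((Z.max' h : Fin m) : ℤ) - ((Z.min' h : Fin m) : ℤ) := by
  have hsub : Z ⊆ Finset.Icc (Z.min' h) (Z.max' h) := fun x hx =>
    Finset.mem_Icc.mpr ⟨Finset.min'_le Z x hx, Finset.le_max' Z x hx⟩
  have hc := Finset.card_le_card hsub
  rw [Fin.card_Icc] at hc
  have hle : ((Z.min' h : Fin m) : ℕ) ≤ ((Z.max' h : Fin m) : ℕ) :=
    Finset.min'_le_max' Z h
  omega

/-- The types of the zero lines when no line is one-sided. -/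
theorem types {m : ℕ} (hZero : S_Zero) (P : Fin m → ℝ × ℝ) (u : ℝ × ℝ)
    (hP : ∀ i j, i ≠ j → orient (P i) (P j) u ≠ 0)
    (h1 : ∀ a, |UU P u a| ≠ (m : ℤ) - 1) (a : Fin m) (ha : PU P u a = 0) :
    (Zp P u a ∧ UU P u a = 2 * (a : ℤ) - ((m : ℤ) - 1)) ∨
      (Zm P u a ∧ UU P u a = -(2 * (a : ℤ) - ((m : ℤ) - 1))) := by
  rcases hZero m P u hP a ha with h | h | h
  · exact absurd h (h1 a)
  · exact Or.inl h
  · exact Or.inr h

theorem abs_eq {m : ℕ} (a : Fin m) (x : ℤ)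
    (h : x = 2 * (a : ℤ) - ((m : ℤ) - 1) ∨ x = -(2 * (a : ℤ) - ((m : ℤ) - 1))) :
    |x| = KK a := by
  unfold KK
  rcases h with h | h
  · rw [h]
  · rw [h, abs_neg]

/-- The hypothesis of `S_ArEnds` about one hub. -/
theorem ends {m : ℕ} (hm : 12 ≤ m) (hZero : S_Zero) (hEndsU : S_EndsU) (P : Fin m → ℝ × ℝ)
    (u : ℝ × ℝ) (hP : ∀ i j, i ≠ j → orient (P i) (P j) u ≠ 0)
    (h1 : ∀ a, |UU P u a| ≠ (m : ℤ) - 1) (ε : ℤ) (hε : ε = 1 ∨ ε = -1)
    (hor : ∀ i j k : Fin m, i < j → j < k → 0 < (ε : ℝ) * orient (P i) (P j) (P k))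
    (hT : T2 P u = 0) (i0 i1 : Fin m) (h0 : (i0 : ℕ) = 0) (h1' : (i1 : ℕ) = m - 1)
    (Z : Finset (Fin m)) (hZ : ∀ a, a ∈ Z ↔ PU P u a = 0) (hZ0 : i0 ∉ Z) (hZ1 : i1 ∉ Z)
    (hne : Z.Nonempty) :
    2 * ((Z.card : ℤ) - 1) ≤ ε * (UU P u i1 - UU P u i0) := by
  have hj := Z.min'_mem hne
  have hJ := Z.max'_mem hne
  have tj := types hZero P u hP h1 _ ((hZ _).1 hj)
  have tJ := types hZero P u hP h1 _ ((hZ _).1 hJ)
  have hjJ : Z.min' hne ≤ Z.max' hne := Finset.min'_le_max' Z hne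
  have hi0 : i0 < Z.min' hne := by
    have hne' : i0 ≠ Z.min' hne := fun h => hZ0 (h ▸ hj)
    rw [Fin.lt_def]
    have : (i0 : ℕ) ≠ (Z.min' hne : Fin m) := fun h => hne' (Fin.ext h)
    omega
  have hi1 : Z.max' hne < i1 := by
    have hne' : i1 ≠ Z.max' hne := fun h => hZ1 (h ▸ hJ)
    rw [Fin.lt_def]
    have : (i1 : ℕ) ≠ (Z.max' hne : Fin m) := fun h => hne' (Fin.ext h)
    have := (Z.max' hne).isLt
    omega
  have key := (hEndsU m P u (by omega) hP ε hε hor hT i0 i1 h0 h1' (Z.min' hne) (Z.max' hne)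
    hjJ hi0 hi1 (tj.imp And.left And.left) (tJ.imp And.left And.left)).1
  have hc := card_le Z hne
  linarith

/-- The ends are not zero lines when no line is one-sided. -/
theorem not_mem_end {m : ℕ} (hm : 12 ≤ m) (hZero : S_Zero) (P : Fin m → ℝ × ℝ) (u : ℝ × ℝ)
    (hP : ∀ i j, i ≠ j → orient (P i) (P j) u ≠ 0)
    (h1 : ∀ a, |UU P u a| ≠ (m : ℤ) - 1) (a : Fin m) (ha : (a : ℕ) = 0 ∨ (a : ℕ) = m - 1) :
    PU P u a ≠ 0 := by
  intro h
  have t := types hZero P u hP h1 a h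
  have e : |UU P u a| = KK a := abs_eq a _ (t.imp And.right And.right)
  apply h1 a
  rw [e]
  unfold KK
  have hab : (2 * (a : ℤ) - ((m : ℤ) - 1)) = (m : ℤ) - 1 ∨
      (2 * (a : ℤ) - ((m : ℤ) - 1)) = -((m : ℤ) - 1) := by
    rcases ha with ha | ha
    · right
      have : (a : ℤ) = 0 := by exact_mod_cast ha
      rw [this]; ring
    · left
      have : (a : ℤ) = (m : ℤ) - 1 := by omega
      rw [this]; ring
  have hpos : (0 : ℤ) ≤ (m : ℤ) - 1 := by omega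
  rcases hab with h | h
  · rw [h, abs_of_nonneg hpos]
  · rw [h, abs_neg, abs_of_nonneg hpos]

end LowEvenAux

open LowEvenAux

theorem tLowEven (hIdentLe : S_IdentLe) (hPathLe : S_PathLe) (hZero : S_Zero) (hOpp : S_Opp)
    (hP0Z : S_P0Z) (hArCrude : S_ArCrude) (hArOne : S_ArOne) (hArEven : S_ArEven)
    (hArEnds : S_ArEnds) (hT2two : S_T2two) (hHull : S_Hull) (hT2alt : S_T2alt)
    (hEndsU : S_EndsU) : S_LowEven := by
  classical
  intro m hm hm2 P u v hGP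
  have hGP' := GP_symm hGP
  have hPu := hGP.1
  have hPv := hGP.2.1
  -- the sets of zero lines
  obtain ⟨Z, hZ⟩ : ∃ Z : Finset (Fin m), ∀ a, a ∈ Z ↔ PU P u a = 0 :=
    ⟨Finset.univ.filter (fun a => PU P u a = 0), fun a => by simp⟩
  obtain ⟨Z', hZ'⟩ : ∃ Z : Finset (Fin m), ∀ a, a ∈ Z ↔ PU P v a = 0 :=
    ⟨Finset.univ.filter (fun a => PU P v a = 0), fun a => by simp⟩
  have hZe : Z = Finset.univ.filter (fun a => PU P u a = 0) := by
    ext a; simp [hZ]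
  have hZe' : Z' = Finset.univ.filter (fun a => PU P v a = 0) := by
    ext a; simp [hZ']
  have hI := hIdentLe m P u v hGP
  have hpu := hPathLe m P u
  have hpv := hPathLe m P v
  have hcu : (Finset.univ.filter (fun a => PU P u a = 0)).card = Z.card := by rw [hZe]
  have hcv : (Finset.univ.filter (fun a => PU P v a = 0)).card = Z'.card := by rw [hZe']
  have hpu' : (m : ℤ) - Z.card ≤ ∑ a, PU P u a := by
    rw [hZe]; convert hpu
  have hpv' : (m : ℤ) - Z'.card ≤ ∑ a, PU P v a := by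
    rw [hZe']; convert hpv
  have hT2u := T2_nonneg P u
  have hT2v := T2_nonneg P v
  have hTT := TT_nonneg P u v
  have hPR := PR2_nonneg P
  have hP0 := P0_nonneg P u v
  -- the total gain
  obtain ⟨G, hG⟩ : ∃ G : ℤ, G = ∑ a, (UU P u a ^ 2 + UU P v a ^ 2 -
    2 * |UU P u a - UU P v a| + 2) - 8 * (Z.card : ℤ) - 8 * (Z'.card : ℤ) := ⟨_, rfl⟩
  have hW : ∑ a, (UU P u a ^ 2 + UU P v a ^ 2 - 2 * |UU P u a - UU P v a| + 2) =
      ∑ a, WW P u v a + 2 * (m : ℤ) := by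
    rw [Finset.sum_add_distrib]
    simp only [WW, Finset.sum_const, Finset.card_univ, Fintype.card_fin, nsmul_eq_mul]
    ring
  have hif : ∑ a, (UU P u a ^ 2 + UU P v a ^ 2 - 2 * |UU P u a - UU P v a| +
      (if m % 2 = 1 then 0 else 2)) =
      ∑ a, (UU P u a ^ 2 + UU P v a ^ 2 - 2 * |UU P u a - UU P v a| + 2) := by
    have : ¬ (m % 2 = 1) := by omega
    simp only [this, if_false]
  -- it is enough to bound the gain
  suffices hmain : -8 ≤ G + (4 * T2 P u + 4 * T2 P v + 8 * TT P u v + 4 * PR2 P) +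
      8 * P0 P u v by
    rw [hG, hW] at hmain
    nlinarith [hI, hpu', hpv', hmain]
  have hdu := dvd_UU P u
  have hdv := dvd_UU P v
  by_cases hone : ∃ a, |UU P u a| = (m : ℤ) - 1 ∨ |UU P v a| = (m : ℤ) - 1
  · have hz : ∀ (w : ℝ × ℝ), (∀ i j, i ≠ j → orient (P i) (P j) w ≠ 0) → ∀ a, PU P w a = 0 →
        |UU P w a| = KK a ∨ |UU P w a| = (m : ℤ) - 1 := by
      intro w hw a ha
      rcases hZero m P w hw a ha with h | h | h
      · exact Or.inr h
      · exact Or.inl (abs_eq a _ (Or.inl h.2))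
      · exact Or.inl (abs_eq a _ (Or.inr h.2))
    have key := hArOne m hm (UU P u) (UU P v) Z Z' hdu hdv
      (fun a ha => hz u hPu a ((hZ a).1 ha)) (fun a ha => hz v hPv a ((hZ' a).1 ha)) hone
    rw [hif, ← hG] at key
    linarith
  have h1u : ∀ a, |UU P u a| ≠ (m : ℤ) - 1 := fun a h => hone ⟨a, Or.inl h⟩
  have h1v : ∀ a, |UU P v a| ≠ (m : ℤ) - 1 := fun a h => hone ⟨a, Or.inr h⟩
  have hP0' : 1 ≤ P0 P u v := by
    by_contra hlt
    have h0 : P0 P u v = 0 := by omega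
    obtain ⟨a, ha⟩ := hP0Z m P u v (by omega) hGP h0
    exact h1u a ha
  have tu := fun a (ha : a ∈ Z) => types hZero P u hPu h1u a ((hZ a).1 ha)
  have tv := fun a (ha : a ∈ Z') => types hZero P v hPv h1v a ((hZ' a).1 ha)
  have hKu : ∀ a ∈ Z, |UU P u a| = KK a := fun a ha =>
    abs_eq a _ ((tu a ha).imp And.right And.right)
  have hKv : ∀ a ∈ Z', |UU P v a| = KK a := fun a ha =>
    abs_eq a _ ((tv a ha).imp And.right And.right)
  by_cases hdiff : ∃ a ∈ Z, a ∈ Z' ∧ KK a ≤ 3 ∧ UU P u a ≠ UU P v a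
  · -- two zero lines of different types in the middle
    obtain ⟨a, haZ, haZ', hK, hne⟩ := hdiff
    have hT : 2 * (a : ℤ) * ((m : ℤ) - 1 - a) ≤ T2 P u + T2 P v := by
      rcases tu a haZ with h | h <;> rcases tv a haZ' with h' | h'
      · exact absurd (h.2.trans h'.2.symm) hne
      · exact hOpp m P u v hGP a h.1 h'.1
      · have := hOpp m P v u hGP' a h'.1 h.1
        linarith
      · exact absurd (h.2.trans h'.2.symm) hne
    have hK' : (2 * (a : ℤ) - ((m : ℤ) - 1)) ^ 2 ≤ 9 := by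
      unfold KK at hK
      have h3 := abs_le.mp hK
      nlinarith [h3.1, h3.2]
    have hmz : (12 : ℤ) ≤ m := by exact_mod_cast hm
    have hbig : 56 ≤ 2 * (a : ℤ) * ((m : ℤ) - 1 - a) := by nlinarith [hK', hmz]
    have key := hArCrude m hm (UU P u) (UU P v) Z Z' hdu hdv
      (fun a ha => Or.inl (hKu a ha)) (fun a ha => Or.inl (hKv a ha))
    rw [hif, ← hG] at key
    linarith
  have hsame : ∀ a ∈ Z, a ∈ Z' → KK a ≤ 3 → UU P u a = UU P v a := by
    intro a ha ha' hK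
    by_contra hne
    exact hdiff ⟨a, ha, ha', hK, hne⟩
  have hnu := not_dvd_UU hm2 P u
  have hnv := not_dvd_UU hm2 P v
  have hEv := hArEven m hm2 (UU P u) (UU P v) Z Z' hnu hnv hKu hKv hsame
  rw [← hG] at hEv
  by_cases hB : 16 ≤ 4 * T2 P u + 4 * T2 P v + 8 * TT P u v + 4 * PR2 P
  · linarith
  have hB' : 4 * T2 P u + 4 * T2 P v + 8 * TT P u v + 4 * PR2 P < 16 := not_le.mp hB
  have hPabc := hGP.2.2.2
  -- the points are in convex position
  have hC : Cvx P := by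
    by_contra hC
    have a1 := hT2two m P u hPu hC
    have a2 := hT2two m P v hPv hC
    linarith
  have hmz : (12 : ℤ) ≤ m := by exact_mod_cast hm
  have hH := hHull m P (by omega) hPabc hC (by linarith)
  have hTu0 : T2 P u = 0 := by
    rcases hT2alt m P u hPu hPabc hC with h | h
    · exact h
    · linarith
  have hTv0 : T2 P v = 0 := by
    rcases hT2alt m P v hPv hPabc hC with h | h
    · exact h
    · linarith
  obtain ⟨ε, hε, hor⟩ : ∃ ε : ℤ, (ε = 1 ∨ ε = -1) ∧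
      ∀ i j k : Fin m, i < j → j < k → 0 < (ε : ℝ) * orient (P i) (P j) (P k) := by
    rcases hH with h | h
    · exact ⟨1, Or.inl rfl, fun i j k hij hjk => by
        have := h i j k hij hjk
        push_cast
        linarith⟩
    · exact ⟨-1, Or.inr rfl, fun i j k hij hjk => by
        have := h i j k hij hjk
        push_cast
        linarith⟩
  have hm0 : 0 < m := by omega
  have hm1 : m - 1 < m := by omega
  have e0u : (⟨0, hm0⟩ : Fin m) ∉ Z := fun h =>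
    not_mem_end hm hZero P u hPu h1u _ (Or.inl rfl) ((hZ _).1 h)
  have e0v : (⟨0, hm0⟩ : Fin m) ∉ Z' := fun h =>
    not_mem_end hm hZero P v hPv h1v _ (Or.inl rfl) ((hZ' _).1 h)
  have e1u : (⟨m - 1, hm1⟩ : Fin m) ∉ Z := fun h =>
    not_mem_end hm hZero P u hPu h1u _ (Or.inr rfl) ((hZ _).1 h)
  have e1v : (⟨m - 1, hm1⟩ : Fin m) ∉ Z' := fun h =>
    not_mem_end hm hZero P v hPv h1v _ (Or.inr rfl) ((hZ' _).1 h)
  have key := hArEnds m hm2 hm (UU P u) (UU P v) Z Z' ε hε ⟨0, hm0⟩ ⟨m - 1, hm1⟩ rfl rfl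
    hnu hnv hKu hKv hsame e0u e0v e1u e1v
    (fun hne => ends hm hZero hEndsU P u hPu h1u ε hε hor hTu0 _ _ rfl rfl Z hZ e0u e1u hne)
    (fun hne => ends hm hZero hEndsU P v hPv h1v ε hε hor hTv0 _ _ rfl rfl Z' hZ' e0v e1v hne)
  rw [← hG] at key
  linarith

end Pool.Agent.Lib.MP_00ece3_co.EX
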