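import Pool.Agent.Lib.MP_00ece3_co.EX.SpecC

/-!
# Project EX, part D: stability (note 4016, part 4)

Every `S_...` is a separate task; its proof is in the docstring.  Library theorems which may be
used (all on main, one folder up): `pairs contract_minor : PairsStmt` (`Edges.lean`,
`Contract.lean`), `cross contract_minor (pairs contract_minor) : CrossStmt` (`Cross.lean`),
`order : OrderStmt`, `fragment separator : FragmentStmt` (`Fragment.lean`, `Sep.lean`),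
`centre : CentreStmt`, `place gon_pos gon_centre centre : PlacementStmt`, and the lemmas of
`Upper.lean` (`Upper.two_mul_crossings`, `Upper.sepCount_le`, `Upper.sepCount_comp`,
`Upper.isPlacement_comp`, `Upper.crossings_le`: the proof of the last one is the model for CI1 and
CII1; it also shows how to deal with the two instances of `DecidableEq (Fin n)`).
-/

set_option autoImplicit false

namespace Pool.Agent.Lib.MP_00ece3_co.EX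

open Pool.Agent.Lib.MP_00ece3_co

/-! ## D0. Definitions -/

open Classical in
/-- The degree of `x`. -/
noncomputable def dg {n : ℕ} (G : SimpleGraph (Fin n)) (x : Fin n) : ℕ :=
  (Finset.univ.filter (fun y => G.Adj x y)).card

open Classical in
/-- The number of ordered adjacent pairs in `A × B`. -/
noncomputable def eO {n : ℕ} (G : SimpleGraph (Fin n)) (A B : Finset (Fin n)) : ℕ :=
  ((A ×ˢ B).filter (fun e => G.Adj e.1 e.2)).card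

open Classical in
/-- The number of vertices of `S` adjacent to `r`. -/
noncomputable def sS {n : ℕ} (G : SimpleGraph (Fin n)) (S : Finset (Fin n)) (r : Fin n) : ℕ :=
  (S.filter (fun s => G.Adj s r)).card

/-- The vertices outside `S` with at most one neighbour in `S`. -/
noncomputable def low {n : ℕ} (G : SimpleGraph (Fin n)) (S : Finset (Fin n)) : Finset (Fin n) :=
  Sᶜ.filter (fun r => sS G S r ≤ 1)

/-- Connected sets outside `S` have at most `D` elements. -/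
def Cb {n : ℕ} (G : SimpleGraph (Fin n)) (S : Finset (Fin n)) (D : ℕ) : Prop :=
  ∀ C : Finset (Fin n), Disjoint C S → (G.induce (C : Set (Fin n))).Connected → C.card ≤ D

/-- `r` lists the elements of `X` without repetition. -/
def Ls {n N : ℕ} (r : Fin N → Fin n) (X : Finset (Fin n)) : Prop :=
  Function.Injective r ∧ ∀ x, (∃ i, r i = x) ↔ x ∈ X

open Classical in
/-- The number of chords `xy` of the points `pp q 0, …, pp q (2q)` which separate `pp q i` and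
`hh k`. -/
noncomputable def Cnt (q k i : ℕ) : ℕ :=
  ((Finset.range (2 * q + 1) ×ˢ Finset.range (2 * q + 1)).filter (fun e =>
    e.1 < e.2 ∧ e.1 ≠ i ∧ e.2 ≠ i ∧
      ((e.1 < i ∧ i < e.2 ∧ Abv q k e.1 e.2) ∨ (¬ (e.1 < i ∧ i < e.2) ∧ ¬ Abv q k e.1 e.2)))).card

/-! ## D1. The placement -/

/-- **Reg**.  For `k = q + 1`: `Abv q (q+1) x y` iff `y ≤ x + q` (if `y < q` or `q ≤ x` then
`y ≤ x + q` anyway), the regular pattern.  The chords counted are mapped injectively into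
`Place.tri q` (`= {(s,t) : 1 ≤ s, 1 ≤ t, s + t ≤ q}`, `Place.card_tri : 2 * card ≤ q * q`):
`x < i < y`, `y ≤ x + q`: `(s,t) = (i-x, y-i)` (so `s ≤ i`, `t ≤ 2q-i`); `i < x < y`, `x + q < y`:
`(s,t) = (i + 2q+1 - y, x - i)` (so `s > i`); `x < y < i`, `x + q < y`:
`(s,t) = (i - y, x + 2q+1 - i)` (so `t > 2q - i`). -/
def S_Reg : Prop := ∀ q i : ℕ, i < 2 * q + 1 → 2 * Cnt q (q + 1) i ≤ q * q

/-- **GainA**.  Exchange the sums: a chord `xy` (`x < y`) contributes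
`I = #{i ∈ [a0,b0) : x < i < y}` if `Abv`, otherwise `O = #{i ∈ [a0,b0) : i < x or y < i}`.  Going
from `q + 1` to `k1 ≤ q + 1` the chords with `x < q ≤ y`, `x + k1 ≤ y ≤ x + q` change from `I` to
`O`, all other chords keep their contribution.  `O ≤ (b0 - a0) - I`,
`I ≥ min y b0 - max (x+1) a0`. -/
def S_GainA : Prop := ∀ q k1 a0 b0 : ℕ, k1 ≤ q + 1 → a0 ≤ b0 → b0 ≤ 2 * q + 1 →
  ∑ i ∈ Finset.Ico a0 b0, (Cnt q k1 i : ℤ) ≤ ∑ i ∈ Finset.Ico a0 b0, (Cnt q (q + 1) i : ℤ) +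
    ∑ x ∈ Finset.range q, ∑ y ∈ Finset.Ico q (2 * q + 1),
      if x + k1 ≤ y ∧ y ≤ x + q then
        ((b0 : ℤ) - a0) - 2 * ((min y b0 : ℕ) - (max (x + 1) a0 : ℕ) : ℤ) else 0

/-- **Gain** (from GainA, Reg).  `α = b0 - a0`, `k1 = (α + 1)/2 ≤ q`.  For every chord in the sum
of GainA `I' = min y b0 - max (x+1) a0` is one of `α`, `y - a0`, `b0 - x - 1`, `y - x - 1`, and
`2 α ≥ α - 4`, `2 (y - a0) ≥ 2 (q - a0) ≥ α - 4` (as `2 a0 + α ≤ 2q + 4`),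
`2 (b0 - x - 1) ≥ 2 (b0 - q) ≥ α - 2` (as `2 b0 = α + (a0+b0) ≥ α + 2q - 2`),
`2 (y - x - 1) ≥ 2 (k1 - 1) ≥ α - 2`.  So every term is `≤ 4`, there are at most `q (q+1)/2 ≤ q²`
terms (also `q (q+1)` would be fine).  With `Q = q/2`: for the `w²` chords `q-Q ≤ x < q-Q+w`,
`q+Q-w ≤ y < q+Q` (they occur in the sum: `y - x ≥ 2Q - 2w + 1`, `2 (2Q - 2w) ≥ α + g ≥ α`,
`y - x ≤ 2Q - 1 ≤ q`) the term is `≤ -g`: `2α ≥ α + g`, `2 (y-x-1) ≥ 2 (2Q-2w) ≥ α + g`,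
`2 (y - a0) ≥ α - 4 + 2Q - 2w ≥ α + g`, `2 (b0 - x - 1) ≥ α - 2 + 2Q - 2w ≥ α + g`. -/
def S_Gain : Prop := ∀ q a0 b0 w g : ℕ, a0 ≤ b0 → b0 ≤ 2 * q + 1 → 2 * q + 1 ≤ a0 + b0 + 3 →
  a0 + b0 ≤ 2 * q + 4 → w ≤ q / 2 → g ≤ b0 - a0 → g + 4 + 2 * w ≤ 2 * (q / 2) →
  g + (b0 - a0) + 4 * w ≤ 4 * (q / 2) →
  2 * ∑ i ∈ Finset.Ico a0 b0, Cnt q ((b0 - a0 + 1) / 2) i + 2 * g * w ^ 2 ≤
    (b0 - a0) * q ^ 2 + 16 * q ^ 2

/-- **Two** (from PX, PP, PH, HHs, and `centre`).  Polygon `pp q i` (`i < 2q+1`), the point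
number `2q+1` is `hh k1`; translate all points by `- hh (q+1)` and put `M` points near the origin by
`CentreStmt` (translation does not change `orient`).  Compare `Place.lean` (`Place.sepCount_le`,
`Place.place`): at most `M n` lines contain a central point and at most `2q+1` further lines
contain the point `2q+1` (`n = 2q+2+M`).  The chords `xy` of the polygon which separate a central
point from `i` are those which separate `hh (q+1)` from `i`; for `x < y`, `pp q i` is on the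
positive side of `pp q x → pp q y` iff `i` is outside `[x,y]` (PP), `hh k` iff `Abv q k x y` (PH).
`i, j`: a chord separates them only if one of its ends is strictly between `i` and `j`. -/
def S_Two : Prop := ∀ q k1 M : ℕ, k1 ≤ q → ∃ p : Fin (2 * q + 2) ⊕ Fin M → ℝ × ℝ,
  IsPlacement p ∧
  (∀ (i : Fin (2 * q + 2)) (s : Fin M), (i : ℕ) < 2 * q + 1 →
    sepCount p (Sum.inr s) (Sum.inl i) ≤ Cnt q (q + 1) i + (M + 1) * (2 * q + 2 + M)) ∧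
  (∀ i c : Fin (2 * q + 2), (i : ℕ) < 2 * q + 1 → (c : ℕ) = 2 * q + 1 →
    sepCount p (Sum.inl c) (Sum.inl i) ≤ Cnt q k1 i + (M + 1) * (2 * q + 2 + M)) ∧
  (∀ i j : Fin (2 * q + 2), i < j → (j : ℕ) < 2 * q + 1 →
    sepCount p (Sum.inl i) (Sum.inl j) ≤
      ((j : ℕ) - i) * (2 * q + 2 + M) + (M + 1) * (2 * q + 2 + M))

/-! ## D2. Edges -/

/-- **EA**.  Elementary rules for `eO`. -/
def S_EA : Prop := ∀ (n : ℕ) (G : SimpleGraph (Fin n)) (A B C : Finset (Fin n)),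
  eO G A B = eO G B A ∧ (Disjoint A B → eO G (A ∪ B) C = eO G A C + eO G B C) ∧
  (A ⊆ B → eO G A C ≤ eO G B C ∧ eO G C A ≤ eO G C B) ∧
  eO G A C = ∑ a ∈ A, eO G {a} C ∧ eO G A C ≤ ∑ a ∈ A, dg G a ∧
  (∀ a, eO G {a} Finset.univ = dg G a)

/-- **EB**.  `PairsStmt` and `CrossStmt` for `Fin n`; the last one from `PairsStmt` for
`Finset.univ`. -/
def S_EB : Prop := ∀ (n : ℕ) (G : SimpleGraph (Fin n)), Planar G →
  (∀ S, eO G S S ≤ 8 * S.card) ∧ (∀ S, eO G S Sᶜ ≤ 2 * Sᶜ.card + 244 * S.card) ∧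
  ∀ A B, eO G A B ≤ 8 * n

/-- **Few**.  `CrossStmt` for the induced subgraph on `X = S ∪ {r ∉ S : sS r ≥ 2}` (planar:
`Edges.minor_of_induce` or `IsMinor.of_induce`) gives
`eO S (X - S) ≤ 2 |X - S| + 244 |S|`, and `eO S (low) ≤ |low|`. -/
def S_Few : Prop := ∀ (n : ℕ) (G : SimpleGraph (Fin n)), Planar G → ∀ S : Finset (Fin n),
  eO G S Sᶜ + (low G S).card ≤ 2 * Sᶜ.card + 244 * S.card

open Classical in
/-- **Mt** (from Tr).  Let `J` be the graph on `{x // x ∈ S} ⊕ {t // t ∈ T}` with `s` adjacent to `t`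
iff `s` is adjacent to `t.1` or to `t.2` in `G` (no other edges).  `J` is a minor of `G` (branch sets
`{s}`, `{t.1, t.2}`, `Edges.singleton_conn`, `Edges.pair_conn`), so it is planar, and `CrossStmt` for
the image of `S` gives `3 |T| ≤ 2 |T| + 244 |S|`. -/
def S_Mt : Prop := ∀ (n : ℕ) (G : SimpleGraph (Fin n)), Planar G → ∀ (S : Finset (Fin n))
    (T : Finset (Fin n × Fin n)),
  (∀ t ∈ T, t.1 ∉ S ∧ t.2 ∉ S ∧ G.Adj t.1 t.2) →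
  (∀ t ∈ T, ∀ t' ∈ T, t ≠ t' → t.1 ≠ t'.1 ∧ t.1 ≠ t'.2 ∧ t.2 ≠ t'.1 ∧ t.2 ≠ t'.2) →
  (∀ t ∈ T, 3 ≤ (S.filter (fun s => G.Adj s t.1 ∨ G.Adj s t.2)).card) →
  T.card ≤ 244 * S.card

/-- **Sep** (from Mt).  Let `T` be a set of maximal size of pairwise disjoint pairs `(a,b)`,
`a, b ∉ S`, `G.Adj a b`, `a` adjacent to an element of `S1`, `b` adjacent to no element of `S1` and
`b ∉ low G S`.  The neighbours of `a` and `b` in `S`: one in `S1` and at least two outside `S1`.  So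
`|T| ≤ 244 |S|`; `Z` is the union of `S`, `low G S` and the elements of the pairs of `T`. -/
def S_Sep : Prop := ∀ (n : ℕ) (G : SimpleGraph (Fin n)), Planar G → ∀ S S1 : Finset (Fin n),
  S1 ⊆ S → ∃ Z : Finset (Fin n), S ⊆ Z ∧ Z.card ≤ 489 * S.card + (low G S).card ∧
    ∀ a b, a ∉ Z → b ∉ Z → (∃ s ∈ S1, G.Adj s a) → (∀ s ∈ S1, ¬ G.Adj s b) → ¬ G.Adj a b

/-- **Par** (from EA, EB).  If `|Sᶜ|` is odd take `S' = S`.  Otherwise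
`∑_{x ∉ S} dg x = eO Sᶜ univ ≤ 8 n < 16 |Sᶜ|`, so some `x ∉ S` has degree `< 16`; `S' = S ∪ {x}`
(`|Sᶜ|` is even and positive). -/
def S_Par : Prop := ∀ (n : ℕ) (G : SimpleGraph (Fin n)), Planar G → ∀ S : Finset (Fin n),
  2 * S.card < n → ∃ S' : Finset (Fin n), S ⊆ S' ∧ S'.card ≤ S.card + 1 ∧
    (∃ k, S'ᶜ.card = 2 * k + 1) ∧ eO G S' S'ᶜ ≤ eO G S Sᶜ + 16

/-- **Greedy**.  Induction on `T`, or a minimal subset of `T` with sum `≥ lo`. -/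
def S_Greedy : Prop := ∀ (n : ℕ) (T : Finset (Fin n)) (f : Fin n → ℕ) (lo : ℕ),
  (∀ s ∈ T, f s ≤ lo) → lo ≤ ∑ s ∈ T, f s →
  ∃ S1 ⊆ T, lo ≤ ∑ s ∈ S1, f s ∧ ∑ s ∈ S1, f s ≤ 2 * lo

/-! ## D3. Orders -/

/-- **OrdR**.  `order` (OrderStmt) for `S = Xᶜ`. -/
def S_OrdR : Prop := ∀ (n : ℕ) (G : SimpleGraph (Fin n)) (X : Finset (Fin n)) (D : ℕ),
  Cb G Xᶜ D → ∃ r : Fin X.card → Fin n, Ls r X ∧
    ∀ i j, i < j → G.Adj (r i) (r j) → (j : ℕ) ≤ i + D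

/-- **Blk**.  Concatenation of three lists. -/
def S_Blk : Prop := ∀ (n a b c : ℕ) (f : Fin a → Fin n) (g : Fin b → Fin n) (h : Fin c → Fin n)
    (X Y Z : Finset (Fin n)), Ls f X → Ls g Y → Ls h Z →
  Disjoint X Y → Disjoint X Z → Disjoint Y Z →
  ∃ r : Fin (a + b + c) → Fin n, Ls r (X ∪ Y ∪ Z) ∧
    (∀ i, (r i ∈ X ↔ (i : ℕ) < a) ∧ (r i ∈ Y ↔ a ≤ (i : ℕ) ∧ (i : ℕ) < a + b) ∧
      (r i ∈ Z ↔ a + b ≤ (i : ℕ))) ∧
    (∀ (i : Fin (a + b + c)) (j : Fin a), (i : ℕ) = j → r i = f j) ∧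
    (∀ (i : Fin (a + b + c)) (j : Fin b), (i : ℕ) = a + j → r i = g j) ∧
    (∀ (i : Fin (a + b + c)) (j : Fin c), (i : ℕ) = a + b + j → r i = h j)

/-- **CI2** (from OrdR, Blk).  `A = {x ∉ Z1 : G.Adj c x}`, `B = {x ∉ Z1 : ¬ G.Adj c x}`; order
both by OrdR (bandwidth `D`).  `h = (|B| - D)/2` (truncated): `B1` = the first `h` elements of `B`,
`B2` = the elements number `h + D, h + D + 1, …` of `B` (`|B2| = |B| - D - h` truncated, which is `h`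
or `h + 1` or, if `|B| < D`, `0`); at most `D` elements of `B` are left out.  There is no edge
between `B1` and `B2` (distance `> D`).  List `B1, A, B2` (Blk) of length `N'`,
`a0 = h`, `b0 = h + |A|`, `a0 + b0 ∈ {N', N' - 1}`.  `N' ≥ n - |Z1| - D ≥ 1`.  If `N'` is even drop
the last element of the list (then `b0 = min (h + |A|) (N' - 1)`; if it is an element of `A` then
`B2` is empty, so `h = 0`).  `Z` = all vertices not in the list. -/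
def S_CI2 : Prop := ∀ (n : ℕ) (G : SimpleGraph (Fin n)) (c : Fin n) (Z1 : Finset (Fin n))
    (D : ℕ), c ∈ Z1 → Cb G Z1 D →
  (∀ a b, a ∉ Z1 → b ∉ Z1 → G.Adj c a → ¬ G.Adj c b → ¬ G.Adj a b) → Z1.card + D < n →
  ∃ (Z : Finset (Fin n)) (q a0 b0 : ℕ) (r : Fin (2 * q + 1) → Fin n),
    Z1 ⊆ Z ∧ Z.card ≤ Z1.card + D + 1 ∧ Ls r Zᶜ ∧ a0 ≤ b0 ∧ b0 ≤ 2 * q + 1 ∧
    2 * q + 1 ≤ a0 + b0 + 3 ∧ a0 + b0 ≤ 2 * q + 4 ∧
    (∀ i, G.Adj c (r i) ↔ a0 ≤ (i : ℕ) ∧ (i : ℕ) < b0) ∧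
    ∀ i j, i < j → G.Adj (r i) (r j) → (j : ℕ) ≤ i + D

/-- **CII2** (from OrdR, Blk).  `A = {x ∉ Z1 : x adjacent to S1}`, `B` = the other `x ∉ Z1`;
`|A| ≤ eO S1 Z1ᶜ`.  Order `A` and `B` by OrdR, `S1` arbitrarily; list `S1, A, B` (Blk) of length
`|S1| + |Z1ᶜ|`.  If the length is even drop the last element `x` (it is not in `S1`, as
`Z1ᶜ ≠ ∅`), `Z' = Z1 ∪ {x}`, otherwise `Z' = Z1`.  There are no edges between `S1` and `B` and none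
between `A` and `B`. -/
def S_CII2 : Prop := ∀ (n : ℕ) (G : SimpleGraph (Fin n)) (S1 Z1 : Finset (Fin n)) (D : ℕ),
  S1 ⊆ Z1 → Cb G Z1 D →
  (∀ a b, a ∉ Z1 → b ∉ Z1 → (∃ s ∈ S1, G.Adj s a) → (∀ s ∈ S1, ¬ G.Adj s b) → ¬ G.Adj a b) →
  Z1.card < n →
  ∃ (Z' : Finset (Fin n)) (k : ℕ) (r : Fin (2 * k + 1) → Fin n),
    Z1 ⊆ Z' ∧ Z'.card ≤ Z1.card + 1 ∧ Ls r (Z' \ S1)ᶜ ∧
    (∀ i j, i < j → G.Adj (r i) (r j) → (r i ∈ S1 ∨ r j ∈ S1) →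
      (j : ℕ) ≤ i + (S1.card + eO G S1 Z1ᶜ)) ∧
    ∀ i j, i < j → G.Adj (r i) (r j) → r i ∉ S1 → r j ∉ S1 → (j : ℕ) ≤ i + D

/-! ## D4. Upper bounds for the orchard crossing number -/

/-- **CI1** (from Two, Reg, EA, EB).  As `Upper.crossings_le`, with the placement of Two instead of
`PlacementStmt`: `M = |Z| - 1`, `2q + 2 + M = n`, `r i ↦ inl i`, `c ↦ inl (2q+1)`, the other
elements of `Z` to `inr`.  Sum over ordered adjacent pairs (`2 crossings`): pairs in `Z × Z`: at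
most `8 |Z|`, each `≤ n²`; in `Zᶜ × Zᶜ`: at most `8 n`, each `≤ (D + |Z|) n`; in `Z × Zᶜ` (twice): the
`b0 - a0` pairs `(c, r i)`, `a0 ≤ i < b0`: `≤ Cnt q k1 i + |Z| n`; the other `eO Z Zᶜ - (b0 - a0)`
pairs: twice the cost is `≤ q² + 2 |Z| n` by Reg. -/
def S_CI1 : Prop := ∀ (n : ℕ) (G : SimpleGraph (Fin n)), Planar G → ∀ (c : Fin n)
    (Z : Finset (Fin n)) (q a0 b0 D k1 : ℕ) (r : Fin (2 * q + 1) → Fin n),
  c ∈ Z → k1 ≤ q → Ls r Zᶜ → a0 ≤ b0 → b0 ≤ 2 * q + 1 →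
  (∀ i, G.Adj c (r i) ↔ a0 ≤ (i : ℕ) ∧ (i : ℕ) < b0) →
  (∀ i j, i < j → G.Adj (r i) (r j) → (j : ℕ) ≤ i + D) →
  2 * OCN G + (b0 - a0) * q ^ 2 ≤ 8 * Z.card * n ^ 2 + eO G Z Zᶜ * q ^ 2 +
    2 * eO G Z Zᶜ * (Z.card * n) + 2 * ∑ i ∈ Finset.Ico a0 b0, Cnt q k1 i +
    8 * n * ((D + Z.card) * n)

/-- **CI0** (from CI1, CI2, Gain, EA, EB).  Put `z = |Z1| + D + 1`.  CI2 gives `Z` (`|Z| ≤ z`), `q`,
`a0`, `b0`, `r`; `n = |Z| + 2q + 1`, `α = b0 - a0 = eO {c} Zᶜ`, `dg c - z ≤ α ≤ dg c`,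
`4 (q/2) ≥ 2q - 2 ≥ n - z - 3`.  So the assumptions of Gain are satisfied, and
`k1 = (α+1)/2 ≤ q`.  CI1 and Gain, multiplied by `4`, with `4 q² ≤ n²`,
`eO Z Zᶜ ≤ 2 n + 244 z` and `eO Z Zᶜ ≤ 8 n`:
`8 OCN + 8 g w² ≤ 32 z n² + (2n + 244 z) n² + 64 z n² + 16 n² + 32 (D + z) n²`. -/
def S_CI0 : Prop := ∀ (n : ℕ) (G : SimpleGraph (Fin n)), Planar G → ∀ (c : Fin n)
    (Z1 : Finset (Fin n)) (D w g : ℕ), c ∈ Z1 → Cb G Z1 D →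
  (∀ a b, a ∉ Z1 → b ∉ Z1 → G.Adj c a → ¬ G.Adj c b → ¬ G.Adj a b) →
  g + (Z1.card + D + 1) ≤ dg G c → g + dg G c + 4 * w + (Z1.card + D + 1) + 3 ≤ n →
  2 * g + 4 * w + 14 + (Z1.card + D + 1) ≤ n →
  8 * OCN G + 8 * g * w ^ 2 ≤ 2 * n ^ 3 + 404 * (Z1.card + D + 1) * n ^ 2 + 16 * n ^ 2

/-- **CII1** (from EA, EB and `place gon_pos gon_centre centre : PlacementStmt`).  As
`Upper.crossings_le`: `m = |Z|`, `2k + 1 + m = n`, `r i ↦ inl i`, `Z` to `inr`.  Ordered adjacent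
pairs in `Z × Z`: at most `8 |Z|`, each `≤ n²`; in `Z × Zᶜ` (twice): twice the cost `≤ k² + 2 |Z| n`;
in `Zᶜ × Zᶜ`: with an element of `S1`: at most `2 eO S1 Zᶜ`, each `≤ (L + |Z|) n`; the others: at
most `8 n`, each `≤ (D + |Z|) n`. -/
def S_CII1 : Prop := ∀ (n : ℕ) (G : SimpleGraph (Fin n)), Planar G → ∀ (Z S1 : Finset (Fin n))
    (k D L : ℕ) (r : Fin (2 * k + 1) → Fin n), Ls r Zᶜ → Disjoint S1 Z →
  (∀ i j, i < j → G.Adj (r i) (r j) → (r i ∈ S1 ∨ r j ∈ S1) → (j : ℕ) ≤ i + L) →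
  (∀ i j, i < j → G.Adj (r i) (r j) → r i ∉ S1 → r j ∉ S1 → (j : ℕ) ≤ i + D) →
  2 * OCN G ≤ 8 * Z.card * n ^ 2 + eO G Z Zᶜ * (k ^ 2 + 2 * (Z.card * n)) +
    2 * eO G S1 Zᶜ * ((L + Z.card) * n) + 8 * n * ((D + Z.card) * n)

/-- **CII0** (from CII1, CII2, EA, EB).  `z = |Z1| + 1`, `W = eO S1 Z1ᶜ`.  CII2 gives `Z'`
(`|Z'| ≤ z`), `k`, `r`; CII1 for `Z = Z' \ S1`, `L = |S1| + W`.  `Zᶜ = S1 ∪ Z'ᶜ`, and
`eO Z Zᶜ = eO Z Z'ᶜ + eO Z S1`, `eO Z Z'ᶜ = eO Z' Z'ᶜ - eO S1 Z'ᶜ ≤ 2 n + 244 z - (W - 8 z)`,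
`eO Z S1 ≤ eO Z' Z' ≤ 8 z`; so `eO Z Zᶜ + W ≤ 2 n + 260 z`; also `eO Z Zᶜ ≤ 8 n`;
`eO S1 Zᶜ ≤ eO Z' Z' + W ≤ 8 z + W`.  `4 k² ≤ n²`, `z ≤ n`, `W ≤ 8 n`.  So
`8 OCN + W n² ≤ 32 z n² + (2 n + 260 z) n² + 64 z n² + 8 (8 z + W)(2 z + W) n + 32 (D + z) n²`, and
`8 (8z + W)(2z + W) n ≤ 768 z n² + 8 W² n`, `16 W² n ≤ W n²`. -/
def S_CII0 : Prop := ∀ (n : ℕ) (G : SimpleGraph (Fin n)), Planar G → ∀ (S1 Z1 : Finset (Fin n))
    (D : ℕ), S1 ⊆ Z1 → Cb G Z1 D →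
  (∀ a b, a ∉ Z1 → b ∉ Z1 → (∃ s ∈ S1, G.Adj s a) → (∀ s ∈ S1, ¬ G.Adj s b) → ¬ G.Adj a b) →
  Z1.card < n → 16 * eO G S1 Z1ᶜ ≤ n →
  16 * OCN G + eO G S1 Z1ᶜ * n ^ 2 ≤
    4 * n ^ 3 + 2400 * (Z1.card + 1) * n ^ 2 + 64 * D * n ^ 2

/-- **T0R** (from Par, OrdR, CII1).  `S'` from Par, `|S'| ≤ 2 δ n`, `D = ⌊δ n⌋`, order of `S'ᶜ` by
OrdR, CII1 with `S1 = ∅`, `L = 0`; `k ≤ n/2`:
`2 OCN ≤ 16 δ n³ + ((2 - 200 δ) n + 16) (1/4 + 4 δ) n² + 24 δ n³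
 = (1/2 - 2 δ - 800 δ²) n³ + 16 (1/4 + 4 δ) n² ≤ (1/2 - δ) n³` for `n ≥ 5/δ`. -/
def S_T0R : Prop := ∀ δ : ℝ, 0 < δ → δ ≤ 1 / 1000 → ∃ n₀ : ℕ, ∀ n : ℕ, n₀ ≤ n →
  ∀ G : SimpleGraph (Fin n), Planar G → ∀ S : Finset (Fin n),
  (S.card : ℝ) + 1 ≤ 2 * δ * n →
  (∀ C : Finset (Fin n), Disjoint C S → (G.induce (C : Set (Fin n))).Connected →
    (C.card : ℝ) ≤ δ * n) →
  (eO G S Sᶜ : ℝ) ≤ (2 - 200 * δ) * n → (OCN G : ℝ) ≤ (1 / 4 - δ / 2) * (n : ℝ) ^ 3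

/-- **CI** (from CI0, Sep, Few, T0R and `fragment separator : FragmentStmt`).  `δ = 10⁻²⁰`; `n`
large.  `S0` from FragmentStmt (`|S0| ≤ δ n`, connected sets outside `S0` have at most `δ n`
elements), `S = S0 ∪ {c}`, `D = ⌊δ n⌋`.  If `eO S Sᶜ ≤ (2 - 200 δ) n` use T0R.  Otherwise Few:
`|low S| ≤ 2 n + 244 |S| - (2 - 200 δ) n ≤ 688 δ n`.  Sep with `S1 = {c}`: `|Z1| ≤ 1666 δ n`,
`|Z1| + D + 1 ≤ 1668 δ n`.  CI0 with `w = g = ⌊n/50000⌋`: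
`8 OCN ≤ (2 + 404 · 1668 δ) n³ + 16 n² - 8 (n/60000)³ ≤ (2 - 2 · 10⁻¹⁴) n³`.  `ε = δ/2`. -/
def S_CI : Prop := ∃ ε : ℝ, 0 < ε ∧ ∃ n₀ : ℕ, ∀ n : ℕ, n₀ ≤ n →
  ∀ G : SimpleGraph (Fin n), Planar G →
  (∃ c, n ≤ 32 * dg G c ∧ 2500 * dg G c ≤ 2499 * n) → (OCN G : ℝ) ≤ (1 / 4 - ε) * (n : ℝ) ^ 3

/-- **CII** (from CII0, Sep, Few, T0R, Greedy, EA, EB and FragmentStmt).  `δ = 10⁻²⁰`, `n` large,
`S0` from FragmentStmt, `L0 = {x : 2499 n < 2500 dg x}` (at most one element), `S = S0 ∪ L0`,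
`D = ⌊δ n⌋`.  If `eO S Sᶜ ≤ (2 - 200 δ) n` use T0R.  Otherwise `|low S| ≤ 688 δ n` (Few).  For
`s ∈ T = S \ L0`: `f s = eO {s} Sᶜ ≤ dg s < n/32`; `∑_T f = eO S Sᶜ - eO L0 Sᶜ ≥ (1 - 200 δ) n`.
Greedy with `lo = n/32` gives `S1`, `lo ≤ eO S1 Sᶜ ≤ n/16`.  Sep: `|Z1| ≤ 1666 δ n`.
`W = eO S1 Z1ᶜ` satisfies `W ≤ eO S1 Sᶜ ≤ n/16` and `W ≥ eO S1 Sᶜ - eO Z1 Z1 ≥ n/32 - 1 - 8 |Z1|
≥ n/40`.  CII0: `16 OCN ≤ 4 n³ - n³/40 + 2400 · 1667 δ n³ + 64 δ n³ ≤ (4 - 1/80) n³`. -/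
def S_CII : Prop := ∃ ε : ℝ, 0 < ε ∧ ∃ n₀ : ℕ, ∀ n : ℕ, n₀ ≤ n →
  ∀ G : SimpleGraph (Fin n), Planar G →
  (∀ c, n ≤ 32 * dg G c → 2499 * n < 2500 * dg G c) →
  (∀ c c', 2499 * n < 2500 * dg G c → 2499 * n < 2500 * dg G c' → c = c') →
  (OCN G : ℝ) ≤ (1 / 4 - ε) * (n : ℝ) ^ 3

/-- **Fin** (from LowM, Near, CI, CII).  `n = m + 2`.  If two different vertices `u0, v0` satisfy
`2499 n < 2500 dg` then `Ot G u0 v0` has at most `(n - 1 - dg u0) + (n - 1 - dg v0) ≤ n/1250`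
elements, so `1000 |Ot| ≤ m`, and Near gives `4 OCN G ≤ F4 m`.  Otherwise CI or CII:
`4 OCN G ≤ (1 - 4 ε) n³ ≤ F4 m` for large `n`.  So `4 M (m+2) ≤ F4 m` (`csSup_le'`; for a
natural number: `OCN G ≤ F4 m / 4`), and `≥` by LowM. -/
def S_Fin : Prop := ∃ m₀ : ℕ, ∀ m : ℕ, m₀ ≤ m → 4 * M (m + 2) = F4 m

end Pool.Agent.Lib.MP_00ece3_co.EX
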