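import Pool.Agent.Lib.MP_00ece3_co.EX.LowM
import Pool.Agent.Lib.MP_00ece3_co.EX.SpecD

/-!
# The exact orchard crossing number of `K_2 + P_m` for `m ≥ 12`
-/

set_option autoImplicit false

namespace Pool.Agent.Lib.MP_00ece3_co.EX

open Pool.Agent.Lib.MP_00ece3_co

/-- The lower bound for `K_2 + P_m`. -/
theorem lowK (hCrK : S_CrK) (hLowOdd : S_LowOdd) (hLowEven : S_LowEven) (m : ℕ) (hm : 12 ≤ m) :
    F4 m ≤ 4 * OCN (Kg (m + 2)) := by
  have hne : {c | ∃ p : Fin (m + 2) → ℝ × ℝ, IsPlacement p ∧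
      c = crossings (Kg (m + 2)) p}.Nonempty := by
    obtain ⟨p, hp⟩ := Lower.exists_isPlacement (m + 2)
    exact ⟨_, p, hp, rfl⟩
  obtain ⟨p, hp, he⟩ := Nat.sInf_mem hne
  have h1 : OCN (Kg (m + 2)) = crossings (Kg (m + 2)) p := he
  rw [h1]
  exact LowMAux.cross hCrK hLowOdd hLowEven hm p hp

/-- The upper bound for `K_2 + P_m`. -/
theorem upK (hUpK : S_UpK) (m : ℕ) (hm : 12 ≤ m) : 4 * OCN (Kg (m + 2)) ≤ F4 m := by
  refine hUpK (m + 2) m (Kg (m + 2)) 0 1 (fun i => i.succ.succ) hm ?_ ?_ ?_ ?_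
  · intro h
    have h1 := congrArg Fin.val h
    simp at h1
  · exact (Fin.succ_injective _).comp (Fin.succ_injective _)
  · intro x
    constructor
    · rintro ⟨i, rfl⟩
      exact ⟨LowMAux.ne0 i, LowMAux.ne1 i⟩
    · rintro ⟨h0, h1⟩
      have h0' : (x : ℕ) ≠ 0 := fun h => h0 (Fin.ext h)
      have h1' : (x : ℕ) ≠ 1 := fun h => h1 (Fin.ext (by simpa using h))
      refine ⟨⟨x - 2, by omega⟩, Fin.ext ?_⟩
      simp only [Fin.val_succ]
      omega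
  · intro i j hij h
    have h2 := h.2
    simp only [Fin.val_succ] at h2
    have h3 : (i : ℕ) < j := hij
    omega

/-- `4 OCN (K_2 + P_m)` for `m ≥ 12`. -/
theorem ocnK (hCrK : S_CrK) (hLowOdd : S_LowOdd) (hLowEven : S_LowEven) (hUpK : S_UpK) (m : ℕ)
    (hm : 12 ≤ m) : 4 * OCN (Kg (m + 2)) = F4 m :=
  le_antisymm (upK hUpK m hm) (lowK hCrK hLowOdd hLowEven m hm)

/-- The explicit form of the value. -/
theorem F4_even (q : ℕ) (hq : 1 ≤ q) : F4 (2 * q) = 4 * (2 * q ^ 3 + 3 * q - 1) := by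
  unfold F4
  rw [if_neg (by omega)]
  have h1 : (2 * q) ^ 3 = 8 * q ^ 3 := by ring
  rw [h1]
  omega

theorem F4_odd (q : ℕ) (hq : 1 ≤ q) :
    F4 (2 * q + 1) = 4 * (2 * q ^ 3 + 3 * q ^ 2 + 5 * q - 1) := by
  unfold F4
  rw [if_pos (by omega)]
  have h1 : (2 * q + 1) ^ 3 = 8 * q ^ 3 + 12 * q ^ 2 + 6 * q + 1 := by ring
  rw [h1]
  omega

end Pool.Agent.Lib.MP_00ece3_co.EX
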