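import Pool.Agent.Lib.MP_00ece3_co.EX.SpecA
import Pool.Agent.Lib.MP_00ece3_co.Lower

/-!
# The lower bound for `M (m + 2)` (`S_LowM`)
-/

set_option autoImplicit false

namespace Pool.Agent.Lib.MP_00ece3_co.EX

open Pool.Agent.Lib.MP_00ece3_co

namespace LowMAux

theorem ne0 {m : ℕ} (i : Fin m) : i.succ.succ ≠ (0 : Fin (m + 2)) := Fin.succ_ne_zero _

theorem ne1 {m : ℕ} (i : Fin m) : i.succ.succ ≠ (1 : Fin (m + 2)) := by
  intro h
  have h1 := congrArg Fin.val h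
  simp at h1

theorem ne2 {m : ℕ} {i j : Fin m} (h : i ≠ j) : i.succ.succ ≠ j.succ.succ := by
  intro h1
  exact h (Fin.succ_injective _ (Fin.succ_injective _ h1))

theorem gp {m : ℕ} (p : Fin (m + 2) → ℝ × ℝ) (hp : IsPlacement p) :
    GP (fun i : Fin m => p i.succ.succ) (p 0) (p 1) := by
  have h01 : (0 : Fin (m + 2)) ≠ 1 := by
    intro h
    have h1 := congrArg Fin.val h
    simp at h1
  refine ⟨fun i j hij => hp.2 _ _ _ (ne2 hij) (ne0 i) (ne0 j),
    fun i j hij => hp.2 _ _ _ (ne2 hij) (ne1 i) (ne1 j),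
    fun i => hp.2 _ _ _ (ne0 i) (ne1 i) h01,
    fun i j k hij hik hjk => hp.2 _ _ _ (ne2 hij) (ne2 hik) (ne2 hjk)⟩

theorem F4_eq {m : ℕ} (hm : 12 ≤ m) :
    (F4 m : ℤ) = if m % 2 = 1 then (m : ℤ) ^ 3 + 7 * m - 12 else (m : ℤ) ^ 3 + 6 * m - 4 := by
  unfold F4
  split_ifs
  · rw [Nat.cast_sub (by have := Nat.zero_le (m ^ 3); omega)]
    push_cast
    ring
  · rw [Nat.cast_sub (by have := Nat.zero_le (m ^ 3); omega)]
    push_cast
    ring

theorem cross (hCrK : S_CrK) (hLowOdd : S_LowOdd) (hLowEven : S_LowEven) {m : ℕ} (hm : 12 ≤ m)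
    (p : Fin (m + 2) → ℝ × ℝ) (hp : IsPlacement p) : F4 m ≤ 4 * crossings (Kg (m + 2)) p := by
  have h1 := hCrK m p
  have hg := gp p hp
  have h2 : (F4 m : ℤ) ≤ ((4 * crossings (Kg (m + 2)) p : ℕ) : ℤ) := by
    rw [F4_eq hm]
    push_cast
    rcases Nat.mod_two_eq_zero_or_one m with h | h
    · have h3 := hLowEven m hm h _ _ _ hg
      rw [← h1] at h3
      rw [if_neg (by omega)]
      linarith
    · have h3 := hLowOdd m hm h _ _ _ hg
      rw [← h1] at h3
      rw [if_pos h]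
      linarith
  exact_mod_cast h2

end LowMAux

open LowMAux in
theorem tLowM (hCrK : S_CrK) (hLowOdd : S_LowOdd) (hLowEven : S_LowEven)
    (hKgPlanar : S_KgPlanar) : S_LowM := by
  intro m hm
  have hOCN : F4 m ≤ 4 * OCN (Kg (m + 2)) := by
    have hne : {c | ∃ p : Fin (m + 2) → ℝ × ℝ, IsPlacement p ∧
        c = crossings (Kg (m + 2)) p}.Nonempty := by
      obtain ⟨p, hp⟩ := Lower.exists_isPlacement (m + 2)
      exact ⟨_, p, hp, rfl⟩
    obtain ⟨p, hp, he⟩ := Nat.sInf_mem hne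
    have h1 : OCN (Kg (m + 2)) = crossings (Kg (m + 2)) p := he
    rw [h1]
    exact cross hCrK hLowOdd hLowEven hm p hp
  have hM : OCN (Kg (m + 2)) ≤ M (m + 2) := by
    apply le_csSup
    · have h1 : {c | ∃ G : SimpleGraph (Fin (m + 2)), Planar G ∧ c = OCN G}.Finite := by
        have hf : (Set.range (fun G : SimpleGraph (Fin (m + 2)) => OCN G)).Finite :=
          Set.finite_range _
        refine hf.subset ?_
        rintro c ⟨G, -, rfl⟩
        exact ⟨G, rfl⟩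
      exact h1.bddAbove
    · exact ⟨Kg (m + 2), hKgPlanar (m + 2), rfl⟩
  omega

end Pool.Agent.Lib.MP_00ece3_co.EX
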