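import Pool.Agent.Lib.MP_00ece3_co.EX.SpecA

/-!
# Project EX: `S_LowOdd`
-/

set_option autoImplicit false

namespace Pool.Agent.Lib.MP_00ece3_co.EX

open Pool.Agent.Lib.MP_00ece3_co

namespace LowOddAux

private theorem sp_nonneg (a b x y : ℝ × ℝ) : 0 ≤ sp a b x y := by
  unfold sp
  split_ifs <;> norm_num

private theorem tri_nonneg (x a b c : ℝ × ℝ) : 0 ≤ tri x a b c := by
  unfold tri
  split_ifs <;> norm_num

private theorem pathSum_nonneg {m : ℕ} {f : Fin m → Fin m → ℤ} (h : ∀ i j, 0 ≤ f i j) :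
    0 ≤ pathSum f := by
  unfold pathSum
  refine Finset.sum_nonneg fun i _ => Finset.sum_nonneg fun j _ => ?_
  split_ifs
  · exact h i j
  · exact le_rfl

private theorem swap_orient (x y z : ℝ × ℝ) : orient x z y = - orient x y z := by
  unfold orient
  ring

private theorem gp_symm {m : ℕ} {P : Fin m → ℝ × ℝ} {u v : ℝ × ℝ} (h : GP P u v) : GP P v u := by
  obtain ⟨h1, h2, h3, h4⟩ := h
  refine ⟨h2, h1, fun i => ?_, h4⟩
  rw [swap_orient]
  exact neg_ne_zero.2 (h3 i)

end LowOddAux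

open LowOddAux in
theorem tLowOdd (hIdentLe : S_IdentLe) (hPathLe : S_PathLe) (hZero : S_Zero) (hOpp : S_Opp)
    (hP0Z : S_P0Z) (hArCrude : S_ArCrude) (hArOne : S_ArOne) (hArOdd : S_ArOdd) : S_LowOdd := by
  classical
  intro m hm hodd P u v hGP
  have hI := hIdentLe m P u v hGP
  have hPu := hPathLe m P u
  have hPv := hPathLe m P v
  set Z : Finset (Fin m) := Finset.univ.filter (fun a => PU P u a = 0) with hZ
  set Z' : Finset (Fin m) := Finset.univ.filter (fun a => PU P v a = 0) with hZ'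
  have hT2 : ∀ w, 0 ≤ T2 P w := fun w => by
    unfold T2
    exact Finset.sum_nonneg fun a _ => Finset.sum_nonneg fun b _ => Finset.sum_nonneg fun d _ =>
      tri_nonneg _ _ _ _
  have hTT : 0 ≤ TT P u v := by
    unfold TT
    exact Finset.sum_nonneg fun a _ => Finset.sum_nonneg fun b _ => tri_nonneg _ _ _ _
  have hPR : 0 ≤ PR2 P := pathSum_nonneg fun i j =>
    Finset.sum_nonneg fun a _ => Finset.sum_nonneg fun b _ => sp_nonneg _ _ _ _
  have hP0 : 0 ≤ P0 P u v := pathSum_nonneg fun i j => sp_nonneg _ _ _ _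
  have hTu := hT2 u
  have hTv := hT2 v
  -- the sum of the gains
  set G : ℤ := ∑ a, WW P u v a - 8 * (Z.card : ℤ) - 8 * (Z'.card : ℤ) with hG
  have hGsum : ∑ a, (UU P u a ^ 2 + UU P v a ^ 2 - 2 * |UU P u a - UU P v a| +
      (if m % 2 = 1 then 0 else 2)) = ∑ a, WW P u v a := by
    refine Finset.sum_congr rfl fun a _ => ?_
    rw [if_pos hodd, add_zero]
    rfl
  have hGsum' : ∑ a, (UU P u a ^ 2 + UU P v a ^ 2 - 2 * |UU P u a - UU P v a|) =
      ∑ a, WW P u v a := rfl
  have key : -24 ≤ G + 4 * T2 P u + 4 * T2 P v + 8 * P0 P u v := by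
    have hdvd : ∀ (w : ℝ × ℝ) (a : Fin m), (2 : ℤ) ∣ UU P w a - ((m : ℤ) - 1) := by
      intro w a
      unfold UU
      omega
    have hdvd' : ∀ (w : ℝ × ℝ) (a : Fin m), (2 : ℤ) ∣ UU P w a := by
      intro w a
      unfold UU
      omega
    have hz : ∀ w : ℝ × ℝ, (∀ i j, i ≠ j → orient (P i) (P j) w ≠ 0) → ∀ a : Fin m,
        PU P w a = 0 → |UU P w a| = KK a ∨ |UU P w a| = (m : ℤ) - 1 := by
      intro w hw a ha
      rcases hZero m P w hw a ha with h | h | h
      · exact Or.inr h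
      · left
        rw [h.2]
        rfl
      · left
        rw [h.2, abs_neg]
        rfl
    have hzu : ∀ a ∈ Z, |UU P u a| = KK a ∨ |UU P u a| = (m : ℤ) - 1 := fun a ha =>
      hz u hGP.1 a (Finset.mem_filter.1 ha).2
    have hzv : ∀ a ∈ Z', |UU P v a| = KK a ∨ |UU P v a| = (m : ℤ) - 1 := fun a ha =>
      hz v hGP.2.1 a (Finset.mem_filter.1 ha).2
    by_cases hone : ∃ a, |UU P u a| = (m : ℤ) - 1 ∨ |UU P v a| = (m : ℤ) - 1
    · have h := hArOne m hm (UU P u) (UU P v) Z Z' (hdvd u) (hdvd v) hzu hzv hone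
      rw [hGsum] at h
      have h' : -8 ≤ G := h
      omega
    · push Not at hone
      have hP0' : 1 ≤ P0 P u v := by
        by_contra hcon
        obtain ⟨a, ha⟩ := hP0Z m P u v (by omega) hGP (by omega)
        exact (hone a).1 ha
      by_cases hty : ∀ a ∈ Z, a ∈ Z' → KK a = 2 → UU P u a = UU P v a
      · have h := hArOdd m hodd (UU P u) (UU P v) Z Z' (hdvd' u) (hdvd' v)
          (fun a ha => (hzu a ha).resolve_right (hone a).1)
          (fun a ha => (hzv a ha).resolve_right (hone a).2) hty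
        rw [hGsum'] at h
        have h' : -32 ≤ G := h
        omega
      · push Not at hty
        obtain ⟨a, ha, ha', hK, hne⟩ := hty
        have h := hArCrude m hm (UU P u) (UU P v) Z Z' (hdvd u) (hdvd v) hzu hzv
        rw [hGsum] at h
        have h' : -48 ≤ G := h
        have h1 := (hZero m P u hGP.1 a (Finset.mem_filter.1 ha).2).resolve_left (hone a).1
        have h2 := (hZero m P v hGP.2.1 a (Finset.mem_filter.1 ha').2).resolve_left (hone a).2
        have hT : 2 * (a : ℤ) * ((m : ℤ) - 1 - a) ≤ T2 P u + T2 P v := by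
          rcases h1 with h1 | h1 <;> rcases h2 with h2 | h2
          · exact absurd (h1.2.trans h2.2.symm) hne
          · exact hOpp m P u v hGP a h1.1 h2.1
          · rw [add_comm]
            exact hOpp m P v u (gp_symm hGP) a h2.1 h1.1
          · exact absurd (h1.2.trans h2.2.symm) hne
        unfold KK at hK
        have hm' : (12 : ℤ) ≤ m := by exact_mod_cast hm
        have hbig : 4 ≤ 2 * (a : ℤ) * ((m : ℤ) - 1 - a) := by
          have h3 : 4 ≤ (a : ℤ) := by
            rcases abs_eq (by norm_num : (0 : ℤ) ≤ 2) |>.1 hK with h | h <;> omega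
          have h4 : 1 ≤ (m : ℤ) - 1 - a := by
            rcases abs_eq (by norm_num : (0 : ℤ) ≤ 2) |>.1 hK with h | h <;> omega
          nlinarith
        omega
  have hcube : 2 * (m : ℤ) * ((m : ℤ) ^ 2 - 1) = 2 * (m : ℤ) ^ 3 - 2 * m := by ring
  rw [hcube] at hI
  have e1 : 2 * ((m : ℤ) ^ 3 + 7 * m - 12) = 2 * (m : ℤ) ^ 3 + 14 * m - 24 := by ring
  rw [e1]
  have e2 : 4 * (H2 P u v + PR2 P + 2 * ∑ a, PU P u a + 2 * ∑ a, PU P v a + 2 * P0 P u v) =
      4 * H2 P u v + 4 * PR2 P + 8 * ∑ a, PU P u a + 8 * ∑ a, PU P v a + 8 * P0 P u v := by ring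
  rw [e2]
  linarith

end Pool.Agent.Lib.MP_00ece3_co.EX
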