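import Pool.Agent.Lib.MP_00ece3_co.EX.SpecD
import Pool.Agent.Lib.MP_00ece3_co.Cross
import Pool.Agent.Lib.MP_00ece3_co.Contract
import Pool.Agent.Lib.MP_00ece3_co.Edges

/-!
# Project EX, module Mt: pairs of vertices with three neighbours in a set
-/

set_option autoImplicit false

namespace Pool.Agent.Lib.MP_00ece3_co.EX

open Pool.Agent.Lib.MP_00ece3_co

namespace MtAux

open Classical in
theorem count {V : Type} [Fintype V] (J : SimpleGraph V) (hJ : Planar J) (S : Finset V)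
    (h : ∀ t, t ∉ S → 3 ≤ (S.filter (fun s => J.Adj s t)).card) :
    Fintype.card V ≤ 245 * S.card := by
  have h1 := cross contract_minor (pairs contract_minor) V J hJ S
  have h2 : ((S ×ˢ Sᶜ).filter (fun e => J.Adj e.1 e.2)).card =
      ∑ t ∈ Sᶜ, (S.filter (fun s => J.Adj s t)).card := by
    rw [Finset.card_filter, Finset.sum_product_right]
    refine Finset.sum_congr rfl fun t _ => ?_
    rw [Finset.card_filter]
  have h3 : 3 * Sᶜ.card ≤ ∑ t ∈ Sᶜ, (S.filter (fun s => J.Adj s t)).card := by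
    rw [mul_comm, ← smul_eq_mul, ← Finset.sum_const]
    exact Finset.sum_le_sum fun t ht => h t (Finset.mem_compl.1 ht)
  have h4 := Finset.card_compl S
  have h5 := Finset.card_le_univ S
  omega

/-- the bipartite graph of `S` and the pairs -/
def J {n : ℕ} (G : SimpleGraph (Fin n)) (S : Finset (Fin n)) (T : Finset (Fin n × Fin n)) :
    SimpleGraph ({x // x ∈ S} ⊕ {t // t ∈ T}) where
  Adj
    | Sum.inl s, Sum.inr t => G.Adj s.1 t.1.1 ∨ G.Adj s.1 t.1.2
    | Sum.inr t, Sum.inl s => G.Adj s.1 t.1.1 ∨ G.Adj s.1 t.1.2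
    | _, _ => False
  symm := ⟨by
    rintro (s | t) (s' | t') h
    · exact h
    · exact h
    · exact h
    · exact h⟩
  loopless := ⟨by
    rintro (s | t) h
    · exact h
    · exact h⟩

/-- the branch sets -/
def B {n : ℕ} (S : Finset (Fin n)) (T : Finset (Fin n × Fin n)) :
    {x // x ∈ S} ⊕ {t // t ∈ T} → Set (Fin n)
  | Sum.inl s => {s.1}
  | Sum.inr t => {t.1.1, t.1.2}

theorem minor {n : ℕ} (G : SimpleGraph (Fin n)) (S : Finset (Fin n))
    (T : Finset (Fin n × Fin n)) (h1 : ∀ t ∈ T, t.1 ∉ S ∧ t.2 ∉ S ∧ G.Adj t.1 t.2)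
    (h2 : ∀ t ∈ T, ∀ t' ∈ T, t ≠ t' → t.1 ≠ t'.1 ∧ t.1 ≠ t'.2 ∧ t.2 ≠ t'.1 ∧ t.2 ≠ t'.2) :
    IsMinor (J G S T) G := by
  have hst : ∀ (s : {x // x ∈ S}) (t : {t // t ∈ T}),
      Disjoint (B S T (Sum.inl s)) (B S T (Sum.inr t)) := by
    intro s t
    rw [Set.disjoint_left]
    intro x hx hx'
    obtain ⟨h3, h4, -⟩ := h1 t.1 t.2
    have hx1 : x = s.1 := hx
    rcases (hx' : x = t.1.1 ∨ x = t.1.2) with h | h
    · exact h3 (by rw [← h, hx1]; exact s.2)
    · exact h4 (by rw [← h, hx1]; exact s.2)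
  refine ⟨B S T, ?_, ?_, ?_⟩
  · rintro (s | t)
    · exact Edges.singleton_conn G s.1
    · exact Edges.pair_conn G t.1.1 t.1.2 (h1 t.1 t.2).2.2
  · rintro (s | t) (s' | t') hne
    · rw [Set.disjoint_left]
      intro x hx hx'
      have hx1 : x = s.1 := hx
      have hx2 : x = s'.1 := hx'
      exact hne (congrArg Sum.inl (Subtype.ext (hx1.symm.trans hx2)))
    · exact hst s t'
    · exact (hst s' t).symm
    · rw [Set.disjoint_left]
      intro x hx hx'
      have htt : t.1 ≠ t'.1 := fun h => hne (congrArg Sum.inr (Subtype.ext h))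
      obtain ⟨a1, a2, a3, a4⟩ := h2 t.1 t.2 t'.1 t'.2 htt
      rcases (hx : x = t.1.1 ∨ x = t.1.2) with h | h <;>
        rcases (hx' : x = t'.1.1 ∨ x = t'.1.2) with h' | h'
      · exact a1 (h.symm.trans h')
      · exact a2 (h.symm.trans h')
      · exact a3 (h.symm.trans h')
      · exact a4 (h.symm.trans h')
  · rintro (s | t) (s' | t') hadj
    · exact absurd hadj (fun h => h)
    · rcases (hadj : G.Adj s.1 t'.1.1 ∨ G.Adj s.1 t'.1.2) with h | h
      · exact ⟨s.1, rfl, t'.1.1, Or.inl rfl, h⟩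
      · exact ⟨s.1, rfl, t'.1.2, Or.inr rfl, h⟩
    · rcases (hadj : G.Adj s'.1 t.1.1 ∨ G.Adj s'.1 t.1.2) with h | h
      · exact ⟨t.1.1, Or.inl rfl, s'.1, rfl, h.symm⟩
      · exact ⟨t.1.2, Or.inr rfl, s'.1, rfl, h.symm⟩
    · exact absurd hadj (fun h => h)

end MtAux

open Classical in
theorem tMt (hTr : S_Tr) : S_Mt := by
  intro n G hG S T h1 h2 h3
  have hm := MtAux.minor G S T h1 h2
  have hJ : Planar (MtAux.J G S T) :=
    ⟨fun h => hG.1 (hTr _ _ _ _ _ _ h hm), fun h => hG.2 (hTr _ _ _ _ _ _ h hm)⟩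
  have hc := MtAux.count (MtAux.J G S T) hJ
    ((Finset.univ : Finset {x // x ∈ S}).map ⟨Sum.inl, Sum.inl_injective⟩) (by
      rintro (s | t) ht
      · exact absurd (Finset.mem_map.2 ⟨s, Finset.mem_univ _, rfl⟩) ht
      · refine (h3 t.1 t.2).trans ?_
        refine Finset.card_le_card_of_injOn
          (fun s => if h : s ∈ S then Sum.inl ⟨s, h⟩ else Sum.inr t) ?_ ?_
        · intro s hs
          obtain ⟨hs1, hs2⟩ := Finset.mem_filter.1 (Finset.mem_coe.1 hs)
          rw [Finset.mem_coe, Finset.mem_filter]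
          simp only [dif_pos hs1]
          exact ⟨Finset.mem_map.2 ⟨⟨s, hs1⟩, Finset.mem_univ _, rfl⟩, hs2⟩
        · intro s hs s' hs' he
          obtain ⟨hs1, -⟩ := Finset.mem_filter.1 (Finset.mem_coe.1 hs)
          obtain ⟨hs1', -⟩ := Finset.mem_filter.1 (Finset.mem_coe.1 hs')
          simp only [dif_pos hs1, dif_pos hs1', Sum.inl.injEq, Subtype.mk.injEq] at he
          exact he)
  rw [Finset.card_map, Finset.card_univ, Fintype.card_sum, Fintype.card_coe,
    Fintype.card_coe] at hc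
  omega

end Pool.Agent.Lib.MP_00ece3_co.EX
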