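import Pool.Agent.Lib.MP_00ece3_co.EX.SpecC
import Pool.Agent.Lib.MP_00ece3_co.Edges
import Pool.Agent.Lib.MP_00ece3_co.Contract

set_option autoImplicit false

namespace Pool.Agent.Lib.MP_00ece3_co.EX

open Pool.Agent.Lib.MP_00ece3_co

namespace NearAux

open Classical in
/-- The number of the vertices which are not joined to both hubs. -/
theorem card_ot {m : ℕ} (G : SimpleGraph (Fin (m + 2))) (u0 v0 : Fin (m + 2))
    (r : Fin m → Fin (m + 2)) (hr : Function.Injective r)
    (hrange : ∀ x, (∃ i, r i = x) ↔ x ≠ u0 ∧ x ≠ v0) :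
    Nat.card (Ot G u0 v0) =
      (Finset.univ.filter (fun i => ¬ (G.Adj u0 (r i) ∧ G.Adj v0 (r i)))).card := by
  let f : {i : Fin m // ¬ (G.Adj u0 (r i) ∧ G.Adj v0 (r i))} → Ot G u0 v0 := fun i =>
    ⟨r i.1, ((hrange (r i.1)).1 ⟨i.1, rfl⟩).1, ((hrange (r i.1)).1 ⟨i.1, rfl⟩).2, i.2⟩
  have hf : Function.Bijective f := by
    constructor
    · rintro ⟨i, hi⟩ ⟨j, hj⟩ h
      have h1 : r i = r j := congrArg (fun z : Ot G u0 v0 => z.1) h
      exact Subtype.ext (hr h1)
    · rintro ⟨x, hx1, hx2, hx3⟩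
      obtain ⟨i, hi⟩ := (hrange x).2 ⟨hx1, hx2⟩
      refine ⟨⟨i, by rw [hi]; exact hx3⟩, Subtype.ext hi⟩
  rw [← Nat.card_congr (Equiv.ofBijective f hf), Nat.card_eq_fintype_card,
    Fintype.card_subtype]

open Classical in
/-- The number of the ordered adjacent pairs inside `W`. -/
theorem card_pairs {m k : ℕ} (G : SimpleGraph (Fin (m + 2))) (hP : Planar G)
    (r : Fin m → Fin (m + 2)) (hr : Function.Injective r) (W : Finset (Fin m))
    (hW : W.card ≤ 3 * k) :
    ((W ×ˢ W).filter (fun e => G.Adj (r e.1) (r e.2))).card ≤ 24 * k := by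
  have h1 := pairs contract_minor (Fin (m + 2)) G hP.1 (W.image r)
  have h2 : (W.image r).card ≤ 3 * k := le_trans Finset.card_image_le hW
  have h3 : ((W ×ˢ W).filter (fun e => G.Adj (r e.1) (r e.2))).card ≤
      (((W.image r) ×ˢ (W.image r)).filter (fun e => G.Adj e.1 e.2)).card := by
    refine Finset.card_le_card_of_injOn (fun e => (r e.1, r e.2)) ?_ ?_
    · intro e he
      have he' := Finset.mem_filter.1 he
      have he1 := Finset.mem_product.1 he'.1
      exact Finset.mem_filter.2 ⟨Finset.mem_product.2 ⟨Finset.mem_image_of_mem r he1.1,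
        Finset.mem_image_of_mem r he1.2⟩, he'.2⟩
    · intro e _ e' _ h
      have h4 := Prod.ext_iff.1 h
      exact Prod.ext (hr h4.1) (hr h4.2)
  omega

end NearAux

/-- The upper bound for graphs with two vertices which have many common neighbours. -/
theorem tNear (hStr : S_Str) (hUpK : S_UpK) (hUpW : S_UpW) (hUpN : S_UpN) : S_Near := by
  intro m hm G u0 v0 huv hP hk
  obtain ⟨r, hr, hrange, hK, W, hW, hE⟩ :=
    hStr m G u0 v0 huv hP (Nat.card (Ot G u0 v0)) (by omega) rfl
  rcases Nat.eq_zero_or_pos (Nat.card (Ot G u0 v0)) with h0 | hpos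
  · by_cases hadj : G.Adj u0 v0
    · exact hUpK (m + 2) m G u0 v0 r (by omega) huv hr hrange (hK h0 hadj)
    · refine hUpW (m + 2) m G u0 v0 r (by omega) huv hr hrange hadj fun i j hij hA => ?_
      rcases hE i j hij hA with h | h | h
      · exact Or.inl h
      · exact Or.inr h
      · exfalso
        rw [h0] at hW
        have hW0 : W = ∅ := Finset.card_eq_zero.1 (by omega)
        rw [hW0] at h
        exact absurd h.1 (Finset.notMem_empty i)
  · exact hUpN (m + 2) m (Nat.card (Ot G u0 v0)) G u0 v0 r W hm huv hr hrange hpos hk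
      (NearAux.card_ot G u0 v0 r hr hrange) (NearAux.card_pairs G hP r hr W hW) hE

end Pool.Agent.Lib.MP_00ece3_co.EX
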