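import Pool.Agent.Lib.MP_00ece3_co.EX.SpecC

/-!
# Project EX, module OrdC: cyclic orders of graphs of maximum degree 2
-/

set_option autoImplicit false

namespace Pool.Agent.Lib.MP_00ece3_co.EX

open Pool.Agent.Lib.MP_00ece3_co

open Classical in
/-- An end of the order of `X = C - x` is adjacent to `x`. -/
private theorem OrdC_end {C : Type} [Fintype C] (Γ : SimpleGraph C) {m : ℕ} (x : C)
    (X : Finset C) (hX : ∀ y, y ≠ x → y ∈ X) (e : Fin m ≃ {y // y ∈ X}) (k : Fin m) (c : ℕ)
    (hc : ∀ j, Γ.Adj (e k) (e j) → (j : ℕ) = c)
    (hd : 2 ≤ (Finset.univ.filter (fun y => Γ.Adj (e k) y)).card) : Γ.Adj x (e k) := by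
  by_contra hn
  have h1 : (Finset.univ.filter (fun y => Γ.Adj (e k) y)).card ≤ 1 := by
    rw [Finset.card_le_one]
    have key : ∀ a, a ∈ Finset.univ.filter (fun y => Γ.Adj (e k) y) →
        ∃ j : Fin m, (e j : C) = a ∧ (j : ℕ) = c := by
      intro a ha
      have ha2 := (Finset.mem_filter.mp ha).2
      have hax : a ≠ x := by
        rintro rfl
        exact hn ha2.symm
      refine ⟨e.symm ⟨a, hX a hax⟩, ?_, ?_⟩
      · rw [Equiv.apply_symm_apply]
      · apply hc
        rw [Equiv.apply_symm_apply]
        exact ha2
    intro a ha b hb
    obtain ⟨j, hj, hj2⟩ := key a ha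
    obtain ⟨l, hl, hl2⟩ := key b hb
    rw [← hj, ← hl, Fin.ext (hj2.trans hl2.symm)]
  omega

theorem tOrdC (hOrdX : S_OrdX) : S_OrdC := by
  classical
  intro C _ Γ hd hY
  by_cases hcase : ∀ x : C, 2 ≤ (Finset.univ.filter (fun y => Γ.Adj x y)).card
  · by_cases hne : Nonempty C
    · obtain ⟨x⟩ := hne
      obtain ⟨e, he⟩ := hOrdX C Γ (Finset.univ.erase x)
        (fun y _ => (Finset.card_le_card (Finset.filter_subset_filter _
          (Finset.subset_univ _))).trans (hd y))
        (fun Y hYX hYn => hY Y hYn ⟨x, fun hx => (Finset.mem_erase.mp (hYX hx)).1 rfl⟩)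
      have hcard : (Finset.univ.erase x).card + 1 = Fintype.card C :=
        Finset.card_erase_add_one (Finset.mem_univ x)
      generalize hXd : Finset.univ.erase x = X at *
      have hX : ∀ y, y ≠ x → y ∈ X := by
        intro y hy
        rw [← hXd]
        exact Finset.mem_erase.mpr ⟨hy, Finset.mem_univ y⟩
      have hXx : ∀ y, y ∈ X → y ≠ x := by
        intro y hy
        rw [← hXd] at hy
        exact (Finset.mem_erase.mp hy).1
      have hN : (Finset.univ.filter (fun y => Γ.Adj x y)).card = 2 :=
        le_antisymm (hd x) (hcase x)
      have hm : 2 ≤ X.card := by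
        rw [← hN]
        refine Finset.card_le_card fun y hy => hX y ?_
        rintro rfl
        exact (Finset.mem_filter.mp hy).2.ne rfl
      revert hcard hm
      revert e
      generalize X.card = m
      intro e he hcard hm
      have h0 : 0 < m := by omega
      have hl : m - 1 < m := by omega
      have he' : ∀ i j : Fin m, Γ.Adj (e i) (e j) → (j : ℕ) = i + 1 ∨ (i : ℕ) = j + 1 := by
        intro i j hij
        rcases lt_trichotomy i j with h | h | h
        · exact Or.inl (he i j h hij)
        · rw [h] at hij
          exact absurd rfl hij.ne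
        · exact Or.inr (he j i h hij.symm)
      have hz0 : Γ.Adj x (e ⟨0, h0⟩) := by
        refine OrdC_end Γ x X hX e ⟨0, h0⟩ 1 (fun j hj => ?_) (hcase _)
        rcases he' _ _ hj with h | h
        · exact h
        · exact absurd h (Nat.succ_ne_zero _).symm
      have hzl : Γ.Adj x (e ⟨m - 1, hl⟩) := by
        refine OrdC_end Γ x X hX e ⟨m - 1, hl⟩ (m - 2) (fun j hj => ?_) (hcase _)
        have hj2 := j.2
        rcases he' _ _ hj with h | h
        · have h3 : (j : ℕ) = m - 1 + 1 := h
          omega
        · have h3 : m - 1 = (j : ℕ) + 1 := h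
          omega
      have hinj : ∀ i j : Fin m, (e i : C) = e j → i = j := fun i j h =>
        e.injective (Subtype.ext h)
      have hNeq : Finset.univ.filter (fun y => Γ.Adj x y) =
          {(e ⟨0, h0⟩ : C), (e ⟨m - 1, hl⟩ : C)} := by
        symm
        apply Finset.eq_of_subset_of_card_le
        · intro y hy
          rw [Finset.mem_insert, Finset.mem_singleton] at hy
          rw [Finset.mem_filter]
          rcases hy with rfl | rfl
          · exact ⟨Finset.mem_univ _, hz0⟩
          · exact ⟨Finset.mem_univ _, hzl⟩
        · rw [hN, Finset.card_pair]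
          intro h
          have h2 := congrArg Fin.val (hinj _ _ h)
          have h3 : 0 = m - 1 := h2
          omega
      have hadj : ∀ i : Fin m, Γ.Adj (e i) x → (i : ℕ) = 0 ∨ (i : ℕ) + 1 = m := by
        intro i hi
        have h1 : (e i : C) ∈ Finset.univ.filter (fun y => Γ.Adj x y) :=
          Finset.mem_filter.mpr ⟨Finset.mem_univ _, hi.symm⟩
        rw [hNeq, Finset.mem_insert, Finset.mem_singleton] at h1
        rcases h1 with h1 | h1
        · left
          rw [hinj _ _ h1]
        · right
          rw [hinj _ _ h1]
          show m - 1 + 1 = m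
          omega
      obtain ⟨f, hf1, hf2⟩ : ∃ f : Fin (m + 1) → C, (∀ i : Fin m, f i.castSucc = e i) ∧
          f (Fin.last m) = x :=
        ⟨Fin.snoc (α := fun _ => C) (fun i => (e i : C)) x, fun i => Fin.snoc_castSucc (α := fun _ => C) _ _ _,
          Fin.snoc_last (α := fun _ => C) _ _⟩
      have hfinj : Function.Injective f := by
        intro i j hij
        induction i using Fin.lastCases with
        | last =>
          induction j using Fin.lastCases with
          | last => rfl
          | cast j =>
            rw [hf2, hf1] at hij
            exact absurd hij.symm (hXx _ (e j).2)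
        | cast i =>
          induction j using Fin.lastCases with
          | last =>
            rw [hf2, hf1] at hij
            exact absurd hij (hXx _ (e i).2)
          | cast j =>
            rw [hf1, hf1] at hij
            rw [hinj _ _ hij]
      have hfbij : Function.Bijective f :=
        (Fintype.bijective_iff_injective_and_card f).mpr
          ⟨hfinj, by rw [Fintype.card_fin, hcard]⟩
      have hmain : ∀ i j : Fin (m + 1), i < j → Γ.Adj (f i) (f j) →
          (j : ℕ) = i + 1 ∨ ((i : ℕ) = 0 ∧ (j : ℕ) + 1 = m + 1) := by
        intro i j hij hA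
        induction j using Fin.lastCases with
        | last =>
          induction i using Fin.lastCases with
          | last => exact absurd rfl hij.ne
          | cast i =>
            rw [hf1, hf2] at hA
            rcases hadj i hA with h | h
            · right
              exact ⟨h, rfl⟩
            · left
              show m = (i : ℕ) + 1
              exact h.symm
        | cast j =>
          induction i using Fin.lastCases with
          | last => exact absurd hij (not_lt.mpr (Fin.le_last _))
          | cast i =>
            rw [hf1, hf1] at hA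
            left
            exact he i j hij hA
      refine ⟨(finCongr hcard.symm).trans (Equiv.ofBijective f hfbij), ?_⟩
      intro i j hij hA
      rcases hmain (finCongr hcard.symm i) (finCongr hcard.symm j) hij hA with h1 | h1
      · exact Or.inl h1
      · exact Or.inr ⟨h1.1, h1.2.trans hcard⟩
    · have hC : IsEmpty C := not_nonempty_iff.mp hne
      have h0 : Fintype.card C = 0 := Fintype.card_eq_zero
      refine ⟨(Fintype.equivFin C).symm, fun i => ?_⟩
      exact absurd i.2 (by omega)
  · push Not at hcase
    obtain ⟨x, hx⟩ := hcase
    obtain ⟨e, he⟩ := hOrdX C Γ Finset.univ (fun y _ => hd y) (fun Y _ hYn => by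
      by_cases hp : ∃ c, c ∉ Y
      · exact hY Y hYn hp
      · push Not at hp
        have hYu : Y = Finset.univ := Finset.eq_univ_iff_forall.mpr hp
        refine ⟨x, hp x, ?_⟩
        rw [hYu]
        omega)
    refine ⟨e.trans (Equiv.subtypeUnivEquiv Finset.mem_univ), fun i j hij hA => ?_⟩
    left
    exact he i j hij hA

end Pool.Agent.Lib.MP_00ece3_co.EX
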