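import Pool.Agent.Lib.MP_00ece3_co.EX.SpecD
import Pool.Agent.Lib.MP_00ece3_co.Order

set_option autoImplicit false

namespace Pool.Agent.Lib.MP_00ece3_co.EX

open Pool.Agent.Lib.MP_00ece3_co

private theorem ordR_aux {n : ℕ} (G : SimpleGraph (Fin n)) (X : Finset (Fin n)) (D : ℕ)
    (S : Finset (Fin n)) (hSX : ∀ x, x ∈ S ↔ x ∈ X) (e : Fin S.card ≃ {x : Fin n // x ∈ S})
    (he : ∀ i j : Fin S.card, i < j → G.Adj (e i) (e j) → j.val - i.val ≤ D) :
    ∃ r : Fin X.card → Fin n, Ls r X ∧ ∀ i j, i < j → G.Adj (r i) (r j) → (j : ℕ) ≤ i + D := by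
  obtain rfl : S = X := Finset.ext hSX
  refine ⟨fun i => (e i).1, ⟨fun i j hij => e.injective (Subtype.ext hij), fun x => ⟨?_, ?_⟩⟩,
    fun i j hij hA => ?_⟩
  · rintro ⟨i, rfl⟩
    exact (e i).2
  · intro hx
    refine ⟨e.symm ⟨x, hx⟩, ?_⟩
    show (e (e.symm ⟨x, hx⟩)).1 = x
    rw [e.apply_symm_apply]
  · have h1 := he i j hij hA
    omega

/-- The elements of a set without large connected subsets can be listed such that adjacent elements
are close to each other. -/
theorem tOrdR : S_OrdR := by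
  intro n G X D h
  obtain ⟨e, he⟩ := order (Fin n) G Xᶜ D h
  refine ordR_aux G X D _ (fun x => ?_) e he
  rw [@Finset.mem_compl (Fin n) Xᶜ _ (fun a b => Classical.propDecidable (a = b)) x,
    Finset.mem_compl, not_not]

end Pool.Agent.Lib.MP_00ece3_co.EX
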