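import Pool.Agent.Lib.MP_00ece3_co.EX.SpecA

/-!
# Project EX, task P0Z
-/

set_option autoImplicit false

namespace Pool.Agent.Lib.MP_00ece3_co.EX

open Pool.Agent.Lib.MP_00ece3_co

namespace P0ZAux

private lemma sp_nonneg (a b x y : ℝ × ℝ) : 0 ≤ sp a b x y := by
  unfold sp
  split_ifs <;> norm_num

private lemma step {m : ℕ} {P : Fin m → ℝ × ℝ} {u v : ℝ × ℝ} (h : P0 P u v = 0)
    (i j : Fin m) (hij : (i : ℕ) + 1 = j) : ¬ Sp u v (P i) (P j) := by
  have h0 : ∀ i j : Fin m, 0 ≤ if (i : ℕ) + 1 = j then sp u v (P i) (P j) else 0 := by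
    intro i j
    split_ifs
    · exact sp_nonneg _ _ _ _
    · exact le_rfl
  unfold P0 pathSum at h
  rw [Finset.sum_eq_zero_iff_of_nonneg
    (fun i _ => Finset.sum_nonneg (fun j _ => h0 i j))] at h
  have h1 := h i (Finset.mem_univ i)
  rw [Finset.sum_eq_zero_iff_of_nonneg (fun j _ => h0 i j)] at h1
  have h2 := h1 j (Finset.mem_univ j)
  rw [if_pos hij] at h2
  intro hs
  unfold sp at h2
  rw [if_pos hs] at h2
  exact one_ne_zero h2

private lemma same {m : ℕ} {P : Fin m → ℝ × ℝ} {u v : ℝ × ℝ} (hm : 0 < m)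
    (hne : ∀ i, orient u v (P i) ≠ 0) (h : P0 P u v = 0) :
    ∀ (k : ℕ) (hk : k < m), 0 < orient u v (P ⟨0, hm⟩) * orient u v (P ⟨k, hk⟩) := by
  intro k
  induction k with
  | zero =>
    intro hk
    exact mul_self_pos.mpr (hne _)
  | succ k ih =>
    intro hk
    have h1 := ih (Nat.lt_of_succ_lt hk)
    have h2 := step h ⟨k, Nat.lt_of_succ_lt hk⟩ ⟨k + 1, hk⟩ rfl
    unfold Sp at h2
    have h3 : 0 < orient u v (P ⟨k, Nat.lt_of_succ_lt hk⟩) * orient u v (P ⟨k + 1, hk⟩) :=
      lt_of_le_of_ne (not_lt.mp h2) (Ne.symm (mul_ne_zero (hne _) (hne _)))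
    have h4 := mul_pos h1 h3
    have h5 : 0 < orient u v (P ⟨k, Nat.lt_of_succ_lt hk⟩) ^ 2 := by
      have := hne ⟨k, Nat.lt_of_succ_lt hk⟩
      positivity
    have h6 : 0 < orient u v (P ⟨k, Nat.lt_of_succ_lt hk⟩) ^ 2 *
        (orient u v (P ⟨0, hm⟩) * orient u v (P ⟨k + 1, hk⟩)) := by
      calc (0 : ℝ) < _ := h4
        _ = _ := by ring
    exact (pos_iff_pos_of_mul_pos h6).mp h5

end P0ZAux

open P0ZAux in
theorem tP0Z : S_P0Z := by
  intro m P u v hm hGP h0
  have hne : ∀ i, orient u v (P i) ≠ 0 := by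
    intro i
    have h1 : orient u v (P i) = orient (P i) u v := by unfold orient; ring
    rw [h1]
    exact hGP.2.2.1 i
  have hs := same (Nat.lt_of_lt_of_le Nat.zero_lt_one hm) hne h0
  set f0 := orient u v (P ⟨0, Nat.lt_of_lt_of_le Nat.zero_lt_one hm⟩) with hf0
  have htr : IsTrans (Fin m) (fun b c => 0 < orient u (P b) (P c)) := by
    constructor
    intro b c d hbc hcd
    have e : (f0 * orient u v (P c)) * orient u (P b) (P d) =
        (f0 * orient u v (P b)) * orient u (P c) (P d) +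
        (f0 * orient u v (P d)) * orient u (P b) (P c) := by
      unfold orient; ring
    have h1 := hs b.1 b.2
    have h2 := hs c.1 c.2
    have h3 := hs d.1 d.2
    have h4 : 0 < (f0 * orient u v (P c)) * orient u (P b) (P d) := by
      rw [e]
      exact add_pos (mul_pos h1 hcd) (mul_pos h3 hbc)
    exact (pos_iff_pos_of_mul_pos h4).mp h2
  have hir : Std.Irrefl (fun b c : Fin m => 0 < orient u (P b) (P c)) := by
    constructor
    intro b hb
    have : orient u (P b) (P b) = 0 := by unfold orient; ring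
    rw [this] at hb
    exact lt_irrefl _ hb
  have hwf : WellFounded (fun b c : Fin m => 0 < orient u (P b) (P c)) :=
    Finite.wellFounded_of_trans_of_irrefl _
  obtain ⟨a, -, ha⟩ := hwf.has_min Set.univ
    ⟨⟨0, Nat.lt_of_lt_of_le Nat.zero_lt_one hm⟩, Set.mem_univ _⟩
  refine ⟨a, ?_⟩
  have hinn : inn P u a = 0 := by
    unfold inn
    refine Finset.sum_eq_zero fun b _ => ?_
    unfold lft
    rw [if_neg]
    have e : orient (P a) u (P b) = orient u (P b) (P a) := by unfold orient; ring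
    rw [e]
    exact ha b (Set.mem_univ _)
  unfold UU
  rw [hinn, mul_zero, zero_sub, abs_neg]
  exact abs_of_nonneg (by omega)

end Pool.Agent.Lib.MP_00ece3_co.EX
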