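import Pool.Agent.Lib.MP_00ece3_co.EX.SpecB

/-!
# Project EX, module PH (helper69)
-/

set_option autoImplicit false

namespace Pool.Agent.Lib.MP_00ece3_co.EX

open Pool.Agent.Lib.MP_00ece3_co

theorem tPH (hPX : S_PX) : S_PH := by
  intro l k i j hij
  have h1 := (hPX l i j).1 hij
  have e : orient (pp l i) (pp l j) (hh k) =
      (px l j - px l i) * (2 * (4 : ℝ) ^ k + px l i * px l j) := by
    simp only [orient, pp, hh]
    ring
  have hp : (0 : ℝ) < px l j - px l i := by linarith
  have hk : (0 : ℝ) < 4 ^ k := by positivity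
  have key : (0 < 2 * (4 : ℝ) ^ k + px l i * px l j ∧ Abv l k i j) ∨
      (2 * (4 : ℝ) ^ k + px l i * px l j < 0 ∧ ¬ Abv l k i j) := by
    rcases lt_or_ge j l with hj | hj
    · left
      have hn1 := (hPX l i j).2.1 (by omega)
      have hn2 := (hPX l j i).2.1 hj
      have := mul_pos_of_neg_of_neg hn1 hn2
      exact ⟨by linarith, Or.inl hj⟩
    · rcases lt_or_ge i l with hi | hi
      · have hm := (hPX l i j).2.2.2 hi hj
        rw [hm]
        rcases lt_or_ge j (i + k) with h | h
        · left
          refine ⟨?_, Or.inr (Or.inr h)⟩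
          have : (4 : ℝ) ^ (j + 1 - i) ≤ 4 ^ k :=
            pow_le_pow_right₀ (by norm_num) (by omega)
          linarith
        · right
          refine ⟨?_, ?_⟩
          · have : (4 : ℝ) ^ (k + 1) ≤ 4 ^ (j + 1 - i) :=
              pow_le_pow_right₀ (by norm_num) (by omega)
            rw [pow_succ] at this
            linarith
          · rintro (h' | h' | h') <;> omega
      · left
        have hn1 := (hPX l i j).2.2.1 hi
        have hn2 := (hPX l j i).2.2.1 hj
        have := mul_pos hn1 hn2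
        exact ⟨by linarith, Or.inr (Or.inl hi)⟩
  rw [e]
  rcases key with ⟨h, ha⟩ | ⟨h, ha⟩
  · have h2 := mul_pos hp h
    exact ⟨⟨fun _ => ha, fun _ => h2⟩, h2.ne'⟩
  · have h2 := mul_neg_of_pos_of_neg hp h
    exact ⟨⟨fun h3 => absurd h3 (not_lt.2 h2.le), fun h3 => absurd h3 ha⟩, h2.ne⟩

end Pool.Agent.Lib.MP_00ece3_co.EX
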