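import Pool.Agent.Lib.MP_00ece3_co.EX.SpecB

/-!
# Project EX, module PP (helper69)
-/

set_option autoImplicit false

namespace Pool.Agent.Lib.MP_00ece3_co.EX

open Pool.Agent.Lib.MP_00ece3_co

theorem tPP (hPX : S_PX) : S_PP := by
  intro l i j k hij hjk
  have h1 := (hPX l i j).1 hij
  have h2 := (hPX l j k).1 hjk
  have e : orient (pp l i) (pp l j) (pp l k) =
      (px l j - px l i) * (px l k - px l i) * (px l k - px l j) := by
    simp only [orient, pp]
    ring
  rw [e]
  exact mul_pos (mul_pos (by linarith) (by linarith)) (by linarith)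

end Pool.Agent.Lib.MP_00ece3_co.EX
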