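import Pool.Agent.Lib.MP_00ece3_co.EX.SpecB

/-!
# Project EX: the abscissas of the parabola model
-/

set_option autoImplicit false

namespace Pool.Agent.Lib.MP_00ece3_co.EX

private theorem px_lt {l i : ℕ} (h : i < l) : px l i = -(4 : ℝ) ^ (l - i) := by
  rw [px, if_pos h]

private theorem px_ge {l i : ℕ} (h : l ≤ i) : px l i = (4 : ℝ) ^ (i - l + 1) := by
  rw [px, if_neg (not_lt.mpr h)]

private theorem px_neg {l i : ℕ} (h : i < l) : px l i < 0 := by
  rw [px_lt h]
  exact neg_neg_of_pos (pow_pos (by norm_num) _)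

private theorem px_pos {l i : ℕ} (h : l ≤ i) : 0 < px l i := by
  rw [px_ge h]
  exact pow_pos (by norm_num) _

theorem tPX : S_PX := by
  intro l i j
  refine ⟨fun hij => ?_, px_neg, px_pos, fun h1 h2 => ?_⟩
  · by_cases hj : j < l
    · rw [px_lt hj, px_lt (hij.trans hj), neg_lt_neg_iff]
      exact pow_lt_pow_right₀ (by norm_num) (by omega)
    · by_cases hi : i < l
      · exact (px_neg hi).trans (px_pos (not_lt.mp hj))
      · rw [px_ge (not_lt.mp hj), px_ge (not_lt.mp hi)]
        exact pow_lt_pow_right₀ (by norm_num) (by omega)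
  · rw [px_lt h1, px_ge h2, neg_mul, ← pow_add]
    congr 2
    omega

end Pool.Agent.Lib.MP_00ece3_co.EX
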