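import Pool.Agent.Lib.MP_00ece3_co.EX.SpecA

/-!
MP_00ece3_co, EX/PairId: finite check on four points in general position.
-/

set_option autoImplicit false
set_option linter.unusedSimpArgs false

namespace Pool.Agent.Lib.MP_00ece3_co.EX

open Pool.Agent.Lib.MP_00ece3_co

theorem tPairId : S_PairId := by
  intro a b u v h1 h2 h3 h4
  have e1 : orient a v b = -orient a b v := by unfold orient; ring
  have e2 : orient a v u = -orient a u v := by unfold orient; ring
  have e3 : orient b v a = orient a b v := by unfold orient; ring
  have e4 : orient b v u = -orient b u v := by unfold orient; ring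
  have e5 : orient a u b = -orient a b u := by unfold orient; ring
  have e6 : orient b u a = orient a b u := by unfold orient; ring
  have e7 : orient u v b = orient b u v := by unfold orient; ring
  have e8 : orient v a b = orient a b v := by unfold orient; ring
  have e9 : orient u v a = orient a u v := by unfold orient; ring
  have e10 : orient v b a = -orient a b v := by unfold orient; ring
  have e11 : orient a b u - orient a b v + orient a u v - orient b u v = 0 := by
    unfold orient; ring
  unfold sp lft tri Sp Tri
  rw [e1, e2, e3, e4, e5, e6, e7, e8, e9, e10]
  generalize orient a b u = t1 at *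
  generalize orient a b v = t2 at *
  generalize orient a u v = t3 at *
  generalize orient b u v = t4 at *
  rcases lt_or_gt_of_ne h1 with k1 | k1 <;> rcases lt_or_gt_of_ne h2 with k2 | k2 <;>
    rcases lt_or_gt_of_ne h3 with k3 | k3 <;> rcases lt_or_gt_of_ne h4 with k4 | k4 <;>
    first
    | (exfalso; linarith)
    | (simp only [mul_neg_iff, neg_pos, neg_lt_zero, k1, k2, k3, k4, not_lt_of_gt k1,
        not_lt_of_gt k2, not_lt_of_gt k3, not_lt_of_gt k4, and_self, and_true, true_and,
        and_false, false_and, or_self, or_false, false_or, true_or, or_true, if_true, if_false]
       norm_num)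

end Pool.Agent.Lib.MP_00ece3_co.EX
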