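import Pool.Agent.Lib.MP_00ece3_co.EX.SpecD

/-!
# Project EX, Par: making the number of outer vertices odd
-/

set_option autoImplicit false

namespace Pool.Agent.Lib.MP_00ece3_co.EX

open Pool.Agent.Lib.MP_00ece3_co

theorem tPar (hEA : S_EA) (hEB : S_EB) : S_Par := by
  intro n G hG S hS
  rcases Nat.even_or_odd' Sᶜ.card with ⟨k, hk | hk⟩
  swap
  · exact ⟨S, subset_rfl, Nat.le_succ _, ⟨k, hk⟩, Nat.le_add_right _ _⟩
  have hc := Finset.card_add_card_compl S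
  rw [Fintype.card_fin] at hc
  -- a vertex of small degree
  obtain ⟨x, hxS, hx⟩ : ∃ x ∈ Sᶜ, dg G x ≤ 16 := by
    by_contra hcon
    push Not at hcon
    have h1 : ∑ x ∈ Sᶜ, 16 ≤ ∑ x ∈ Sᶜ, dg G x :=
      Finset.sum_le_sum fun x hx => (hcon x hx).le
    have h2 : ∑ x ∈ Sᶜ, dg G x = eO G Sᶜ Finset.univ := by
      rw [(hEA n G Sᶜ Sᶜ Finset.univ).2.2.2.1]
      exact Finset.sum_congr rfl fun x _ => ((hEA n G Sᶜ Sᶜ Finset.univ).2.2.2.2.2 x).symm
    have h3 := (hEB n G hG).2.2 Sᶜ Finset.univ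
    rw [← h2] at h3
    rw [Finset.sum_const, smul_eq_mul] at h1
    omega
  have hxS' : x ∉ S := Finset.mem_compl.mp hxS
  have hcard : (insert x S).card = S.card + 1 := Finset.card_insert_of_notMem hxS'
  have hc2 := Finset.card_add_card_compl (insert x S)
  rw [Fintype.card_fin] at hc2
  have hpos : 0 < Sᶜ.card := Finset.card_pos.mpr ⟨x, hxS⟩
  refine ⟨insert x S, Finset.subset_insert _ _, hcard.le, ⟨k - 1, by omega⟩, ?_⟩
  have hdis : Disjoint ({x} : Finset (Fin n)) S := Finset.disjoint_singleton_left.mpr hxS'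
  have h1 := (hEA n G {x} S (insert x S)ᶜ).2.1 hdis
  rw [← Finset.insert_eq] at h1
  rw [h1]
  have h2 : eO G {x} (insert x S)ᶜ ≤ dg G x := by
    rw [← (hEA n G {x} S S).2.2.2.2.2 x]
    exact ((hEA n G (insert x S)ᶜ Finset.univ {x}).2.2.1 (Finset.subset_univ _)).2
  have h3 : eO G S (insert x S)ᶜ ≤ eO G S Sᶜ :=
    ((hEA n G (insert x S)ᶜ Sᶜ S).2.2.1
      (Finset.compl_subset_compl.mpr (Finset.subset_insert _ _))).2
  omega

end Pool.Agent.Lib.MP_00ece3_co.EX
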