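import Pool.Agent.Lib.MP_00ece3_co.EX.SpecA

/-!
# EX: the sum over the hub lines (`S_PathLe`)
-/

set_option autoImplicit false

namespace Pool.Agent.Lib.MP_00ece3_co.EX

open Pool.Agent.Lib.MP_00ece3_co

private theorem PathLe_nonneg {m : ℕ} (P : Fin m → ℝ × ℝ) (u : ℝ × ℝ) (a : Fin m) :
    0 ≤ PU P u a := by
  unfold PU pathSum
  refine Finset.sum_nonneg fun i _ => Finset.sum_nonneg fun j _ => ?_
  split_ifs
  · change 0 ≤ sp (P a) u (P i) (P j)
    unfold sp
    split_ifs <;> norm_num
  · exact le_refl 0

theorem tPathLe : S_PathLe := by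
  intro m P u
  have h1 : ((Finset.univ.filter (fun a => PU P u a = 0)).card : ℤ) +
      ((Finset.univ.filter (fun a => ¬ PU P u a = 0)).card : ℤ) = m := by
    have h2 := Finset.card_filter_add_card_filter_not (s := (Finset.univ : Finset (Fin m)))
      (fun a => PU P u a = 0)
    rw [Finset.card_univ, Fintype.card_fin] at h2
    exact_mod_cast h2
  have h3 : ((Finset.univ.filter (fun a => ¬ PU P u a = 0)).card : ℤ) ≤ ∑ a, PU P u a := by
    rw [Finset.card_filter, Nat.cast_sum]
    refine Finset.sum_le_sum fun a _ => ?_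
    have h4 := PathLe_nonneg P u a
    by_cases h5 : PU P u a = 0
    · rw [if_neg (not_not.2 h5)]
      push_cast
      exact h4
    · rw [if_pos h5]
      push_cast
      omega
  linarith

end Pool.Agent.Lib.MP_00ece3_co.EX
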