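import Pool.Agent.Lib.MP_00ece3_co.EX.SpecA

/-!
# Module Quad: four points in convex position
-/

set_option autoImplicit false

namespace Pool.Agent.Lib.MP_00ece3_co.EX

open Pool.Agent.Lib.MP_00ece3_co

theorem tQuad : S_Quad := by
  intro i j b c h hi hj h1 h2 _ _
  have e1 : orient j b i = orient i j b := by
    unfold orient
    ring
  have e2 : orient c j i = -orient i j c := by
    unfold orient
    ring
  have e3 : orient i b j = -orient i j b := by
    unfold orient
    ring
  have e4 : orient c i j = orient i j c := by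
    unfold orient
    ring
  have e5 : orient b c i + orient i j b = orient i j c + orient b c j := by
    unfold orient
    ring
  unfold Tri at h1 h2
  rw [e1, e2] at h1
  rw [e3, e4] at h2
  unfold Sp
  by_contra h3
  rcases mul_neg_iff.mp h with ⟨p, q⟩ | ⟨p, q⟩
  · rcases lt_or_gt_of_ne hi with r | r <;> rcases lt_or_gt_of_ne hj with s | s
    · exact h2 (Or.inr ⟨by linarith, s, q⟩)
    · exact h3 (mul_neg_of_neg_of_pos r s)
    · linarith
    · exact h1 (Or.inl ⟨p, r, by linarith⟩)
  · rcases lt_or_gt_of_ne hi with r | r <;> rcases lt_or_gt_of_ne hj with s | s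
    · exact h1 (Or.inr ⟨p, r, by linarith⟩)
    · linarith
    · exact h3 (mul_neg_of_pos_of_neg r s)
    · exact h2 (Or.inl ⟨by linarith, s, q⟩)

end Pool.Agent.Lib.MP_00ece3_co.EX
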