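import Pool.Agent.Lib.MP_00ece3_co.EX.SpecC

/-!
MP_00ece3_co, EX, module Red: contraction of the components of the vertices which are not common
neighbours of the two hubs.
-/

set_option autoImplicit false

namespace Pool.Agent.Lib.MP_00ece3_co.EX

open Pool.Agent.Lib.MP_00ece3_co

namespace RedAux

/-- A set all of whose elements are reachable from one of them induces a connected graph. -/
theorem conn {V : Type} (G : SimpleGraph V) (S : Set V) (a : V) (ha : a ∈ S)
    (h : ∀ y (hy : y ∈ S), (G.induce S).Reachable ⟨a, ha⟩ ⟨y, hy⟩) : (G.induce S).Connected := by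
  haveI : Nonempty S := ⟨⟨a, ha⟩⟩
  exact ⟨fun x y => (h x.1 x.2).symm.trans (h y.1 y.2)⟩

theorem conn_single {V : Type} (G : SimpleGraph V) (a : V) : (G.induce {a}).Connected := by
  refine conn G {a} a rfl fun y hy => ?_
  have hy' : y = a := hy
  subst hy'
  exact SimpleGraph.Reachable.refl _

variable {n : ℕ} (G : SimpleGraph (Fin n)) (u0 v0 : Fin n)

instance finCN : Finite (CN G u0 v0) :=
  inferInstanceAs (Finite {x : Fin n // x ≠ u0 ∧ x ≠ v0 ∧ G.Adj u0 x ∧ G.Adj v0 x})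

/-- The graph on the other vertices. -/
def GO : SimpleGraph (Ot G u0 v0) := G.comap (fun x => x.1)

/-- The common neighbours which are adjacent to the component of `x`. -/
noncomputable def NN (x : Ot G u0 v0) : Finset (CN G u0 v0) :=
  (Set.toFinite {c : CN G u0 v0 | ∃ z : Ot G u0 v0, (GO G u0 v0).Reachable x z ∧
    G.Adj z.1 c.1}).toFinset

variable {G u0 v0}

theorem mem_NN {x : Ot G u0 v0} {c : CN G u0 v0} : c ∈ NN G u0 v0 x ↔
    ∃ z : Ot G u0 v0, (GO G u0 v0).Reachable x z ∧ G.Adj z.1 c.1 := by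
  unfold NN
  rw [Set.Finite.mem_toFinset]
  rfl

theorem NN_reach {x y : Ot G u0 v0} (h : (GO G u0 v0).Reachable x y) :
    NN G u0 v0 x = NN G u0 v0 y := by
  ext c
  rw [mem_NN, mem_NN]
  constructor
  · rintro ⟨z, h1, h2⟩
    exact ⟨z, h.symm.trans h1, h2⟩
  · rintro ⟨z, h1, h2⟩
    exact ⟨z, h.trans h1, h2⟩

/-- The chosen element of a nonempty set. -/
def Sel (s : Finset (CN G u0 v0)) (c : CN G u0 v0) : Prop := ∃ h : s.Nonempty, h.choose = c

theorem Sel.mem {s : Finset (CN G u0 v0)} {c : CN G u0 v0} (h : Sel s c) : c ∈ s := by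
  obtain ⟨h1, h2⟩ := h
  rw [← h2]
  exact h1.choose_spec

theorem Sel.uniq {s : Finset (CN G u0 v0)} {c c' : CN G u0 v0} (h : Sel s c) (h' : Sel s c') :
    c = c' := by
  obtain ⟨h1, h2⟩ := h
  obtain ⟨h3, h4⟩ := h'
  rw [← h2, ← h4]

/-- The branch set of `c`. -/
def Br (c : CN G u0 v0) : Set (Fin n) :=
  {y | y = c.1 ∨ ∃ z : Ot G u0 v0, z.1 = y ∧ Sel (NN G u0 v0 z) c}

theorem ne_cn (z : Ot G u0 v0) (c : CN G u0 v0) : z.1 ≠ c.1 := fun h =>
  z.2.2.2 (h ▸ c.2.2.2)

theorem mem_Br {z : Ot G u0 v0} {c : CN G u0 v0} (h : z.1 ∈ Br c) : Sel (NN G u0 v0 z) c := by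
  rcases h with h | ⟨z', h1, h2⟩
  · exact absurd h (ne_cn z c)
  · rwa [Subtype.ext h1] at h2

theorem walk_reach (S : Set (Fin n))
    (hS : ∀ z w : Ot G u0 v0, z.1 ∈ S → (GO G u0 v0).Adj z w → w.1 ∈ S) {z w : Ot G u0 v0}
    (p : (GO G u0 v0).Walk z w) (hz : z.1 ∈ S) :
    ∃ hw : w.1 ∈ S, (G.induce S).Reachable ⟨z.1, hz⟩ ⟨w.1, hw⟩ := by
  induction p with
  | nil => exact ⟨hz, SimpleGraph.Reachable.refl _⟩
  | cons h _ ih =>
    obtain ⟨hw, hr⟩ := ih (hS _ _ hz h)
    refine ⟨hw, SimpleGraph.Reachable.trans (SimpleGraph.Adj.reachable ?_) hr⟩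
    exact h

theorem conn_Br (c : CN G u0 v0) : (G.induce (Br c)).Connected := by
  refine conn G (Br c) c.1 (Or.inl rfl) fun y hy => ?_
  rcases hy with hy | ⟨z, hz, hs⟩
  · subst hy
    exact SimpleGraph.Reachable.refl _
  · subst hz
    obtain ⟨w, ⟨p⟩, hw⟩ := mem_NN.mp hs.mem
    obtain ⟨h1, h2⟩ := walk_reach (Br c) (fun a b ha hab => Or.inr ⟨b, rfl, by
      rw [← NN_reach hab.reachable]
      exact mem_Br ha⟩) p (Or.inr ⟨z, rfl, hs⟩)
    refine SimpleGraph.Reachable.trans (SimpleGraph.Adj.reachable ?_) h2.symm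
    exact hw.symm

/-- The set of the vertices of the component of `x`. -/
def Cm (x : Ot G u0 v0) : Set (Fin n) :=
  {y | ∃ z : Ot G u0 v0, z.1 = y ∧ (GO G u0 v0).Reachable x z}

theorem conn_Cm (x : Ot G u0 v0) : (G.induce (Cm x)).Connected := by
  refine conn G (Cm x) x.1 ⟨x, rfl, SimpleGraph.Reachable.refl _⟩ fun y hy => ?_
  obtain ⟨z, hz, ⟨p⟩⟩ := hy
  subst hz
  obtain ⟨_, h2⟩ := walk_reach (Cm x) (fun a b ha hab => by
    obtain ⟨a', h1, h2⟩ := ha
    rw [Subtype.ext h1] at h2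
    exact ⟨b, rfl, h2.trans hab.reachable⟩) p ⟨x, rfl, SimpleGraph.Reachable.refl _⟩
  exact h2

/-- A component has at most two neighbours among the common neighbours. -/
theorem card_NN (hne : u0 ≠ v0) (hP : Planar G) (x : Ot G u0 v0) :
    (NN G u0 v0 x).card ≤ 2 := by
  by_contra hc
  obtain ⟨a, b, c, ha, hb, hc', hab, hac, hbc⟩ := Finset.two_lt_card_iff.mp (not_le.mp hc)
  let f : Fin 3 → CN G u0 v0 := ![a, b, c]
  have hf : ∀ i, f i ∈ NN G u0 v0 x := by
    intro i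
    fin_cases i
    · exact ha
    · exact hb
    · exact hc'
  have hinj : ∀ i j, i ≠ j → f i ≠ f j := by
    intro i j hij
    fin_cases i <;> fin_cases j <;> first
      | exact absurd rfl hij
      | exact hab
      | exact hac
      | exact hbc
      | exact hab.symm
      | exact hac.symm
      | exact hbc.symm
  let A : Fin 3 → Set (Fin n) := ![{u0}, {v0}, Cm x]
  have hAc : ∀ i, (G.induce (A i)).Connected := by
    intro i
    fin_cases i
    · exact conn_single G u0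
    · exact conn_single G v0
    · exact conn_Cm x
  have hu : u0 ∉ Cm x := by
    rintro ⟨z, hz, _⟩
    exact z.2.1 hz
  have hv : v0 ∉ Cm x := by
    rintro ⟨z, hz, _⟩
    exact z.2.2.1 hz
  have hAd : ∀ i j, i ≠ j → Disjoint (A i) (A j) := by
    intro i j hij
    fin_cases i <;> fin_cases j <;> first
      | exact absurd rfl hij
      | exact Set.disjoint_singleton.mpr hne
      | exact Set.disjoint_singleton.mpr hne.symm
      | exact Set.disjoint_singleton_left.mpr hu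
      | exact Set.disjoint_singleton_left.mpr hv
      | exact Set.disjoint_singleton_right.mpr hu
      | exact Set.disjoint_singleton_right.mpr hv
  have hAf : ∀ i j, (f j).1 ∉ A i := by
    intro i j
    fin_cases i
    · exact (f j).2.1
    · exact (f j).2.2.1
    · rintro ⟨z, hz, _⟩
      exact ne_cn z (f j) hz
  have hadj : ∀ i j, ∃ y ∈ A i, G.Adj y (f j).1 := by
    intro i j
    fin_cases i
    · exact ⟨u0, rfl, (f j).2.2.2.1⟩
    · exact ⟨v0, rfl, (f j).2.2.2.2⟩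
    · obtain ⟨z, h1, h2⟩ := mem_NN.mp (hf j)
      exact ⟨z.1, ⟨z, rfl, h1⟩, h2⟩
  refine hP.2 ⟨Sum.elim A (fun j => {(f j).1}), ?_, ?_, ?_⟩
  · rintro (i | j)
    · exact hAc i
    · exact conn_single G _
  · rintro (i | i) (j | j) hij
    · exact hAd i j fun h => hij (congrArg _ h)
    · exact Set.disjoint_singleton_right.mpr (hAf i j)
    · exact Set.disjoint_singleton_left.mpr (hAf j i)
    · refine Set.disjoint_singleton.mpr fun h => hinj i j (fun h' => hij (congrArg _ h')) ?_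
      exact Subtype.ext h
  · rintro (i | i) (j | j) hij
    · simp at hij
    · obtain ⟨y, hy, h⟩ := hadj i j
      exact ⟨y, hy, _, rfl, h⟩
    · obtain ⟨y, hy, h⟩ := hadj j i
      exact ⟨_, rfl, y, hy, h.symm⟩
    · simp at hij

variable (G u0 v0)

/-- The contracted graph. -/
def Ga : SimpleGraph (CN G u0 v0) where
  Adj c c' := c ≠ c' ∧ ∃ a ∈ Br c, ∃ b ∈ Br c', G.Adj a b
  symm := ⟨by
    rintro c c' ⟨h, a, ha, b, hb, hab⟩
    exact ⟨h.symm, b, hb, a, ha, hab.symm⟩⟩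
  loopless := ⟨fun c h => h.1 rfl⟩

/-- The branch sets of the minor. -/
def BB : CN G u0 v0 ⊕ Bool → Set (Fin n)
  | .inl c => Br c
  | .inr true => {u0}
  | .inr false => {v0}

variable {G u0 v0}

theorem u_Br (c : CN G u0 v0) : u0 ∉ Br c := by
  rintro (h | ⟨z, hz, _⟩)
  · exact c.2.1 h.symm
  · exact z.2.1 hz

theorem v_Br (c : CN G u0 v0) : v0 ∉ Br c := by
  rintro (h | ⟨z, hz, _⟩)
  · exact c.2.2.1 h.symm
  · exact z.2.2.1 hz

theorem disj_Br {c c' : CN G u0 v0} (h : c ≠ c') : Disjoint (Br c) (Br c') := by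
  rw [Set.disjoint_left]
  rintro y (h1 | ⟨z, hz, h1⟩) (h2 | ⟨z', hz', h2⟩)
  · exact h (Subtype.ext (h1.symm.trans h2))
  · exact ne_cn z' c (hz'.trans h1)
  · exact ne_cn z c' (hz.trans h2)
  · have h3 : z = z' := Subtype.ext (hz.trans hz'.symm)
    subst h3
    exact h (h1.uniq h2)

theorem minor (hne : u0 ≠ v0) : IsMinor (Jn (Ga G u0 v0) (G.Adj u0 v0)) G := by
  refine ⟨BB G u0 v0, ?_, ?_, ?_⟩
  · rintro (c | _ | _)
    · exact conn_Br c
    · exact conn_single G v0
    · exact conn_single G u0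
  · rintro (c | _ | _) (c' | _ | _) h
    · exact disj_Br fun h' => h (congrArg _ h')
    · exact Set.disjoint_singleton_right.mpr (v_Br c)
    · exact Set.disjoint_singleton_right.mpr (u_Br c)
    · exact Set.disjoint_singleton_left.mpr (v_Br c')
    · exact absurd rfl h
    · exact Set.disjoint_singleton.mpr hne.symm
    · exact Set.disjoint_singleton_left.mpr (u_Br c')
    · exact Set.disjoint_singleton.mpr hne
    · exact absurd rfl h
  · rintro (c | _ | _) (c' | _ | _) h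
    · exact h.2
    · exact ⟨c.1, Or.inl rfl, v0, rfl, c.2.2.2.2.symm⟩
    · exact ⟨c.1, Or.inl rfl, u0, rfl, c.2.2.2.1.symm⟩
    · exact ⟨v0, rfl, c'.1, Or.inl rfl, c'.2.2.2.2⟩
    · exact absurd rfl h.1
    · exact ⟨v0, rfl, u0, rfl, h.2.symm⟩
    · exact ⟨u0, rfl, c'.1, Or.inl rfl, c'.2.2.2.1⟩
    · exact ⟨u0, rfl, v0, rfl, h.2⟩
    · exact absurd rfl h.1

/-- Two neighbours of a component are adjacent if one of them is the chosen one. -/
theorem adj_sel {x : Ot G u0 v0} {c c' : CN G u0 v0} (hs : Sel (NN G u0 v0 x) c)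
    (h : c' ∈ NN G u0 v0 x) (hne : c ≠ c') : (Ga G u0 v0).Adj c c' := by
  obtain ⟨z, h1, h2⟩ := mem_NN.mp h
  refine ⟨hne, z.1, Or.inr ⟨z, rfl, ?_⟩, c'.1, Or.inl rfl, h2⟩
  rwa [← NN_reach h1]

end RedAux

open RedAux in
theorem tRed (hTr : S_Tr) : S_Red := by
  classical
  intro n G u0 v0 hne hP
  have hmin := minor (G := G) hne
  refine ⟨Ga G u0 v0, NN G u0 v0, ⟨fun h => hP.1 (hTr _ _ _ _ _ _ h hmin),
    fun h => hP.2 (hTr _ _ _ _ _ _ h hmin)⟩, ?_, ?_, ?_, card_NN hne hP, ?_⟩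
  · intro c c' h
    exact ⟨fun h' => (G.ne_of_adj h) (congrArg _ h'), c.1, Or.inl rfl, c'.1, Or.inl rfl, h⟩
  · intro x c h
    exact mem_NN.mpr ⟨x, SimpleGraph.Reachable.refl _, h⟩
  · intro x y h
    refine NN_reach (SimpleGraph.Adj.reachable ?_)
    exact h
  · intro x c c' hc hc' hcc
    have hn : (NN G u0 v0 x).Nonempty := ⟨c, hc⟩
    obtain ⟨d, hd⟩ : ∃ d, Sel (NN G u0 v0 x) d := ⟨_, hn, rfl⟩
    by_cases h1 : d = c
    · subst h1
      exact adj_sel hd hc' hcc
    · by_cases h2 : d = c'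
      · subst h2
        exact (adj_sel hd hc hcc.symm).symm
      · exfalso
        have h3 := card_NN hne hP x
        exact absurd (Finset.two_lt_card_iff.mpr ⟨d, c, c', hd.mem, hc, hc', h1, h2, hcc⟩)
          (not_lt.mpr h3)

end Pool.Agent.Lib.MP_00ece3_co.EX
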