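import Pool.Agent.Lib.MP_00ece3_co.EX.SpecD
import Pool.Agent.Lib.MP_00ece3_co.Place

/-!
# Project EX: the regular pattern (author helper12)
-/

set_option autoImplicit false

namespace Pool.Agent.Lib.MP_00ece3_co.EX

open Pool.Agent.Lib.MP_00ece3_co

theorem tReg : S_Reg := by
  intro q i hi
  classical
  refine le_trans (Nat.mul_le_mul_left 2 (Finset.card_le_card ?_)) (Place.card_cpairs q i hi)
  rintro ⟨x, y⟩ h
  simp only [Finset.mem_filter, Finset.mem_product, Finset.mem_range, Abv] at h
  simp only [Place.cpairs, Finset.mem_filter, Finset.mem_product, Finset.mem_range]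
  omega

end Pool.Agent.Lib.MP_00ece3_co.EX
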