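import Pool.Agent.Lib.MP_00ece3_co.EX.SpecD

set_option autoImplicit false

/-!
# Project EX, Sep: few vertices separate the neighbours of `S1` from the other vertices
-/

namespace Pool.Agent.Lib.MP_00ece3_co.EX

open Pool.Agent.Lib.MP_00ece3_co

namespace SepAux

/-- the pairs `(a, b)` used -/
private def Q {n : ℕ} (G : SimpleGraph (Fin n)) (S S1 : Finset (Fin n)) (t : Fin n × Fin n) :
    Prop :=
  t.1 ∉ S ∧ t.2 ∉ S ∧ G.Adj t.1 t.2 ∧ (∃ s ∈ S1, G.Adj s t.1) ∧ (∀ s ∈ S1, ¬ G.Adj s t.2) ∧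
    t.2 ∉ low G S

/-- disjoint pairs -/
private def Dj {n : ℕ} (t t' : Fin n × Fin n) : Prop :=
  t.1 ≠ t'.1 ∧ t.1 ≠ t'.2 ∧ t.2 ≠ t'.1 ∧ t.2 ≠ t'.2

/-- sets of disjoint pairs -/
private def P {n : ℕ} (G : SimpleGraph (Fin n)) (S S1 : Finset (Fin n))
    (T : Finset (Fin n × Fin n)) : Prop :=
  (∀ t ∈ T, Q G S S1 t) ∧ ∀ t ∈ T, ∀ t' ∈ T, t ≠ t' → Dj t t'

private theorem three {n : ℕ} {G : SimpleGraph (Fin n)} {S S1 : Finset (Fin n)} (hS : S1 ⊆ S)
    {t : Fin n × Fin n} (h : Q G S S1 t) :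
    ∃ R : Finset (Fin n), 3 ≤ R.card ∧ ∀ s ∈ R, s ∈ S ∧ (G.Adj s t.1 ∨ G.Adj s t.2) := by
  classical
  obtain ⟨_, h2, _, ⟨s0, hs0, hs0a⟩, h5, h6⟩ := h
  have h7 : 2 ≤ sS G S t.2 := by
    by_contra hc
    apply h6
    unfold low
    rw [Finset.mem_filter, Finset.mem_compl]
    exact ⟨h2, by omega⟩
  refine ⟨insert s0 (S.filter (fun s => G.Adj s t.2)), ?_, ?_⟩
  · rw [Finset.card_insert_of_notMem]
    · have h8 : sS G S t.2 = (S.filter (fun s => G.Adj s t.2)).card := by
        unfold sS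
        congr
      omega
    · intro hm
      exact h5 s0 hs0 (Finset.mem_filter.mp hm).2
  · intro s hs
    rcases Finset.mem_insert.mp hs with rfl | hs
    · exact ⟨hS hs0, Or.inl hs0a⟩
    · exact ⟨(Finset.mem_filter.mp hs).1, Or.inr (Finset.mem_filter.mp hs).2⟩

end SepAux

open SepAux in
theorem tSep (hMt : S_Mt) : S_Sep := by
  classical
  intro n G hG S S1 hS
  have hne : (Finset.univ.filter (P G S S1)).Nonempty := by
    refine ⟨∅, Finset.mem_filter.mpr ⟨Finset.mem_univ _, ?_, ?_⟩⟩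
    · intro t ht
      exact absurd ht (Finset.notMem_empty _)
    · intro t ht
      exact absurd ht (Finset.notMem_empty _)
  obtain ⟨T, hT, hmax⟩ := Finset.exists_max_image _ Finset.card hne
  obtain ⟨hTQ, hTD⟩ := (Finset.mem_filter.mp hT).2
  have hcard : T.card ≤ 244 * S.card := by
    refine hMt n G hG S T (fun t ht => ⟨(hTQ t ht).1, (hTQ t ht).2.1, (hTQ t ht).2.2.1⟩)
      (fun t ht t' ht' hne => hTD t ht t' ht' hne) (fun t ht => ?_)
    obtain ⟨R, hR, hR2⟩ := three hS (hTQ t ht)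
    exact le_trans hR (Finset.card_le_card fun s hs => Finset.mem_filter.mpr (hR2 s hs))
  refine ⟨S ∪ low G S ∪ (T.image Prod.fst ∪ T.image Prod.snd), ?_, ?_, ?_⟩
  · intro s hs
    exact Finset.mem_union_left _ (Finset.mem_union_left _ hs)
  · have h1 : (S ∪ low G S ∪ (T.image Prod.fst ∪ T.image Prod.snd)).card ≤
        (S ∪ low G S).card + (T.image Prod.fst ∪ T.image Prod.snd).card :=
      Finset.card_union_le _ _
    have h2 : (S ∪ low G S).card ≤ S.card + (low G S).card := Finset.card_union_le _ _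
    have h3 : (T.image Prod.fst ∪ T.image Prod.snd).card ≤
        (T.image Prod.fst).card + (T.image Prod.snd).card := Finset.card_union_le _ _
    have h4 : (T.image Prod.fst).card ≤ T.card := Finset.card_image_le
    have h5 : (T.image Prod.snd).card ≤ T.card := Finset.card_image_le
    omega
  · intro a b ha hb h1 h2 hab
    simp only [Finset.mem_union, Finset.mem_image, not_or, not_exists, not_and] at ha hb
    obtain ⟨⟨haS, haL⟩, ha1, ha2⟩ := ha
    obtain ⟨⟨hbS, hbL⟩, hb1, hb2⟩ := hb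
    have hnew : ∀ t ∈ T, Dj (a, b) t := fun t ht =>
      ⟨fun h => ha1 t ht h.symm, fun h => ha2 t ht h.symm, fun h => hb1 t ht h.symm,
        fun h => hb2 t ht h.symm⟩
    have hnot : (a, b) ∉ T := fun h => ha1 (a, b) h rfl
    have hP : P G S S1 (insert (a, b) T) := by
      refine ⟨?_, ?_⟩
      · intro t ht
        rcases Finset.mem_insert.mp ht with rfl | ht
        · exact ⟨haS, hbS, hab, h1, h2, hbL⟩
        · exact hTQ t ht
      · intro t ht t' ht' hne
        rcases Finset.mem_insert.mp ht with rfl | ht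
        · rcases Finset.mem_insert.mp ht' with rfl | ht'
          · exact absurd rfl hne
          · exact hnew t' ht'
        · rcases Finset.mem_insert.mp ht' with rfl | ht'
          · obtain ⟨e1, e2, e3, e4⟩ := hnew t ht
            exact ⟨e1.symm, e3.symm, e2.symm, e4.symm⟩
          · exact hTD t ht t' ht' hne
    have h3 := hmax (insert (a, b) T) (Finset.mem_filter.mpr ⟨Finset.mem_univ _, hP⟩)
    rw [Finset.card_insert_of_notMem hnot] at h3
    omega

end Pool.Agent.Lib.MP_00ece3_co.EX
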