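import Pool.Agent.Lib.MP_00ece3_co.EX.SpecA

set_option autoImplicit false

namespace Pool.Agent.Lib.MP_00ece3_co.EX

open Pool.Agent.Lib.MP_00ece3_co

namespace SepNAux

theorem orient_aab (x y : ℝ × ℝ) : orient x x y = 0 := by
  unfold orient; ring

theorem orient_aba (x y : ℝ × ℝ) : orient x y x = 0 := by
  unfold orient; ring

theorem orient_abb (x y : ℝ × ℝ) : orient x y y = 0 := by
  unfold orient; ring

theorem orient_sw (x y z : ℝ × ℝ) : orient y x z = -orient x y z := by
  unfold orient; ring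

theorem sp_swap {a b x y : ℝ × ℝ} (h : Sp a b x y) : Sp b a x y := by
  unfold Sp at *
  rw [orient_sw a b x, orient_sw a b y]
  linarith

theorem ne_of_sep {V : Type} {p : V → ℝ × ℝ} {a b x y : V} (h : Sp (p a) (p b) (p x) (p y)) :
    a ≠ b ∧ a ≠ x ∧ a ≠ y ∧ b ≠ x ∧ b ≠ y := by
  unfold Sp at h
  refine ⟨?_, ?_, ?_, ?_, ?_⟩
  · rintro rfl
    rw [orient_aab, zero_mul] at h
    exact lt_irrefl _ h
  · rintro rfl
    rw [orient_aba, zero_mul] at h
    exact lt_irrefl _ h
  · rintro rfl
    rw [orient_aba, mul_zero] at h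
    exact lt_irrefl _ h
  · rintro rfl
    rw [orient_abb, zero_mul] at h
    exact lt_irrefl _ h
  · rintro rfl
    rw [orient_abb, mul_zero] at h
    exact lt_irrefl _ h

end SepNAux

theorem tSepN : S_SepN := by
  classical
  intro V _ p x y
  set W : Finset (V × V) := Finset.univ.filter
    (fun e => Sp (p e.1) (p e.2) (p x) (p y)) with hW
  have h1 : ∑ a, ∑ b, sp (p a) (p b) (p x) (p y) = (W.card : ℤ) := by
    rw [← Finset.sum_product', Finset.card_eq_sum_ones]
    push_cast
    rw [hW, Finset.sum_filter, Finset.univ_product_univ]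
    refine Finset.sum_congr rfl fun e _ => ?_
    unfold sp
    rfl
  have h2 : W.card = ∑ e ∈ W.image (fun e => s(e.1, e.2)), 2 := by
    rw [Finset.card_eq_sum_card_image (fun e : V × V => s(e.1, e.2)) W]
    refine Finset.sum_congr rfl fun e he => ?_
    rw [Finset.mem_image] at he
    obtain ⟨⟨a, b⟩, hab, rfl⟩ := he
    rw [hW, Finset.mem_filter] at hab
    have hs : W.filter (fun e => s(e.1, e.2) = s(a, b)) = {(a, b), (b, a)} := by
      ext ⟨c, d⟩
      rw [Finset.mem_filter, Finset.mem_insert, Finset.mem_singleton, Sym2.eq_iff,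
        Prod.mk.injEq, Prod.mk.injEq]
      constructor
      · exact fun h => h.2
      · intro h
        refine ⟨?_, h⟩
        rw [hW, Finset.mem_filter]
        refine ⟨Finset.mem_univ _, ?_⟩
        rcases h with ⟨rfl, rfl⟩ | ⟨rfl, rfl⟩
        · exact hab.2
        · exact SepNAux.sp_swap hab.2
    show (W.filter (fun e => s(e.1, e.2) = s(a, b))).card = 2
    rw [hs]
    refine Finset.card_pair fun h => ?_
    exact (SepNAux.ne_of_sep hab.2).1 (Prod.mk.injEq .. ▸ h).1
  have h3 : sepCount p x y = (W.image (fun e => s(e.1, e.2))).card := by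
    unfold sepCount
    rw [← Set.ncard_coe_finset]
    congr 1
    ext e
    rw [Finset.mem_coe, Finset.mem_image]
    constructor
    · rintro ⟨a, b, rfl, -, -, -, -, -, h⟩
      refine ⟨(a, b), ?_, rfl⟩
      rw [hW, Finset.mem_filter]
      exact ⟨Finset.mem_univ _, h⟩
    · rintro ⟨⟨a, b⟩, hab, rfl⟩
      rw [hW, Finset.mem_filter] at hab
      obtain ⟨n1, n2, n3, n4, n5⟩ := SepNAux.ne_of_sep hab.2
      exact ⟨a, b, rfl, n1, n2, n3, n4, n5, hab.2⟩
  rw [h1, h2, h3, Finset.sum_const, smul_eq_mul]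
  push_cast
  ring

end Pool.Agent.Lib.MP_00ece3_co.EX
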