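import Pool.Agent.Lib.MP_00ece3_co.EX.SpecA

set_option autoImplicit false

namespace Pool.Agent.Lib.MP_00ece3_co.EX

open Pool.Agent.Lib.MP_00ece3_co

namespace SepRAux

theorem Sp_swap {a b x y : ℝ × ℝ} (h : Sp a b x y) : Sp b a x y := by
  unfold Sp at *
  have h1 : ∀ z, orient b a z = -orient a b z := by
    intro z
    unfold orient; ring
  rw [h1 x, h1 y]
  linarith

theorem sp_swap (a b x y : ℝ × ℝ) : sp b a x y = sp a b x y := by
  unfold sp
  by_cases h : Sp a b x y
  · rw [if_pos h, if_pos (Sp_swap h)]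
  · rw [if_neg h, if_neg fun h' => h (Sp_swap h')]

theorem sp_self (a x y : ℝ × ℝ) : sp a a x y = 0 := by
  unfold sp
  rw [if_neg]
  intro h
  unfold Sp at h
  have h1 : ∀ z, orient a a z = 0 := by
    intro z
    unfold orient; ring
  rw [h1 x, zero_mul] at h
  exact lt_irrefl _ h

theorem sum_split {n m : ℕ} {u0 v0 : Fin n} {r : Fin m → Fin n} (huv : u0 ≠ v0)
    (hr : Function.Injective r) (hx : ∀ x, (∃ i, r i = x) ↔ x ≠ u0 ∧ x ≠ v0)
    (f : Fin n → ℤ) : ∑ a, f a = ∑ i, f (r i) + f u0 + f v0 := by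
  classical
  have h1 : (Finset.univ : Finset (Fin n)) =
      insert u0 (insert v0 (Finset.univ.image r)) := by
    ext x
    simp only [Finset.mem_univ, true_iff, Finset.mem_insert, Finset.mem_image, true_and]
    by_cases h : x = u0
    · exact Or.inl h
    · by_cases h' : x = v0
      · exact Or.inr (Or.inl h')
      · exact Or.inr (Or.inr ((hx x).2 ⟨h, h'⟩))
  have hv : v0 ∉ Finset.univ.image r := by
    rw [Finset.mem_image]
    rintro ⟨i, -, hi⟩
    exact ((hx v0).1 ⟨i, hi⟩).2 rfl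
  have hu : u0 ∉ insert v0 (Finset.univ.image r) := by
    rw [Finset.mem_insert, Finset.mem_image]
    rintro (h | ⟨i, -, hi⟩)
    · exact huv h
    · exact ((hx u0).1 ⟨i, hi⟩).1 rfl
  rw [h1, Finset.sum_insert hu, Finset.sum_insert hv,
    Finset.sum_image fun i _ j _ h => hr h]
  ring

end SepRAux

theorem tSepR (hSepN : S_SepN) : S_SepR := by
  intro n m p u0 v0 r huv hr hx x y
  rw [hSepN (Fin n) p x y]
  have key := fun f : Fin n → ℤ => SepRAux.sum_split huv hr hx f
  rw [key fun a => ∑ b, sp (p a) (p b) (p x) (p y)]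
  simp only [key fun b => sp _ (p b) (p x) (p y), Finset.sum_add_distrib]
  rw [SepRAux.sp_self (p u0), SepRAux.sp_self (p v0),
    SepRAux.sp_swap (p u0) (p v0)]
  have h1 : ∑ i, sp (p u0) (p (r i)) (p x) (p y) = ∑ i, sp (p (r i)) (p u0) (p x) (p y) :=
    Finset.sum_congr rfl fun i _ => SepRAux.sp_swap _ _ _ _
  have h2 : ∑ i, sp (p v0) (p (r i)) (p x) (p y) = ∑ i, sp (p (r i)) (p v0) (p x) (p y) :=
    Finset.sum_congr rfl fun i _ => SepRAux.sp_swap _ _ _ _
  rw [h1, h2]
  unfold N2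
  ring

end Pool.Agent.Lib.MP_00ece3_co.EX
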