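import Pool.Agent.Lib.MP_00ece3_co.EX.SpecC

set_option autoImplicit false

namespace Pool.Agent.Lib.MP_00ece3_co.EX

open Pool.Agent.Lib.MP_00ece3_co

namespace StrAux

private theorem deg_le (hDeg2 : S_Deg2) {C : Type} (Γ : SimpleGraph C) (b : Prop)
    (hP : Planar (Jn Γ b)) (x : C) (Y : Finset C) (hY : ∀ y ∈ Y, Γ.Adj x y) : Y.card ≤ 2 := by
  by_contra h
  obtain ⟨y1, h1, y2, h2, y3, h3, h12, h13, h23⟩ := Finset.two_lt_card.1 (not_le.1 h)
  exact hDeg2 C Γ b hP x y1 y2 y3 h12 h13 h23 (hY _ h1) (hY _ h2) (hY _ h3)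

private theorem order (hDeg2 : S_Deg2) (hFor : S_For) (hOrdX : S_OrdX) (hOrdC : S_OrdC)
    (C : Type) [Fintype C] (Γ : SimpleGraph C) (b : Prop) (hP : Planar (Jn Γ b)) (t : ℕ)
    (ht : Fintype.card C = t) :
    ∃ e : Fin t ≃ C, ∀ i j, i < j → Γ.Adj (e i) (e j) →
      (j : ℕ) = i + 1 ∨ (¬ b ∧ (i : ℕ) = 0 ∧ (j : ℕ) + 1 = t) := by
  classical
  subst ht
  by_cases hb : b
  · obtain ⟨e, he⟩ := hOrdX C Γ Finset.univ
      (fun x _ => deg_le hDeg2 Γ b hP x _ (fun y hy => (Finset.mem_filter.1 hy).2))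
      (fun Y _ hY => hFor C Γ b hP Y hY (Or.inl hb))
    refine ⟨e.trans (Equiv.subtypeUnivEquiv (fun x => Finset.mem_univ x)), ?_⟩
    intro i j hij h
    exact Or.inl (he i j hij h)
  · obtain ⟨e, he⟩ := hOrdC C Γ
      (fun x => deg_le hDeg2 Γ b hP x _ (fun y hy => (Finset.mem_filter.1 hy).2))
      (fun Y hY hc => hFor C Γ b hP Y hY (Or.inr hc))
    refine ⟨e, ?_⟩
    intro i j hij h
    rcases he i j hij h with h1 | ⟨h1, h2⟩
    · exact Or.inl h1
    · exact Or.inr ⟨hb, h1, h2⟩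

private theorem gap {t : ℕ} (ht : 0 < t) {C : Type} (Γ : SimpleGraph C) (e : Fin t ≃ C)
    (he : ∀ i j, i < j → Γ.Adj (e i) (e j) → (j : ℕ) = i + 1 ∨ ((i : ℕ) = 0 ∧ (j : ℕ) + 1 = t))
    (S : Finset C) (hS : S.card ≤ 2) (hcl : ∀ c c', c ∈ S → c' ∈ S → c ≠ c' → Γ.Adj c c') :
    ∃ i : Fin t, ∀ j : Fin t, e j ∈ S →
      (j : ℕ) = i ∨ (j : ℕ) = i + 1 ∨ ((i : ℕ) + 1 = t ∧ (j : ℕ) = 0) := by
  classical
  by_cases h2 : ∃ i j : Fin t, i < j ∧ e i ∈ S ∧ e j ∈ S
  · obtain ⟨i, j, hij, hi, hj⟩ := h2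
    have hne : e i ≠ e j := fun h => (ne_of_lt hij) (e.injective h)
    have hSS : S = {e i, e j} := by
      symm
      refine Finset.eq_of_subset_of_card_le ?_ ?_
      · intro c hc
        rcases Finset.mem_insert.1 hc with h | h
        · rw [h]; exact hi
        · rw [Finset.mem_singleton.1 h]; exact hj
      · rw [Finset.card_pair hne]
        exact hS
    have hmem : ∀ l : Fin t, e l ∈ S → l = i ∨ l = j := by
      intro l hl
      rw [hSS] at hl
      rcases Finset.mem_insert.1 hl with h | h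
      · exact Or.inl (e.injective h)
      · exact Or.inr (e.injective (Finset.mem_singleton.1 h))
    rcases he i j hij (hcl _ _ hi hj hne) with h | ⟨h, h'⟩
    · refine ⟨i, fun l hl => ?_⟩
      rcases hmem l hl with rfl | rfl
      · exact Or.inl rfl
      · exact Or.inr (Or.inl h)
    · refine ⟨j, fun l hl => ?_⟩
      rcases hmem l hl with rfl | rfl
      · exact Or.inr (Or.inr ⟨h', h⟩)
      · exact Or.inl rfl
  · push Not at h2
    by_cases h1 : ∃ i : Fin t, e i ∈ S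
    · obtain ⟨i, hi⟩ := h1
      refine ⟨i, fun l hl => ?_⟩
      rcases lt_trichotomy l i with h | h | h
      · exact absurd hi (h2 l i h hl)
      · rw [h]; exact Or.inl rfl
      · exact absurd hl (h2 i l h hi)
    · exact ⟨⟨0, ht⟩, fun l hl => absurd ⟨l, hl⟩ h1⟩

/-- the next index in the cyclic order -/
private def nx {t : ℕ} (ht : 0 < t) (i : Fin t) : Fin t :=
  if h : (i : ℕ) + 1 < t then ⟨i + 1, h⟩ else ⟨0, ht⟩

private theorem nx_succ {t : ℕ} (ht : 0 < t) (i j : Fin t) (h : (j : ℕ) = i + 1) :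
    nx ht i = j := by
  have h1 : (i : ℕ) + 1 < t := by rw [← h]; exact j.2
  unfold nx
  rw [dif_pos h1]
  exact Fin.ext h.symm

private theorem nx_last {t : ℕ} (ht : 0 < t) (i j : Fin t) (h : (i : ℕ) + 1 = t)
    (hj : (j : ℕ) = 0) : nx ht i = j := by
  unfold nx
  rw [dif_neg (by omega)]
  exact Fin.ext hj.symm

private theorem main (hIns : S_Ins) {t k m : ℕ} (htk : t + k = m) (ht : 0 < t) {V : Type}
    (G : SimpleGraph V) (φ : Fin t ⊕ Fin k → V) (γ : Fin k → Fin t) (b : Prop)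
    (h1 : ∀ a a' : Fin t, a < a' → G.Adj (φ (Sum.inl a)) (φ (Sum.inl a')) →
      (a' : ℕ) = a + 1 ∨ (¬ b ∧ (a : ℕ) = 0 ∧ (a' : ℕ) + 1 = t))
    (h2 : ∀ (a : Fin t) (x : Fin k), G.Adj (φ (Sum.inl a)) (φ (Sum.inr x)) →
      (a : ℕ) = γ x ∨ (a : ℕ) = γ x + 1 ∨ ((γ x : ℕ) + 1 = t ∧ (a : ℕ) = 0))
    (h3 : ∀ x y : Fin k, G.Adj (φ (Sum.inr x)) (φ (Sum.inr y)) → γ x = γ y) :
    ∃ ρ : (Fin t ⊕ Fin k) ≃ Fin m,
      (k = 0 → b → ∀ i j : Fin m, i < j → G.Adj (φ (ρ.symm i)) (φ (ρ.symm j)) →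
        (j : ℕ) = i + 1) ∧
      ∃ W : Finset (Fin m), W.card ≤ 3 * k ∧
        ∀ i j : Fin m, i < j → G.Adj (φ (ρ.symm i)) (φ (ρ.symm j)) →
          (j : ℕ) = i + 1 ∨ ((i : ℕ) = 0 ∧ (j : ℕ) + 1 = m) ∨
          (i ∈ W ∧ j ∈ W ∧ ((j : ℕ) ≤ i + k + 1 ∨ m + i ≤ (j : ℕ) + k + 1)) := by
  classical
  subst htk
  obtain ⟨ρ, hρ1, hρ2, hρ3, hρ4⟩ := hIns t k γ
  -- edges inside the first part
  have key : ∀ a a' : Fin t, ρ (Sum.inl a) < ρ (Sum.inl a') →
      G.Adj (φ (Sum.inl a)) (φ (Sum.inl a')) →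
      (a' : ℕ) = a + 1 ∨ (¬ b ∧ (a : ℕ) = 0 ∧ (a' : ℕ) + 1 = t) := by
    intro a a' hlt hadj
    rcases lt_trichotomy a a' with h | h | h
    · exact h1 a a' h hadj
    · rw [h] at hlt
      exact absurd hlt (lt_irrefl _)
    · rcases h1 a' a h hadj.symm with h' | ⟨_, h', _⟩
      · exact absurd (hρ1 a' a h'.symm).1 (not_lt.2 hlt.le)
      · have h4 := hρ2 a' h'
        have h5 : ((ρ (Sum.inl a) : Fin (t + k)) : ℕ) < (ρ (Sum.inl a') : ℕ) := hlt
        omega
  refine ⟨ρ, ?_, ?_⟩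
  · intro hk hb i j hij hadj
    obtain ⟨z, rfl⟩ := ρ.surjective i
    obtain ⟨z', rfl⟩ := ρ.surjective j
    rw [ρ.symm_apply_apply, ρ.symm_apply_apply] at hadj
    rcases z with a | x
    · rcases z' with a' | x'
      · rcases key a a' hij hadj with h | ⟨h, _⟩
        · exact (hρ1 a a' h.symm).2.2 (fun x => by
            subst hk
            exact x.elim0)
        · exact absurd hb h
      · subst hk
        exact x'.elim0
    · subst hk
      exact x.elim0
  · refine ⟨Finset.univ.image (fun x : Fin k => ρ (Sum.inr x)) ∪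
      (Finset.univ.image (fun x : Fin k => ρ (Sum.inl (γ x))) ∪
        Finset.univ.image (fun x : Fin k => ρ (Sum.inl (nx ht (γ x))))), ?_, ?_⟩
    · have c1 : (Finset.univ.image (fun x : Fin k => ρ (Sum.inr x))).card ≤ k :=
        Finset.card_image_le.trans (by rw [Finset.card_univ, Fintype.card_fin])
      have c2 : (Finset.univ.image (fun x : Fin k => ρ (Sum.inl (γ x)))).card ≤ k :=
        Finset.card_image_le.trans (by rw [Finset.card_univ, Fintype.card_fin])
      have c3 : (Finset.univ.image (fun x : Fin k => ρ (Sum.inl (nx ht (γ x))))).card ≤ k :=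
        Finset.card_image_le.trans (by rw [Finset.card_univ, Fintype.card_fin])
      refine (Finset.card_union_le _ _).trans ?_
      have c4 := Finset.card_union_le (Finset.univ.image (fun x : Fin k => ρ (Sum.inl (γ x))))
        (Finset.univ.image (fun x : Fin k => ρ (Sum.inl (nx ht (γ x)))))
      omega
    · set W : Finset (Fin (t + k)) := Finset.univ.image (fun x : Fin k => ρ (Sum.inr x)) ∪
        (Finset.univ.image (fun x : Fin k => ρ (Sum.inl (γ x))) ∪
          Finset.univ.image (fun x : Fin k => ρ (Sum.inl (nx ht (γ x))))) with hW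
      have w1 : ∀ x, ρ (Sum.inr x) ∈ W := fun x =>
        Finset.mem_union_left _ (Finset.mem_image_of_mem _ (Finset.mem_univ x))
      have w2 : ∀ x, ρ (Sum.inl (γ x)) ∈ W := fun x =>
        Finset.mem_union_right _ (Finset.mem_union_left _
          (Finset.mem_image_of_mem (fun x : Fin k => ρ (Sum.inl (γ x))) (Finset.mem_univ x)))
      have w3 : ∀ x, ρ (Sum.inl (nx ht (γ x))) ∈ W := fun x =>
        Finset.mem_union_right _ (Finset.mem_union_right _
          (Finset.mem_image_of_mem (fun x : Fin k => ρ (Sum.inl (nx ht (γ x))))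
            (Finset.mem_univ x)))
      have w4 : ∀ (x : Fin k) (a : Fin t), (a : ℕ) = γ x ∨ (a : ℕ) = γ x + 1 ∨
          ((γ x : ℕ) + 1 = t ∧ (a : ℕ) = 0) → ρ (Sum.inl a) ∈ W := by
        rintro x a (h | h | ⟨h, h'⟩)
        · rw [Fin.ext h]
          exact w2 x
        · rw [← nx_succ ht (γ x) a h]
          exact w3 x
        · rw [← nx_last ht (γ x) a h h']
          exact w3 x
      intro i j hij hadj
      obtain ⟨z, rfl⟩ := ρ.surjective i
      obtain ⟨z', rfl⟩ := ρ.surjective j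
      rw [ρ.symm_apply_apply, ρ.symm_apply_apply] at hadj
      have hij' : ((ρ z : Fin (t + k)) : ℕ) < (ρ z' : ℕ) := hij
      rcases z with a | x
      · rcases z' with a' | x'
        · -- both in the first part
          rcases key a a' hij hadj with h | ⟨_, h, h'⟩
          · by_cases hx : ∃ x, γ x = a
            · obtain ⟨x, hx⟩ := hx
              refine Or.inr (Or.inr ⟨?_, ?_, Or.inl (hρ1 a a' h.symm).2.1⟩)
              · exact w4 x a (Or.inl (by rw [hx]))
              · exact w4 x a' (Or.inr (Or.inl (by rw [hx]; exact h)))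
            · push Not at hx
              exact Or.inl ((hρ1 a a' h.symm).2.2 hx)
          · have h0 := hρ2 a h
            by_cases hx : ∃ x, γ x = a'
            · obtain ⟨x, hx⟩ := hx
              refine Or.inr (Or.inr ⟨?_, ?_, Or.inr ?_⟩)
              · exact w4 x a (Or.inr (Or.inr ⟨by rw [hx]; exact h', h⟩))
              · exact w4 x a' (Or.inl (by rw [hx]))
              · have := (hρ3 a' h').1
                omega
            · push Not at hx
              exact Or.inr (Or.inl ⟨h0, (hρ3 a' h').2 hx⟩)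
        · -- `inl a`, `inr x'`
          have h4 := h2 a x' hadj
          refine Or.inr (Or.inr ⟨w4 x' a h4, w1 x', ?_⟩)
          obtain ⟨g1, g2, g3, g4⟩ := hρ4 x'
          rcases h4 with h | h | ⟨h, h'⟩
          · left
            have e1 : a = γ x' := Fin.ext h
            rw [← e1] at g2
            omega
          · have h5 : ((ρ (Sum.inr x') : Fin (t + k)) : ℕ) < (ρ (Sum.inl a) : ℕ) := g3 a h.symm
            omega
          · right
            have h0 := hρ2 a h'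
            have := g4 h
            omega
      · rcases z' with a' | x'
        · have h4 := h2 a' x hadj.symm
          refine Or.inr (Or.inr ⟨w1 x, w4 x a' h4, ?_⟩)
          obtain ⟨g1, g2, g3, g4⟩ := hρ4 x
          have g1' : ((ρ (Sum.inl (γ x)) : Fin (t + k)) : ℕ) < (ρ (Sum.inr x) : ℕ) := g1
          rcases h4 with h | h | ⟨h, h'⟩
          · have e1 : a' = γ x := Fin.ext h
            rw [← e1] at g1'
            omega
          · left
            have := (hρ1 (γ x) a' h.symm).2.1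
            omega
          · have h0 := hρ2 a' h'
            omega
        · have h4 := h3 x x' hadj
          refine Or.inr (Or.inr ⟨w1 x, w1 x', Or.inl ?_⟩)
          have g1 : ((ρ (Sum.inl (γ x)) : Fin (t + k)) : ℕ) < (ρ (Sum.inr x) : ℕ) := (hρ4 x).1
          have g2 := (hρ4 x').2.1
          rw [← h4] at g2
          omega

end StrAux

open StrAux in
theorem tStr (hRed : S_Red) (hDeg2 : S_Deg2) (hFor : S_For) (hOrdX : S_OrdX) (hOrdC : S_OrdC)
    (hIns : S_Ins) : S_Str := by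
  classical
  intro m G u0 v0 huv hG k hkm hk
  obtain ⟨Γ, N, hPl, hΓ, hN1, hN2, hN3, hN4⟩ := hRed (m + 2) G u0 v0 huv hG
  have fC' : Finite (CN G u0 v0) :=
    inferInstanceAs (Finite {x : Fin (m + 2) // x ≠ u0 ∧ x ≠ v0 ∧ G.Adj u0 x ∧ G.Adj v0 x})
  have fO' : Finite (Ot G u0 v0) :=
    inferInstanceAs (Finite {x : Fin (m + 2) // x ≠ u0 ∧ x ≠ v0 ∧ ¬ (G.Adj u0 x ∧ G.Adj v0 x)})
  have fC : Fintype (CN G u0 v0) := Fintype.ofFinite _
  have fO : Fintype (Ot G u0 v0) := Fintype.ofFinite _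
  obtain ⟨t, htdef⟩ : ∃ t, Fintype.card (CN G u0 v0) = t := ⟨_, rfl⟩
  -- the number of vertices
  have hcard : t + k = m := by
    rw [← hk, ← htdef, ← Nat.card_eq_fintype_card]
    set D : Finset (Fin (m + 2)) := (Finset.univ.erase u0).erase v0 with hD
    have hDc : D.card = m := by
      rw [hD, Finset.card_erase_of_mem (Finset.mem_erase.2 ⟨huv.symm, Finset.mem_univ _⟩),
        Finset.card_erase_of_mem (Finset.mem_univ _), Finset.card_univ, Fintype.card_fin]
      omega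
    have c1 : Nat.card (CN G u0 v0) = (D.filter (fun x => G.Adj u0 x ∧ G.Adj v0 x)).card := by
      refine Nat.subtype_card _ ?_
      intro x
      rw [Finset.mem_filter, hD, Finset.mem_erase, Finset.mem_erase]
      constructor
      · rintro ⟨⟨h1, h2, _⟩, h3, h4⟩
        exact ⟨h2, h1, h3, h4⟩
      · rintro ⟨h1, h2, h3, h4⟩
        exact ⟨⟨h2, h1, Finset.mem_univ _⟩, h3, h4⟩
    have c2 : Nat.card (Ot G u0 v0) =
        (D.filter (fun x => ¬ (G.Adj u0 x ∧ G.Adj v0 x))).card := by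
      refine Nat.subtype_card _ ?_
      intro x
      rw [Finset.mem_filter, hD, Finset.mem_erase, Finset.mem_erase]
      constructor
      · rintro ⟨⟨h1, h2, _⟩, h3⟩
        exact ⟨h2, h1, h3⟩
      · rintro ⟨h1, h2, h3⟩
        exact ⟨⟨h2, h1, Finset.mem_univ _⟩, h3⟩
    rw [c1, c2, Finset.card_filter_add_card_filter_not, hDc]
  obtain ⟨e, he⟩ := order hDeg2 hFor hOrdX hOrdC (CN G u0 v0) Γ (G.Adj u0 v0) hPl t htdef
  have ht : 0 < t := by omega
  have he' : ∀ i j, i < j → Γ.Adj (e i) (e j) →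
      (j : ℕ) = i + 1 ∨ ((i : ℕ) = 0 ∧ (j : ℕ) + 1 = t) := by
    intro i j hij h
    rcases he i j hij h with h1 | ⟨_, h1⟩
    · exact Or.inl h1
    · exact Or.inr h1
  -- the gaps
  have hgap : ∀ S : Finset (CN G u0 v0), ∃ i : Fin t, S.card ≤ 2 →
      (∀ c c', c ∈ S → c' ∈ S → c ≠ c' → Γ.Adj c c') → ∀ j : Fin t, e j ∈ S →
      (j : ℕ) = i ∨ (j : ℕ) = i + 1 ∨ ((i : ℕ) + 1 = t ∧ (j : ℕ) = 0) := by
    intro S
    by_cases h : S.card ≤ 2 ∧ (∀ c c', c ∈ S → c' ∈ S → c ≠ c' → Γ.Adj c c')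
    · obtain ⟨i, hi⟩ := gap ht Γ e he' S h.1 h.2
      exact ⟨i, fun _ _ => hi⟩
    · exact ⟨⟨0, ht⟩, fun h1 h2 => absurd ⟨h1, h2⟩ h⟩
  choose gp hgp using hgap
  have hkO : Fintype.card (Ot G u0 v0) = k := by rw [← hk, Nat.card_eq_fintype_card]
  let ε : Fin k ≃ Ot G u0 v0 := (Fintype.equivFinOfCardEq hkO).symm
  let φ : Fin t ⊕ Fin k → Fin (m + 2) := Sum.elim (fun a => (e a).1) (fun x => (ε x).1)
  have hφ : Function.Injective φ := by
    rintro (a | x) (a' | x') h
    · have h1 : (e a).1 = (e a').1 := h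
      rw [e.injective (Subtype.ext h1)]
    · have h1 : (e a).1 = (ε x').1 := h
      have h2 := (ε x').2.2.2
      rw [← h1] at h2
      exact absurd (e a).2.2.2 h2
    · have h1 : (ε x).1 = (e a').1 := h
      have h2 := (ε x).2.2.2
      rw [h1] at h2
      exact absurd (e a').2.2.2 h2
    · have h1 : (ε x).1 = (ε x').1 := h
      rw [ε.injective (Subtype.ext h1)]
  have hφr : ∀ x, (∃ z, φ z = x) ↔ x ≠ u0 ∧ x ≠ v0 := by
    intro x
    constructor
    · rintro ⟨z, rfl⟩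
      rcases z with a | y
      · exact ⟨(e a).2.1, (e a).2.2.1⟩
      · exact ⟨(ε y).2.1, (ε y).2.2.1⟩
    · rintro ⟨h1, h2⟩
      by_cases h3 : G.Adj u0 x ∧ G.Adj v0 x
      · exact ⟨Sum.inl (e.symm ⟨x, h1, h2, h3⟩),
          congrArg Subtype.val (e.apply_symm_apply (⟨x, h1, h2, h3⟩ : CN G u0 v0))⟩
      · exact ⟨Sum.inr (ε.symm ⟨x, h1, h2, h3⟩),
          congrArg Subtype.val (ε.apply_symm_apply (⟨x, h1, h2, h3⟩ : Ot G u0 v0))⟩
  obtain ⟨ρ, hρ1, W, hW1, hW2⟩ := main hIns hcard ht G φ (fun x => gp (N (ε x))) (G.Adj u0 v0)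
    (fun a a' haa h => he a a' haa (hΓ _ _ h))
    (fun a x h => hgp (N (ε x)) (hN3 _) (fun c c' hc hc' hcc => hN4 (ε x) c c' hc hc' hcc) a
      (hN1 (ε x) (e a) (G.adj_symm h)))
    (fun x y h => congrArg gp (hN2 (ε x) (ε y) h))
  refine ⟨fun i => φ (ρ.symm i), hφ.comp ρ.symm.injective, ?_, ?_, W, hW1, hW2⟩
  · intro x
    rw [← hφr]
    constructor
    · rintro ⟨i, hi⟩
      exact ⟨ρ.symm i, hi⟩
    · rintro ⟨z, hz⟩
      refine ⟨ρ z, ?_⟩
      show φ (ρ.symm (ρ z)) = x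
      rw [ρ.symm_apply_apply]
      exact hz
  · exact hρ1

end Pool.Agent.Lib.MP_00ece3_co.EX
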