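import Pool.Agent.Lib.MP_00ece3_co.EX.SpecA

/-!
MP_00ece3_co, EX/SumU: the sum of the numbers of points to the left.
-/

set_option autoImplicit false

namespace Pool.Agent.Lib.MP_00ece3_co.EX

open Pool.Agent.Lib.MP_00ece3_co

private lemma SumU_swap (a b c : ℝ × ℝ) : orient c b a = -orient a b c := by
  unfold orient
  ring

private lemma SumU_swap' (a b c : ℝ × ℝ) : orient a c b = -orient a b c := by
  unfold orient
  ring

theorem tSumU : S_SumU := by
  intro m P u h
  have h1 : ∀ a b : Fin m, lft (P a) u (P b) + lft (P b) u (P a) = if a = b then 0 else 1 := by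
    intro a b
    split_ifs with hab
    · subst hab
      have h2 : orient (P a) u (P a) = 0 := by
        unfold orient
        ring
      unfold lft
      rw [h2, if_neg (lt_irrefl _), add_zero]
    · have h2 := h a b hab
      have h3 := SumU_swap (P a) u (P b)
      have h4 := SumU_swap' (P a) (P b) u
      have h5 : orient (P a) u (P b) ≠ 0 := by
        rw [h4]
        exact neg_ne_zero.2 h2
      unfold lft
      rcases lt_or_gt_of_ne h5 with h6 | h6
      · rw [if_neg (not_lt.2 h6.le), if_pos (by rw [h3]; linarith), zero_add]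
      · rw [if_pos h6, if_neg (by rw [h3]; linarith), add_zero]
  have h2 : 2 * ∑ a, inn P u a = (m : ℤ) * (m - 1) := by
    have h3 : ∑ a, ∑ b, (lft (P a) u (P b) + lft (P b) u (P a)) = 2 * ∑ a, inn P u a := by
      simp only [Finset.sum_add_distrib]
      rw [Finset.sum_comm (f := fun a b => lft (P b) u (P a)), two_mul]
      rfl
    rw [← h3]
    simp only [h1]
    have h4 : ∀ a : Fin m, ∑ b : Fin m, (if a = b then (0 : ℤ) else 1) = m - 1 := by
      intro a
      have h5 : ∀ b : Fin m, (if a = b then (0 : ℤ) else 1) = 1 - if a = b then 1 else 0 := by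
        intro b
        split_ifs <;> norm_num
      simp only [h5, Finset.sum_sub_distrib, Finset.sum_const, Finset.card_univ, Fintype.card_fin,
        Finset.sum_ite_eq, Finset.mem_univ, if_true, nsmul_eq_mul, mul_one]
    simp only [h4, Finset.sum_const, Finset.card_univ, Fintype.card_fin, nsmul_eq_mul]
  refine ⟨h2, ?_⟩
  unfold UU
  rw [Finset.sum_sub_distrib, ← Finset.mul_sum, h2, Finset.sum_const, Finset.card_univ,
    Fintype.card_fin, nsmul_eq_mul, sub_self]

end Pool.Agent.Lib.MP_00ece3_co.EX
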