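import Pool.Agent.Lib.MP_00ece3_co.EX.SpecD

set_option autoImplicit false

namespace Pool.Agent.Lib.MP_00ece3_co.EX

open Pool.Agent.Lib.MP_00ece3_co

private theorem T0R_empty {n : ℕ} (G : SimpleGraph (Fin n)) (B : Finset (Fin n)) :
    eO G ∅ B = 0 := by
  classical
  unfold eO
  rw [Finset.card_eq_zero, Finset.filter_eq_empty_iff]
  intro e he
  rw [Finset.mem_product] at he
  exact absurd he.1 (Finset.notMem_empty _)

private theorem T0R_arith (δ N a e K D O : ℝ) (hδ : 0 < δ) (hδ1 : δ ≤ 1 / 1000)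
    (hN : 5 ≤ δ * N) (hN0 : 0 < N) (ha0 : 0 ≤ a) (ha : a ≤ 2 * δ * N) (_he0 : 0 ≤ e)
    (he : e ≤ (2 - 200 * δ) * N + 16) (hK : K ≤ N ^ 2 / 4) (hK0 : 0 ≤ K)
    (hD : D ≤ δ * N)
    (h : 2 * O ≤ 8 * a * N ^ 2 + e * (K + 2 * (a * N)) + 8 * N * ((D + a) * N)) :
    O ≤ (1 / 4 - δ / 2) * N ^ 3 := by
  have h1 : 8 * a * N ^ 2 ≤ 16 * δ * N ^ 3 := by
    have : 8 * a * N ^ 2 ≤ 8 * (2 * δ * N) * N ^ 2 :=
      mul_le_mul_of_nonneg_right (by linarith) (by positivity)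
    calc 8 * a * N ^ 2 ≤ 8 * (2 * δ * N) * N ^ 2 := this
      _ = 16 * δ * N ^ 3 := by ring
  have h2 : K + 2 * (a * N) ≤ (1 / 4 + 4 * δ) * N ^ 2 := by
    have h3 : a * N ≤ (2 * δ * N) * N := mul_le_mul_of_nonneg_right ha hN0.le
    have h4 : (2 * δ * N) * N = 2 * δ * N ^ 2 := by ring
    rw [h4] at h3
    have h5 : (1 / 4 + 4 * δ) * N ^ 2 = N ^ 2 / 4 + 2 * (2 * δ * N ^ 2) := by ring
    rw [h5]
    linarith
  have h20 : 0 ≤ K + 2 * (a * N) := by positivity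
  have h3 : e * (K + 2 * (a * N)) ≤ ((2 - 200 * δ) * N + 16) * ((1 / 4 + 4 * δ) * N ^ 2) := by
    refine mul_le_mul he h2 h20 ?_
    have : 0 ≤ (2 - 200 * δ) * N := mul_nonneg (by linarith) hN0.le
    linarith
  have h4 : 8 * N * ((D + a) * N) ≤ 24 * δ * N ^ 3 := by
    have h5 : (D + a) * N ≤ (3 * δ * N) * N := mul_le_mul_of_nonneg_right (by linarith) hN0.le
    have h6 : 8 * N * ((D + a) * N) ≤ 8 * N * ((3 * δ * N) * N) :=
      mul_le_mul_of_nonneg_left h5 (by positivity)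
    calc 8 * N * ((D + a) * N) ≤ 8 * N * ((3 * δ * N) * N) := h6
      _ = 24 * δ * N ^ 3 := by ring
  have g1 : 0 ≤ N ^ 2 * (δ * N - 5) := mul_nonneg (by positivity) (by linarith)
  have g2 : 0 ≤ N ^ 2 * (5 - (4 + 64 * δ)) := mul_nonneg (by positivity) (by linarith)
  have g3 : 0 ≤ 800 * δ ^ 2 * N ^ 3 := by positivity
  have key : 2 * O ≤ 2 * ((1 / 4 - δ / 2) * N ^ 3) := by
    have e1 : 16 * δ * N ^ 3 + ((2 - 200 * δ) * N + 16) * ((1 / 4 + 4 * δ) * N ^ 2) +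
        24 * δ * N ^ 3 + (N ^ 2 * (δ * N - 5) + N ^ 2 * (5 - (4 + 64 * δ)) +
        800 * δ ^ 2 * N ^ 3) = 2 * ((1 / 4 - δ / 2) * N ^ 3) := by ring
    linarith
  linarith

theorem tT0R (hPar : S_Par) (hOrdR : S_OrdR) (hCII1 : S_CII1) : S_T0R := by
  intro δ hδ hδ1
  refine ⟨⌈5 / δ⌉₊ + 1, ?_⟩
  intro n hn G hG S hS hC he
  have hN5 : 5 ≤ δ * (n : ℝ) := by
    have h1 : (5 / δ : ℝ) ≤ n := by
      have h2 : ((⌈5 / δ⌉₊ : ℕ) : ℝ) ≤ n := by exact_mod_cast (by omega : ⌈5 / δ⌉₊ ≤ n)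
      exact (Nat.le_ceil _).trans h2
    rw [div_le_iff₀ hδ] at h1
    linarith
  have hN0 : (0 : ℝ) < n := by
    have : 0 < n := by omega
    exact_mod_cast this
  have hS0 : (0 : ℝ) ≤ (S.card : ℝ) := Nat.cast_nonneg _
  have h2S : 2 * S.card < n := by
    have h1 : (2 : ℝ) * S.card < n := by
      have h3 : 2 * δ * (n : ℝ) ≤ 2 * (1 / 1000) * n :=
        mul_le_mul_of_nonneg_right (by linarith) hN0.le
      linarith
    exact_mod_cast h1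
  obtain ⟨S', hSS', hS'c, ⟨k, hk⟩, heS'⟩ := hPar n G hG S h2S
  have hCb : Cb G (S'ᶜ)ᶜ ⌊δ * n⌋₊ := by
    intro C hCd hconn
    rw [compl_compl] at hCd
    exact Nat.le_floor (hC C (hCd.mono_right hSS') hconn)
  have hr := hOrdR n G S'ᶜ ⌊δ * n⌋₊ hCb
  rw [hk] at hr
  obtain ⟨r, hr1, hr2⟩ := hr
  have hmain := hCII1 n G hG S' ∅ k ⌊δ * n⌋₊ 0 r hr1 (Finset.disjoint_empty_left _)
    (fun i j _ _ h => by
      rcases h with h | h
      · exact absurd h (Finset.notMem_empty _)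
      · exact absurd h (Finset.notMem_empty _))
    (fun i j hij hadj _ _ => hr2 i j hij hadj)
  rw [T0R_empty, mul_zero, zero_mul, add_zero] at hmain
  have hmain' : 2 * (OCN G : ℝ) ≤ 8 * (S'.card : ℝ) * (n : ℝ) ^ 2 +
      (eO G S' S'ᶜ : ℝ) * ((k : ℝ) ^ 2 + 2 * ((S'.card : ℝ) * n)) +
      8 * (n : ℝ) * (((⌊δ * n⌋₊ : ℕ) + (S'.card : ℝ)) * n) := by exact_mod_cast hmain
  have hkn : 2 * k + 1 ≤ n := by
    rw [← hk]
    exact (Finset.card_le_univ _).trans (by rw [Fintype.card_fin])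
  have hk2 : (k : ℝ) ^ 2 ≤ (n : ℝ) ^ 2 / 4 := by
    have h1 : (2 : ℝ) * k ≤ n := by exact_mod_cast (by omega : 2 * k ≤ n)
    have h2 : ((2 : ℝ) * k) ^ 2 ≤ (n : ℝ) ^ 2 := pow_le_pow_left₀ (by positivity) h1 2
    have h3 : ((2 : ℝ) * k) ^ 2 = 4 * (k : ℝ) ^ 2 := by ring
    rw [h3] at h2
    linarith
  refine T0R_arith δ n S'.card (eO G S' S'ᶜ) ((k : ℝ) ^ 2) (⌊δ * n⌋₊ : ℕ) (OCN G) hδ hδ1 hN5 hN0
    (Nat.cast_nonneg _) ?_ (Nat.cast_nonneg _) ?_ hk2 (by positivity)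
    (Nat.floor_le (by positivity)) hmain'
  · have h1 : (S'.card : ℝ) ≤ S.card + 1 := by exact_mod_cast hS'c
    linarith
  · have h1 : (eO G S' S'ᶜ : ℝ) ≤ eO G S Sᶜ + 16 := by exact_mod_cast heS'
    linarith

end Pool.Agent.Lib.MP_00ece3_co.EX
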