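import Pool.Agent.Lib.MP_00ece3_co.EX.SpecA

/-! T2alt. -/

set_option autoImplicit false

namespace Pool.Agent.Lib.MP_00ece3_co.EX

open Pool.Agent.Lib.MP_00ece3_co

private theorem T2alt_symm (x u b d : ℝ × ℝ) (h : Tri x u b d) : Tri x u d b := by
  have e1 : orient u d x = -orient d u x := by
    unfold orient
    ring
  have e2 : orient d b x = -orient b d x := by
    unfold orient
    ring
  have e3 : orient b u x = -orient u b x := by
    unfold orient
    ring
  unfold Tri at h ⊢
  rw [e1, e2, e3]
  rcases h with ⟨h1, h2, h3⟩ | ⟨h1, h2, h3⟩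
  · right
    exact ⟨by linarith, by linarith, by linarith⟩
  · left
    exact ⟨by linarith, by linarith, by linarith⟩

private theorem T2alt_nn (x u b d : ℝ × ℝ) : 0 ≤ tri x u b d := by
  unfold tri
  split_ifs <;> norm_num

private theorem T2alt_comm (x u b d : ℝ × ℝ) : tri x u b d = tri x u d b := by
  unfold tri
  by_cases hb : Tri x u b d
  · rw [if_pos hb, if_pos (T2alt_symm x u b d hb)]
  · rw [if_neg hb, if_neg fun h' => hb (T2alt_symm x u d b h')]

private theorem T2alt_side (u a b c : ℝ × ℝ) (h : Tri a u b c) :
    orient u a b * orient u a c < 0 := by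
  have e1 : orient u b a = -orient u a b := by
    unfold orient
    ring
  have e2 : orient c u a = orient u a c := by
    unfold orient
    ring
  rcases h with ⟨h1, _, h3⟩ | ⟨h1, _, h3⟩
  · rw [e1] at h1
    rw [e2] at h3
    exact mul_neg_of_neg_of_pos (by linarith) h3
  · rw [e1] at h1
    rw [e2] at h3
    exact mul_neg_of_pos_of_neg (by linarith) h3

theorem tT2alt (hFive : S_Five) : S_T2alt := by
  intro m P u hP hG hC
  classical
  by_cases hex : ∃ a b c, Tri (P a) u (P b) (P c)
  swap
  · left
    push Not at hex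
    unfold T2
    refine Finset.sum_eq_zero fun a _ => Finset.sum_eq_zero fun b _ =>
      Finset.sum_eq_zero fun d _ => ?_
    exact if_neg (hex a b d)
  right
  obtain ⟨a, b, c, h⟩ := hex
  have hbc : b ≠ c := by
    rintro rfl
    have e : orient (P b) (P b) (P a) = 0 := by
      unfold orient
      ring
    rcases h with ⟨_, h2, _⟩ | ⟨_, h2, _⟩ <;> rw [e] at h2 <;> exact lt_irrefl _ h2
  have hab : a ≠ b := by
    rintro rfl
    have e : orient u (P a) (P a) = 0 := by
      unfold orient
      ring
    rcases h with ⟨h1, _, _⟩ | ⟨h1, _, _⟩ <;> rw [e] at h1 <;> exact lt_irrefl _ h1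
  have hac : a ≠ c := by
    rintro rfl
    have e : orient (P a) u (P a) = 0 := by
      unfold orient
      ring
    rcases h with ⟨_, _, h3⟩ | ⟨_, _, h3⟩ <;> rw [e] at h3 <;> exact lt_irrefl _ h3
  -- every other point is in a pair with `b` or `c`
  have key : ∀ e, e ≠ a → 1 ≤ tri (P a) u (P b) (P e) + tri (P a) u (P c) (P e) := by
    intro e hea
    by_cases heb : e = b
    · subst heb
      have h1 : tri (P a) u (P c) (P e) = 1 := if_pos (T2alt_symm _ _ _ _ h)
      have h2 := T2alt_nn (P a) u (P e) (P e)
      omega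
    by_cases hec : e = c
    · subst hec
      have h1 : tri (P a) u (P b) (P e) = 1 := if_pos h
      have h2 := T2alt_nn (P a) u (P e) (P e)
      omega
    have hs := T2alt_side _ _ _ _ h
    have he0 : orient u (P a) (P e) ≠ 0 := by
      have e1 : orient u (P a) (P e) = orient (P a) (P e) u := by
        unfold orient
        ring
      rw [e1]
      exact hP a e (Ne.symm hea)
    have g1 : orient (P a) (P b) (P e) ≠ 0 := hG a b e hab (Ne.symm hea) (Ne.symm heb)
    have g2 : orient (P a) (P c) (P e) ≠ 0 := hG a c e hac (Ne.symm hea) (Ne.symm hec)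
    rcases lt_or_ge 0 (orient u (P a) (P c) * orient u (P a) (P e)) with h1 | h1
    · have h2 := hFive u (P a) (P b) (P c) (P e) h h1 g1 g2 (hC a b c e)
      have h3 : tri (P a) u (P b) (P e) = 1 := if_pos h2
      have h4 := T2alt_nn (P a) u (P c) (P e)
      omega
    · have h5 : 0 < orient u (P a) (P b) * orient u (P a) (P e) := by
        have hb : orient u (P a) (P b) ≠ 0 := by
          intro h0
          rw [h0, zero_mul] at hs
          exact lt_irrefl _ hs
        have hc : orient u (P a) (P c) ≠ 0 := by
          intro h0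
          rw [h0, mul_zero] at hs
          exact lt_irrefl _ hs
        rcases lt_or_gt_of_ne hc with hc' | hc'
        · have hb' : 0 < orient u (P a) (P b) := by
            by_contra hn
            have := mul_nonneg_of_nonpos_of_nonpos (not_lt.1 hn) hc'.le
            linarith
          have he' : 0 < orient u (P a) (P e) := by
            rcases lt_or_gt_of_ne he0 with h6 | h6
            · have := mul_pos_of_neg_of_neg hc' h6
              linarith
            · exact h6
          exact mul_pos hb' he'
        · have hb' : orient u (P a) (P b) < 0 := by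
            by_contra hn
            have := mul_nonneg (not_lt.1 hn) hc'.le
            linarith
          have he' : orient u (P a) (P e) < 0 := by
            rcases lt_or_gt_of_ne he0 with h6 | h6
            · exact h6
            · have := mul_pos hc' h6
              linarith
          exact mul_pos_of_neg_of_neg hb' he'
      have h2 := hFive u (P a) (P c) (P b) (P e) (T2alt_symm _ _ _ _ h) h5 g2 g1 (hC a c b e)
      have h3 : tri (P a) u (P c) (P e) = 1 := if_pos h2
      have h4 := T2alt_nn (P a) u (P b) (P e)
      omega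
  let g : Fin m → ℤ := fun b' => ∑ d, tri (P a) u (P b') (P d)
  have hgnn : ∀ b', 0 ≤ g b' := fun b' => Finset.sum_nonneg fun d _ => T2alt_nn _ _ _ _
  have hcard : ((Finset.univ.erase a : Finset (Fin m)).card : ℤ) = (m : ℤ) - 1 := by
    rw [Finset.card_erase_of_mem (Finset.mem_univ _), Finset.card_univ, Fintype.card_fin]
    have : 0 < m := Fin.pos a
    push_cast [Nat.cast_sub this]
    ring
  have hgbc : (m : ℤ) - 1 ≤ g b + g c := by
    have e1 : g b + g c = ∑ d, (tri (P a) u (P b) (P d) + tri (P a) u (P c) (P d)) :=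
      Finset.sum_add_distrib.symm
    rw [e1]
    calc (m : ℤ) - 1 = ∑ _d ∈ Finset.univ.erase a, (1 : ℤ) := by
          rw [Finset.sum_const, nsmul_eq_mul, mul_one, hcard]
      _ ≤ ∑ d ∈ Finset.univ.erase a, (tri (P a) u (P b) (P d) + tri (P a) u (P c) (P d)) :=
          Finset.sum_le_sum fun d hd => key d (Finset.ne_of_mem_erase hd)
      _ ≤ _ := Finset.sum_le_sum_of_subset_of_nonneg (Finset.subset_univ _)
          fun d _ _ => add_nonneg (T2alt_nn _ _ _ _) (T2alt_nn _ _ _ _)
  have hg1 : ∀ b', b' ≠ a → 1 ≤ g b' := by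
    intro b' hb'
    have h1 := key b' hb'
    have h2 : tri (P a) u (P b') (P b) + tri (P a) u (P b') (P c) ≤ g b' := by
      rw [← Finset.sum_pair (f := fun d => tri (P a) u (P b') (P d)) hbc]
      exact Finset.sum_le_sum_of_subset_of_nonneg (Finset.subset_univ _)
        fun d _ _ => T2alt_nn _ _ _ _
    rw [T2alt_comm (P a) u (P b') (P b), T2alt_comm (P a) u (P b') (P c)] at h2
    linarith
  have hR : (m : ℤ) - 3 ≤ ∑ b' ∈ (Finset.univ.erase b).erase c, g b' := by
    have hc1 : (m : ℤ) - 3 ≤ ((((Finset.univ.erase b).erase c).erase a : Finset (Fin m)).card : ℤ) := by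
      have h1 := Finset.pred_card_le_card_erase (s := (Finset.univ.erase b).erase c) (a := a)
      have h2 := Finset.pred_card_le_card_erase (s := (Finset.univ.erase b : Finset (Fin m))) (a := c)
      have h3 := Finset.pred_card_le_card_erase (s := (Finset.univ : Finset (Fin m))) (a := b)
      rw [Finset.card_univ, Fintype.card_fin] at h3
      omega
    calc (m : ℤ) - 3 ≤ ∑ _b' ∈ ((Finset.univ.erase b).erase c).erase a, (1 : ℤ) := by
          rw [Finset.sum_const, nsmul_eq_mul, mul_one]
          exact hc1
      _ ≤ ∑ b' ∈ ((Finset.univ.erase b).erase c).erase a, g b' :=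
          Finset.sum_le_sum fun d hd => hg1 d (Finset.ne_of_mem_erase hd)
      _ ≤ _ := Finset.sum_le_sum_of_subset_of_nonneg (Finset.erase_subset _ _)
          fun d _ _ => hgnn d
  have hsum : ∑ b', g b' = g b + (g c + ∑ b' ∈ (Finset.univ.erase b).erase c, g b') := by
    rw [Finset.add_sum_erase _ _ (Finset.mem_erase.2 ⟨Ne.symm hbc, Finset.mem_univ c⟩),
      Finset.add_sum_erase _ _ (Finset.mem_univ b)]
  have hT : ∑ b', g b' ≤ T2 P u :=
    Finset.single_le_sum (f := fun y => ∑ b, ∑ d, tri (P y) u (P b) (P d))
      (fun y _ => Finset.sum_nonneg fun b _ => Finset.sum_nonneg fun d _ => T2alt_nn _ _ _ _)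
      (Finset.mem_univ a)
  linarith

end Pool.Agent.Lib.MP_00ece3_co.EX
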