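import Pool.Agent.Lib.MP_00ece3_co.EX.SpecA

/-! T2two (helper59). -/

set_option autoImplicit false

namespace Pool.Agent.Lib.MP_00ece3_co.EX

open Pool.Agent.Lib.MP_00ece3_co

private theorem T2two_self (a b : ℝ × ℝ) : orient a a b = 0 := by
  unfold orient
  ring

private theorem T2two_self' (a b : ℝ × ℝ) : orient a b a = 0 := by
  unfold orient
  ring

private theorem T2two_self'' (a b : ℝ × ℝ) : orient b a a = 0 := by
  unfold orient
  ring

private theorem T2two_symm (x u b d : ℝ × ℝ) (h : Tri x u b d) : Tri x u d b := by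
  have e1 : orient u d x = -orient d u x := by
    unfold orient
    ring
  have e2 : orient d b x = -orient b d x := by
    unfold orient
    ring
  have e3 : orient b u x = -orient u b x := by
    unfold orient
    ring
  unfold Tri at h ⊢
  rw [e1, e2, e3]
  rcases h with ⟨h1, h2, h3⟩ | ⟨h1, h2, h3⟩
  · right
    exact ⟨by linarith, by linarith, by linarith⟩
  · left
    exact ⟨by linarith, by linarith, by linarith⟩

theorem tT2two (hTriIn : S_TriIn) : S_T2two := by
  intro m P u hP hC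
  classical
  unfold Cvx at hC
  push Not at hC
  obtain ⟨x, a, b, c, h⟩ := hC
  have hne : x ≠ a ∧ x ≠ b ∧ x ≠ c := by
    refine ⟨?_, ?_, ?_⟩
    · rintro rfl
      rcases h with ⟨h1, _, h3⟩ | ⟨h1, _, h3⟩ <;> rw [T2two_self'] at h1 <;> exact lt_irrefl _ h1
    · rintro rfl
      rcases h with ⟨h1, _, h3⟩ | ⟨h1, _, h3⟩ <;> rw [T2two_self''] at h1 <;> exact lt_irrefl _ h1
    · rintro rfl
      rcases h with ⟨_, _, h3⟩ | ⟨_, _, h3⟩ <;> rw [T2two_self'] at h3 <;> exact lt_irrefl _ h3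
  have key : ∃ p q : Fin m, p ≠ q ∧ Tri (P x) u (P p) (P q) := by
    have h1 : ∀ p q : Fin m, Tri (P x) u (P p) (P q) → p ≠ q := by
      rintro p q h2 rfl
      rcases h2 with ⟨_, h3, _⟩ | ⟨_, h3, _⟩ <;> rw [T2two_self] at h3 <;> exact lt_irrefl _ h3
    rcases hTriIn (P x) (P a) (P b) (P c) u (hP x a hne.1) (hP x b hne.2.1) (hP x c hne.2.2) h
      with h2 | h2 | h2
    · exact ⟨a, b, h1 _ _ h2, h2⟩
    · exact ⟨b, c, h1 _ _ h2, h2⟩
    · exact ⟨c, a, h1 _ _ h2, h2⟩
  obtain ⟨p, q, hpq, h1⟩ := key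
  have h2 := T2two_symm _ _ _ _ h1
  have hnn : ∀ y s t : Fin m, 0 ≤ tri (P y) u (P s) (P t) := by
    intro y s t
    unfold tri
    split_ifs <;> norm_num
  have h3 : tri (P x) u (P p) (P q) = 1 := if_pos h1
  have h4 : tri (P x) u (P q) (P p) = 1 := if_pos h2
  have h5 : ∀ s t : Fin m, tri (P x) u (P s) (P t) ≤ ∑ d, tri (P x) u (P s) (P d) := fun s t =>
    Finset.single_le_sum (f := fun d => tri (P x) u (P s) (P d)) (fun d _ => hnn x s d)
      (Finset.mem_univ t)
  have h6 : (∑ d, tri (P x) u (P p) (P d)) + ∑ d, tri (P x) u (P q) (P d) ≤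
      ∑ b, ∑ d, tri (P x) u (P b) (P d) := by
    rw [← Finset.sum_pair (f := fun b => ∑ d, tri (P x) u (P b) (P d)) hpq]
    exact Finset.sum_le_sum_of_subset_of_nonneg (Finset.subset_univ _)
      fun b _ _ => Finset.sum_nonneg fun d _ => hnn x b d
  have h7 : ∑ b, ∑ d, tri (P x) u (P b) (P d) ≤ T2 P u :=
    Finset.single_le_sum (f := fun y => ∑ b, ∑ d, tri (P y) u (P b) (P d))
      (fun y _ => Finset.sum_nonneg fun b _ => Finset.sum_nonneg fun d _ => hnn y b d)
      (Finset.mem_univ x)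
  have h8 := h5 p q
  have h9 := h5 q p
  linarith

end Pool.Agent.Lib.MP_00ece3_co.EX
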