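import Pool.Agent.Lib.MP_00ece3_co.EX.SpecC

/-!
# Project EX, module Tr: transitivity of minors
-/

set_option autoImplicit false

namespace Pool.Agent.Lib.MP_00ece3_co.EX

open Pool.Agent.Lib.MP_00ece3_co

theorem tTr : S_Tr := by
  rintro U V W H J G ⟨B, hB1, hB2, hB3⟩ ⟨D, hD1, hD2, hD3⟩
  have hin : ∀ (h : U) (v : V), v ∈ B h → D v ⊆ ⋃ v ∈ B h, D v :=
    fun h v hv => Set.subset_biUnion_of_mem hv
  refine ⟨fun h => ⋃ v ∈ B h, D v, ?_, ?_, ?_⟩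
  · intro h
    have r1 : ∀ (v : V) (hv : v ∈ B h) (x y : W) (hx : x ∈ D v) (hy : y ∈ D v),
        (G.induce (⋃ v ∈ B h, D v)).Reachable ⟨x, hin h v hv hx⟩ ⟨y, hin h v hv hy⟩ := by
      intro v hv x y hx hy
      have h1 := (hD1 v).preconnected ⟨x, hx⟩ ⟨y, hy⟩
      exact h1.map (SimpleGraph.induceHomOfLE G (hin h v hv)).toHom
    have r2 : ∀ v v' : B h, (J.induce (B h)).Reachable v v' →
        ∀ (x y : W) (hx : x ∈ D v) (hy : y ∈ D v'),
        (G.induce (⋃ v ∈ B h, D v)).Reachable ⟨x, hin h v v.2 hx⟩ ⟨y, hin h v' v'.2 hy⟩ := by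
      rintro v v' ⟨p⟩
      induction p with
      | nil =>
        intro x y hx hy
        exact r1 _ (Subtype.prop _) x y hx hy
      | cons hadj p ih =>
        intro x y hx hy
        obtain ⟨a, ha, b, hb, hab⟩ := hD3 _ _ (SimpleGraph.comap_adj.1 hadj)
        have h2 : (G.induce (⋃ v ∈ B h, D v)).Adj ⟨a, hin h _ (Subtype.prop _) ha⟩
            ⟨b, hin h _ (Subtype.prop _) hb⟩ := SimpleGraph.comap_adj.2 hab
        exact (r1 _ (Subtype.prop _) x a hx ha).trans (h2.reachable.trans (ih b y hb hy))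
    rw [SimpleGraph.connected_iff]
    constructor
    · rintro ⟨x, hx⟩ ⟨y, hy⟩
      obtain ⟨v, hv, hxv⟩ := Set.mem_iUnion₂.1 hx
      obtain ⟨v', hv', hyv⟩ := Set.mem_iUnion₂.1 hy
      exact r2 ⟨v, hv⟩ ⟨v', hv'⟩ ((hB1 h).preconnected _ _) x y hxv hyv
    · obtain ⟨v⟩ := (hB1 h).nonempty
      obtain ⟨x⟩ := (hD1 v).nonempty
      exact ⟨⟨x, hin h v v.2 x.2⟩⟩
  · intro h h' hne
    rw [Set.disjoint_left]
    intro x hx hx'
    obtain ⟨v, hv, hxv⟩ := Set.mem_iUnion₂.1 hx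
    obtain ⟨v', hv', hxv'⟩ := Set.mem_iUnion₂.1 hx'
    by_cases hvv : v = v'
    · subst hvv
      exact Set.disjoint_left.1 (hB2 h h' hne) hv hv'
    · exact Set.disjoint_left.1 (hD2 v v' hvv) hxv hxv'
  · intro h h' hadj
    obtain ⟨v, hv, v', hv', hvv⟩ := hB3 h h' hadj
    obtain ⟨a, ha, b, hb, hab⟩ := hD3 v v' hvv
    exact ⟨a, hin h v hv ha, b, hin h' v' hv' hb, hab⟩

end Pool.Agent.Lib.MP_00ece3_co.EX
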