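import Pool.Agent.Lib.MP_00ece3_co.EX.SpecA

set_option autoImplicit false

namespace Pool.Agent.Lib.MP_00ece3_co.EX

open Pool.Agent.Lib.MP_00ece3_co

/-- A point inside a triangle is inside one of the three triangles with a further vertex `u`. -/
theorem tTriIn : S_TriIn := by
  intro x a b c u hA hB hC h
  unfold Tri at h ⊢
  have e1 : orient u a x = -orient x a u := by unfold orient; ring
  have e2 : orient u b x = -orient x b u := by unfold orient; ring
  have e3 : orient u c x = -orient x c u := by unfold orient; ring
  have f1 : orient b u x = orient x b u := by unfold orient; ring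
  have f2 : orient c u x = orient x c u := by unfold orient; ring
  have f3 : orient a u x = orient x a u := by unfold orient; ring
  have key : orient b c x * orient x a u + orient c a x * orient x b u +
      orient a b x * orient x c u = 0 := by unfold orient; ring
  rw [e1, e2, e3, f1, f2, f3]
  generalize orient x a u = A at *
  generalize orient x b u = B at *
  generalize orient x c u = C at *
  generalize orient a b x = p at *
  generalize orient b c x = q at *
  generalize orient c a x = r at *
  rcases h with ⟨hp, hq, hr⟩ | ⟨hp, hq, hr⟩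
  · rcases lt_or_gt_of_ne hA with hA | hA <;> rcases lt_or_gt_of_ne hB with hB | hB <;>
      rcases lt_or_gt_of_ne hC with hC | hC
    · have h1 := mul_neg_of_pos_of_neg hq hA
      have h2 := mul_neg_of_pos_of_neg hr hB
      have h3 := mul_neg_of_pos_of_neg hp hC
      linarith
    · exact Or.inr (Or.inl (Or.inl ⟨by linarith, hq, hC⟩))
    · exact Or.inl (Or.inl ⟨by linarith, hp, hB⟩)
    · exact Or.inl (Or.inl ⟨by linarith, hp, hB⟩)
    · exact Or.inr (Or.inr (Or.inl ⟨by linarith, hr, hA⟩))
    · exact Or.inr (Or.inl (Or.inl ⟨by linarith, hq, hC⟩))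
    · exact Or.inr (Or.inr (Or.inl ⟨by linarith, hr, hA⟩))
    · have h1 := mul_pos hq hA
      have h2 := mul_pos hr hB
      have h3 := mul_pos hp hC
      linarith
  · rcases lt_or_gt_of_ne hA with hA | hA <;> rcases lt_or_gt_of_ne hB with hB | hB <;>
      rcases lt_or_gt_of_ne hC with hC | hC
    · have h1 := mul_pos_of_neg_of_neg hq hA
      have h2 := mul_pos_of_neg_of_neg hr hB
      have h3 := mul_pos_of_neg_of_neg hp hC
      linarith
    · exact Or.inr (Or.inr (Or.inr ⟨by linarith, hr, hA⟩))
    · exact Or.inr (Or.inl (Or.inr ⟨by linarith, hq, hC⟩))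
    · exact Or.inr (Or.inr (Or.inr ⟨by linarith, hr, hA⟩))
    · exact Or.inl (Or.inr ⟨by linarith, hp, hB⟩)
    · exact Or.inl (Or.inr ⟨by linarith, hp, hB⟩)
    · exact Or.inr (Or.inl (Or.inr ⟨by linarith, hq, hC⟩))
    · have h1 := mul_neg_of_neg_of_pos hq hA
      have h2 := mul_neg_of_neg_of_pos hr hB
      have h3 := mul_neg_of_neg_of_pos hp hC
      linarith

end Pool.Agent.Lib.MP_00ece3_co.EX
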