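import Pool.Agent.Lib.MP_00ece3_co.EX.SpecB

/-!
MP_00ece3_co, EX/UpK: the upper bound for the subgraphs of `K_2 + P_m` (author helper97).
-/

set_option autoImplicit false

namespace Pool.Agent.Lib.MP_00ece3_co.EX

open Pool.Agent.Lib.MP_00ece3_co

private lemma UpK_nn (a b x y : ℝ × ℝ) : 0 ≤ sp a b x y := by
  unfold sp
  split_ifs <;> norm_num

private lemma UpK_comm (a b x y : ℝ × ℝ) : sp a b x y = sp a b y x := by
  unfold sp Sp
  rw [mul_comm]

private lemma UpK_N2 {m : ℕ} (P : Fin m → ℝ × ℝ) (u v x y : ℝ × ℝ) : 0 ≤ N2 P u v x y := by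
  have h1 : 0 ≤ ∑ a, ∑ b, sp (P a) (P b) x y :=
    Finset.sum_nonneg fun a _ => Finset.sum_nonneg fun b _ => UpK_nn _ _ _ _
  have h2 : 0 ≤ ∑ a, sp (P a) u x y := Finset.sum_nonneg fun a _ => UpK_nn _ _ _ _
  have h3 : 0 ≤ ∑ a, sp (P a) v x y := Finset.sum_nonneg fun a _ => UpK_nn _ _ _ _
  have h4 := UpK_nn u v x y
  unfold N2
  linarith

private lemma UpK_N2c {m : ℕ} (P : Fin m → ℝ × ℝ) (u v x y : ℝ × ℝ) :
    N2 P u v x y = N2 P u v y x := by
  unfold N2
  simp only [UpK_comm _ _ x y]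

theorem tUpK (hCrG : S_CrG) (hKH : S_KH) (hKPath : S_KPath) : S_UpK := by
  classical
  intro n m G u0 v0 r hm huv hr hx hadj
  have h1 := hCrG n m G u0 v0 r huv hr hx
  have h2 := hKH m (by omega)
  have h3 := hKPath m (by omega)
  set N : ℝ × ℝ → ℝ × ℝ → ℤ := fun x y => N2 (kP m) (kU m) (kV m) x y with hN
  have hnn : ∀ x y, 0 ≤ N x y := fun x y => UpK_N2 _ _ _ _ _
  have hle : ∀ (p : Prop) (x y : ℝ × ℝ), (@ite ℤ p (Classical.propDecidable p) (N x y) 0) ≤
      N x y := by
    intro p x y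
    split_ifs
    · exact le_rfl
    · exact hnn x y
  have e1 : ∑ i, (if G.Adj u0 (r i) then N (kP m i) (kU m) else 0) ≤
      ∑ i, N (kP m i) (kU m) := Finset.sum_le_sum fun i _ => by
    split_ifs
    · exact le_rfl
    · exact hnn _ _
  have e2 : ∑ i, (if G.Adj v0 (r i) then N (kP m i) (kV m) else 0) ≤
      ∑ i, N (kP m i) (kV m) := Finset.sum_le_sum fun i _ => by
    split_ifs
    · exact le_rfl
    · exact hnn _ _
  have e3 : (if G.Adj u0 v0 then N (kU m) (kV m) else 0) ≤ N (kU m) (kV m) := by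
    split_ifs
    · exact le_rfl
    · exact hnn _ _
  have e4 : ∑ i, ∑ j, (if G.Adj (r i) (r j) then N (kP m i) (kP m j) else 0) ≤
      2 * pathSum (fun i j => N (kP m i) (kP m j)) := by
    have e5 : ∀ i j : Fin m, (if G.Adj (r i) (r j) then N (kP m i) (kP m j) else 0) ≤
        (if (i : ℕ) + 1 = j then N (kP m i) (kP m j) else 0) +
          (if (j : ℕ) + 1 = i then N (kP m j) (kP m i) else 0) := by
      intro i j
      have n1 := hnn (kP m i) (kP m j)
      have n2 := hnn (kP m j) (kP m i)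
      by_cases ha : G.Adj (r i) (r j)
      · rw [if_pos ha]
        rcases lt_trichotomy i j with hij | hij | hij
        · rw [if_pos (hadj i j hij ha).symm]
          split_ifs <;> linarith
        · subst hij
          exact absurd ha (G.loopless.irrefl _)
        · rw [if_pos (hadj j i hij ha.symm).symm]
          have e6 : N (kP m i) (kP m j) = N (kP m j) (kP m i) := UpK_N2c _ _ _ _ _
          rw [e6]
          split_ifs <;> linarith
      · rw [if_neg ha]
        split_ifs <;> linarith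
    have e6 : ∑ i, ∑ j, (if G.Adj (r i) (r j) then N (kP m i) (kP m j) else 0) ≤
        ∑ i : Fin m, ∑ j : Fin m, ((if (i : ℕ) + 1 = j then N (kP m i) (kP m j) else 0) +
          (if (j : ℕ) + 1 = i then N (kP m j) (kP m i) else 0)) :=
      Finset.sum_le_sum fun i _ => Finset.sum_le_sum fun j _ => e5 i j
    refine e6.trans ?_
    simp only [Finset.sum_add_distrib]
    rw [Finset.sum_comm (f := fun i j : Fin m =>
      if (j : ℕ) + 1 = i then N (kP m j) (kP m i) else 0), two_mul]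
    exact le_rfl
  have e7 : H2 (kP m) (kU m) (kV m) = ∑ i, N (kP m i) (kU m) + ∑ i, N (kP m i) (kV m) +
      N (kU m) (kV m) := rfl
  have h4 : (4 * OCN G : ℤ) ≤ 2 * H2 (kP m) (kU m) (kV m) +
      2 * pathSum (fun i j => N (kP m i) (kP m j)) := by
    rw [e7]
    have h5 : (4 * OCN G : ℤ) ≤
      2 * ∑ i, (if G.Adj u0 (r i) then N (kP m i) (kU m) else 0) +
      2 * ∑ i, (if G.Adj v0 (r i) then N (kP m i) (kV m) else 0) +
      2 * (if G.Adj u0 v0 then N (kU m) (kV m) else 0) +
      ∑ i, ∑ j, (if G.Adj (r i) (r j) then N (kP m i) (kP m j) else 0) := by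
      convert h1 using 1
    linarith
  rw [h3] at h4
  have h6 : (F4 m : ℤ) = if m % 2 = 1 then (m : ℤ) ^ 3 + 7 * m - 12 else
      (m : ℤ) ^ 3 + 6 * m - 4 := by
    unfold F4
    split_ifs with hodd
    · rw [Nat.cast_sub (by omega)]
      push_cast
      ring
    · rw [Nat.cast_sub (by omega)]
      push_cast
      ring
  have h7 : (4 * OCN G : ℤ) ≤ F4 m := by
    rw [h6]
    split_ifs at h2 h4 ⊢ with hodd
    · linarith
    · linarith
  exact_mod_cast h7

end Pool.Agent.Lib.MP_00ece3_co.EX
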