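import Pool.Agent.Lib.MP_00ece3_co.EX.SpecB

/-!
# Project EX: UpN

Graphs in which `k ≥ 1` vertices are not joined to both hubs: the missing hub edges save at least
`2 k m² / 33`, more than all extra edges cost.
-/

set_option autoImplicit false

namespace Pool.Agent.Lib.MP_00ece3_co.EX

open Pool.Agent.Lib.MP_00ece3_co

namespace UpNAux

variable {m : ℕ}

private lemma sp_nonneg (a b x y : ℝ × ℝ) : 0 ≤ sp a b x y := by
  unfold sp
  split_ifs
  · exact zero_le_one
  · exact le_rfl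

private lemma sp_comm (a b x y : ℝ × ℝ) : sp a b x y = sp a b y x := by
  unfold sp Sp
  rw [mul_comm]

private lemma N2_nonneg (P : Fin m → ℝ × ℝ) (u v x y : ℝ × ℝ) : 0 ≤ N2 P u v x y := by
  unfold N2
  have h1 : 0 ≤ ∑ a, ∑ b, sp (P a) (P b) x y :=
    Finset.sum_nonneg fun a _ => Finset.sum_nonneg fun b _ => sp_nonneg _ _ _ _
  have h2 : 0 ≤ ∑ a, sp (P a) u x y := Finset.sum_nonneg fun a _ => sp_nonneg _ _ _ _
  have h3 : 0 ≤ ∑ a, sp (P a) v x y := Finset.sum_nonneg fun a _ => sp_nonneg _ _ _ _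
  have h4 := sp_nonneg u v x y
  omega

private lemma N2_comm (P : Fin m → ℝ × ℝ) (u v x y : ℝ × ℝ) : N2 P u v x y = N2 P u v y x := by
  have h : ∀ a b, sp a b x y = sp a b y x := fun a b => sp_comm a b x y
  unfold N2
  simp only [h]

open Classical in
private lemma hub (au av : Fin m → Prop) (X Y : Fin m → ℤ) (c : ℤ) (hc : 0 ≤ c)
    (hX : ∀ i, c ≤ 33 * X i) (hY : ∀ i, c ≤ 33 * Y i) :
    33 * (∑ i, (if au i then X i else 0) + ∑ i, (if av i then Y i else 0)) +
      c * ((Finset.univ.filter (fun i => ¬ (au i ∧ av i))).card : ℤ) ≤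
      33 * (∑ i, X i + ∑ i, Y i) := by
  have e : (∑ i, if ¬ (au i ∧ av i) then c else 0) =
      c * ((Finset.univ.filter (fun i => ¬ (au i ∧ av i))).card : ℤ) := by
    rw [← Finset.sum_filter, Finset.sum_const, nsmul_eq_mul, mul_comm]
  rw [← e, ← Finset.sum_add_distrib, ← Finset.sum_add_distrib, Finset.mul_sum, Finset.mul_sum,
    ← Finset.sum_add_distrib]
  refine Finset.sum_le_sum fun i _ => ?_
  have h1 := hX i
  have h2 := hY i
  by_cases ha : au i <;> by_cases hb : av i <;> simp [ha, hb] <;> omega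

open Classical in
private lemma gap (G : ℤ) (hG : 0 ≤ G) :
    ∑ i : Fin m, ∑ j : Fin m, (if (i : ℕ) = 0 ∧ (j : ℕ) + 1 = m then G else 0) ≤ G := by
  rcases Nat.eq_zero_or_pos m with h0 | h0
  · subst h0
    simpa using hG
  · have e : ∀ i j : Fin m, (if (i : ℕ) = 0 ∧ (j : ℕ) + 1 = m then G else 0) =
        if i = ⟨0, h0⟩ then (if j = ⟨m - 1, Nat.sub_lt h0 one_pos⟩ then G else 0) else 0 := by
      intro i j
      have hi : i = (⟨0, h0⟩ : Fin m) ↔ (i : ℕ) = 0 := Fin.ext_iff
      have hj : j = (⟨m - 1, Nat.sub_lt h0 one_pos⟩ : Fin m) ↔ (j : ℕ) + 1 = m := by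
        rw [Fin.ext_iff]
        change (j : ℕ) = m - 1 ↔ _
        omega
      by_cases h1 : (i : ℕ) = 0 <;> by_cases h2 : (j : ℕ) + 1 = m <;> simp [hi, hj, h1, h2]
    simp only [e]
    rw [Finset.sum_comm]
    simp

open Classical in
private lemma path (A : Fin m → Fin m → Prop) (N : Fin m → Fin m → ℤ) (hN : ∀ i j, 0 ≤ N i j)
    (hs : ∀ i j, N i j = N j i) (As : ∀ i j, A i j → A j i) (Ai : ∀ i, ¬ A i i)
    (W : Finset (Fin m)) (G C : ℤ) (hG : 0 ≤ G) (hC : 0 ≤ C)
    (h : ∀ i j, i < j → A i j → (j : ℕ) = i + 1 ∨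
      ((i : ℕ) = 0 ∧ (j : ℕ) + 1 = m ∧ N i j ≤ G) ∨ (i ∈ W ∧ j ∈ W ∧ N i j ≤ C)) :
    ∑ i, ∑ j, (if A i j then N i j else 0) ≤ 2 * pathSum N + 2 * G +
      C * (((W ×ˢ W).filter (fun e => A e.1 e.2)).card : ℤ) := by
  have pt : ∀ i j, i < j → (if A i j then N i j else 0) ≤
      (if (i : ℕ) + 1 = j then N i j else 0) +
      (if (i : ℕ) = 0 ∧ (j : ℕ) + 1 = m then G else 0) +
      (if i ∈ W ∧ j ∈ W ∧ A i j then C else 0) := by
    intro i j hij
    have h1 : 0 ≤ (if (i : ℕ) + 1 = j then N i j else 0) := by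
      split_ifs
      · exact hN i j
      · exact le_rfl
    have h2 : 0 ≤ (if (i : ℕ) = 0 ∧ (j : ℕ) + 1 = m then G else 0) := by
      split_ifs
      · exact hG
      · exact le_rfl
    have h3 : 0 ≤ (if i ∈ W ∧ j ∈ W ∧ A i j then C else 0) := by
      split_ifs
      · exact hC
      · exact le_rfl
    by_cases hA : A i j
    · rw [if_pos hA]
      rcases h i j hij hA with h4 | ⟨h4, h5, h6⟩ | ⟨h4, h5, h6⟩
      · rw [if_pos h4.symm]
        omega
      · rw [if_pos (⟨h4, h5⟩ : (i : ℕ) = 0 ∧ (j : ℕ) + 1 = m)]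
        omega
      · rw [if_pos (⟨h4, h5, hA⟩ : i ∈ W ∧ j ∈ W ∧ A i j)]
        omega
    · rw [if_neg hA]
      omega
  have pt2 : ∀ i j, (if A i j then N i j else 0) ≤
      ((if (i : ℕ) + 1 = j then N i j else 0) + (if (j : ℕ) + 1 = i then N j i else 0)) +
      ((if (i : ℕ) = 0 ∧ (j : ℕ) + 1 = m then G else 0) +
        (if (j : ℕ) = 0 ∧ (i : ℕ) + 1 = m then G else 0)) +
      (if i ∈ W ∧ j ∈ W ∧ A i j then C else 0) := by
    intro i j
    have h1 : ∀ i j : Fin m, 0 ≤ (if (i : ℕ) + 1 = j then N i j else 0) := by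
      intro i j
      split_ifs
      · exact hN i j
      · exact le_rfl
    have h2 : ∀ i j : Fin m, 0 ≤ (if (i : ℕ) = 0 ∧ (j : ℕ) + 1 = m then G else 0) := by
      intro i j
      split_ifs
      · exact hG
      · exact le_rfl
    have h1a := h1 i j
    have h1b := h1 j i
    have h2a := h2 i j
    have h2b := h2 j i
    rcases lt_trichotomy i j with hij | hij | hij
    · have := pt i j hij
      omega
    · subst hij
      have h3 : 0 ≤ (if i ∈ W ∧ i ∈ W ∧ A i i then C else 0) := by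
        split_ifs
        · exact hC
        · exact le_rfl
      rw [if_neg (Ai i)]
      omega
    · have := pt j i hij
      have e1 : (if A i j then N i j else 0) = (if A j i then N j i else 0) := by
        rw [hs i j]
        exact if_congr ⟨As i j, As j i⟩ rfl rfl
      have e2 : (if i ∈ W ∧ j ∈ W ∧ A i j then C else 0) =
          (if j ∈ W ∧ i ∈ W ∧ A j i then C else 0) :=
        if_congr ⟨fun h => ⟨h.2.1, h.1, As _ _ h.2.2⟩, fun h => ⟨h.2.1, h.1, As _ _ h.2.2⟩⟩ rfl rfl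
      rw [e1, e2]
      omega
  have s1 : ∑ i : Fin m, ∑ j : Fin m, (if (i : ℕ) + 1 = j then N i j else 0) = pathSum N := rfl
  have s2 : ∑ i : Fin m, ∑ j : Fin m, (if (j : ℕ) + 1 = i then N j i else 0) = pathSum N := by
    rw [Finset.sum_comm]
    rfl
  have s3 := gap (m := m) G hG
  have s4 : ∑ i : Fin m, ∑ j : Fin m, (if (j : ℕ) = 0 ∧ (i : ℕ) + 1 = m then G else 0) ≤ G := by
    rw [Finset.sum_comm]
    exact s3
  have s5 : ∑ i : Fin m, ∑ j : Fin m, (if i ∈ W ∧ j ∈ W ∧ A i j then C else 0) =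
      C * (((W ×ˢ W).filter (fun e => A e.1 e.2)).card : ℤ) := by
    rw [← Fintype.sum_prod_type' (f := fun i j => if i ∈ W ∧ j ∈ W ∧ A i j then C else 0),
      ← Finset.sum_filter, Finset.sum_const, nsmul_eq_mul, mul_comm]
    congr 3
    ext e
    simp only [Finset.mem_filter, Finset.mem_univ, true_and, Finset.mem_product]
    tauto
  have key := Finset.sum_le_sum fun i (_ : i ∈ (Finset.univ : Finset (Fin m))) =>
    Finset.sum_le_sum fun j (_ : j ∈ (Finset.univ : Finset (Fin m))) => pt2 i j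
  simp only [Finset.sum_add_distrib] at key
  rw [s1, s2, s5] at key
  linarith

end UpNAux

theorem tUpN (hCrG : S_CrG) (hKH : S_KH) (hKPath : S_KPath) (hKGap : S_KGap) (hKHub : S_KHub)
    (hKFar : S_KFar) : S_UpN := by
  classical
  intro n m k G u0 v0 r W hm huv hr hcov hk hkm hcard hW hadj
  have c := hCrG n m G u0 v0 r huv hr hcov
  set P := kP m with hP
  set u := kU m with hu
  set v := kV m with hv
  have hkm' : (1000 : ℤ) * k ≤ m := by exact_mod_cast hkm
  have hm' : (3000 : ℤ) ≤ m := by exact_mod_cast hm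
  have hk' : (1 : ℤ) ≤ k := by exact_mod_cast hk
  have hub := UpNAux.hub (m := m) (fun i => G.Adj u0 (r i)) (fun i => G.Adj v0 (r i))
    (fun i => N2 P u v (P i) u) (fun i => N2 P u v (P i) v) (2 * (m : ℤ) ^ 2) (by positivity)
    (fun i => by
      rw [UpNAux.N2_comm P u v (P i) u]
      exact (hKHub m (by omega) i).1)
    (fun i => by
      rw [UpNAux.N2_comm P u v (P i) v]
      exact (hKHub m (by omega) i).2)
  have hcard' : ((Finset.univ.filter
      (fun i => ¬ (G.Adj u0 (r i) ∧ G.Adj v0 (r i)))).card : ℤ) = k := by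
    rw [hcard]
  rw [hcard'] at hub
  obtain ⟨Gp, hGp⟩ : ∃ Gp : ℤ, Gp = if m % 2 = 1 then 10 else 6 := ⟨_, rfl⟩
  have hGp0 : 0 ≤ Gp := by
    rw [hGp]
    split_ifs <;> norm_num
  have hpath := UpNAux.path (m := m) (fun i j => G.Adj (r i) (r j))
    (fun i j => N2 P u v (P i) (P j)) (fun i j => UpNAux.N2_nonneg _ _ _ _ _)
    (fun i j => UpNAux.N2_comm _ _ _ _ _) (fun i j h => h.symm) (fun i => G.loopless.irrefl _)
    W Gp (2 * (((k : ℤ) + 2) * m)) hGp0 (by positivity) (by
      intro i j hij hA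
      rcases hadj i j hij hA with h1 | ⟨h1, h2⟩ | ⟨h1, h2, h3⟩
      · exact Or.inl h1
      · refine Or.inr (Or.inl ⟨h1, h2, ?_⟩)
        rw [hGp]
        exact hKGap m (by omega) i j h1 h2
      · refine Or.inr (Or.inr ⟨h1, h2, ?_⟩)
        obtain ⟨f1, f2⟩ := hKFar m i j hij
        rcases h3 with h3 | h3
        · refine f1.trans ?_
          have : (j : ℤ) - i + 1 ≤ k + 2 := by
            have : ((j : ℕ) : ℤ) ≤ ((i : ℕ) : ℤ) + k + 1 := by exact_mod_cast h3
            linarith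
          exact mul_le_mul_of_nonneg_left (mul_le_mul_of_nonneg_right this (by positivity))
            (by norm_num)
        · refine f2.trans ?_
          have : (m : ℤ) - (j - i) + 1 ≤ k + 2 := by
            have : (m : ℤ) + ((i : ℕ) : ℤ) ≤ ((j : ℕ) : ℤ) + k + 1 := by exact_mod_cast h3
            linarith
          exact mul_le_mul_of_nonneg_left (mul_le_mul_of_nonneg_right this (by positivity))
            (by norm_num))
  have hW' : ((((W ×ˢ W).filter (fun e => G.Adj (r e.1) (r e.2))).card : ℕ) : ℤ) ≤ 24 * k := by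
    exact_mod_cast hW
  have hWm : 2 * (((k : ℤ) + 2) * m) *
      ((((W ×ˢ W).filter (fun e => G.Adj (r e.1) (r e.2))).card : ℕ) : ℤ) ≤
      2 * (((k : ℤ) + 2) * m) * (24 * k) :=
    mul_le_mul_of_nonneg_left hW' (by positivity)
  have hkh := hKH m (by omega)
  have hpa := hKPath m (by omega)
  have huv0 := UpNAux.N2_nonneg P u v u v
  have huv1 : (if G.Adj u0 v0 then N2 P u v u v else 0) ≤ N2 P u v u v := by
    split_ifs
    · exact le_rfl
    · exact huv0
  have hH : H2 P u v = ∑ c, N2 P u v (P c) u + ∑ c, N2 P u v (P c) v + N2 P u v u v := rfl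
  have hnum : 48 * 33 * ((k : ℤ) * (k + 2) * m) + 660 ≤ 4 * k * (m : ℤ) ^ 2 := by
    have h1 : 600 * ((k : ℤ) + 2) ≤ m := by linarith
    have h2 : 600 * ((k : ℤ) + 2) * (k * m) ≤ m * (k * m) :=
      mul_le_mul_of_nonneg_right h1 (by positivity)
    have h3 : (1 : ℤ) * (3000 * 3000) ≤ k * (m * m) :=
      mul_le_mul hk' (mul_le_mul hm' hm' (by norm_num) (by positivity)) (by norm_num)
        (by positivity)
    nlinarith
  have hF : (F4 m : ℤ) = if m % 2 = 1 then (m : ℤ) ^ 3 + 7 * m - 12 else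
      (m : ℤ) ^ 3 + 6 * m - 4 := by
    unfold F4
    split_ifs
    · rw [Nat.cast_sub (by omega)]
      push_cast
      ring
    · rw [Nat.cast_sub (by omega)]
      push_cast
      ring
  have goal : (4 * OCN G : ℤ) ≤ (F4 m : ℤ) := by
    rw [hF]
    rcases Nat.mod_two_eq_zero_or_one m with h2 | h2
    · rw [if_neg (by omega)] at hGp hkh hpa ⊢
      nlinarith
    · rw [if_pos h2] at hGp hkh hpa ⊢
      nlinarith
  exact_mod_cast goal

end Pool.Agent.Lib.MP_00ece3_co.EX
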