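import Pool.Agent.Lib.MP_00ece3_co.EX.SpecB

set_option autoImplicit false

namespace Pool.Agent.Lib.MP_00ece3_co.EX

open Pool.Agent.Lib.MP_00ece3_co

namespace UpWAux

private theorem sp_nonneg (a b x y : ℝ × ℝ) : 0 ≤ sp a b x y := by
  unfold sp
  split_ifs <;> decide

private theorem sp_symm (a b x y : ℝ × ℝ) : sp a b x y = sp a b y x := by
  have h : Sp a b x y ↔ Sp a b y x := by
    unfold Sp
    rw [mul_comm]
  unfold sp
  by_cases h1 : Sp a b x y
  · rw [if_pos h1, if_pos (h.1 h1)]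
  · rw [if_neg h1, if_neg (fun h2 => h1 (h.2 h2))]

private theorem N2_nonneg {m : ℕ} (P : Fin m → ℝ × ℝ) (u v x y : ℝ × ℝ) : 0 ≤ N2 P u v x y := by
  unfold N2
  have h1 : 0 ≤ ∑ a, ∑ b, sp (P a) (P b) x y :=
    Finset.sum_nonneg fun a _ => Finset.sum_nonneg fun b _ => sp_nonneg _ _ _ _
  have h2 : 0 ≤ ∑ a, sp (P a) u x y := Finset.sum_nonneg fun a _ => sp_nonneg _ _ _ _
  have h3 : 0 ≤ ∑ a, sp (P a) v x y := Finset.sum_nonneg fun a _ => sp_nonneg _ _ _ _
  have h4 := sp_nonneg u v x y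
  linarith

private theorem N2_symm {m : ℕ} (P : Fin m → ℝ × ℝ) (u v x y : ℝ × ℝ) :
    N2 P u v x y = N2 P u v y x := by
  unfold N2
  simp only [sp_symm _ _ x y]

private theorem sum_gap (m : ℕ) (hm : 1 ≤ m) (g : ℤ) :
    ∑ i : Fin m, ∑ j : Fin m, (if (i : ℕ) = 0 ∧ (j : ℕ) + 1 = m then g else 0) = g := by
  rw [Finset.sum_eq_single (⟨0, by omega⟩ : Fin m)]
  · rw [Finset.sum_eq_single (⟨m - 1, by omega⟩ : Fin m)]
    · rw [if_pos]
      exact ⟨rfl, by show m - 1 + 1 = m; omega⟩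
    · intro j _ hj
      rw [if_neg]
      rintro ⟨_, h2⟩
      exact hj (Fin.ext (by show (j : ℕ) = m - 1; omega))
    · intro h
      exact absurd (Finset.mem_univ _) h
  · intro i _ hi
    refine Finset.sum_eq_zero fun j _ => ?_
    rw [if_neg]
    rintro ⟨h1, _⟩
    exact hi (Fin.ext h1)
  · intro h
    exact absurd (Finset.mem_univ _) h

end UpWAux

open UpWAux in
theorem tUpW (hCrG : S_CrG) (hKH : S_KH) (hKPath : S_KPath) (hKUV : S_KUV) (hKGap : S_KGap) :
    S_UpW := by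
  classical
  intro n m G u0 v0 r hm huv hr hr' hnadj hadj
  have hC := hCrG n m G u0 v0 r huv hr hr'
  have hH := hKH m (by omega)
  have hP := hKPath m (by omega)
  have hU := hKUV m (by omega)
  have hG := hKGap m (by omega)
  rw [if_neg hnadj, mul_zero, add_zero] at hC
  set Nu : Fin m → ℤ := fun i => N2 (kP m) (kU m) (kV m) (kP m i) (kU m) with hNu
  set Nv : Fin m → ℤ := fun i => N2 (kP m) (kU m) (kV m) (kP m i) (kV m) with hNv
  set NN : Fin m → Fin m → ℤ := fun i j => N2 (kP m) (kU m) (kV m) (kP m i) (kP m j) with hNN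
  have hNN0 : ∀ i j, 0 ≤ NN i j := fun i j => N2_nonneg _ _ _ _ _
  have hNNs : ∀ i j, NN i j = NN j i := fun i j => N2_symm _ _ _ _ _
  have e1 : ∑ i, (if G.Adj u0 (r i) then Nu i else 0) ≤ ∑ i, Nu i := by
    refine Finset.sum_le_sum fun i _ => ?_
    split_ifs
    · exact le_refl _
    · exact N2_nonneg _ _ _ _ _
  have e2 : ∑ i, (if G.Adj v0 (r i) then Nv i else 0) ≤ ∑ i, Nv i := by
    refine Finset.sum_le_sum fun i _ => ?_
    split_ifs
    · exact le_refl _
    · exact N2_nonneg _ _ _ _ _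
  have e3 : H2 (kP m) (kU m) (kV m) = ∑ i, Nu i + ∑ i, Nv i +
      N2 (kP m) (kU m) (kV m) (kU m) (kV m) := rfl
  -- the edges between the points of the parabola
  set g : ℤ := if m % 2 = 1 then 10 else 6 with hg
  have hg0 : 0 ≤ g := by
    rw [hg]
    split_ifs <;> decide
  let A : Fin m → Fin m → ℤ := fun i j =>
    (if (i : ℕ) + 1 = j then NN i j else 0) + (if (i : ℕ) = 0 ∧ (j : ℕ) + 1 = m then g else 0)
  have hA0 : ∀ i j, 0 ≤ A i j := by
    intro i j
    refine add_nonneg ?_ ?_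
    · split_ifs
      · exact hNN0 i j
      · exact le_refl _
    · split_ifs
      · exact hg0
      · exact le_refl _
  have hA : ∀ i j, i < j → G.Adj (r i) (r j) → NN i j ≤ A i j := by
    intro i j hij h
    rcases hadj i j hij h with h1 | ⟨h1, h2⟩
    · show NN i j ≤ (if (i : ℕ) + 1 = j then NN i j else 0) +
        (if (i : ℕ) = 0 ∧ (j : ℕ) + 1 = m then g else 0)
      rw [if_pos h1.symm]
      have : (0 : ℤ) ≤ if (i : ℕ) = 0 ∧ (j : ℕ) + 1 = m then g else 0 := by
        split_ifs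
        · exact hg0
        · exact le_refl _
      linarith
    · show NN i j ≤ (if (i : ℕ) + 1 = j then NN i j else 0) +
        (if (i : ℕ) = 0 ∧ (j : ℕ) + 1 = m then g else 0)
      rw [if_pos (⟨h1, h2⟩ : (i : ℕ) = 0 ∧ (j : ℕ) + 1 = m)]
      have h3 : NN i j ≤ g := hG i j h1 h2
      have : (0 : ℤ) ≤ if (i : ℕ) + 1 = j then NN i j else 0 := by
        split_ifs
        · exact hNN0 i j
        · exact le_refl _
      linarith
  have e4 : ∑ i, ∑ j, (if G.Adj (r i) (r j) then NN i j else 0) ≤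
      ∑ i, ∑ j, (A i j + A j i) := by
    refine Finset.sum_le_sum fun i _ => Finset.sum_le_sum fun j _ => ?_
    split_ifs with h
    · rcases lt_trichotomy i j with h1 | h1 | h1
      · have := hA i j h1 h
        have := hA0 j i
        linarith
      · exact absurd (h1 ▸ h) (G.irrefl)
      · have h2 := hA j i h1 h.symm
        have := hA0 i j
        rw [hNNs i j]
        linarith
    · exact add_nonneg (hA0 i j) (hA0 j i)
  have e5 : ∑ i, ∑ j, (A i j + A j i) = 2 * (∑ i, ∑ j, A i j) := by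
    have h1 : ∑ i, ∑ j, (A i j + A j i) = ∑ i, ∑ j, A i j + ∑ i, ∑ j, A j i := by
      rw [← Finset.sum_add_distrib]
      refine Finset.sum_congr rfl fun i _ => ?_
      rw [← Finset.sum_add_distrib]
    rw [h1, Finset.sum_comm (f := fun i j => A j i)]
    ring
  have e6 : ∑ i, ∑ j, A i j = pathSum NN + g := by
    have h1 : ∑ i, ∑ j, A i j = ∑ i : Fin m, ∑ j : Fin m, (if (i : ℕ) + 1 = j then NN i j else 0) +
        ∑ i : Fin m, ∑ j : Fin m, (if (i : ℕ) = 0 ∧ (j : ℕ) + 1 = m then g else 0) := by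
      rw [← Finset.sum_add_distrib]
      refine Finset.sum_congr rfl fun i _ => ?_
      rw [← Finset.sum_add_distrib]
    rw [h1, sum_gap m (by omega) g]
    rfl
  have e7 : (4 * OCN G : ℤ) ≤ 2 * (H2 (kP m) (kU m) (kV m) -
      N2 (kP m) (kU m) (kV m) (kU m) (kV m)) + 2 * (pathSum NN + g) := by
    have h2 : (∑ i, ∑ j, if G.Adj (r i) (r j) then NN i j else 0) ≤ 2 * (pathSum NN + g) := by
      rw [← e6, ← e5]
      exact e4
    have h3 : (4 * OCN G : ℤ) ≤ 2 * ∑ i, (if G.Adj u0 (r i) then Nu i else 0) +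
        2 * ∑ i, (if G.Adj v0 (r i) then Nv i else 0) +
        ∑ i, ∑ j, (if G.Adj (r i) (r j) then NN i j else 0) := hC
    rw [e3]
    linarith
  rw [hU] at e7
  have hP' : pathSum NN = if m % 2 = 1 then 2 * (2 * (m : ℤ) - 3) else 2 * (2 * (m : ℤ) - 1) := hP
  rw [hP'] at e7
  rcases Nat.mod_two_eq_zero_or_one m with hp | hp
  · have hp' : ¬ (m % 2 = 1) := by omega
    rw [if_neg hp'] at hH e7
    rw [hg, if_neg hp'] at e7
    obtain ⟨t, ht⟩ : ∃ t, m = 2 * t := ⟨m / 2, by omega⟩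
    have ht2 : m / 2 = t := by omega
    rw [ht2] at e7
    have hF : F4 m = m ^ 3 + 6 * m - 4 := by
      unfold F4
      rw [if_neg hp']
    have hF' : (F4 m : ℤ) = (m : ℤ) ^ 3 + 6 * m - 4 := by
      rw [hF, Nat.cast_sub (by omega)]
      push_cast
      ring
    have hmt : (m : ℤ) = 2 * (t : ℤ) := by exact_mod_cast ht
    have hm' : (12 : ℤ) ≤ m := by exact_mod_cast hm
    have h5 : (4 * OCN G : ℤ) ≤ (F4 m : ℤ) := by
      rw [hF']
      have h6 : 2 * H2 (kP m) (kU m) (kV m) = (m : ℤ) ^ 3 - 2 * m := by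
        have h7 : 2 * (2 * H2 (kP m) (kU m) (kV m)) = 2 * ((m : ℤ) ^ 3 - 2 * m) := by
          linear_combination hH
        linarith
      linarith
    exact_mod_cast h5
  · rw [if_pos hp] at hH e7
    rw [hg, if_pos hp] at e7
    obtain ⟨t, ht⟩ : ∃ t, m = 2 * t + 1 := ⟨m / 2, by omega⟩
    have ht2 : m / 2 = t := by omega
    rw [ht2] at e7
    have hF : F4 m = m ^ 3 + 7 * m - 12 := by
      unfold F4
      rw [if_pos hp]
    have hF' : (F4 m : ℤ) = (m : ℤ) ^ 3 + 7 * m - 12 := by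
      rw [hF, Nat.cast_sub (by omega)]
      push_cast
      ring
    have hmt : (m : ℤ) = 2 * (t : ℤ) + 1 := by exact_mod_cast ht
    have hm' : (12 : ℤ) ≤ m := by exact_mod_cast hm
    have h5 : (4 * OCN G : ℤ) ≤ (F4 m : ℤ) := by
      rw [hF']
      have h6 : 2 * H2 (kP m) (kU m) (kV m) = (m : ℤ) ^ 3 - m := by
        have h7 : 2 * (2 * H2 (kP m) (kU m) (kV m)) = 2 * ((m : ℤ) ^ 3 - m) := by
          linear_combination hH
        linarith
      linarith
    exact_mod_cast h5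

end Pool.Agent.Lib.MP_00ece3_co.EX
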