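import Pool.Agent.Lib.MP_00ece3_co.EX.SpecA

/-!
# Project EX, module Zero: zero lines
-/

set_option autoImplicit false

namespace Pool.Agent.Lib.MP_00ece3_co.EX

open Pool.Agent.Lib.MP_00ece3_co

namespace ZeroAux

lemma sp_nonneg (a b x y : ℝ × ℝ) : 0 ≤ sp a b x y := by
  unfold sp; split_ifs <;> norm_num

lemma step {m : ℕ} {P : Fin m → ℝ × ℝ} {u : ℝ × ℝ} {a : Fin m} (h : PU P u a = 0) (i j : Fin m)
    (hij : (i : ℕ) + 1 = j) : ¬ Sp (P a) u (P i) (P j) := by
  intro hS
  unfold PU pathSum at h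
  have h0 : ∀ i j : Fin m, 0 ≤ (if (i : ℕ) + 1 = j then sp (P a) u (P i) (P j) else 0) := by
    intro i j
    split_ifs
    · exact sp_nonneg _ _ _ _
    · exact le_refl _
  rw [Finset.sum_eq_zero_iff_of_nonneg (fun i _ => Finset.sum_nonneg fun j _ => h0 i j)] at h
  have h1 := h i (Finset.mem_univ _)
  rw [Finset.sum_eq_zero_iff_of_nonneg (fun j _ => h0 i j)] at h1
  have h2 := h1 j (Finset.mem_univ _)
  rw [if_pos hij] at h2
  unfold sp at h2
  rw [if_pos hS] at h2
  exact one_ne_zero h2

lemma ne_of {m : ℕ} {P : Fin m → ℝ × ℝ} {u : ℝ × ℝ}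
    (hg : ∀ i j, i ≠ j → orient (P i) (P j) u ≠ 0) {a i : Fin m} (hi : i ≠ a) :
    orient (P a) u (P i) ≠ 0 := by
  have h1 := hg a i (Ne.symm hi)
  intro h2
  apply h1
  unfold orient at h2 ⊢
  linarith

lemma chain {m : ℕ} {P : Fin m → ℝ × ℝ} {u : ℝ × ℝ}
    (hg : ∀ i j, i ≠ j → orient (P i) (P j) u ≠ 0) {a : Fin m} (h : PU P u a = 0) :
    ∀ n : ℕ, ∀ i j : Fin m, (i : ℕ) + n = j → (∀ k : Fin m, i ≤ k → k ≤ j → k ≠ a) →
      (0 < orient (P a) u (P i) ↔ 0 < orient (P a) u (P j)) := by
  intro n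
  induction n with
  | zero =>
    intro i j hij _
    have : i = j := Fin.ext (by simpa using hij)
    rw [this]
  | succ n ih =>
    intro i j hij hk
    have hj := j.2
    let k : Fin m := ⟨(i : ℕ) + n, by omega⟩
    have hkv : (k : ℕ) = i + n := rfl
    have hkj : k ≤ j := by rw [Fin.le_def]; omega
    have hik : i ≤ k := by rw [Fin.le_def]; omega
    have h1 := ih i k rfl (fun l hl1 hl2 => hk l hl1 (le_trans hl2 hkj))
    rw [h1]
    have hne1 := ne_of hg (hk k hik hkj)
    have hne2 := ne_of hg (hk j (le_trans hik hkj) (le_refl _))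
    have hs := step h k j (by omega)
    unfold Sp at hs
    rw [not_lt] at hs
    constructor
    · intro hp
      rcases lt_or_gt_of_ne hne2 with h3 | h3
      · exact absurd (mul_neg_of_pos_of_neg hp h3) (not_lt.mpr hs)
      · exact h3
    · intro hp
      rcases lt_or_gt_of_ne hne1 with h3 | h3
      · exact absurd (mul_neg_of_neg_of_pos h3 hp) (not_lt.mpr hs)
      · exact h3

/-- the sign is constant on an order convex set of indices different from `a` -/
lemma const {m : ℕ} {P : Fin m → ℝ × ℝ} {u : ℝ × ℝ}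
    (hg : ∀ i j, i ≠ j → orient (P i) (P j) u ≠ 0) {a : Fin m} (h : PU P u a = 0)
    (S : Fin m → Prop) (hS : ∀ i j k, S i → S j → i ≤ k → k ≤ j → k ≠ a) :
    (∀ i, S i → 0 < orient (P a) u (P i)) ∨ ∀ i, S i → orient (P a) u (P i) < 0 := by
  by_cases hex : ∃ i, S i ∧ 0 < orient (P a) u (P i)
  · left
    obtain ⟨i, hi, hp⟩ := hex
    intro j hj
    rcases le_total i j with hl | hl
    · have hl' := Fin.le_def.mp hl
      exact (chain hg h ((j : ℕ) - i) i j (by omega) (fun k h1 h2 => hS i j k hi hj h1 h2)).1 hp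
    · have hl' := Fin.le_def.mp hl
      exact (chain hg h ((i : ℕ) - j) j i (by omega) (fun k h1 h2 => hS j i k hj hi h1 h2)).2 hp
  · right
    intro i hi
    have h1 : ¬ 0 < orient (P a) u (P i) := fun hp => hex ⟨i, hi, hp⟩
    have h2 := ne_of hg (hS i i i hi hi (le_refl _) (le_refl _))
    rcases lt_or_gt_of_ne h2 with h3 | h3
    · exact h3
    · exact absurd h3 h1

lemma orient_self {a u : ℝ × ℝ} : orient a u a = 0 := by unfold orient; ring

lemma count {m : ℕ} {P : Fin m → ℝ × ℝ} {u : ℝ × ℝ} {a : Fin m} (S : Finset (Fin m))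
    (hS : ∀ b, 0 < orient (P a) u (P b) ↔ b ∈ S) : inn P u a = S.card := by
  unfold inn lft
  have : ∀ b, (if 0 < orient (P a) u (P b) then (1 : ℤ) else 0) = if b ∈ S then 1 else 0 := by
    intro b
    by_cases hb : b ∈ S
    · rw [if_pos hb, if_pos ((hS b).2 hb)]
    · rw [if_neg hb, if_neg (fun h => hb ((hS b).1 h))]
  rw [Finset.sum_congr rfl (fun b _ => this b)]
  simp

end ZeroAux

open ZeroAux in
theorem tZero : S_Zero := by
  intro m P u hg a h
  have hm : 1 ≤ m := by have := a.2; omega
  have hL := const hg h (fun i => i < a) (fun i j k _ hj _ hk => ne_of_lt (lt_of_le_of_lt hk hj))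
  have hR := const hg h (fun i => a < i) (fun i j k hi _ hk _ => ne_of_gt (lt_of_lt_of_le hi hk))
  have ha0 : ¬ 0 < orient (P a) u (P a) := by rw [orient_self]; exact lt_irrefl _
  have ham := a.2
  rcases hL with hL | hL <;> rcases hR with hR | hR
  · left
    have hc : inn P u a = ((Finset.univ.erase a).card : ℤ) := by
      apply count
      intro b
      rcases lt_trichotomy b a with hb | hb | hb
      · simp [hL b hb, ne_of_lt hb]
      · subst hb; simp [orient_self]
      · simp [hR b hb, ne_of_gt hb]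
    have : ((Finset.univ.erase a).card : ℤ) = (m : ℤ) - 1 := by
      rw [Finset.card_erase_of_mem (Finset.mem_univ _), Finset.card_univ, Fintype.card_fin]
      omega
    unfold UU
    rw [hc, this]
    rw [abs_of_nonneg (by omega)]
    ring
  · right; left
    refine ⟨⟨hL, hR⟩, ?_⟩
    have hc : inn P u a = ((Finset.Iio a).card : ℤ) := by
      apply count
      intro b
      rcases lt_trichotomy b a with hb | hb | hb
      · simp [hL b hb, hb]
      · subst hb; simp [orient_self]
      · simp [not_lt.mpr (le_of_lt (hR b hb)), not_lt.mpr (le_of_lt hb)]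
    unfold UU
    rw [hc, Fin.card_Iio]
  · right; right
    refine ⟨⟨hL, hR⟩, ?_⟩
    have hc : inn P u a = ((Finset.Ioi a).card : ℤ) := by
      apply count
      intro b
      rcases lt_trichotomy b a with hb | hb | hb
      · simp [not_lt.mpr (le_of_lt (hL b hb)), not_lt.mpr (le_of_lt hb)]
      · subst hb; simp [orient_self]
      · simp [hR b hb, hb]
    unfold UU
    rw [hc, Fin.card_Ioi]
    have : ((m - 1 - (a : ℕ) : ℕ) : ℤ) = (m : ℤ) - 1 - a := by omega
    rw [this]
    ring
  · left
    have hc : inn P u a = ((∅ : Finset (Fin m)).card : ℤ) := by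
      apply count
      intro b
      rcases lt_trichotomy b a with hb | hb | hb
      · simp [(hL b hb).le]
      · subst hb; simp [orient_self]
      · simp [(hR b hb).le]
    unfold UU
    rw [hc]
    simp only [Finset.card_empty, Nat.cast_zero, mul_zero, zero_sub]
    rw [abs_neg, abs_of_nonneg (by omega)]

end Pool.Agent.Lib.MP_00ece3_co.EX
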