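import Pool.Agent.Lib.MP_00ece3_co.EX.IdA
import Pool.Agent.Lib.MP_00ece3_co.EX.SumU
import Pool.Agent.Lib.MP_00ece3_co.EX.PairId
import Pool.Agent.Lib.MP_00ece3_co.EX.IdB
import Pool.Agent.Lib.MP_00ece3_co.EX.Ident
import Pool.Agent.Lib.MP_00ece3_co.EX.IdentLe
import Pool.Agent.Lib.MP_00ece3_co.EX.SepN
import Pool.Agent.Lib.MP_00ece3_co.EX.SepR
import Pool.Agent.Lib.MP_00ece3_co.EX.CrK
import Pool.Agent.Lib.MP_00ece3_co.EX.Zero
import Pool.Agent.Lib.MP_00ece3_co.EX.Opp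
import Pool.Agent.Lib.MP_00ece3_co.EX.P0Z
import Pool.Agent.Lib.MP_00ece3_co.EX.ArCrude
import Pool.Agent.Lib.MP_00ece3_co.EX.ArOne
import Pool.Agent.Lib.MP_00ece3_co.EX.ArOdd
import Pool.Agent.Lib.MP_00ece3_co.EX.ArEven
import Pool.Agent.Lib.MP_00ece3_co.EX.ArEnds
import Pool.Agent.Lib.MP_00ece3_co.EX.TriIn
import Pool.Agent.Lib.MP_00ece3_co.EX.T2two
import Pool.Agent.Lib.MP_00ece3_co.EX.Quad
import Pool.Agent.Lib.MP_00ece3_co.EX.Hull
import Pool.Agent.Lib.MP_00ece3_co.EX.Five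
import Pool.Agent.Lib.MP_00ece3_co.EX.T2alt
import Pool.Agent.Lib.MP_00ece3_co.EX.EndsU
import Pool.Agent.Lib.MP_00ece3_co.EX.PathLe
import Pool.Agent.Lib.MP_00ece3_co.EX.LowOdd
import Pool.Agent.Lib.MP_00ece3_co.EX.LowEven
import Pool.Agent.Lib.MP_00ece3_co.EX.KgPlanar
import Pool.Agent.Lib.MP_00ece3_co.EX.LowM
import Pool.Agent.Lib.MP_00ece3_co.EX.PX
import Pool.Agent.Lib.MP_00ece3_co.EX.PP
import Pool.Agent.Lib.MP_00ece3_co.EX.PH
import Pool.Agent.Lib.MP_00ece3_co.EX.HHs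
import Pool.Agent.Lib.MP_00ece3_co.EX.KSign
import Pool.Agent.Lib.MP_00ece3_co.EX.KGP
import Pool.Agent.Lib.MP_00ece3_co.EX.KInn
import Pool.Agent.Lib.MP_00ece3_co.EX.KT2
import Pool.Agent.Lib.MP_00ece3_co.EX.KTT
import Pool.Agent.Lib.MP_00ece3_co.EX.KH
import Pool.Agent.Lib.MP_00ece3_co.EX.KUV
import Pool.Agent.Lib.MP_00ece3_co.EX.KHub
import Pool.Agent.Lib.MP_00ece3_co.EX.KRR
import Pool.Agent.Lib.MP_00ece3_co.EX.KPU
import Pool.Agent.Lib.MP_00ece3_co.EX.KPath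
import Pool.Agent.Lib.MP_00ece3_co.EX.KGap
import Pool.Agent.Lib.MP_00ece3_co.EX.KFar
import Pool.Agent.Lib.MP_00ece3_co.EX.CrG
import Pool.Agent.Lib.MP_00ece3_co.EX.UpK
import Pool.Agent.Lib.MP_00ece3_co.EX.UpW
import Pool.Agent.Lib.MP_00ece3_co.EX.UpN
import Pool.Agent.Lib.MP_00ece3_co.EX.Tr
import Pool.Agent.Lib.MP_00ece3_co.EX.Deg2
import Pool.Agent.Lib.MP_00ece3_co.EX.Cyc3
import Pool.Agent.Lib.MP_00ece3_co.EX.For
import Pool.Agent.Lib.MP_00ece3_co.EX.OrdX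
import Pool.Agent.Lib.MP_00ece3_co.EX.OrdC
import Pool.Agent.Lib.MP_00ece3_co.EX.Ins
import Pool.Agent.Lib.MP_00ece3_co.EX.Red
import Pool.Agent.Lib.MP_00ece3_co.EX.Str
import Pool.Agent.Lib.MP_00ece3_co.EX.Near
import Pool.Agent.Lib.MP_00ece3_co.EX.EA
import Pool.Agent.Lib.MP_00ece3_co.EX.EB
import Pool.Agent.Lib.MP_00ece3_co.EX.Reg
import Pool.Agent.Lib.MP_00ece3_co.EX.GainA
import Pool.Agent.Lib.MP_00ece3_co.EX.Gain
import Pool.Agent.Lib.MP_00ece3_co.EX.Two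
import Pool.Agent.Lib.MP_00ece3_co.EX.Few
import Pool.Agent.Lib.MP_00ece3_co.EX.Mt
import Pool.Agent.Lib.MP_00ece3_co.EX.Sep
import Pool.Agent.Lib.MP_00ece3_co.EX.Par
import Pool.Agent.Lib.MP_00ece3_co.EX.Greedy
import Pool.Agent.Lib.MP_00ece3_co.EX.OrdR
import Pool.Agent.Lib.MP_00ece3_co.EX.Blk
import Pool.Agent.Lib.MP_00ece3_co.EX.CI2
import Pool.Agent.Lib.MP_00ece3_co.EX.CII2
import Pool.Agent.Lib.MP_00ece3_co.EX.CI1
import Pool.Agent.Lib.MP_00ece3_co.EX.CI0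
import Pool.Agent.Lib.MP_00ece3_co.EX.CII1
import Pool.Agent.Lib.MP_00ece3_co.EX.CII0
import Pool.Agent.Lib.MP_00ece3_co.EX.T0R
import Pool.Agent.Lib.MP_00ece3_co.EX.CI
import Pool.Agent.Lib.MP_00ece3_co.EX.CII
import Pool.Agent.Lib.MP_00ece3_co.EX.Fin
import Pool.Agent.Lib.MP_00ece3_co.EX.LowK

/-!
# Project EX: assembly of all parts (exact value of `M(n)` for large `n`, note 4016)
-/

set_option autoImplicit false

namespace Pool.Agent.Lib.MP_00ece3_co.EX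

open Pool.Agent.Lib.MP_00ece3_co

theorem aIdA : S_IdA := tIdA

theorem aSumU : S_SumU := tSumU

theorem aPairId : S_PairId := tPairId

theorem aIdB : S_IdB := tIdB aPairId

theorem aIdent : S_Ident := tIdent aIdA aSumU aIdB

theorem aIdentLe : S_IdentLe := tIdentLe aIdent

theorem aSepN : S_SepN := tSepN

theorem aSepR : S_SepR := tSepR aSepN

theorem aCrK : S_CrK := tCrK aSepR

theorem aZero : S_Zero := tZero

theorem aOpp : S_Opp := tOpp

theorem aP0Z : S_P0Z := tP0Z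

theorem aArCrude : S_ArCrude := tArCrude

theorem aArOne : S_ArOne := tArOne

theorem aArOdd : S_ArOdd := tArOdd

theorem aArEven : S_ArEven := tArEven

theorem aArEnds : S_ArEnds := tArEnds

theorem aTriIn : S_TriIn := tTriIn

theorem aT2two : S_T2two := tT2two aTriIn

theorem aQuad : S_Quad := tQuad

theorem aHull : S_Hull := tHull aQuad

theorem aFive : S_Five := tFive

theorem aT2alt : S_T2alt := tT2alt aFive

theorem aEndsU : S_EndsU := tEndsU

theorem aPathLe : S_PathLe := tPathLe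

theorem aLowOdd : S_LowOdd := tLowOdd aIdentLe aPathLe aZero aOpp aP0Z aArCrude aArOne aArOdd

theorem aLowEven : S_LowEven := tLowEven aIdentLe aPathLe aZero aOpp aP0Z aArCrude aArOne aArEven aArEnds aT2two aHull aT2alt aEndsU

theorem aKgPlanar : S_KgPlanar := tKgPlanar

theorem aLowM : S_LowM := tLowM aCrK aLowOdd aLowEven aKgPlanar

theorem aPX : S_PX := tPX

theorem aPP : S_PP := tPP aPX

theorem aPH : S_PH := tPH aPX

theorem aHHs : S_HHs := tHHs aPX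

theorem aKSign : S_KSign := tKSign aPH

theorem aKGP : S_KGP := tKGP aPX aPP aPH aHHs

theorem aKInn : S_KInn := tKInn aKSign aKGP

theorem aKT2 : S_KT2 := tKT2 aPP aKSign aKGP

theorem aKTT : S_KTT := tKTT aPX

theorem aKH : S_KH := tKH aIdent aKGP aKInn aKT2 aKTT aHHs

theorem aKUV : S_KUV := tKUV aKSign aKGP

theorem aKHub : S_KHub := tKHub aKSign aKGP

theorem aKRR : S_KRR := tKRR aPP

theorem aKPU : S_KPU := tKPU aKSign aKGP

theorem aKPath : S_KPath := tKPath aKRR aKPU aHHs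

theorem aKGap : S_KGap := tKGap aKRR aKSign aKGP aHHs

theorem aKFar : S_KFar := tKFar aKRR

theorem aCrG : S_CrG := tCrG aSepR aKGP aPX

theorem aUpK : S_UpK := tUpK aCrG aKH aKPath

theorem aUpW : S_UpW := tUpW aCrG aKH aKPath aKUV aKGap

theorem aUpN : S_UpN := tUpN aCrG aKH aKPath aKGap aKHub aKFar

theorem aTr : S_Tr := tTr

theorem aDeg2 : S_Deg2 := tDeg2

theorem aCyc3 : S_Cyc3 := tCyc3

theorem aFor : S_For := tFor aDeg2 aCyc3

theorem aOrdX : S_OrdX := tOrdX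

theorem aOrdC : S_OrdC := tOrdC aOrdX

theorem aIns : S_Ins := tIns

theorem aRed : S_Red := tRed aTr

theorem aStr : S_Str := tStr aRed aDeg2 aFor aOrdX aOrdC aIns

theorem aNear : S_Near := tNear aStr aUpK aUpW aUpN

theorem aEA : S_EA := tEA

theorem aEB : S_EB := tEB

theorem aReg : S_Reg := tReg

theorem aGainA : S_GainA := tGainA

theorem aGain : S_Gain := tGain aGainA aReg

theorem aTwo : S_Two := tTwo aPX aPP aPH aHHs

theorem aFew : S_Few := tFew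

theorem aMt : S_Mt := tMt aTr

theorem aSep : S_Sep := tSep aMt

theorem aPar : S_Par := tPar aEA aEB

theorem aGreedy : S_Greedy := tGreedy

theorem aOrdR : S_OrdR := tOrdR

theorem aBlk : S_Blk := tBlk

theorem aCI2 : S_CI2 := tCI2 aOrdR aBlk

theorem aCII2 : S_CII2 := tCII2 aOrdR aBlk

theorem aCI1 : S_CI1 := tCI1 aTwo aReg aEA aEB

theorem aCI0 : S_CI0 := tCI0 aCI1 aCI2 aGain aEA aEB

theorem aCII1 : S_CII1 := tCII1 aEA aEB

theorem aCII0 : S_CII0 := tCII0 aCII1 aCII2 aEA aEB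

theorem aT0R : S_T0R := tT0R aPar aOrdR aCII1

theorem aCI : S_CI := tCI aCI0 aSep aFew aT0R

theorem aCII : S_CII := tCII aCII0 aSep aFew aT0R aGreedy aEA aEB

theorem aFin : S_Fin := tFin aLowM aNear aCI aCII

end Pool.Agent.Lib.MP_00ece3_co.EX
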