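import Pool.Agent.Lib.MP_00ece3_co.EX.SpecD

/-!
# Project EX, module CI0
-/

set_option autoImplicit false

namespace Pool.Agent.Lib.MP_00ece3_co.EX

open Pool.Agent.Lib.MP_00ece3_co

namespace CI0Aux

lemma card_Ls {n N : ℕ} {r : Fin N → Fin n} {X : Finset (Fin n)} (h : Ls r X) : X.card = N := by
  classical
  have h1 : X = Finset.univ.image r := by
    ext x
    rw [Finset.mem_image]
    constructor
    · intro hx
      obtain ⟨i, hi⟩ := (h.2 x).2 hx
      exact ⟨i, Finset.mem_univ _, hi⟩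
    · rintro ⟨i, _, hi⟩
      exact (h.2 x).1 ⟨i, hi⟩
  rw [h1, Finset.card_image_of_injective _ h.1, Finset.card_univ, Fintype.card_fin]

lemma card_int (N a b : ℕ) (hb : b ≤ N) :
    (Finset.univ.filter (fun i : Fin N => a ≤ (i : ℕ) ∧ (i : ℕ) < b)).card = b - a := by
  have h1 : (Finset.univ.filter (fun i : Fin N => a ≤ (i : ℕ) ∧ (i : ℕ) < b)).image
      (fun i : Fin N => (i : ℕ)) = Finset.Ico a b := by
    ext x
    simp only [Finset.mem_image, Finset.mem_filter, Finset.mem_univ, true_and, Finset.mem_Ico]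
    constructor
    · rintro ⟨i, hi, rfl⟩
      exact hi
    · intro hx
      exact ⟨⟨x, by omega⟩, hx, rfl⟩
  rw [← Finset.card_image_of_injective _ (Fin.val_injective (n := N))]
  rw [h1, Nat.card_Ico]

open Classical in
/-- the number of neighbours of `c` outside `Z` -/
lemma card_nb {n q a0 b0 : ℕ} {G : SimpleGraph (Fin n)} {c : Fin n} {Z : Finset (Fin n)}
    {r : Fin (2 * q + 1) → Fin n} (hr : Ls r Zᶜ) (hb : b0 ≤ 2 * q + 1)
    (hadj : ∀ i, G.Adj c (r i) ↔ a0 ≤ (i : ℕ) ∧ (i : ℕ) < b0) :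
    (Zᶜ.filter (fun y => G.Adj c y)).card = b0 - a0 := by
  have h1 : Zᶜ.filter (fun y => G.Adj c y) =
      (Finset.univ.filter (fun i : Fin (2 * q + 1) => a0 ≤ (i : ℕ) ∧ (i : ℕ) < b0)).image r := by
    ext x
    simp only [Finset.mem_image, Finset.mem_filter, Finset.mem_univ, true_and]
    constructor
    · rintro ⟨hx, hcx⟩
      obtain ⟨i, rfl⟩ := (hr.2 x).2 hx
      exact ⟨i, (hadj i).1 hcx, rfl⟩
    · rintro ⟨i, hi, rfl⟩
      exact ⟨(hr.2 _).1 ⟨i, rfl⟩, (hadj i).2 hi⟩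
  rw [h1, Finset.card_image_of_injective _ hr.1, card_int _ _ _ hb]

open Classical in
lemma dg_le {n : ℕ} {G : SimpleGraph (Fin n)} {c : Fin n} {Z : Finset (Fin n)} :
    (Zᶜ.filter (fun y => G.Adj c y)).card ≤ dg G c ∧
      dg G c ≤ (Zᶜ.filter (fun y => G.Adj c y)).card + Z.card := by
  unfold dg
  constructor
  · exact Finset.card_le_card (Finset.filter_subset_filter _ (Finset.subset_univ _))
  · have h1 : Finset.univ.filter (fun y => G.Adj c y) ⊆
        Zᶜ.filter (fun y => G.Adj c y) ∪ Z := by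
      intro x hx
      rw [Finset.mem_filter] at hx
      rw [Finset.mem_union, Finset.mem_filter, Finset.mem_compl]
      by_cases hz : x ∈ Z
      · exact Or.inr hz
      · exact Or.inl ⟨hz, hx.2⟩
    exact le_trans (Finset.card_le_card h1) (Finset.card_union_le _ _)

end CI0Aux

open CI0Aux in
theorem tCI0 (hCI1 : S_CI1) (hCI2 : S_CI2) (hGain : S_Gain) (hEA : S_EA) (hEB : S_EB) :
    S_CI0 := by
  classical
  intro n G hP c Z1 D w g hc hCb hsep h1 h2 h3
  obtain ⟨Z, q, a0, b0, r, hZ1, hZ, hr, hab, hb, hm1, hm2, hadj, hband⟩ :=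
    hCI2 n G c Z1 D hc hCb hsep (by omega)
  have hZc : Zᶜ.card = 2 * q + 1 := card_Ls hr
  have hn : Z.card + (2 * q + 1) = n := by
    rw [← hZc, Finset.card_add_card_compl, Fintype.card_fin]
  have hα := card_nb hr hb hadj
  obtain ⟨hd1, hd2⟩ := dg_le (G := G) (c := c) (Z := Z)
  rw [hα] at hd1 hd2
  set z := Z1.card + D + 1 with hz
  have hk : (b0 - a0 + 1) / 2 ≤ q := by omega
  have hg := hGain q a0 b0 w g hab hb hm1 hm2 (by omega) (by omega) (by omega) (by omega)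
  have hU := hCI1 n G hP c Z q a0 b0 D ((b0 - a0 + 1) / 2) r (hZ1 hc) hk hr hab hb hadj hband
  obtain ⟨_, he1, he2⟩ := hEB n G hP
  have he3 := he1 Z
  have he4 := he2 Z Zᶜ
  rw [hZc] at he3
  set e := eO G Z Zᶜ with hedef
  set s := ∑ i ∈ Finset.Ico a0 b0, Cnt q ((b0 - a0 + 1) / 2) i with hs
  set al := b0 - a0 with hal
  have hDz : D ≤ z := by omega
  have hq : 2 * q ≤ n := by omega
  have hq2 : 4 * q ^ 2 ≤ n ^ 2 := by
    have := Nat.mul_le_mul hq hq
    nlinarith [this]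
  have hen : e ≤ 2 * n + 244 * z := by
    have : 244 * Z.card ≤ 244 * z := Nat.mul_le_mul_left _ hZ
    omega
  have t1 : 8 * Z.card * n ^ 2 ≤ 8 * z * n ^ 2 :=
    Nat.mul_le_mul_right _ (Nat.mul_le_mul_left _ hZ)
  have t2 : e * (4 * q ^ 2) ≤ (2 * n + 244 * z) * n ^ 2 := Nat.mul_le_mul hen hq2
  have t3 : e * (Z.card * n) ≤ (8 * n) * (z * n) :=
    Nat.mul_le_mul he4 (Nat.mul_le_mul_right _ hZ)
  have t4 : 8 * n * ((D + Z.card) * n) ≤ 8 * n * ((z + z) * n) :=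
    Nat.mul_le_mul_left _ (Nat.mul_le_mul_right _ (Nat.add_le_add hDz hZ))
  have k1 : 2 * OCN G + 2 * g * w ^ 2 ≤ 8 * z * n ^ 2 + e * q ^ 2 + 2 * e * (Z.card * n) +
      16 * q ^ 2 + 8 * n * ((z + z) * n) := by
    linarith
  have k2 : 8 * OCN G + 8 * g * w ^ 2 ≤ 32 * z * n ^ 2 + e * (4 * q ^ 2) +
      8 * (e * (Z.card * n)) + 16 * (4 * q ^ 2) + 32 * n * ((z + z) * n) := by
    nlinarith [k1]
  have k3 : 32 * z * n ^ 2 + (2 * n + 244 * z) * n ^ 2 + 8 * ((8 * n) * (z * n)) + 16 * n ^ 2 +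
      32 * n * ((z + z) * n) = 2 * n ^ 3 + 404 * z * n ^ 2 + 16 * n ^ 2 := by ring
  have t5 : 16 * (4 * q ^ 2) ≤ 16 * n ^ 2 := Nat.mul_le_mul_left _ hq2
  linarith

end Pool.Agent.Lib.MP_00ece3_co.EX
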