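import Pool.Agent.Lib.MP_00ece3_co.Spec

/-!
# Exact value of `M(n)` for large `n`: definitions (project EX, note 4016)
-/

namespace Pool.Agent.Lib.MP_00ece3_co.EX

open Pool.Agent.Lib.MP_00ece3_co

/-! ## Points of the plane -/

/-- The line `ab` separates `x` and `y`. It is false if two of `a, b, x` or two of `a, b, y`
coincide. -/
def Sp (a b x y : ℝ × ℝ) : Prop := orient a b x * orient a b y < 0

open Classical in
/-- Indicator of `Sp`. -/
noncomputable def sp (a b x y : ℝ × ℝ) : ℤ := if Sp a b x y then 1 else 0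

/-- `x` is inside the triangle `abc`. -/
def Tri (x a b c : ℝ × ℝ) : Prop :=
  (0 < orient a b x ∧ 0 < orient b c x ∧ 0 < orient c a x) ∨
    (orient a b x < 0 ∧ orient b c x < 0 ∧ orient c a x < 0)

open Classical in
/-- Indicator of `Tri`. -/
noncomputable def tri (x a b c : ℝ × ℝ) : ℤ := if Tri x a b c then 1 else 0

open Classical in
/-- Indicator of `c` being to the left of `a → b`. -/
noncomputable def lft (a b c : ℝ × ℝ) : ℤ := if 0 < orient a b c then 1 else 0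

variable {m : ℕ}

/-- General position of the points `P 0, …, P (m-1), u, v`. -/
def GP (P : Fin m → ℝ × ℝ) (u v : ℝ × ℝ) : Prop :=
  (∀ i j, i ≠ j → orient (P i) (P j) u ≠ 0) ∧ (∀ i j, i ≠ j → orient (P i) (P j) v ≠ 0) ∧
    (∀ i, orient (P i) u v ≠ 0) ∧
    ∀ i j k, i ≠ j → i ≠ k → j ≠ k → orient (P i) (P j) (P k) ≠ 0

/-- Twice the number of lines spanned by two of the points `P 0, …, P (m-1), u, v` which separate
`x` and `y`. -/
noncomputable def N2 (P : Fin m → ℝ × ℝ) (u v x y : ℝ × ℝ) : ℤ :=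
  ∑ a, ∑ b, sp (P a) (P b) x y + 2 * ∑ a, sp (P a) u x y + 2 * ∑ a, sp (P a) v x y +
    2 * sp u v x y

/-- Twice the cost of all hub edges (the edges from `u` and `v` to all `P i` and the edge `uv`). -/
noncomputable def H2 (P : Fin m → ℝ × ℝ) (u v : ℝ × ℝ) : ℤ :=
  ∑ c, N2 P u v (P c) u + ∑ c, N2 P u v (P c) v + N2 P u v u v

/-- Ordered number of inclusions of a point in a triangle with vertex `u`. -/
noncomputable def T2 (P : Fin m → ℝ × ℝ) (u : ℝ × ℝ) : ℤ :=
  ∑ a, ∑ b, ∑ d, tri (P a) u (P b) (P d)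

/-- Number of points in the triangles `P a, u, v`. -/
noncomputable def TT (P : Fin m → ℝ × ℝ) (u v : ℝ × ℝ) : ℤ :=
  ∑ a, ∑ b, tri (P b) (P a) u v

/-- The number of `b` with `P b` to the left of `P a → u`. -/
noncomputable def inn (P : Fin m → ℝ × ℝ) (u : ℝ × ℝ) (a : Fin m) : ℤ := ∑ b, lft (P a) u (P b)

/-- The deviation `U_a` (twice the deviation from halving). -/
noncomputable def UU (P : Fin m → ℝ × ℝ) (u : ℝ × ℝ) (a : Fin m) : ℤ :=
  2 * inn P u a - ((m : ℤ) - 1)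

open Classical in
/-- The sign of `orient (P a) u v`. -/
noncomputable def sg (P : Fin m → ℝ × ℝ) (u v : ℝ × ℝ) (a : Fin m) : ℤ :=
  if 0 < orient (P a) u v then 1 else -1

/-- `W_a = U_a² + V_a² - 2 |U_a - V_a|`. -/
noncomputable def WW (P : Fin m → ℝ × ℝ) (u v : ℝ × ℝ) (a : Fin m) : ℤ :=
  UU P u a ^ 2 + UU P v a ^ 2 - 2 * |UU P u a - UU P v a|

/-- Sum over the edges `P i, P (i+1)` of the path. -/
def pathSum (f : Fin m → Fin m → ℤ) : ℤ :=
  ∑ i : Fin m, ∑ j : Fin m, if (i : ℕ) + 1 = j then f i j else 0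

/-- Twice the number of pairs (line `P_a P_b`, path edge separated by it). -/
noncomputable def PR2 (P : Fin m → ℝ × ℝ) : ℤ :=
  pathSum fun i j => ∑ a, ∑ b, sp (P a) (P b) (P i) (P j)

/-- The number of path edges separated by the line `P_a u`. -/
noncomputable def PU (P : Fin m → ℝ × ℝ) (u : ℝ × ℝ) (a : Fin m) : ℤ :=
  pathSum fun i j => sp (P a) u (P i) (P j)

/-- The number of path edges separated by the line `uv`. -/
noncomputable def P0 (P : Fin m → ℝ × ℝ) (u v : ℝ × ℝ) : ℤ :=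
  pathSum fun i j => sp u v (P i) (P j)

/-- Zero line of type `+` at `a`. -/
def Zp (P : Fin m → ℝ × ℝ) (u : ℝ × ℝ) (a : Fin m) : Prop :=
  (∀ i, i < a → 0 < orient (P a) u (P i)) ∧ ∀ i, a < i → orient (P a) u (P i) < 0

/-- Zero line of type `-` at `a`. -/
def Zm (P : Fin m → ℝ × ℝ) (u : ℝ × ℝ) (a : Fin m) : Prop :=
  (∀ i, i < a → orient (P a) u (P i) < 0) ∧ ∀ i, a < i → 0 < orient (P a) u (P i)

/-- `K_a = |2a - (m-1)|`. -/
def KK (a : Fin m) : ℤ := |2 * (a : ℤ) - ((m : ℤ) - 1)|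

/-- No point is inside a triangle of other points. -/
def Cvx (P : Fin m → ℝ × ℝ) : Prop := ∀ x a b c, ¬ Tri (P x) (P a) (P b) (P c)

/-! ## Graphs -/

/-- `K_2 + P_{n-2}`: the vertices `0` and `1` are joined to all other vertices and to each other,
the vertices `2, …, n-1` form a path. -/
def Kg (n : ℕ) : SimpleGraph (Fin n) where
  Adj x y := x ≠ y ∧ (x.val < 2 ∨ y.val < 2 ∨ x.val + 1 = y.val ∨ y.val + 1 = x.val)
  symm := ⟨by
    rintro x y ⟨h, h'⟩
    exact ⟨h.symm, by tauto⟩⟩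
  loopless := ⟨fun x h => h.1 rfl⟩

/-- `4 M(m + 2)` for large `m`. -/
def F4 (m : ℕ) : ℕ := if m % 2 = 1 then m ^ 3 + 7 * m - 12 else m ^ 3 + 6 * m - 4

/-! ## The parabola model -/

/-- The abscissas `-4^l, …, -4, 4, 16, …`. -/
noncomputable def px (l i : ℕ) : ℝ := if i < l then -(4 : ℝ) ^ (l - i) else (4 : ℝ) ^ (i - l + 1)

/-- The points on the parabola. -/
noncomputable def pp (l i : ℕ) : ℝ × ℝ := (px l i, px l i ^ 2)

/-- The points on the axis. -/
noncomputable def hh (k : ℕ) : ℝ × ℝ := (0, 2 * (4 : ℝ) ^ k)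

/-- The point `hh k` is above the chord `ij`, `i < j`. -/
def Abv (l k i j : ℕ) : Prop := j < l ∨ l ≤ i ∨ j < i + k

/-- The points `P_i` of the placement `KP(m)`. -/
noncomputable def kP (m : ℕ) (i : Fin m) : ℝ × ℝ := pp (m / 2) i

/-- The lower hub of `KP(m)`. -/
noncomputable def kU (m : ℕ) : ℝ × ℝ := hh ((m + 1) / 2)

/-- The upper hub of `KP(m)`. -/
noncomputable def kV (m : ℕ) : ℝ × ℝ := hh ((m + 1) / 2 + 1)

end Pool.Agent.Lib.MP_00ece3_co.EX
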