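import Pool.Agent.Lib.MP_00ece3_co.EX.SpecA

/-!
# EX: five points (`S_Five`)
-/

set_option autoImplicit false

namespace Pool.Agent.Lib.MP_00ece3_co.EX

open Pool.Agent.Lib.MP_00ece3_co

theorem tFive : S_Five := by
  intro u a b c d hT hs hP hR hN
  obtain ⟨X, hX⟩ : ∃ X, X = orient u b a := ⟨_, rfl⟩
  obtain ⟨Y, hY⟩ : ∃ Y, Y = orient b c a := ⟨_, rfl⟩
  obtain ⟨Z, hZ⟩ : ∃ Z, Z = orient c u a := ⟨_, rfl⟩
  obtain ⟨W, hW⟩ : ∃ W, W = orient d u a := ⟨_, rfl⟩
  obtain ⟨Q, hQ⟩ : ∃ Q, Q = orient b d a := ⟨_, rfl⟩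
  obtain ⟨R, hR'⟩ : ∃ R, R = orient c d a := ⟨_, rfl⟩
  have e1 : orient u a c = Z := by rw [hZ]; unfold orient; ring
  have e2 : orient u a d = W := by rw [hW]; unfold orient; ring
  have e3 : orient a b d = Q := by rw [hQ]; unfold orient; ring
  have e4 : orient a c d = R := by rw [hR']; unfold orient; ring
  have e5 : orient d b a = -Q := by rw [hQ]; unfold orient; ring
  have hid : R * X = Y * W - Q * Z := by
    rw [hR', hX, hY, hW, hQ, hZ]
    unfold orient
    ring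
  rw [e1, e2] at hs
  rw [e3] at hP
  rw [e4] at hR
  unfold Tri at hT hN ⊢
  rw [← hX, ← hY, ← hZ] at hT
  rw [← hX, ← hQ, ← hW]
  rw [← hY, ← hR', e5] at hN
  rcases hT with ⟨x, y, z⟩ | ⟨x, y, z⟩
  · have w : 0 < W := by
      by_contra hw
      nlinarith
    rcases lt_or_gt_of_ne hP with q | q
    · exfalso
      have h1 : 0 < R * X := by
        rw [hid]
        nlinarith [mul_pos y w, mul_pos (neg_pos.2 q) z]
      have h2 : 0 < R := (pos_iff_pos_of_mul_pos h1).2 x
      exact hN (Or.inl ⟨y, h2, by linarith⟩)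
    · exact Or.inl ⟨x, q, w⟩
  · have w : W < 0 := by
      by_contra hw
      nlinarith
    rcases lt_or_gt_of_ne hP with q | q
    · exact Or.inr ⟨x, q, w⟩
    · exfalso
      have h1 : 0 < R * X := by
        rw [hid]
        nlinarith [mul_pos (neg_pos.2 y) (neg_pos.2 w), mul_pos q (neg_pos.2 z)]
      have h2 : R < 0 := by
        by_contra h3
        nlinarith
      exact hN (Or.inr ⟨y, h2, by linarith⟩)

end Pool.Agent.Lib.MP_00ece3_co.EX
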