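import Pool.Agent.Lib.MP_00ece3_co.EX.SpecB

/-!
# Project EX, module HHs: the sign of `orient (P i) (hh k) (hh k')`
-/

set_option autoImplicit false

namespace Pool.Agent.Lib.MP_00ece3_co.EX

open Pool.Agent.Lib.MP_00ece3_co

private theorem HHs_orient (l k k' i : ℕ) :
    orient (pp l i) (hh k) (hh k') = px l i * (2 * (4 : ℝ) ^ k - 2 * (4 : ℝ) ^ k') := by
  unfold orient pp hh
  ring

theorem tHHs (hPX : S_PX) : S_HHs := by
  intro l k k' i hk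
  have h4 : (4 : ℝ) ^ k < (4 : ℝ) ^ k' := pow_lt_pow_right₀ (by norm_num) hk
  have hneg : 2 * (4 : ℝ) ^ k - 2 * (4 : ℝ) ^ k' < 0 := by linarith
  rw [HHs_orient]
  obtain ⟨-, h1, h2, -⟩ := hPX l i i
  rcases lt_or_ge i l with h | h
  · have h3 := mul_pos_of_neg_of_neg (h1 h) hneg
    exact ⟨⟨fun _ => h, fun _ => h3⟩, h3.ne'⟩
  · have h3 := mul_neg_of_pos_of_neg (h2 h) hneg
    exact ⟨⟨fun h4 => absurd h4 (not_lt.2 h3.le), fun h4 => absurd h4 (not_lt.2 h)⟩, h3.ne⟩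

end Pool.Agent.Lib.MP_00ece3_co.EX
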