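import Pool.Agent.Lib.MP_00ece3_co.EX.SpecA

/-!
MP_00ece3_co, EX/IdA: the star identity (author helper97).
-/

set_option autoImplicit false

namespace Pool.Agent.Lib.MP_00ece3_co.EX

open Pool.Agent.Lib.MP_00ece3_co

private lemma IdA_z1 (x z : ℝ × ℝ) : orient x x z = 0 := by
  unfold orient
  ring

private lemma IdA_z2 (x z : ℝ × ℝ) : orient x z x = 0 := by
  unfold orient
  ring

private lemma IdA_z3 (x z : ℝ × ℝ) : orient z x x = 0 := by
  unfold orient
  ring

/-- Indicator of `y` to the left of `u → x`. -/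
private noncomputable def IdA_o (u x y : ℝ × ℝ) : ℤ := lft u x y

open Classical in
/-- Indicator of a source. -/
private noncomputable def IdA_s {m : ℕ} (P : Fin m → ℝ × ℝ) (u : ℝ × ℝ) (a b d : Fin m) : ℤ :=
  if b = d then 0 else IdA_o u (P a) (P b) * IdA_o u (P a) (P d)

private lemma IdA_key {m : ℕ} (P : Fin m → ℝ × ℝ) (u : ℝ × ℝ)
    (hu : ∀ i j, i ≠ j → orient (P i) (P j) u ≠ 0)
    (hP : ∀ i j k, i ≠ j → i ≠ k → j ≠ k → orient (P i) (P j) (P k) ≠ 0) (a b d : Fin m) :
    IdA_s P u a b d + IdA_s P u b d a + IdA_s P u d a b +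
      (tri (P a) u (P b) (P d) + tri (P b) u (P d) (P a) + tri (P d) u (P a) (P b)) =
    sp (P b) (P d) (P a) u + sp (P d) (P a) (P b) u + sp (P a) (P b) (P d) u := by
  by_cases hab : a = b
  · subst hab
    simp [IdA_s, IdA_o, lft, tri, Tri, sp, Sp, IdA_z1, IdA_z2, IdA_z3]
  by_cases hbd : b = d
  · subst hbd
    simp [IdA_s, IdA_o, lft, tri, Tri, sp, Sp, IdA_z1, IdA_z2, IdA_z3]
  by_cases had : a = d
  · subst had
    simp [IdA_s, IdA_o, lft, tri, Tri, sp, Sp, IdA_z1, IdA_z2, IdA_z3]
  have hα := hu a b hab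
  have hβ := hu b d hbd
  have hγ := hu d a (Ne.symm had)
  have hω := hP a b d hab had hbd
  have hsum : orient (P a) (P b) u + orient (P b) (P d) u + orient (P d) (P a) u =
      orient (P a) (P b) (P d) := by
    unfold orient
    ring
  have a1 : orient u (P a) (P b) = orient (P a) (P b) u := by unfold orient; ring
  have a2 : orient u (P b) (P a) = -orient (P a) (P b) u := by unfold orient; ring
  have a3 : orient (P a) u (P b) = -orient (P a) (P b) u := by unfold orient; ring
  have b1 : orient u (P b) (P d) = orient (P b) (P d) u := by unfold orient; ring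
  have b2 : orient u (P d) (P b) = -orient (P b) (P d) u := by unfold orient; ring
  have b3 : orient (P b) u (P d) = -orient (P b) (P d) u := by unfold orient; ring
  have c1 : orient u (P d) (P a) = orient (P d) (P a) u := by unfold orient; ring
  have c2 : orient u (P a) (P d) = -orient (P d) (P a) u := by unfold orient; ring
  have c3 : orient (P d) u (P a) = -orient (P d) (P a) u := by unfold orient; ring
  have d1 : orient (P b) (P d) (P a) = orient (P a) (P b) (P d) := by unfold orient; ring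
  have d2 : orient (P d) (P a) (P b) = orient (P a) (P b) (P d) := by unfold orient; ring
  unfold IdA_s IdA_o lft tri Tri sp Sp
  rw [if_neg hbd, if_neg (Ne.symm had), if_neg hab, a1, a2, a3, b1, b2, b3, c1, c2, c3, d1, d2]
  generalize orient (P a) (P b) u = α at *
  generalize orient (P b) (P d) u = β at *
  generalize orient (P d) (P a) u = γ at *
  generalize orient (P a) (P b) (P d) = ω at *
  rcases lt_or_gt_of_ne hω with hω | hω <;> rcases lt_or_gt_of_ne hα with hα | hα <;>
    rcases lt_or_gt_of_ne hβ with hβ | hβ <;> rcases lt_or_gt_of_ne hγ with hγ | hγ <;>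
    first
    | (exfalso; linarith)
    | (simp [mul_neg_iff, hω, hα, hβ, hγ, not_lt_of_gt])

private lemma IdA_rot {m : ℕ} (f : Fin m → Fin m → Fin m → ℤ) :
    ∑ a, ∑ b, ∑ d, f b d a = ∑ a, ∑ b, ∑ d, f a b d := by
  rw [Finset.sum_comm]
  refine Finset.sum_congr rfl fun b _ => ?_
  rw [Finset.sum_comm]

private lemma IdA_rot' {m : ℕ} (f : Fin m → Fin m → Fin m → ℤ) :
    ∑ a, ∑ b, ∑ d, f d a b = ∑ a, ∑ b, ∑ d, f a b d := by
  rw [IdA_rot fun b d a => f a b d]

private lemma IdA_out {m : ℕ} (P : Fin m → ℝ × ℝ) (u : ℝ × ℝ)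
    (hu : ∀ i j, i ≠ j → orient (P i) (P j) u ≠ 0) (a : Fin m) :
    ∑ b, IdA_o u (P a) (P b) = (m : ℤ) - 1 - inn P u a := by
  have h1 : ∀ b, IdA_o u (P a) (P b) + lft (P a) u (P b) = if b = a then 0 else 1 := by
    intro b
    have e1 : orient u (P a) (P b) = orient (P a) (P b) u := by unfold orient; ring
    have e2 : orient (P a) u (P b) = -orient (P a) (P b) u := by unfold orient; ring
    unfold IdA_o lft
    rw [e1, e2]
    by_cases h6 : b = a
    · subst h6
      rw [if_pos rfl, IdA_z1, neg_zero, if_neg (lt_irrefl _), add_zero]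
    · rw [if_neg h6]
      rcases lt_or_gt_of_ne (hu a b (Ne.symm h6)) with h8 | h8
      · rw [if_neg (not_lt.2 h8.le), if_pos (by linarith), zero_add]
      · rw [if_pos h8, if_neg (by linarith), add_zero]
  have h2 : ∑ b, (IdA_o u (P a) (P b) + lft (P a) u (P b)) = (m : ℤ) - 1 := by
    simp only [h1]
    have h5 : ∀ b : Fin m, (if b = a then (0 : ℤ) else 1) = 1 - if b = a then 1 else 0 := by
      intro b
      split_ifs <;> norm_num
    simp only [h5, Finset.sum_sub_distrib, Finset.sum_const, Finset.card_univ, Fintype.card_fin,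
      Finset.sum_ite_eq', Finset.mem_univ, if_true, nsmul_eq_mul, mul_one]
  rw [Finset.sum_add_distrib] at h2
  unfold inn
  linarith

private lemma IdA_src {m : ℕ} (P : Fin m → ℝ × ℝ) (u : ℝ × ℝ) (a : Fin m) :
    ∑ b, ∑ d, IdA_s P u a b d =
      (∑ b, IdA_o u (P a) (P b)) * (∑ b, IdA_o u (P a) (P b)) - ∑ b, IdA_o u (P a) (P b) := by
  have h1 : ∀ b d, IdA_s P u a b d = IdA_o u (P a) (P b) * IdA_o u (P a) (P d) -
      if b = d then IdA_o u (P a) (P b) else 0 := by
    intro b d
    unfold IdA_s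
    by_cases h : b = d
    · subst h
      rw [if_pos rfl, if_pos rfl]
      unfold IdA_o lft
      split_ifs <;> norm_num
    · rw [if_neg h, if_neg h, sub_zero]
  simp only [h1, Finset.sum_sub_distrib, Finset.sum_ite_eq, Finset.mem_univ, if_true]
  rw [Finset.sum_mul_sum]

theorem tIdA : S_IdA := by
  intro m P u hu hP
  have h1 : ∑ a, ∑ b, ∑ d, (IdA_s P u a b d + IdA_s P u b d a + IdA_s P u d a b +
      (tri (P a) u (P b) (P d) + tri (P b) u (P d) (P a) + tri (P d) u (P a) (P b))) =
      ∑ a, ∑ b, ∑ d, (sp (P b) (P d) (P a) u + sp (P d) (P a) (P b) u +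
        sp (P a) (P b) (P d) u) :=
    Finset.sum_congr rfl fun a _ => Finset.sum_congr rfl fun b _ =>
      Finset.sum_congr rfl fun d _ => IdA_key P u hu hP a b d
  simp only [Finset.sum_add_distrib] at h1
  rw [IdA_rot (fun a b d => IdA_s P u a b d), IdA_rot' (fun a b d => IdA_s P u a b d),
    IdA_rot (fun a b d => tri (P a) u (P b) (P d)),
    IdA_rot' (fun a b d => tri (P a) u (P b) (P d)),
    IdA_rot (fun a b d => sp (P a) (P b) (P d) u),
    IdA_rot' (fun a b d => sp (P a) (P b) (P d) u)] at h1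
  have h2 : ∑ c, ∑ a, ∑ b, sp (P a) (P b) (P c) u = ∑ a, ∑ b, ∑ d, sp (P a) (P b) (P d) u :=
    IdA_rot (fun a b d => sp (P a) (P b) (P d) u)
  have h3 : ∑ a, ∑ b, ∑ d, IdA_s P u a b d =
      ∑ a, ((m : ℤ) - 1 - inn P u a) * ((m : ℤ) - 2 - inn P u a) := by
    refine Finset.sum_congr rfl fun a _ => ?_
    rw [IdA_src, IdA_out P u hu a]
    ring
  have h4 : T2 P u = ∑ a, ∑ b, ∑ d, tri (P a) u (P b) (P d) := rfl
  rw [h2, ← h3, h4]
  linarith

end Pool.Agent.Lib.MP_00ece3_co.EX
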