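import Pool.Agent.Lib.MP_00ece3_co.EX.SpecB

/-!
MP_00ece3_co, EX/KPath: total cost of the path.
-/

set_option autoImplicit false

namespace Pool.Agent.Lib.MP_00ece3_co.EX

open Pool.Agent.Lib.MP_00ece3_co

namespace KPathAux

variable {m : ℕ}

private lemma ps_congr {f g : Fin m → Fin m → ℤ}
    (h : ∀ i j : Fin m, (i : ℕ) + 1 = j → f i j = g i j) : pathSum f = pathSum g := by
  unfold pathSum
  refine Finset.sum_congr rfl fun i _ => Finset.sum_congr rfl fun j _ => ?_
  split_ifs with hij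
  · exact h i j hij
  · rfl

private lemma ps_add (f g : Fin m → Fin m → ℤ) :
    pathSum (fun i j => f i j + g i j) = pathSum f + pathSum g := by
  unfold pathSum
  rw [← Finset.sum_add_distrib]
  refine Finset.sum_congr rfl fun i _ => ?_
  rw [← Finset.sum_add_distrib]
  refine Finset.sum_congr rfl fun j _ => ?_
  split_ifs
  · rfl
  · rfl

private lemma ps_two (f : Fin m → Fin m → ℤ) :
    pathSum (fun i j => 2 * f i j) = 2 * pathSum f := by
  unfold pathSum
  rw [Finset.mul_sum]
  refine Finset.sum_congr rfl fun i _ => ?_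
  rw [Finset.mul_sum]
  refine Finset.sum_congr rfl fun j _ => ?_
  split_ifs
  · rfl
  · rfl

private lemma ps_sum (f : Fin m → Fin m → Fin m → ℤ) :
    pathSum (fun i j => ∑ a, f a i j) = ∑ a, pathSum (f a) := by
  unfold pathSum
  symm
  rw [Finset.sum_comm]
  refine Finset.sum_congr rfl fun i _ => ?_
  rw [Finset.sum_comm]
  refine Finset.sum_congr rfl fun j _ => ?_
  split_ifs
  · rfl
  · exact Finset.sum_const_zero

private lemma card_ge (c : ℕ) (hc : c ≤ m) :
    ∑ a : Fin m, (if c ≤ (a : ℕ) then (1 : ℤ) else 0) = (m : ℤ) - c := by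
  rw [Fin.sum_univ_eq_sum_range (fun a : ℕ => if c ≤ a then (1 : ℤ) else 0) m,
    ← Finset.sum_filter, Finset.sum_const, nsmul_eq_mul, mul_one]
  have h1 : (Finset.range m).filter (fun a => c ≤ a) = Finset.Ico c m := by
    ext a
    simp only [Finset.mem_filter, Finset.mem_range, Finset.mem_Ico]
    exact and_comm
  rw [h1, Nat.card_Ico, Nat.cast_sub hc]

private lemma card_le (c : ℕ) (hc : c ≤ m) :
    ∑ a : Fin m, (if c + (a : ℕ) + 1 ≤ m then (1 : ℤ) else 0) = (m : ℤ) - c := by
  rw [Fin.sum_univ_eq_sum_range (fun a : ℕ => if c + a + 1 ≤ m then (1 : ℤ) else 0) m,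
    ← Finset.sum_filter, Finset.sum_const, nsmul_eq_mul, mul_one]
  have h1 : (Finset.range m).filter (fun a => c + a + 1 ≤ m) = Finset.range (m - c) := by
    ext a
    simp only [Finset.mem_filter, Finset.mem_range]
    omega
  rw [h1, Finset.card_range, Nat.cast_sub hc]

private lemma ps_one (l : ℕ) (h1 : 1 ≤ l) (h2 : l < m) :
    pathSum (fun i _ : Fin m => if (i : ℕ) + 1 = l then 1 else 0) = 1 := by
  unfold pathSum
  rw [Finset.sum_eq_single (⟨l - 1, by omega⟩ : Fin m)]
  · rw [Finset.sum_eq_single (⟨l, h2⟩ : Fin m)]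
    · rw [if_pos (show (l - 1) + 1 = l by omega)]
      exact if_pos (show (l - 1) + 1 = l by omega)
    · intro j _ hj
      rw [if_neg]
      intro h
      apply hj
      apply Fin.ext
      change (l - 1) + 1 = (j : ℕ) at h
      change (j : ℕ) = l
      omega
    · intro h
      exact absurd (Finset.mem_univ _) h
  · intro i _ hi
    refine Finset.sum_eq_zero fun j _ => ?_
    have h3 : ¬ (i : ℕ) + 1 = l := by
      intro h
      apply hi
      apply Fin.ext
      change (i : ℕ) = l - 1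
      omega
    by_cases hij : (i : ℕ) + 1 = j
    · rw [if_pos hij]
      exact if_neg h3
    · rw [if_neg hij]
  · intro h
    exact absurd (Finset.mem_univ _) h

end KPathAux

open KPathAux in
theorem tKPath (hKRR : S_KRR) (hKPU : S_KPU) (hHHs : S_HHs) : S_KPath := by
  intro m hm
  have h0 : pathSum (fun i j => N2 (kP m) (kU m) (kV m) (kP m i) (kP m j)) =
      2 * ∑ a, PU (kP m) (kU m) a + 2 * ∑ a, PU (kP m) (kV m) a +
        2 * pathSum (fun i j => sp (kU m) (kV m) (kP m i) (kP m j)) := by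
    rw [ps_congr (g := fun i j => 2 * (∑ a, sp (kP m a) (kU m) (kP m i) (kP m j)) +
      2 * (∑ a, sp (kP m a) (kV m) (kP m i) (kP m j)) +
      2 * sp (kU m) (kV m) (kP m i) (kP m j))]
    · rw [ps_add, ps_add, ps_two, ps_two, ps_two, ps_sum, ps_sum]
      rfl
    · intro i j hij
      have h1 := (hKRR m i j (by rw [Fin.lt_def]; omega)).1 hij.symm
      unfold N2
      simp only [h1, Finset.sum_const_zero, zero_add]
  have h1 : pathSum (fun i j => sp (kU m) (kV m) (kP m i) (kP m j)) = 1 := by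
    rw [← ps_one (m := m) (m / 2) (by omega) (by omega)]
    refine ps_congr fun i j hij => ?_
    obtain ⟨s1, s2⟩ := hHHs (m / 2) ((m + 1) / 2) ((m + 1) / 2 + 1) i (Nat.lt_succ_self _)
    obtain ⟨s3, s4⟩ := hHHs (m / 2) ((m + 1) / 2) ((m + 1) / 2 + 1) j (Nat.lt_succ_self _)
    have e1 : ∀ x : Fin m, orient (kU m) (kV m) (kP m x) =
        orient (pp (m / 2) x) (hh ((m + 1) / 2)) (hh ((m + 1) / 2 + 1)) := by
      intro x
      unfold kU kV kP orient
      ring
    unfold sp Sp
    rw [e1 i, e1 j]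
    by_cases hi : (i : ℕ) < m / 2
    · have p1 := s1.2 hi
      by_cases hj : (j : ℕ) < m / 2
      · have p2 := s3.2 hj
        rw [if_neg (not_lt.2 (mul_pos p1 p2).le), if_neg (by omega)]
      · have p2 : orient (pp (m / 2) j) (hh ((m + 1) / 2)) (hh ((m + 1) / 2 + 1)) < 0 :=
          lt_of_le_of_ne (not_lt.1 fun h => hj (s3.1 h)) s4
        rw [if_pos (mul_neg_of_pos_of_neg p1 p2), if_pos (by omega)]
    · have hj : ¬ (j : ℕ) < m / 2 := by omega
      have p1 : orient (pp (m / 2) i) (hh ((m + 1) / 2)) (hh ((m + 1) / 2 + 1)) < 0 :=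
        lt_of_le_of_ne (not_lt.1 fun h => hi (s1.1 h)) s2
      have p2 : orient (pp (m / 2) j) (hh ((m + 1) / 2)) (hh ((m + 1) / 2 + 1)) < 0 :=
        lt_of_le_of_ne (not_lt.1 fun h => hj (s3.1 h)) s4
      rw [if_neg (not_lt.2 (mul_pos_of_neg_of_neg p1 p2).le), if_neg (by omega)]
  have h2 : ∑ a, PU (kP m) (kU m) a = 2 * ((m : ℤ) - ((m + 1) / 2 : ℕ)) := by
    rw [Finset.sum_congr rfl fun a _ => (hKPU m a (by omega)).1, Finset.sum_add_distrib,
      card_ge _ (by omega), card_le _ (by omega)]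
    ring
  have h3 : ∑ a, PU (kP m) (kV m) a = 2 * ((m : ℤ) - ((m + 1) / 2 + 1 : ℕ)) := by
    rw [Finset.sum_congr rfl fun a _ => (hKPU m a (by omega)).2, Finset.sum_add_distrib,
      card_ge _ (by omega), card_le _ (by omega)]
    ring
  rw [h0, h1, h2, h3]
  split_ifs with hodd
  · have h4 : (((m + 1) / 2 : ℕ) : ℤ) * 2 = m + 1 := by
      have : (m + 1) / 2 * 2 = m + 1 := by omega
      exact_mod_cast this
    push_cast at h4 ⊢
    linarith
  · have h4 : (((m + 1) / 2 : ℕ) : ℤ) * 2 = m := by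
      have : (m + 1) / 2 * 2 = m := by omega
      exact_mod_cast this
    push_cast at h4 ⊢
    linarith

end Pool.Agent.Lib.MP_00ece3_co.EX
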