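import Pool.Agent.Lib.MP_00ece3_co.EX.SpecA

/-!
# Project EX: Opp (zero lines of opposite types give inclusions)
-/

set_option autoImplicit false

namespace Pool.Agent.Lib.MP_00ece3_co.EX

open Pool.Agent.Lib.MP_00ece3_co

namespace OppAux

private lemma tri_nonneg (x a b c : ℝ × ℝ) : 0 ≤ tri x a b c := by
  unfold tri
  split_ifs <;> norm_num

private lemma rot (x y z : ℝ × ℝ) : orient y z x = orient x y z := by
  unfold orient; ring

private lemma swp (x y z : ℝ × ℝ) : orient x z y = - orient x y z := by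
  unfold orient; ring

private lemma tri_swap (x a b c : ℝ × ℝ) : Tri x a b c → Tri x a c b := by
  unfold Tri
  have h1 : orient a c x = - orient c a x := by unfold orient; ring
  have h2 : orient c b x = - orient b c x := by unfold orient; ring
  have h3 : orient b a x = - orient a b x := by unfold orient; ring
  rw [h1, h2, h3]
  rintro (⟨g1, g2, g3⟩ | ⟨g1, g2, g3⟩)
  · right
    refine ⟨by linarith, by linarith, by linarith⟩
  · left
    refine ⟨by linarith, by linarith, by linarith⟩

private lemma tri_of (x a b c : ℝ × ℝ) (h : Tri x a b c) : tri x a b c = 1 := by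
  unfold tri
  rw [if_pos h]

/-- the main step -/
private lemma step {m : ℕ} (P : Fin m → ℝ × ℝ) (u v : ℝ × ℝ) (hG : GP P u v) (a : Fin m)
    (hp : Zp P u a) (hm : Zm P v a) (i j : Fin m) (hi : i < a) (hj : a < j) :
    Tri (P a) u (P i) (P j) ∨ Tri (P a) v (P i) (P j) := by
  have hij : orient (P a) (P i) (P j) ≠ 0 :=
    hG.2.2.2 a i j (ne_of_gt hi) (ne_of_lt hj) (ne_of_lt (lt_trans hi hj))
  have a1 := hp.1 i hi
  have a2 := hp.2 j hj
  have b1 := hm.1 i hi
  have b2 := hm.2 j hj
  have e1 : orient u (P i) (P a) = orient (P a) u (P i) := rot _ _ _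
  have e2 : orient (P i) (P j) (P a) = orient (P a) (P i) (P j) := rot _ _ _
  have e3 : orient (P j) u (P a) = - orient (P a) u (P j) := by
    rw [rot (P a) (P j) u, swp]
  have f1 : orient v (P i) (P a) = orient (P a) v (P i) := rot _ _ _
  have f3 : orient (P j) v (P a) = - orient (P a) v (P j) := by
    rw [rot (P a) (P j) v, swp]
  rcases lt_or_gt_of_ne hij with h | h
  · right
    right
    rw [f1, e2, f3]
    exact ⟨b1, h, by linarith⟩
  · left
    left
    rw [e1, e2, e3]
    exact ⟨a1, h, by linarith⟩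

private lemma pair_le {m : ℕ} (P : Fin m → ℝ × ℝ) (u v : ℝ × ℝ) (hG : GP P u v) (a : Fin m)
    (hp : Zp P u a) (hm : Zm P v a) (i j : Fin m) :
    ((if i < a then (1 : ℤ) else 0) * (if a < j then 1 else 0) +
      (if j < a then (1 : ℤ) else 0) * (if a < i then 1 else 0)) ≤
      tri (P a) u (P i) (P j) + tri (P a) v (P i) (P j) := by
  have n1 := tri_nonneg (P a) u (P i) (P j)
  have n2 := tri_nonneg (P a) v (P i) (P j)
  by_cases h1 : i < a
  · have h2 : ¬ a < i := not_lt.2 h1.le
    rw [if_pos h1, if_neg h2]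
    by_cases h3 : a < j
    · rw [if_pos h3]
      rcases step P u v hG a hp hm i j h1 h3 with h | h
      · rw [tri_of _ _ _ _ h]
        linarith
      · rw [tri_of _ _ _ _ h]
        linarith
    · rw [if_neg h3]
      linarith
  · rw [if_neg h1]
    by_cases h2 : a < i
    · by_cases h3 : j < a
      · rw [if_pos h2, if_pos h3]
        rcases step P u v hG a hp hm j i h3 h2 with h | h
        · rw [tri_of _ _ _ _ (tri_swap _ _ _ _ h)]
          linarith
        · rw [tri_of _ _ _ _ (tri_swap _ _ _ _ h)]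
          linarith
      · rw [if_neg h3]
        linarith
    · rw [if_neg h2]
      linarith

private lemma cnt1 {m : ℕ} (a : Fin m) : ∑ i : Fin m, (if i < a then (1 : ℤ) else 0) = a := by
  rw [Finset.sum_boole]
  have : (Finset.univ.filter fun i : Fin m => i < a) = Finset.Iio a := by
    ext i
    simp
  rw [this, Fin.card_Iio]

private lemma cnt2 {m : ℕ} (a : Fin m) :
    ∑ i : Fin m, (if a < i then (1 : ℤ) else 0) = (m : ℤ) - 1 - a := by
  rw [Finset.sum_boole]
  have : (Finset.univ.filter fun i : Fin m => a < i) = Finset.Ioi a := by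
    ext i
    simp
  rw [this, Fin.card_Ioi]
  have := a.isLt
  omega

private lemma cnt {m : ℕ} (a : Fin m) :
    ∑ i : Fin m, ∑ j : Fin m, ((if i < a then (1 : ℤ) else 0) * (if a < j then 1 else 0) +
      (if j < a then (1 : ℤ) else 0) * (if a < i then 1 else 0)) =
      2 * (a : ℤ) * ((m : ℤ) - 1 - a) := by
  have h : ∀ i : Fin m, ∑ j : Fin m, ((if i < a then (1 : ℤ) else 0) * (if a < j then 1 else 0) +
      (if j < a then (1 : ℤ) else 0) * (if a < i then 1 else 0)) =
      (if i < a then (1 : ℤ) else 0) * ((m : ℤ) - 1 - a) + (a : ℤ) * (if a < i then 1 else 0) := by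
    intro i
    rw [Finset.sum_add_distrib, ← Finset.mul_sum, ← Finset.sum_mul, cnt1, cnt2]
  rw [Finset.sum_congr rfl fun i _ => h i, Finset.sum_add_distrib, ← Finset.sum_mul,
    ← Finset.mul_sum, cnt1, cnt2]
  ring

private lemma T2_ge {m : ℕ} (P : Fin m → ℝ × ℝ) (u : ℝ × ℝ) (a : Fin m) :
    ∑ i, ∑ j, tri (P a) u (P i) (P j) ≤ T2 P u := by
  unfold T2
  exact Finset.single_le_sum
    (f := fun a => ∑ i, ∑ j, tri (P a) u (P i) (P j))
    (fun b _ => Finset.sum_nonneg fun i _ => Finset.sum_nonneg fun j _ => tri_nonneg _ _ _ _)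
    (Finset.mem_univ a)

end OppAux

open OppAux in
theorem tOpp : S_Opp := by
  intro m P u v hG a hp hm
  rw [← cnt a]
  refine le_trans ?_ (add_le_add (T2_ge P u a) (T2_ge P v a))
  rw [← Finset.sum_add_distrib]
  refine Finset.sum_le_sum fun i _ => ?_
  rw [← Finset.sum_add_distrib]
  exact Finset.sum_le_sum fun j _ => pair_le P u v hG a hp hm i j

end Pool.Agent.Lib.MP_00ece3_co.EX
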