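import Pool.Agent.Lib.MP_00ece3_co.EX.SpecC

/-!
# Project EX: orders of linear forests (author helper12)
-/

set_option autoImplicit false

namespace Pool.Agent.Lib.MP_00ece3_co.EX

open Pool.Agent.Lib.MP_00ece3_co

namespace OrdXAux

variable {C : Type} (Γ : SimpleGraph C)

/-- Only consecutive elements of the list are adjacent. -/
def Good : List C → Prop
  | [] => True
  | a :: l => (∀ b ∈ l.tail, ¬ Γ.Adj a b) ∧ Good l

variable {Γ}

theorem good_before {y z : C} {l2 : List C} (hy : ∀ b ∈ l2, ¬ Γ.Adj y b) :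
    ∀ l1 : List C, Good Γ (l1 ++ z :: l2) → (∀ a ∈ l1, ¬ Γ.Adj a z) → (∀ a ∈ l1, ¬ Γ.Adj a y) →
      Good Γ (l1 ++ y :: z :: l2)
  | [], h, _, _ => ⟨hy, h⟩
  | [a], h, h1, h2 => by
    refine ⟨fun b hb => ?_, hy, h.2⟩
    change b ∈ z :: l2 at hb
    rcases List.mem_cons.1 hb with rfl | hb
    · exact h1 a List.mem_cons_self
    · exact h.1 b hb
  | a :: c :: l1, h, h1, h2 => by
    refine ⟨fun b hb => ?_, good_before hy (c :: l1) h.2
      (fun x hx => h1 x (List.mem_cons_of_mem _ hx)) fun x hx => h2 x (List.mem_cons_of_mem _ hx)⟩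
    change b ∈ l1 ++ y :: z :: l2 at hb
    have h3 : ∀ b ∈ l1 ++ z :: l2, ¬ Γ.Adj a b := h.1
    rcases List.mem_append.1 hb with hb | hb
    · exact h3 b (List.mem_append.2 (Or.inl hb))
    · rcases List.mem_cons.1 hb with rfl | hb
      · exact h2 a List.mem_cons_self
      · exact h3 b (List.mem_append.2 (Or.inr hb))

theorem good_after {y z : C} {l2 : List C} (hy : ∀ b ∈ l2, ¬ Γ.Adj y b)
    (hz : ∀ b ∈ l2, ¬ Γ.Adj z b) :
    ∀ l1 : List C, Good Γ (l1 ++ z :: l2) → (∀ a ∈ l1, ¬ Γ.Adj a y) →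
      Good Γ (l1 ++ z :: y :: l2)
  | [], h, _ => ⟨hz, fun b hb => hy b (List.mem_of_mem_tail hb), h.2⟩
  | [a], h, h2 => by
    refine ⟨fun b hb => ?_, hz, fun b hb => hy b (List.mem_of_mem_tail hb), h.2.2⟩
    change b ∈ y :: l2 at hb
    rcases List.mem_cons.1 hb with rfl | hb
    · exact h2 a List.mem_cons_self
    · exact h.1 b hb
  | a :: c :: l1, h, h2 => by
    refine ⟨fun b hb => ?_, good_after hy hz (c :: l1) h.2
      fun x hx => h2 x (List.mem_cons_of_mem _ hx)⟩
    change b ∈ l1 ++ z :: y :: l2 at hb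
    have h3 : ∀ b ∈ l1 ++ z :: l2, ¬ Γ.Adj a b := h.1
    rcases List.mem_append.1 hb with hb | hb
    · exact h3 b (List.mem_append.2 (Or.inl hb))
    · rcases List.mem_cons.1 hb with rfl | hb
      · exact h3 b (List.mem_append.2 (Or.inr List.mem_cons_self))
      · rcases List.mem_cons.1 hb with rfl | hb
        · exact h2 a List.mem_cons_self
        · exact h3 b (List.mem_append.2 (Or.inr (List.mem_cons_of_mem _ hb)))

theorem good_get : ∀ (l : List C), Good Γ l → ∀ (i j : ℕ) (hi : i < l.length) (hj : j < l.length),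
    i < j → Γ.Adj l[i] l[j] → j = i + 1
  | [], _, i, _, hi, _, _, _ => absurd hi (Nat.not_lt_zero i)
  | a :: l, h, 0, 0, _, _, h1, _ => absurd h1 (Nat.lt_irrefl 0)
  | a :: l, h, 0, 1, _, _, _, _ => rfl
  | a :: l, h, 0, j + 2, _, hj, _, h2 => by
    exfalso
    cases l with
    | nil => simp at hj
    | cons c l =>
      have h3 : j < l.length := by simpa using hj
      exact h.1 l[j] (List.getElem_mem h3) h2
  | a :: l, h, i + 1, 0, _, _, h1, _ => absurd h1 (Nat.not_lt_zero _)
  | a :: l, h, i + 1, j + 1, hi, hj, h1, h2 => by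
    have h3 : j = i + 1 := good_get l h.2 i j (Nat.lt_of_succ_lt_succ hi)
      (Nat.lt_of_succ_lt_succ hj) (Nat.lt_of_succ_lt_succ h1) h2
    rw [h3]

open Classical in
theorem exists_list : ∀ (n : ℕ) (X : Finset C), X.card = n →
    (∀ x ∈ X, (X.filter (fun y => Γ.Adj x y)).card ≤ 2) →
    (∀ Y : Finset C, Y ⊆ X → Y.Nonempty → ∃ y ∈ Y, (Y.filter (fun z => Γ.Adj y z)).card ≤ 1) →
    ∃ l : List C, l.Nodup ∧ (∀ x, x ∈ l ↔ x ∈ X) ∧ Good Γ l
  | 0, X, hX, _, _ => by
    rw [Finset.card_eq_zero] at hX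
    subst hX
    exact ⟨[], List.nodup_nil, fun x => by simp, trivial⟩
  | n + 1, X, hX, h1, h2 => by
    have hne : X.Nonempty := by
      rw [← Finset.card_pos, hX]
      exact Nat.succ_pos n
    obtain ⟨y, hy, hy1⟩ := h2 X (Finset.Subset.refl X) hne
    have hsub : X.erase y ⊆ X := Finset.erase_subset y X
    obtain ⟨l, hl1, hl2, hl3⟩ := exists_list n (X.erase y) (by
      rw [Finset.card_erase_of_mem hy, hX, Nat.add_sub_cancel])
      (fun x hx => (Finset.card_le_card (Finset.filter_subset_filter _ hsub)).trans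
        (h1 x (hsub hx)))
      (fun Y hY => h2 Y (hY.trans hsub))
    have hyl : y ∉ l := by
      rw [hl2]
      exact Finset.notMem_erase y X
    by_cases hz : ∃ z ∈ X, Γ.Adj y z
    · obtain ⟨z, hz, hyz⟩ := hz
      have honly : ∀ x ∈ X, Γ.Adj y x → x = z := by
        intro x hx hyx
        exact Finset.card_le_one.1 hy1 x (Finset.mem_filter.2 ⟨hx, hyx⟩) z
          (Finset.mem_filter.2 ⟨hz, hyz⟩)
      have hzl : z ∈ l := by
        rw [hl2]
        exact Finset.mem_erase.2 ⟨(Γ.ne_of_adj hyz).symm, hz⟩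
      obtain ⟨l1, l2, rfl⟩ := List.append_of_mem hzl
      rw [List.nodup_append, List.nodup_cons] at hl1
      obtain ⟨hn1, ⟨hzl2, hn2⟩, hn3⟩ := hl1
      have hX1 : ∀ a ∈ l1, a ∈ X := fun a ha =>
        hsub ((hl2 a).1 (List.mem_append.2 (Or.inl ha)))
      have hX2 : ∀ a ∈ l2, a ∈ X := fun a ha =>
        hsub ((hl2 a).1 (List.mem_append.2 (Or.inr (List.mem_cons_of_mem _ ha))))
      have hay1 : ∀ a ∈ l1, ¬ Γ.Adj a y := fun a ha h =>
        hn3 a ha z List.mem_cons_self (honly a (hX1 a ha) h.symm)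
      have hya2 : ∀ a ∈ l2, ¬ Γ.Adj y a := fun a ha h => by
        rw [honly a (hX2 a ha) h] at ha
        exact hzl2 ha
      have hy1' : y ∉ l1 := fun h => hyl (List.mem_append.2 (Or.inl h))
      have hy2' : y ∉ l2 := fun h => hyl (List.mem_append.2 (Or.inr (List.mem_cons_of_mem _ h)))
      have hyz' : y ≠ z := Γ.ne_of_adj hyz
      have hmem : ∀ x, (x ∈ l1 ∨ x = z ∨ x ∈ l2) ∨ x = y ↔ x ∈ X := by
        intro x
        have h3 := hl2 x
        rw [List.mem_append, List.mem_cons, Finset.mem_erase] at h3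
        rw [h3]
        constructor
        · rintro (h | rfl)
          · exact h.2
          · exact hy
        · intro h
          by_cases hxy : x = y
          · exact Or.inr hxy
          · exact Or.inl ⟨hxy, h⟩
      by_cases hc : ∃ a ∈ l1, Γ.Adj a z
      · obtain ⟨a, ha, haz⟩ := hc
        have hz2 : ∀ b ∈ l2, ¬ Γ.Adj z b := by
          intro b hb hzb
          have h4 : ({y, a, b} : Finset C) ⊆ X.filter (fun x => Γ.Adj z x) := by
            intro x hx
            rw [Finset.mem_insert, Finset.mem_insert, Finset.mem_singleton] at hx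
            rw [Finset.mem_filter]
            rcases hx with rfl | rfl | rfl
            · exact ⟨hy, hyz.symm⟩
            · exact ⟨hX1 _ ha, haz.symm⟩
            · exact ⟨hX2 _ hb, hzb⟩
          have h5 : ({y, a, b} : Finset C).card = 3 := by
            rw [Finset.card_eq_three]
            refine ⟨y, a, b, fun h => hy1' (h ▸ ha), fun h => hy2' (h ▸ hb), ?_, rfl⟩
            exact hn3 a ha b (List.mem_cons_of_mem _ hb)
          have h6 := (Finset.card_le_card h4).trans (h1 z hz)
          rw [h5] at h6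
          omega
        refine ⟨l1 ++ z :: y :: l2, ?_, fun x => ?_, good_after hya2 hz2 l1 hl3 hay1⟩
        · rw [List.nodup_append, List.nodup_cons, List.nodup_cons]
          refine ⟨hn1, ⟨?_, hy2', hn2⟩, ?_⟩
          · rw [List.mem_cons, not_or]
            exact ⟨hyz'.symm, hzl2⟩
          · intro a ha b hb
            rcases List.mem_cons.1 hb with rfl | hb
            · exact hn3 a ha b List.mem_cons_self
            · rcases List.mem_cons.1 hb with rfl | hb
              · exact fun h => hy1' (h ▸ ha)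
              · exact hn3 a ha b (List.mem_cons_of_mem _ hb)
        · rw [← hmem x, List.mem_append, List.mem_cons, List.mem_cons]
          tauto
      · have hc' : ∀ a ∈ l1, ¬ Γ.Adj a z := fun a ha h => hc ⟨a, ha, h⟩
        refine ⟨l1 ++ y :: z :: l2, ?_, fun x => ?_, good_before hya2 l1 hl3 hc' hay1⟩
        · rw [List.nodup_append, List.nodup_cons, List.nodup_cons]
          refine ⟨hn1, ⟨?_, hzl2, hn2⟩, ?_⟩
          · rw [List.mem_cons, not_or]
            exact ⟨hyz', hy2'⟩
          · intro a ha b hb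
            rcases List.mem_cons.1 hb with rfl | hb
            · exact fun h => hy1' (h ▸ ha)
            · exact hn3 a ha b hb
        · rw [← hmem x, List.mem_append, List.mem_cons, List.mem_cons]
          tauto
    · refine ⟨y :: l, List.nodup_cons.2 ⟨hyl, hl1⟩, fun x => ?_, fun b hb hyb => ?_, hl3⟩
      · rw [List.mem_cons, hl2, Finset.mem_erase]
        constructor
        · rintro (rfl | h)
          · exact hy
          · exact h.2
        · intro h
          by_cases hxy : x = y
          · exact Or.inl hxy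
          · exact Or.inr ⟨hxy, h⟩
      · exact hz ⟨b, hsub ((hl2 b).1 (List.mem_of_mem_tail hb)), hyb⟩

end OrdXAux

theorem tOrdX : S_OrdX := by
  intro C Γ X h1 h2
  classical
  obtain ⟨l, hl1, hl2, hl3⟩ := OrdXAux.exists_list (Γ := Γ) X.card X rfl h1 h2
  obtain rfl : X = l.toFinset := by
    ext x
    rw [List.mem_toFinset, hl2]
  have hcard : l.toFinset.card = l.length := List.toFinset_card_of_nodup hl1
  refine ⟨(finCongr hcard).trans ((List.Nodup.getEquiv l hl1).trans
    (Equiv.subtypeEquivRight fun x => List.mem_toFinset.symm)), fun i j hij hadj => ?_⟩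
  exact OrdXAux.good_get l hl3 i j (hcard ▸ i.2) (hcard ▸ j.2) hij hadj

end Pool.Agent.Lib.MP_00ece3_co.EX
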