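import Pool.Agent.Lib.MP_00ece3_co.EX.Defs

/-!
# Project EX, part A: the sharp lower bound for `K_2 + P_m` (note 4016, parts 1 and 2)

Every `S_...` is a separate task; its proof is in the docstring.  Remarks for all tasks:
`orient` vanishes when two arguments coincide, so `Sp a b x y` and `Tri x a b c` imply that the
relevant points are distinct.  `orient y z x = orient x y z`, `orient x z y = - orient x y z`
(`Star.orient_rot`, `Star.orient_swap` in `Star.lean`),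
`orient a b d = orient c a b + orient c b d + orient c d a` (`Star.orient_sum`).
-/

set_option autoImplicit false

namespace Pool.Agent.Lib.MP_00ece3_co.EX

open Pool.Agent.Lib.MP_00ece3_co

/-! ## A1. The identity -/

/-- **IdA** (star identity).  This is `Star.key` / `Star.star` of `Star.lean` with equality.
Put `α = orient u a b`, `β = orient u b d`, `γ = orient u d a`, `ω = orient a b d = α + β + γ` for
three different points `a, b, d` of the configuration (all nonzero).  Cyclic sums over `(a,b,d)`: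
`sp (P b) (P d) (P a) u` is `1` iff `β ω < 0`, etc.; `[0 < orient u a b][0 < orient u a d]` is
`[0 < α][γ < 0]`; `tri (P a) u (P b) (P d)` is `1` iff `orient u b a = -α`, `orient b d a = ω`,
`orient d u a = γ`... have the same sign.  In each of the sign patterns
(three signs equal to that of `ω`, two, one): number of separating lines `= [exactly one source] +
[one point inside the triangle of u and the two others]`.  For coinciding points all terms vanish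
if sources are counted for `b ≠ d`.  Sum over all ordered triples:
`∑ sp (P a) (P b) (P c) u = ∑_a out_a (out_a - 1) + T2`, `out_a = #{b : 0 < orient u (P a) (P b)} =
m - 1 - inn P u a`. -/
def S_IdA : Prop := ∀ (m : ℕ) (P : Fin m → ℝ × ℝ) (u : ℝ × ℝ),
  (∀ i j, i ≠ j → orient (P i) (P j) u ≠ 0) →
  (∀ i j k, i ≠ j → i ≠ k → j ≠ k → orient (P i) (P j) (P k) ≠ 0) →
  ∑ c, ∑ a, ∑ b, sp (P a) (P b) (P c) u =
    ∑ a, ((m : ℤ) - 1 - inn P u a) * ((m : ℤ) - 2 - inn P u a) + T2 P u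

/-- **SumU**.  `∑_a inn P u a = m(m-1)/2` : for `a ≠ b` exactly one of `0 < orient (P a) u (P b)`,
`0 < orient (P b) u (P a)` holds.  So `∑ U_a = 0`. -/
def S_SumU : Prop := ∀ (m : ℕ) (P : Fin m → ℝ × ℝ) (u : ℝ × ℝ),
  (∀ i j, i ≠ j → orient (P i) (P j) u ≠ 0) →
  2 * ∑ a, inn P u a = (m : ℤ) * (m - 1) ∧ ∑ a, UU P u a = 0

/-- **PairId** (finite check on four points in general position).  With
`t1 = orient a b u`, `t2 = orient a b v`, `t3 = orient a u v`, `t4 = orient b u v` (all nonzero,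
`t1 - t2 + t3 - t4 = 0`) all indicators are determined by the signs. -/
def S_PairId : Prop := ∀ a b u v : ℝ × ℝ, orient a b u ≠ 0 → orient a b v ≠ 0 →
  orient a u v ≠ 0 → orient b u v ≠ 0 →
  2 * (sp a v b u + sp b v a u + sp a u b v + sp b u a v) + 2 * sp a b u v =
    4 - ((if 0 < orient a u v then 1 else -1) * (lft a u b - lft a v b) +
      (if 0 < orient b u v then 1 else -1) * (lft b u a - lft b v a)) +
      2 * tri b a u v + 2 * tri a b u v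

/-- **IdB** (from PairId).  Sum of PairId over all ordered pairs `a ≠ b`, divided by two; all terms
with `a = b` vanish. -/
def S_IdB : Prop := ∀ (m : ℕ) (P : Fin m → ℝ × ℝ) (u v : ℝ × ℝ), GP P u v →
  2 * ∑ c, ∑ a, sp (P a) v (P c) u + 2 * ∑ c, ∑ a, sp (P a) u (P c) v +
      ∑ a, ∑ b, sp (P a) (P b) u v =
    2 * (m : ℤ) * (m - 1) - ∑ a, sg P u v a * (inn P u a - inn P v a) + 2 * TT P u v

/-- **Ident** (from IdA, SumU, IdB).  Identity (1) of the note.  `H2` is the sum of the five sums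
in IdA (twice) and IdB, since `sp (P a) u (P c) u = 0` etc.  Algebra: `inn = (U + (m-1))/2`,
`∑ U = 0`. -/
def S_Ident : Prop := ∀ (m : ℕ) (P : Fin m → ℝ × ℝ) (u v : ℝ × ℝ), GP P u v →
  4 * H2 P u v = 2 * (m : ℤ) * ((m : ℤ) ^ 2 - 1) +
    ∑ a, (UU P u a ^ 2 + UU P v a ^ 2 - 2 * sg P u v a * (UU P u a - UU P v a)) +
    4 * T2 P u + 4 * T2 P v + 8 * TT P u v

/-- **IdentLe** (from Ident). -/
def S_IdentLe : Prop := ∀ (m : ℕ) (P : Fin m → ℝ × ℝ) (u v : ℝ × ℝ), GP P u v →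
  2 * (m : ℤ) * ((m : ℤ) ^ 2 - 1) + ∑ a, WW P u v a + 4 * T2 P u + 4 * T2 P v + 8 * TT P u v ≤
    4 * H2 P u v

/-! ## A2. Sums of crossings -/

/-- **SepN**.  `2 sepCount p x y` is the number of ordered pairs `(a,b)` such that the line `ab`
separates `x` and `y` (compare `Star.sum_sI_le`; here with equality: the map
`(a,b) ↦ s(a,b)` is two to one on these pairs, `a ≠ b` and `a, b ∉ {x,y}` hold automatically). -/
def S_SepN : Prop := ∀ (V : Type) [Fintype V] (p : V → ℝ × ℝ) (x y : V),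
  2 * (sepCount p x y : ℤ) = ∑ a, ∑ b, sp (p a) (p b) (p x) (p y)

/-- **SepR** (from SepN).  The same for points `u = p u0`, `v = p v0`, `P i = p (r i)`, when `r`
is injective with range `V - {u0, v0}`. -/
def S_SepR : Prop := ∀ (n m : ℕ) (p : Fin n → ℝ × ℝ) (u0 v0 : Fin n) (r : Fin m → Fin n),
  u0 ≠ v0 → Function.Injective r → (∀ x, (∃ i, r i = x) ↔ x ≠ u0 ∧ x ≠ v0) → ∀ x y : Fin n,
  2 * (sepCount p x y : ℤ) = N2 (fun i => p (r i)) (p u0) (p v0) (p x) (p y)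

/-- **CrK** (from SepR, `Upper.two_mul_crossings` or the definition of `crossings`). -/
def S_CrK : Prop := ∀ (m : ℕ) (p : Fin (m + 2) → ℝ × ℝ),
  2 * (crossings (Kg (m + 2)) p : ℤ) =
    H2 (fun i : Fin m => p i.succ.succ) (p 0) (p 1) + PR2 (fun i : Fin m => p i.succ.succ) +
    2 * ∑ a, PU (fun i : Fin m => p i.succ.succ) (p 0) a +
    2 * ∑ a, PU (fun i : Fin m => p i.succ.succ) (p 1) a +
    2 * P0 (fun i : Fin m => p i.succ.succ) (p 0) (p 1)

/-! ## A3. Zero lines -/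

/-- **Zero** (2.1).  If the line `P_a u` separates no path edge `P_i P_{i+1}` (`i, i+1 ≠ a`; for
`i = a` or `i + 1 = a` the term vanishes anyway), then all `i < a` are on one side and all `i > a`
are on one side. Count `inn`. -/
def S_Zero : Prop := ∀ (m : ℕ) (P : Fin m → ℝ × ℝ) (u : ℝ × ℝ),
  (∀ i j, i ≠ j → orient (P i) (P j) u ≠ 0) → ∀ a : Fin m, PU P u a = 0 →
  |UU P u a| = (m : ℤ) - 1 ∨ (Zp P u a ∧ UU P u a = 2 * (a : ℤ) - ((m : ℤ) - 1)) ∨
    (Zm P u a ∧ UU P u a = -(2 * (a : ℤ) - ((m : ℤ) - 1)))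

/-- **Opp** (2.2).  For `i < a < j`: if `0 < orient (P a) (P i) (P j)` then
`tri (P a) u (P i) (P j)`, otherwise `tri (P a) v (P i) (P j)`; and the same with `i, j`
exchanged. -/
def S_Opp : Prop := ∀ (m : ℕ) (P : Fin m → ℝ × ℝ) (u v : ℝ × ℝ), GP P u v → ∀ a : Fin m,
  Zp P u a → Zm P v a → 2 * (a : ℤ) * ((m : ℤ) - 1 - a) ≤ T2 P u + T2 P v

/-- **P0Z** (2.4).  `P0 = 0` : all `P i` are on the same side of the line `uv`, say
`0 < orient u v (P i)` (the other case is symmetric).  `b → c` iff `0 < orient u (P b) (P c)` is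
transitive: with `f x = orient u v x` (affine, `f u = 0`)
`f c * orient u b d = f b * orient u c d + f d * orient u b c`.  Take `a` with the maximal number
of out-neighbours; then `a → b` for all `b ≠ a`, so `inn P u a = 0`. -/
def S_P0Z : Prop := ∀ (m : ℕ) (P : Fin m → ℝ × ℝ) (u v : ℝ × ℝ), 1 ≤ m → GP P u v →
  P0 P u v = 0 → ∃ a, |UU P u a| = (m : ℤ) - 1

/-! ## A4. Arithmetic of the gains.  `K = |2a-(m-1)|`; `Z`, `Z'` are the sets of zero lines. -/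

/-- **ArCrude**.  Crude bound: a gain `W_a + 2 - 8[..] - 8[..]` (`m` even) resp.
`W_a - 8[..] - 8[..]` (`m` odd) is `≥ -16`; it is negative only if `K_a ≤ 3`, and for `m` even and
`K_a = 3` it is `≥ -8` (`m` even: two `a` with `K_a = 1`, two with `K_a = 3`; `m` odd: three `a` with
`K_a ≤ 2`).  Use `W_a ≥ (U²-2|U|) + (V²-2|V|)`. -/
def S_ArCrude : Prop := ∀ (m : ℕ), 12 ≤ m → ∀ (U V : Fin m → ℤ) (Z Z' : Finset (Fin m)),
  (∀ a, (2 : ℤ) ∣ U a - ((m : ℤ) - 1)) → (∀ a, (2 : ℤ) ∣ V a - ((m : ℤ) - 1)) →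
  (∀ a ∈ Z, |U a| = KK a ∨ |U a| = (m : ℤ) - 1) →
  (∀ a ∈ Z', |V a| = KK a ∨ |V a| = (m : ℤ) - 1) →
  -48 ≤ ∑ a, (U a ^ 2 + V a ^ 2 - 2 * |U a - V a| + (if m % 2 = 1 then 0 else 2)) -
    8 * (Z.card : ℤ) - 8 * (Z'.card : ℤ)

/-- **ArOne** (2.3).  Crude bound if some `|U_a| = m - 1` (then the gain of this `a` is at least
`(m-1)(m-3) - 15`, and the other gains sum up to at least `-48` as in ArCrude).  `W_a ≥ U²-2|U| + V²-2|V|`, and for an
integer `x`: `x² - 2|x| ≥ -1`, `≥ 0` for `x` even.  For `a ∈ Z` or `a ∈ Z'` we have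
`|U_a| ∈ {K_a, m-1}` resp. `|V_a| ∈ {K_a, m-1}`.  A gain `W_a + 2 - 8[..] - 8[..]` can be negative
only for `K_a ≤ 3`, at most four `a` (or it is large positive, if `|U_a|` or `|V_a|` is `m-1`), and is
always `≥ -16`; in the odd case `W_a - 8[..] - 8[..] ≥ -16` can be negative only for `K_a ≤ 2`. -/
def S_ArOne : Prop := ∀ (m : ℕ), 12 ≤ m → ∀ (U V : Fin m → ℤ) (Z Z' : Finset (Fin m)),
  (∀ a, (2 : ℤ) ∣ U a - ((m : ℤ) - 1)) → (∀ a, (2 : ℤ) ∣ V a - ((m : ℤ) - 1)) →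
  (∀ a ∈ Z, |U a| = KK a ∨ |U a| = (m : ℤ) - 1) →
  (∀ a ∈ Z', |V a| = KK a ∨ |V a| = (m : ℤ) - 1) →
  (∃ a, |U a| = (m : ℤ) - 1 ∨ |V a| = (m : ℤ) - 1) →
  -8 ≤ ∑ a, (U a ^ 2 + V a ^ 2 - 2 * |U a - V a| + (if m % 2 = 1 then 0 else 2)) -
    8 * (Z.card : ℤ) - 8 * (Z'.card : ℤ)

/-- **ArOdd**.  `m` odd, `|U_a| = K_a` on `Z`, `|V_a| = K_a` on `Z'`, `U_a = V_a` for
`a ∈ Z ∩ Z'` with `K_a = 2`: the total gain is at least `-32`.  Table (`g = W - 8[..] - 8[..]`,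
`K, U, V` even): `K = 0`: `≥ -16` (one `a`), `K = 2` (two `a`): `≥ -8`, `K ≥ 4`: `≥ 0`. -/
def S_ArOdd : Prop := ∀ (m : ℕ), m % 2 = 1 → ∀ (U V : Fin m → ℤ) (Z Z' : Finset (Fin m)),
  (∀ a, (2 : ℤ) ∣ U a) → (∀ a, (2 : ℤ) ∣ V a) →
  (∀ a ∈ Z, |U a| = KK a) → (∀ a ∈ Z', |V a| = KK a) →
  (∀ a ∈ Z, a ∈ Z' → KK a = 2 → U a = V a) →
  -32 ≤ ∑ a, (U a ^ 2 + V a ^ 2 - 2 * |U a - V a|) - 8 * (Z.card : ℤ) - 8 * (Z'.card : ℤ)

/-- **ArEven**.  `m` even (`K, U, V` odd): table for `h = W + 2 - 8[..] - 8[..]`: `K = 1`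
(two `a`): `≥ -12`, `K = 3` (two `a`): `≥ -4`, `K ≥ 5`: `≥ 0`. -/
def S_ArEven : Prop := ∀ (m : ℕ), m % 2 = 0 → ∀ (U V : Fin m → ℤ) (Z Z' : Finset (Fin m)),
  (∀ a, ¬ (2 : ℤ) ∣ U a) → (∀ a, ¬ (2 : ℤ) ∣ V a) →
  (∀ a ∈ Z, |U a| = KK a) → (∀ a ∈ Z', |V a| = KK a) →
  (∀ a ∈ Z, a ∈ Z' → KK a ≤ 3 → U a = V a) →
  -32 ≤ ∑ a, (U a ^ 2 + V a ^ 2 - 2 * |U a - V a| + 2) - 8 * (Z.card : ℤ) - 8 * (Z'.card : ℤ)

/-- **ArEnds** (2 (v)).  `m` even, ends `a = 0` and `a = m-1` not in `Z, Z'`, and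
`ε (U_{m-1} - U_0) ≥ 2(|Z| - 1)` if `Z ≠ ∅`, `ε (V_{m-1} - V_0) ≥ 2(|Z'| - 1)` if `Z' ≠ ∅`
(`ε = ±1`): the total gain is at least `-16`.  Proof: `s = |U+V|/2`, `D = |U-V|/2` are integers
of different parity and `W + 2 = 2 s² + 2 (D-1)² ≥ 4 s`, `W + 2 ≥ (|U|-1)² ≥ 2(|U|-1)`; with
`z = |Z|+|Z'|`: `(W_0+2) + (W_{m-1}+2) ≥ 4(z-2)` (three cases: both nonempty, one empty, both
empty).  For `a ≠ 0, m-1`: `W_a+2 ≥ 4[a∈Z] + 4[a∈Z'] - 4[K_a = 1]`. -/
def S_ArEnds : Prop := ∀ (m : ℕ), m % 2 = 0 → 12 ≤ m → ∀ (U V : Fin m → ℤ)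
    (Z Z' : Finset (Fin m)) (ε : ℤ), (ε = 1 ∨ ε = -1) → ∀ (i0 i1 : Fin m), (i0 : ℕ) = 0 →
  (i1 : ℕ) = m - 1 →
  (∀ a, ¬ (2 : ℤ) ∣ U a) → (∀ a, ¬ (2 : ℤ) ∣ V a) →
  (∀ a ∈ Z, |U a| = KK a) → (∀ a ∈ Z', |V a| = KK a) →
  (∀ a ∈ Z, a ∈ Z' → KK a ≤ 3 → U a = V a) →
  i0 ∉ Z → i0 ∉ Z' → i1 ∉ Z → i1 ∉ Z' →
  (Z.Nonempty → 2 * ((Z.card : ℤ) - 1) ≤ ε * (U i1 - U i0)) →
  (Z'.Nonempty → 2 * ((Z'.card : ℤ) - 1) ≤ ε * (V i1 - V i0)) →
  -16 ≤ ∑ a, (U a ^ 2 + V a ^ 2 - 2 * |U a - V a| + 2) - 8 * (Z.card : ℤ) - 8 * (Z'.card : ℤ)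

/-! ## A5. Convexity -/

/-- **TriIn** (i).  If `x` is inside the triangle `abc` and `u` is in general position with
respect to `x, a, b, c` then `x` is inside `uab`, `ubc` or `uca` (sign patterns of the four points
and `u`). -/
def S_TriIn : Prop := ∀ x a b c u : ℝ × ℝ, orient x a u ≠ 0 → orient x b u ≠ 0 →
  orient x c u ≠ 0 → Tri x a b c → Tri x u a b ∨ Tri x u b c ∨ Tri x u c a

/-- **T2two** (from TriIn).  `tri (P x) u (P b) (P d)` is symmetric in `b, d`. -/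
def S_T2two : Prop := ∀ (m : ℕ) (P : Fin m → ℝ × ℝ) (u : ℝ × ℝ),
  (∀ i j, i ≠ j → orient (P i) (P j) u ≠ 0) → ¬ Cvx P → 2 ≤ T2 P u

/-- **Quad**.  Four points in convex position: if `b`, `c` are on different sides of the line
`ij` (and no point is inside the triangle of the three others) then the line `bc` separates
`i` and `j`. -/
def S_Quad : Prop := ∀ i j b c : ℝ × ℝ, orient i j b * orient i j c < 0 →
  orient b c i ≠ 0 → orient b c j ≠ 0 →
  ¬ Tri i j b c → ¬ Tri j i b c → ¬ Tri b i j c → ¬ Tri c i j b → Sp b c i j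

/-- **Hull** (ii) (from Quad).  If some path edge `P_i P_{i+1}` has points on both sides, then
`x (m-2-x) ≥ m - 3` unordered pairs `{b,c}` are on different sides, so `PR2 ≥ 2 (m-3)`.
Otherwise `orient (P i) (P (i+1)) (P k)` has a sign `ε_i` independent of `k`, `ε_i = ε_{i+1}`
(take `k = i + 2`, resp. `k = i`), and for `i < j < k` the sign of `orient (P i) (P j) (P k)` is
`ε`: induction on `j - i`; if it is wrong then `P k` is inside the triangle `P_i P_{j-1} P_j`. -/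
def S_Hull : Prop := ∀ (m : ℕ) (P : Fin m → ℝ × ℝ), 5 ≤ m →
  (∀ i j k, i ≠ j → i ≠ k → j ≠ k → orient (P i) (P j) (P k) ≠ 0) → Cvx P →
  PR2 P < 2 * ((m : ℤ) - 3) →
  (∀ i j k, i < j → j < k → 0 < orient (P i) (P j) (P k)) ∨
    ∀ i j k, i < j → j < k → orient (P i) (P j) (P k) < 0

/-- **Five**.  `a` inside `ubc`, `d` on the side of `c` of the line `ua`, no point of
`a, b, c, d` inside a triangle of the others: then `a` is inside `ubd`. (If not, `a` is inside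
`bcd`.) -/
def S_Five : Prop := ∀ u a b c d : ℝ × ℝ, Tri a u b c → 0 < orient u a c * orient u a d →
  orient a b d ≠ 0 → orient a c d ≠ 0 → ¬ Tri a b c d → Tri a u b d

/-- **T2alt** (iii) (from Five).  `T2 > 0` implies `T2 ≥ 2 (m-2)`. -/
def S_T2alt : Prop := ∀ (m : ℕ) (P : Fin m → ℝ × ℝ) (u : ℝ × ℝ),
  (∀ i j, i ≠ j → orient (P i) (P j) u ≠ 0) →
  (∀ i j k, i ≠ j → i ≠ k → j ≠ k → orient (P i) (P j) (P k) ≠ 0) → Cvx P →
  T2 P u = 0 ∨ 2 * ((m : ℤ) - 2) ≤ T2 P u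

/-- **EndsU** (iv).  Hull order with sign `ε`, `T2 = 0`, zero lines at `j ≤ J`, none of them
one-sided: `ε (U_{m-1} - U_0) ≥ 2 (J - j)`, both have type `+` if `ε = 1`, type `-` if `ε = -1`.
Proof for `ε = 1` (for `ε = -1` reflect: `(x,y) ↦ (x,-y)` changes the sign of `orient`, `UU`
and exchanges `Zp`, `Zm`): for `i<k<l` not two of `orient u i k`, `orient u k l`, `orient u l i` are
negative (otherwise the common point is inside the triangle of `u` and the two others, and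
`T2 > 0`).  `Zm P u a` is impossible for `0 < a < m - 1`.  So `0 → J` (`x → y` means
`0 < orient u (P x) (P y)`), `0 → i` for `1 ≤ i ≤ J`, so `inn P u 0 ≤ m - 1 - J`; and
`i → m-1` for `j ≤ i < m-1`, so `inn P u (m-1) ≥ m - 1 - j`. -/
def S_EndsU : Prop := ∀ (m : ℕ) (P : Fin m → ℝ × ℝ) (u : ℝ × ℝ), 2 ≤ m →
  (∀ i j, i ≠ j → orient (P i) (P j) u ≠ 0) → ∀ (ε : ℤ), (ε = 1 ∨ ε = -1) →
  (∀ i j k : Fin m, i < j → j < k → 0 < (ε : ℝ) * orient (P i) (P j) (P k)) → T2 P u = 0 →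
  ∀ (i0 i1 : Fin m), (i0 : ℕ) = 0 → (i1 : ℕ) = m - 1 →
  ∀ j J : Fin m, j ≤ J → i0 < j → J < i1 → (Zp P u j ∨ Zm P u j) → (Zp P u J ∨ Zm P u J) →
  2 * ((J : ℤ) - j) ≤ ε * (UU P u i1 - UU P u i0) ∧
    (ε = 1 → Zp P u j ∧ Zp P u J) ∧ (ε = -1 → Zm P u j ∧ Zm P u J)

/-! ## A6. Assembly -/

/-- **PathLe**.  `∑_a PU P u a ≥ m - #{a : PU P u a = 0}`. -/
def S_PathLe : Prop := ∀ (m : ℕ) (P : Fin m → ℝ × ℝ) (u : ℝ × ℝ),
  (m : ℤ) - (Finset.univ.filter (fun a => PU P u a = 0)).card ≤ ∑ a, PU P u a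

/-- **LowOdd** (from IdentLe, PathLe, Zero, Opp, P0Z, ArCrude, ArOne, ArOdd).  `Z = {a : PU P u a = 0}`,
`Z' = {a : PU P v a = 0}`.  If some `|U_a|` or `|V_a|` is `m - 1` use ArOne.  Otherwise by P0Z
`P0 ≥ 1`.  If `a ∈ Z ∩ Z'` has `K_a = 2` and different types, Opp (or Opp with `u, v` exchanged)
gives `T2 + T2 ≥ 2 a (m-1-a) ≥ 48`, and the sum of the gains is at least `-48` (at most three `a`
have `K_a ≤ 2`, each gain is `≥ -16`; this crude bound is ArCrude). -/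
def S_LowOdd : Prop := ∀ (m : ℕ), 12 ≤ m → m % 2 = 1 → ∀ (P : Fin m → ℝ × ℝ) (u v : ℝ × ℝ),
  GP P u v → 2 * ((m : ℤ) ^ 3 + 7 * m - 12) ≤
    4 * (H2 P u v + PR2 P + 2 * ∑ a, PU P u a + 2 * ∑ a, PU P v a + 2 * P0 P u v)

/-- **LowEven** (from IdentLe, PathLe, Zero, Opp, P0Z, ArCrude, ArOne, ArEven, ArEnds, T2two, Hull, T2alt,
EndsU), see part 2 of the note.  `T2` is even and nonnegative, `PR2` is even and nonnegative
(for the case distinction only `T2, PR2 ≥ 0` are needed: `B/4 = PR2 + T2(u) + T2(v) + 2 TT`;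
if `B/4 ≥ 4` use ArEven, otherwise `PR2 < 4`, `T2(u), T2(v) < 4` and: not `¬ Cvx` (T2two gives
`T2(u) + T2(v) ≥ 4`), Hull, T2alt, EndsU, ArEnds). -/
def S_LowEven : Prop := ∀ (m : ℕ), 12 ≤ m → m % 2 = 0 → ∀ (P : Fin m → ℝ × ℝ) (u v : ℝ × ℝ),
  GP P u v → 2 * ((m : ℤ) ^ 3 + 6 * m - 4) ≤
    4 * (H2 P u v + PR2 P + 2 * ∑ a, PU P u a + 2 * ∑ a, PU P v a + 2 * P0 P u v)

/-- **KgPlanar**.  `K_2 + P` is planar.  Branch sets without a hub (`x.val < 2`) are intervals of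
the path `2, …, n-1` (a connected set of the path: between two elements all elements), and two
adjacent disjoint intervals are neighbours (`max + 1 = min`).  `K_5`: at least three of the five
branch sets contain no hub, three pairwise adjacent intervals are impossible.  `K_{3,3}`: at least
four of the six contain no hub; either one side has a hub-free set and the three sets of the other
side are hub-free (an interval has at most two neighbouring intervals), or two on each side are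
hub-free (a 4-cycle of intervals is impossible). Compare `K2.lean`. -/
def S_KgPlanar : Prop := ∀ n : ℕ, Planar (Kg n)

/-- **LowM** (from CrK, LowOdd, LowEven, KgPlanar; compare `Lower.lean`). -/
def S_LowM : Prop := ∀ m : ℕ, 12 ≤ m → F4 m ≤ 4 * M (m + 2)

end Pool.Agent.Lib.MP_00ece3_co.EX
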