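import Pool.Agent.Lib.MP_00ece3_co.EX.SpecA

/-!
# Project EX, part B: the placement `KP(m)` and the upper bounds (note 4016, part 3)

Every `S_...` is a separate task; its proof is in the docstring.  `kP m i = pp (m/2) i`,
`kU m = hh ((m+1)/2)`, `kV m = hh ((m+1)/2 + 1)`.  For `i < j < m`:
`0 < orient (kP m i) (kP m j) (kU m)` iff `j < i + (m+1)/2` and
`0 < orient (kP m i) (kP m j) (kV m)` iff `j < i + (m+1)/2 + 1` (KSign).
All facts of this file have been checked by a program in exact arithmetic for `4 ≤ m ≤ 16`.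
-/

set_option autoImplicit false

namespace Pool.Agent.Lib.MP_00ece3_co.EX

open Pool.Agent.Lib.MP_00ece3_co

/-! ## B1. The parabola model -/

/-- **PX**.  `px l` is strictly increasing, negative for `i < l`, positive for `l ≤ i`, and
`px l i * px l j = - 4 ^ (j + 1 - i)` for `i < l ≤ j`. -/
def S_PX : Prop := ∀ l i j : ℕ, (i < j → px l i < px l j) ∧ (i < l → px l i < 0) ∧
  (l ≤ i → 0 < px l i) ∧ (i < l → l ≤ j → px l i * px l j = -(4 : ℝ) ^ (j + 1 - i))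

/-- **PP** (from PX).  `orient (a,a²) (b,b²) (c,c²) = (b-a)(c-a)(c-b)`. -/
def S_PP : Prop := ∀ l i j k : ℕ, i < j → j < k → 0 < orient (pp l i) (pp l j) (pp l k)

/-- **PH** (from PX).  `orient (a,a²) (b,b²) (0,y) = (b-a)(y + a b)`; on one side of the axis
`a b > 0`; for `i < l ≤ j` compare `2 * 4^k` with `4^(j+1-i)` (`<` iff `k < j + 1 - i`; never
equal, `2 * 4^k = 2^(2k+1)`). -/
def S_PH : Prop := ∀ l k i j : ℕ, i < j →
  (0 < orient (pp l i) (pp l j) (hh k) ↔ Abv l k i j) ∧ orient (pp l i) (pp l j) (hh k) ≠ 0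

/-- **HHs** (from PX).  `orient (x,x²) (0,y) (0,y') = x (y - y')`. -/
def S_HHs : Prop := ∀ l k k' i : ℕ, k < k' →
  (0 < orient (pp l i) (hh k) (hh k') ↔ i < l) ∧ orient (pp l i) (hh k) (hh k') ≠ 0

/-- **KSign** (from PH).  On one side of the axis `j - i < (m+1)/2` holds anyway. -/
def S_KSign : Prop := ∀ (m : ℕ) (i j : Fin m), i < j →
  (0 < orient (kP m i) (kP m j) (kU m) ↔ (j : ℕ) < i + (m + 1) / 2) ∧
  (0 < orient (kP m i) (kP m j) (kV m) ↔ (j : ℕ) < i + ((m + 1) / 2 + 1))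

/-- **KGP** (from PX, PP, PH, HHs). -/
def S_KGP : Prop := ∀ m : ℕ, GP (kP m) (kU m) (kV m)

/-! ## B2. The hub edges -/

/-- **KInn** (from KSign, KGP).  General: if `P` is in hull order and `w` is above `P i P j`
(`0 < orient (P i) (P j) w`) iff `j < i + κ` (`i < j`), then
`inn P w a = #{b < a : a < b + κ} + #{b > a : ¬ b < a + κ} = min a (κ-1) + (m - a - κ)` (truncated
difference).  Values of `U_a = UU (kP m) (kU m) a`, `V_a = UU (kP m) (kV m) a`. -/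
def S_KInn : Prop := ∀ (m : ℕ) (a : Fin m), 2 ≤ m →
  (m % 2 = 0 → ((a : ℕ) < m / 2 → UU (kP m) (kU m) a = 1 ∧ UU (kP m) (kV m) a = -1) ∧
    (m / 2 ≤ (a : ℕ) → UU (kP m) (kU m) a = -1 ∧ UU (kP m) (kV m) a = 1)) ∧
  (m % 2 = 1 → UU (kP m) (kU m) a = 0 ∧ ((a : ℕ) < m / 2 → UU (kP m) (kV m) a = -2) ∧
    ((a : ℕ) = m / 2 → UU (kP m) (kV m) a = 0) ∧
    (m / 2 < (a : ℕ) → UU (kP m) (kV m) a = 2))

/-- **KT2** (from KSign, KGP, PP).  `T2 = 0`: for `i < j < k` not two of `above(i,j)`,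
`above(j,k)`, `not above(i,k)` are false (`2 * ((m+1)/2) ≥ m`), and `0 < orient (P i) (P j) (P k)`;
so no `Tri (P a) w (P b) (P d)` (six orders of `a, b, d`; `Tri` is symmetric in the three
vertices). -/
def S_KT2 : Prop := ∀ m : ℕ, T2 (kP m) (kU m) = 0 ∧ T2 (kP m) (kV m) = 0

/-- **KTT** (from PX).  A point `(b, b²)` is not inside the triangle `(a,a²), (0,y), (0,y')`
(`y, y' > 0`): the signs are those of `orient (a,a²) (0,y) (b,b²) = -(b-a)(y+ab)`,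
`orient (0,y) (0,y') (b,b²) = -(y'-y) b`, `orient (0,y') (a,a²) (b,b²) = (b-a)(y'+ab)`; all of one
sign, sum `= orient (a,a²) (0,y) (0,y') = a (y-y')`.  So `a, b` have the same sign, `ab > 0`, and the
first and the third have different signs. -/
def S_KTT : Prop := ∀ m : ℕ, TT (kP m) (kU m) (kV m) = 0

/-- **KH** (from Ident, KGP, KInn, KT2, KTT, HHs).  Cost of the hub edges.  `sg = 1` iff
`a < m/2`. -/
def S_KH : Prop := ∀ m : ℕ, 2 ≤ m → 4 * H2 (kP m) (kU m) (kV m) =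
  if m % 2 = 1 then 2 * (m : ℤ) * ((m : ℤ) ^ 2 - 1) else 2 * (m : ℤ) * ((m : ℤ) ^ 2 - 2)

/-- **KUV** (from KSign, KGP).  The lines `P_i P_j` which separate the hubs: `j = i + (m+1)/2`. -/
def S_KUV : Prop := ∀ m : ℕ, 2 ≤ m → N2 (kP m) (kU m) (kV m) (kU m) (kV m) = 2 * ((m / 2 : ℕ) : ℤ)

/-- **KHub** (from KSign, KGP).  A hub edge costs at least `m²/33`.  Count only chords `P_x P_y`
(ordered pairs count twice).  `κ = (m+1)/2` or `(m+1)/2+1`.  Let `2i < m`.  If `8i ≤ m`: the chords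
with `i < x < y < m`, `y ≥ x + κ` (not above, `i` outside): `(L-κ)(L-κ+1)/2`, `L = m-1-i`.  If
`8i > m`: chords with `x < i < y`, `y < x + κ` (above, `i` inside): all `x = i - s`, `y = i + t`,
`1 ≤ s ≤ m/8`, `1 ≤ t`, `s + t ≤ (m-1)/2`.  The case `2i ≥ m` is symmetric (`i ↦ m-1-i`). -/
def S_KHub : Prop := ∀ (m : ℕ), 400 ≤ m → ∀ i : Fin m,
  2 * (m : ℤ) ^ 2 ≤ 33 * N2 (kP m) (kU m) (kV m) (kU m) (kP m i) ∧
  2 * (m : ℤ) ^ 2 ≤ 33 * N2 (kP m) (kU m) (kV m) (kV m) (kP m i)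

/-! ## B3. The path and the other edges -/

/-- **KRR** (from PP).  Hull order: a chord `P_a P_b` separates `P_i, P_j` (`i < j`) iff exactly one
of `a, b` is strictly between `i` and `j` and the other one is outside `[i,j]`.  So none for
`j = i + 1` and for `i = 0, j = m-1`, and at most `(j-i-1) m` resp. `(m-(j-i)-1) m` unordered in
general. -/
def S_KRR : Prop := ∀ (m : ℕ) (i j : Fin m), i < j →
  ((j : ℕ) = i + 1 → ∀ a b, sp (kP m a) (kP m b) (kP m i) (kP m j) = 0) ∧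
  ((i : ℕ) = 0 → (j : ℕ) + 1 = m → ∀ a b, sp (kP m a) (kP m b) (kP m i) (kP m j) = 0) ∧
  ∑ a, ∑ b, sp (kP m a) (kP m b) (kP m i) (kP m j) ≤ 2 * (((j : ℤ) - i - 1) * m) ∧
  ∑ a, ∑ b, sp (kP m a) (kP m b) (kP m i) (kP m j) ≤ 2 * (((m : ℤ) - (j - i) - 1) * m)

/-- **KPU** (from KSign, KGP).  The line `P_a w` separates `P_i, P_{i+1}` (`i + 1 < a`) iff
`above(i,a) ≠ above(i+1,a)`, i.e. `i + κ = a`; similarly `a < i`: iff `a + κ = i + 1`.  `κ` is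
`(m+1)/2` for `kU`, `(m+1)/2+1` for `kV`. -/
def S_KPU : Prop := ∀ (m : ℕ) (a : Fin m), 3 ≤ m →
  PU (kP m) (kU m) a = (if (m + 1) / 2 ≤ (a : ℕ) then 1 else 0) +
    (if (m + 1) / 2 + a + 1 ≤ m then 1 else 0) ∧
  PU (kP m) (kV m) a = (if (m + 1) / 2 + 1 ≤ (a : ℕ) then 1 else 0) +
    (if (m + 1) / 2 + 1 + a + 1 ≤ m then 1 else 0)

/-- **KPath** (from KRR, KPU, HHs).  Total cost of the path: `∑ PU(kU) = 2 (m/2)`,
`∑ PU(kV) = 2 (m/2 - 1)`, the line `uv` separates one path edge (between `m/2 - 1` and `m/2`). -/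
def S_KPath : Prop := ∀ m : ℕ, 4 ≤ m →
  pathSum (fun i j => N2 (kP m) (kU m) (kV m) (kP m i) (kP m j)) =
    if m % 2 = 1 then 2 * (2 * (m : ℤ) - 3) else 2 * (2 * (m : ℤ) - 1)

/-- **KGap** (from KRR, KSign, KGP, HHs).  The line `P_a w`, `0 < a < m-1`, separates `P_0` and
`P_{m-1}` iff both `above(0,a)` and `above(a,m-1)` (both false is impossible). -/
def S_KGap : Prop := ∀ m : ℕ, 5 ≤ m → ∀ i j : Fin m, (i : ℕ) = 0 → (j : ℕ) + 1 = m →
  N2 (kP m) (kU m) (kV m) (kP m i) (kP m j) ≤ if m % 2 = 1 then 10 else 6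

/-- **KFar** (from KRR).  Lines through a hub: at most `2(m-2) + 1`. -/
def S_KFar : Prop := ∀ (m : ℕ) (i j : Fin m), i < j →
  N2 (kP m) (kU m) (kV m) (kP m i) (kP m j) ≤ 2 * (((j : ℤ) - i + 1) * m) ∧
  N2 (kP m) (kU m) (kV m) (kP m i) (kP m j) ≤ 2 * (((m : ℤ) - (j - i) + 1) * m)

/-! ## B4. Graphs with two hubs -/

open Classical in
/-- **CrG** (from SepR and KGP).  Placement `p (r i) = kP m i`, `p u0 = kU m`, `p v0 = kV m`.
`4 crossings = ∑` over ordered adjacent pairs of `2 sepCount` (`Upper.two_mul_crossings`). -/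
def S_CrG : Prop := ∀ (n m : ℕ) (G : SimpleGraph (Fin n)) (u0 v0 : Fin n) (r : Fin m → Fin n),
  u0 ≠ v0 → Function.Injective r → (∀ x, (∃ i, r i = x) ↔ x ≠ u0 ∧ x ≠ v0) →
  (4 * OCN G : ℤ) ≤
    2 * ∑ i, (if G.Adj u0 (r i) then N2 (kP m) (kU m) (kV m) (kP m i) (kU m) else 0) +
    2 * ∑ i, (if G.Adj v0 (r i) then N2 (kP m) (kU m) (kV m) (kP m i) (kV m) else 0) +
    2 * (if G.Adj u0 v0 then N2 (kP m) (kU m) (kV m) (kU m) (kV m) else 0) +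
    ∑ i, ∑ j, if G.Adj (r i) (r j) then N2 (kP m) (kU m) (kV m) (kP m i) (kP m j) else 0

/-- **UpK** (from CrG, KH, KPath).  Subgraphs of `K_2 + P_m`. `2 H2 + 2 pathSum = F4 m`. -/
def S_UpK : Prop := ∀ (n m : ℕ) (G : SimpleGraph (Fin n)) (u0 v0 : Fin n) (r : Fin m → Fin n),
  12 ≤ m → u0 ≠ v0 → Function.Injective r → (∀ x, (∃ i, r i = x) ↔ x ≠ u0 ∧ x ≠ v0) →
  (∀ i j, i < j → G.Adj (r i) (r j) → (j : ℕ) = i + 1) → 4 * OCN G ≤ F4 m

/-- **UpW** (from CrG, KH, KPath, KUV, KGap).  Subgraphs of the double wheel: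
`2 (H2 - N2 u v) + 2 pathSum + 2 gap ≤ F4 m` for `m ≥ 12`. -/
def S_UpW : Prop := ∀ (n m : ℕ) (G : SimpleGraph (Fin n)) (u0 v0 : Fin n) (r : Fin m → Fin n),
  12 ≤ m → u0 ≠ v0 → Function.Injective r → (∀ x, (∃ i, r i = x) ↔ x ≠ u0 ∧ x ≠ v0) →
  ¬ G.Adj u0 v0 →
  (∀ i j, i < j → G.Adj (r i) (r j) → (j : ℕ) = i + 1 ∨ ((i : ℕ) = 0 ∧ (j : ℕ) + 1 = m)) →
  4 * OCN G ≤ F4 m

open Classical in
/-- **UpN** (from CrG, KH, KPath, KGap, KHub, KFar).  `k ≥ 1` vertices are not joined to both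
hubs.  `4 OCN ≤ 2 H2 - 2 k (2 m²/33) + 2 pathSum + 2 gap + 24 k · 2 (k+2) m ≤ F4 m`: the number of
ordered adjacent pairs inside `W` is at most `24 k`. -/
def S_UpN : Prop := ∀ (n m k : ℕ) (G : SimpleGraph (Fin n)) (u0 v0 : Fin n) (r : Fin m → Fin n)
    (W : Finset (Fin m)),
  3000 ≤ m → u0 ≠ v0 → Function.Injective r → (∀ x, (∃ i, r i = x) ↔ x ≠ u0 ∧ x ≠ v0) →
  1 ≤ k → 1000 * k ≤ m →
  k = (Finset.univ.filter (fun i => ¬ (G.Adj u0 (r i) ∧ G.Adj v0 (r i)))).card →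
  ((W ×ˢ W).filter (fun e => G.Adj (r e.1) (r e.2))).card ≤ 24 * k →
  (∀ i j, i < j → G.Adj (r i) (r j) → (j : ℕ) = i + 1 ∨ ((i : ℕ) = 0 ∧ (j : ℕ) + 1 = m) ∨
    (i ∈ W ∧ j ∈ W ∧ ((j : ℕ) ≤ i + k + 1 ∨ m + i ≤ (j : ℕ) + k + 1))) →
  4 * OCN G ≤ F4 m

end Pool.Agent.Lib.MP_00ece3_co.EX
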