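import Pool.Agent.Lib.MP_00ece3_co.EX.SpecB

/-!
# Project EX, part C: planar graphs with two dominating vertices (note 4016, part 3)

Every `S_...` is a separate task; its proof is in the docstring.
-/

set_option autoImplicit false

namespace Pool.Agent.Lib.MP_00ece3_co.EX

open Pool.Agent.Lib.MP_00ece3_co

/-- The graph `Γ` with two more vertices joined to all vertices of `Γ` (and to each other iff
`b`). -/
def Jn {C : Type} (Γ : SimpleGraph C) (b : Prop) : SimpleGraph (C ⊕ Bool) where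
  Adj x y := match x, y with
    | .inl x, .inl y => Γ.Adj x y
    | .inl _, .inr _ => True
    | .inr _, .inl _ => True
    | .inr s, .inr t => s ≠ t ∧ b
  symm := ⟨by
    rintro (x | s) (y | t) h
    · exact Γ.adj_symm h
    · trivial
    · trivial
    · exact ⟨h.1.symm, h.2⟩⟩
  loopless := ⟨by
    rintro (x | s) h
    · exact (Γ.ne_of_adj h) rfl
    · exact h.1 rfl⟩

/-! ## C1. Minors -/

/-- **Tr**.  Transitivity of minors: the branch set of `h` in `G` is the union of the branch sets in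
`G` of the elements of the branch set of `h` in `J` (connected: walk in `J`, consecutive branch
sets are adjacent). -/
def S_Tr : Prop := ∀ (U V W : Type) (H : SimpleGraph U) (J : SimpleGraph V) (G : SimpleGraph W),
  IsMinor H J → IsMinor J G → IsMinor H G

/-- **Deg2**.  `K_{3,3}`: the two hubs and `x` against `y1, y2, y3` (all branch sets are
singletons). -/
def S_Deg2 : Prop := ∀ (C : Type) (Γ : SimpleGraph C) (b : Prop), Planar (Jn Γ b) →
  ∀ x y1 y2 y3 : C, y1 ≠ y2 → y1 ≠ y3 → y2 ≠ y3 →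
  Γ.Adj x y1 → Γ.Adj x y2 → Γ.Adj x y3 → False

/-- **Cyc3**.  `K_5`: the three sets and `{inr true}`, `{inr false}` (if `b`), resp.
`{inr false, inl c}` with `c` outside the three sets. -/
def S_Cyc3 : Prop := ∀ (C : Type) (Γ : SimpleGraph C) (b : Prop), Planar (Jn Γ b) →
  ∀ X : Fin 3 → Set C, (∀ i, (Γ.induce (X i)).Connected) →
  (∀ i j, i ≠ j → Disjoint (X i) (X j)) →
  (∀ i j, i ≠ j → ∃ a ∈ X i, ∃ c ∈ X j, Γ.Adj a c) → (b ∨ ∃ c, ∀ i, c ∉ X i) → False

open Classical in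
/-- **For** (from Deg2, Cyc3).  Otherwise every `x ∈ X` has exactly two neighbours in `X`
(Deg2).  Take `x ∈ X` with neighbours `y ≠ z` in `X`.  If there is a path from `y` to `z` in `Γ`
inside `X - x`: the sets `{x}`, `{y}`, and the path without `y` contradict Cyc3.  If not, let `Y` be
the component of `y` in `Γ[X - x]`: `y` has exactly one neighbour in `Y` and all other `w ∈ Y` have
exactly two (the only neighbours of `x` in `X` are `y, z`, and `z ∉ Y`); but the number of vertices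
of odd degree of `Γ[Y]` is even (`SimpleGraph.even_card_odd_degree_vertices`). -/
def S_For : Prop := ∀ (C : Type) [Fintype C] (Γ : SimpleGraph C) (b : Prop), Planar (Jn Γ b) →
  ∀ X : Finset C, X.Nonempty → (b ∨ ∃ c, c ∉ X) →
  ∃ x ∈ X, (X.filter (fun y => Γ.Adj x y)).card ≤ 1

/-! ## C2. Orders -/

open Classical in
/-- **OrdX**.  Linear forests.  Induction on `|X|`: take `y ∈ X` with at most one neighbour in
`X`, order `X - y`.  If `y` has no neighbour in `X` put it at the end.  If it has the neighbour `z`,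
then `z` has at most one neighbour in `X - y` (degree `≤ 2`), so one of the two gaps next to `z` in
the list (or an end of the list) is between nonadjacent elements: insert `y` there. -/
def S_OrdX : Prop := ∀ (C : Type) (Γ : SimpleGraph C) (X : Finset C),
  (∀ x ∈ X, (X.filter (fun y => Γ.Adj x y)).card ≤ 2) →
  (∀ Y : Finset C, Y ⊆ X → Y.Nonempty → ∃ y ∈ Y, (Y.filter (fun z => Γ.Adj y z)).card ≤ 1) →
  ∃ e : Fin X.card ≃ {x // x ∈ X}, ∀ i j, i < j → Γ.Adj (e i) (e j) → (j : ℕ) = i + 1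

open Classical in
/-- **OrdC** (from OrdX).  If some `x` has degree `≤ 1`, every nonempty `Y` has a vertex with
at most one neighbour in `Y`: OrdX.  Otherwise all degrees are `2`.  Let `x` be a vertex (if `C` is
empty there is nothing to do), order `X = C - x` by OrdX.  A vertex of `X` not adjacent to `x` has
two neighbours in `X`, hence is not an end of the order (an end has at most one possible
neighbour); so the two ends (different, as `|X| ≥ 2`; `|C| ≥ 3` since degrees are `2`) are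
adjacent to `x` and nothing else is.  Put `x` at the end. -/
def S_OrdC : Prop := ∀ (C : Type) [Fintype C] (Γ : SimpleGraph C),
  (∀ x, (Finset.univ.filter (fun y => Γ.Adj x y)).card ≤ 2) →
  (∀ Y : Finset C, Y.Nonempty → (∃ c, c ∉ Y) →
    ∃ y ∈ Y, (Y.filter (fun z => Γ.Adj y z)).card ≤ 1) →
  ∃ e : Fin (Fintype.card C) ≃ C, ∀ i j, i < j → Γ.Adj (e i) (e j) →
    (j : ℕ) = i + 1 ∨ ((i : ℕ) = 0 ∧ (j : ℕ) + 1 = Fintype.card C)

/-- **Ins**.  Insertion of `k` further elements into the gaps `γ x` of a cyclic order of `t`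
elements.  Key `f (inl i) = i (k+1)`, `f (inr x) = γ x (k+1) + 1 + x` (injective),
`ρ z = #{y : f y < f z}` (rank); `ρ z' - ρ z = #{y : f z ≤ f y < f z'}` for `f z ≤ f z'`. -/
def S_Ins : Prop := ∀ (t k : ℕ) (γ : Fin k → Fin t), ∃ ρ : (Fin t ⊕ Fin k) ≃ Fin (t + k),
  (∀ i j : Fin t, (i : ℕ) + 1 = j → ρ (Sum.inl i) < ρ (Sum.inl j) ∧
    (ρ (Sum.inl j) : ℕ) ≤ ρ (Sum.inl i) + k + 1 ∧
    ((∀ x, γ x ≠ i) → (ρ (Sum.inl j) : ℕ) = ρ (Sum.inl i) + 1)) ∧
  (∀ i : Fin t, (i : ℕ) = 0 → (ρ (Sum.inl i) : ℕ) = 0) ∧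
  (∀ i : Fin t, (i : ℕ) + 1 = t → t ≤ (ρ (Sum.inl i) : ℕ) + 1 ∧
    ((∀ x, γ x ≠ i) → (ρ (Sum.inl i) : ℕ) + 1 = t + k)) ∧
  (∀ x : Fin k, ρ (Sum.inl (γ x)) < ρ (Sum.inr x) ∧
    (ρ (Sum.inr x) : ℕ) ≤ ρ (Sum.inl (γ x)) + k ∧
    (∀ j : Fin t, (γ x : ℕ) + 1 = j → ρ (Sum.inr x) < ρ (Sum.inl j)) ∧
    ((γ x : ℕ) + 1 = t → t ≤ (ρ (Sum.inr x) : ℕ)))

/-! ## C3. Structure -/

/-- The common neighbours of `u0` and `v0`. -/
def CN {n : ℕ} (G : SimpleGraph (Fin n)) (u0 v0 : Fin n) : Type :=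
  {x : Fin n // x ≠ u0 ∧ x ≠ v0 ∧ G.Adj u0 x ∧ G.Adj v0 x}

/-- The other vertices. -/
def Ot {n : ℕ} (G : SimpleGraph (Fin n)) (u0 v0 : Fin n) : Type :=
  {x : Fin n // x ≠ u0 ∧ x ≠ v0 ∧ ¬ (G.Adj u0 x ∧ G.Adj v0 x)}

/-- **Red** (from Tr).  `O` = others.  For `x ∈ O` let `comp x` be the set of all `y ∈ O` reachable
from `x` inside `O`, `N x` the set of the `c ∈ CN` adjacent to `comp x`.  `|N x| ≤ 2`: otherwise
`{u0}, {v0}, comp x` against three elements of `N x` form a `K_{3,3}` minor.  For every component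
with `N ≠ ∅` choose `c(comp) ∈ N`; branch sets `B(inr true) = {u0}`, `B(inr false) = {v0}`,
`B(inl c) = {c} ∪` all components with `c(comp) = c` (connected).  `Γ.Adj c c'` iff `c ≠ c'` and some
element of `B c` is adjacent to some element of `B c'`.  `Jn Γ (G.Adj u0 v0)` is a minor of `G`, so it
is planar (Tr).  If `c ≠ c'` are in `N x`, then (say) `c(comp x) = c''`; `|N x| ≤ 2` gives
`c'' = c` or `c'' = c'`, and the component is adjacent to the other one. -/
def S_Red : Prop := ∀ (n : ℕ) (G : SimpleGraph (Fin n)) (u0 v0 : Fin n), u0 ≠ v0 → Planar G →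
  ∃ (Γ : SimpleGraph (CN G u0 v0)) (N : Ot G u0 v0 → Finset (CN G u0 v0)),
    Planar (Jn Γ (G.Adj u0 v0)) ∧
    (∀ c c' : CN G u0 v0, G.Adj c.1 c'.1 → Γ.Adj c c') ∧
    (∀ (x : Ot G u0 v0) (c : CN G u0 v0), G.Adj x.1 c.1 → c ∈ N x) ∧
    (∀ x y : Ot G u0 v0, G.Adj x.1 y.1 → N x = N y) ∧
    (∀ x, (N x).card ≤ 2) ∧
    ∀ x c c', c ∈ N x → c' ∈ N x → c ≠ c' → Γ.Adj c c'

/-- **Str** (from Red, Deg2, For, OrdX, OrdC, Ins).  Order `CN` by OrdX (if `b` holds) or OrdC.
Gap of `x ∈ O`: `N x = ∅`: the gap `0`; `N x = {c}`: the gap after `c`; `N x = {c, c'}`, `c = e i`,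
`c' = e j`, `i < j`: the gap `i` if `j = i + 1`, the last gap `t - 1` if `i = 0, j = t - 1` (and
`j ≠ i + 1`).  `Ins` gives the order `r`.  `W` = positions of the elements of `O` and of the two ends
of the nonempty gaps, `|W| ≤ 3k`.  An edge of `G` inside `CN` joins `e i, e (i+1)` or `e 0, e (t-1)`;
if the gap is empty the new positions are consecutive (resp. `0` and `m-1`), otherwise both are in
`W`.  An edge with an end in `O` joins two elements of one closed gap. -/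
def S_Str : Prop := ∀ (m : ℕ) (G : SimpleGraph (Fin (m + 2))) (u0 v0 : Fin (m + 2)), u0 ≠ v0 →
  Planar G → ∀ k : ℕ, k < m → Nat.card (Ot G u0 v0) = k →
  ∃ r : Fin m → Fin (m + 2), Function.Injective r ∧ (∀ x, (∃ i, r i = x) ↔ x ≠ u0 ∧ x ≠ v0) ∧
    (k = 0 → G.Adj u0 v0 → ∀ i j, i < j → G.Adj (r i) (r j) → (j : ℕ) = i + 1) ∧
    ∃ W : Finset (Fin m), W.card ≤ 3 * k ∧
      ∀ i j, i < j → G.Adj (r i) (r j) → (j : ℕ) = i + 1 ∨ ((i : ℕ) = 0 ∧ (j : ℕ) + 1 = m) ∨
        (i ∈ W ∧ j ∈ W ∧ ((j : ℕ) ≤ i + k + 1 ∨ m + i ≤ (j : ℕ) + k + 1))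

/-- **Near** (from Str, UpK, UpW, UpN).  `k = 0`: `W = ∅`; UpK if `u0, v0` are adjacent, UpW
otherwise.  `k ≥ 1`: UpN; the number of ordered adjacent pairs inside `r(W)` is at most
`8 |W| ≤ 24 k` by `PairsStmt` (proved on main: `pairs contract_minor`). -/
def S_Near : Prop := ∀ (m : ℕ), 3000 ≤ m → ∀ (G : SimpleGraph (Fin (m + 2)))
  (u0 v0 : Fin (m + 2)), u0 ≠ v0 → Planar G → 1000 * Nat.card (Ot G u0 v0) ≤ m →
  4 * OCN G ≤ F4 m

end Pool.Agent.Lib.MP_00ece3_co.EX
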