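import Pool.Agent.Lib.MP_00ece3_co.EX.SpecD
import Pool.Agent.Lib.MP_00ece3_co.Place
import Pool.Agent.Lib.MP_00ece3_co.Centre

/-!
# Project EX: the placement Two
-/

set_option autoImplicit false

namespace Pool.Agent.Lib.MP_00ece3_co.EX

open Pool.Agent.Lib.MP_00ece3_co

namespace TwoAux

open Finset

/-- translation -/
def tr (t z : ℝ × ℝ) : ℝ × ℝ := (z.1 - t.1, z.2 - t.2)

theorem orient_tr (t x y z : ℝ × ℝ) : orient (tr t x) (tr t y) (tr t z) = orient x y z := by
  unfold orient tr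
  ring

theorem tr_inj (t : ℝ × ℝ) {x y : ℝ × ℝ} (h : tr t x = tr t y) : x = y := by
  unfold tr at h
  rw [Prod.mk.injEq] at h
  exact Prod.ext (by linarith [h.1]) (by linarith [h.2])

theorem tr_self (t : ℝ × ℝ) : tr t t = (0, 0) := by
  unfold tr
  rw [sub_self, sub_self]

/-- the points before the translation -/
noncomputable def raw (q k1 i : ℕ) : ℝ × ℝ := if i < 2 * q + 1 then pp q i else hh k1

/-- the points -/
noncomputable def pt (q k1 i : ℕ) : ℝ × ℝ := tr (hh (q + 1)) (raw q k1 i)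

theorem raw_lt {q k1 i : ℕ} (h : i < 2 * q + 1) : raw q k1 i = pp q i := if_pos h

theorem raw_last {q k1 i : ℕ} (h : i = 2 * q + 1) : raw q k1 i = hh k1 := if_neg (by omega)

theorem pp_out (hPP : S_PP) {l a b i : ℕ} (hab : a < b) (h : i < a ∨ b < i) :
    0 < orient (pp l a) (pp l b) (pp l i) := by
  rcases h with h | h
  · have h1 := hPP l i a b h hab
    rwa [Place.orient_cyc] at h1
  · exact hPP l a b i hab h

theorem pp_in (hPP : S_PP) {l a b i : ℕ} (h : a < i) (h' : i < b) :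
    orient (pp l a) (pp l b) (pp l i) < 0 := by
  have h1 := hPP l a i b h h'
  have e : orient (pp l a) (pp l b) (pp l i) = -orient (pp l a) (pp l i) (pp l b) := by
    unfold orient
    ring
  rw [e]
  linarith

theorem raw_ne3 (hPP : S_PP) (hPH : S_PH) {q k1 a b c : ℕ} (hab : a < b) (hbc : b < c)
    (hc : c < 2 * q + 2) : orient (raw q k1 a) (raw q k1 b) (raw q k1 c) ≠ 0 := by
  rw [raw_lt (show a < 2 * q + 1 by omega), raw_lt (show b < 2 * q + 1 by omega)]
  by_cases h : c < 2 * q + 1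
  · rw [raw_lt h]
    exact (hPP q a b c hab hbc).ne'
  · rw [raw_last (by omega)]
    exact (hPH q k1 a b hab).2

theorem perm1 (x y z : ℝ × ℝ) : orient x z y = -orient x y z := by
  unfold orient
  ring

theorem raw_ne (hPP : S_PP) (hPH : S_PH) {q k1 a b c : ℕ} (ha : a < 2 * q + 2)
    (hb : b < 2 * q + 2) (hc : c < 2 * q + 2) (hab : a ≠ b) (hac : a ≠ c) (hbc : b ≠ c) :
    orient (raw q k1 a) (raw q k1 b) (raw q k1 c) ≠ 0 := by
  rcases lt_or_gt_of_ne hab with h1 | h1 <;> rcases lt_or_gt_of_ne hbc with h2 | h2 <;>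
    rcases lt_or_gt_of_ne hac with h3 | h3
  · exact raw_ne3 hPP hPH h1 h2 hc
  · omega
  · have h := raw_ne3 hPP hPH (k1 := k1) h3 h2 hb
    rw [perm1] at h
    exact neg_ne_zero.1 h
  · have h := raw_ne3 hPP hPH (k1 := k1) h3 h1 hb
    rw [Place.orient_cyc] at h
    exact h
  · have h := raw_ne3 hPP hPH (k1 := k1) h1 h3 hc
    rw [Place.orient_swap] at h
    exact neg_ne_zero.1 h
  · have h := raw_ne3 hPP hPH (k1 := k1) h2 h3 ha
    rw [← Place.orient_cyc] at h
    exact h
  · omega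
  · have h := raw_ne3 hPP hPH (k1 := k1) h2 h1 ha
    rw [Place.orient_cyc, Place.orient_swap, ← Place.orient_cyc] at h
    have h4 := neg_ne_zero.1 h
    have e : orient (raw q k1 a) (raw q k1 b) (raw q k1 c) =
        orient (raw q k1 b) (raw q k1 c) (raw q k1 a) := Place.orient_cyc _ _ _
    have e2 : orient (raw q k1 c) (raw q k1 a) (raw q k1 b) =
        orient (raw q k1 a) (raw q k1 b) (raw q k1 c) := Place.orient_cyc _ _ _
    first
      | exact h4
      | rwa [e]
      | (rw [← e2]; exact h4)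

theorem raw_inj (hPX : S_PX) {q k1 a b : ℕ} (hab : a < b) (hb : b < 2 * q + 2) :
    raw q k1 a ≠ raw q k1 b := by
  intro h
  rw [raw_lt (show a < 2 * q + 1 by omega)] at h
  by_cases hb' : b < 2 * q + 1
  · rw [raw_lt hb'] at h
    have h1 := congrArg Prod.fst h
    exact absurd h1 ((hPX q a b).1 hab).ne
  · rw [raw_last (by omega)] at h
    have h1 : px q a = 0 := congrArg Prod.fst h
    by_cases h2 : a < q
    · exact absurd h1 ((hPX q a a).2.1 h2).ne
    · exact absurd h1 ((hPX q a a).2.2.1 (by omega)).ne'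

theorem raw_centre (hPH : S_PH) (hHHs : S_HHs) {q k1 a b : ℕ} (hk : k1 ≤ q) (hab : a < b)
    (hb : b < 2 * q + 2) : orient (raw q k1 a) (raw q k1 b) (hh (q + 1)) ≠ 0 := by
  rw [raw_lt (show a < 2 * q + 1 by omega)]
  by_cases hb' : b < 2 * q + 1
  · rw [raw_lt hb']
    exact (hPH q (q + 1) a b hab).2
  · rw [raw_last (by omega)]
    exact (hHHs q k1 (q + 1) a (by omega)).2

/-- the counting lemma: the pairs with the last point are few -/
theorem sep {q M : ℕ} (p : Fin (2 * q + 2) ⊕ Fin M → ℝ × ℝ) (x y : Fin (2 * q + 2) ⊕ Fin M)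
    (B : Finset (Sym2 (Fin (2 * q + 2) ⊕ Fin M)))
    (hB : ∀ a b : Fin (2 * q + 2), a < b → (b : ℕ) < 2 * q + 1 → Sum.inl a ≠ x → Sum.inl a ≠ y →
      Sum.inl b ≠ x → Sum.inl b ≠ y →
      Separates p (Sum.inl a) (Sum.inl b) x y → s(Sum.inl a, Sum.inl b) ∈ B) :
    sepCount p x y ≤ B.card + (M + 1) * (2 * q + 2 + M) := by
  classical
  set B' : Finset (Sym2 (Fin (2 * q + 2) ⊕ Fin M)) := (Finset.univ : Finset (Fin (2 * q + 2))).image
    (fun b => s(Sum.inl b, Sum.inl (Fin.last (2 * q + 1)))) with hB'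
  have h1 : B'.card ≤ 2 * q + 2 := by
    rw [hB']
    refine Finset.card_image_le.trans ?_
    rw [Finset.card_univ, Fintype.card_fin]
  have h2 := Place.sepCount_le p x y (B ∪ B') (by
    intro a b hab hax hay hbx hby hs
    by_cases hb : (b : ℕ) < 2 * q + 1
    · exact Finset.mem_union_left _ (hB a b hab hb hax hay hbx hby hs)
    · refine Finset.mem_union_right _ ?_
      rw [hB', Finset.mem_image]
      have hb' : b = Fin.last (2 * q + 1) := Fin.ext (by have := b.isLt; simp; omega)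
      exact ⟨a, Finset.mem_univ _, by rw [hb']⟩)
  have h3 : (B ∪ B').card ≤ B.card + B'.card := Finset.card_union_le _ _
  have h4 : (M + 1) * (2 * q + 2 + M) = M * (2 * q + 2 + M) + (2 * q + 2 + M) := by ring
  rw [h4]
  omega

open Classical in
/-- the chords counted in Cnt -/
noncomputable def Cset (q k i : ℕ) : Finset (ℕ × ℕ) :=
  (Finset.range (2 * q + 1) ×ˢ Finset.range (2 * q + 1)).filter (fun e =>
    e.1 < e.2 ∧ e.1 ≠ i ∧ e.2 ≠ i ∧
      ((e.1 < i ∧ i < e.2 ∧ Abv q k e.1 e.2) ∨ (¬ (e.1 < i ∧ i < e.2) ∧ ¬ Abv q k e.1 e.2)))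

theorem card_Cset (q k i : ℕ) : (Cset q k i).card = Cnt q k i := rfl

open Classical in
/-- the corresponding pairs -/
noncomputable def Bset (q k i M : ℕ) : Finset (Sym2 (Fin (2 * q + 2) ⊕ Fin M)) :=
  ((Finset.univ : Finset (Fin (2 * q + 2) × Fin (2 * q + 2))).filter
    (fun x => (x.1.val, x.2.val) ∈ Cset q k i)).image (fun x => s(Sum.inl x.1, Sum.inl x.2))

theorem card_Bset (q k i M : ℕ) : (Bset q k i M).card ≤ Cnt q k i := by
  classical
  rw [← card_Cset]
  unfold Bset
  refine Finset.card_image_le.trans ?_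
  refine Finset.card_le_card_of_injOn
    (fun x : Fin (2 * q + 2) × Fin (2 * q + 2) => (x.1.val, x.2.val)) ?_ ?_
  · intro x hx
    exact (Finset.mem_filter.mp hx).2
  · rintro ⟨a, b⟩ - ⟨a', b'⟩ - e
    simp only [Prod.mk.injEq] at e ⊢
    exact ⟨Fin.ext e.1, Fin.ext e.2⟩

theorem mem_Bset {q k i M : ℕ} {a b : Fin (2 * q + 2)} (h : ((a : ℕ), (b : ℕ)) ∈ Cset q k i) :
    s(Sum.inl a, Sum.inl b) ∈ Bset q k i M := by
  classical
  unfold Bset
  rw [Finset.mem_image]
  exact ⟨(a, b), Finset.mem_filter.2 ⟨Finset.mem_univ _, h⟩, rfl⟩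

/-- a chord which separates `i` and the hub `k` is counted -/
theorem count (hPP : S_PP) {q k a b i : ℕ} (hab : a < b) (hb : b < 2 * q + 1)
    (hai : a ≠ i) (hbi : b ≠ i) {y : ℝ}
    (hy : (Abv q k a b → 0 < y) ∧ (¬ Abv q k a b → y < 0))
    (h : y * orient (pp q a) (pp q b) (pp q i) < 0) : (a, b) ∈ Cset q k i := by
  classical
  unfold Cset
  rw [Finset.mem_filter, Finset.mem_product, Finset.mem_range, Finset.mem_range]
  refine ⟨⟨by simp only []; omega, by simp only []; omega⟩, hab, hai, hbi, ?_⟩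
  by_cases hin : a < i ∧ i < b
  · left
    refine ⟨hin.1, hin.2, ?_⟩
    by_contra hA
    have h1 := pp_in hPP (l := q) hin.1 hin.2
    have h2 := mul_pos_of_neg_of_neg (hy.2 hA) h1
    linarith
  · right
    refine ⟨hin, ?_⟩
    intro hA
    have h1 := pp_out hPP (l := q) (i := i) hab (by omega)
    have h2 := mul_pos (hy.1 hA) h1
    linarith

end TwoAux

open TwoAux in
/-- **Two.** -/
theorem tTwo (hPX : S_PX) (hPP : S_PP) (hPH : S_PH) (hHHs : S_HHs) : S_Two := by
  classical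
  intro q k1 M hk
  have hpl : IsPlacement (fun i : Fin (2 * q + 2) => pt q k1 i) := by
    refine ⟨?_, ?_⟩
    · intro a b hab
      by_contra hne
      have hne' : (a : ℕ) ≠ b := fun h => hne (Fin.ext h)
      have hab' : raw q k1 a = raw q k1 b := tr_inj _ hab
      rcases lt_or_gt_of_ne hne' with h | h
      · exact raw_inj hPX h b.isLt hab'
      · exact raw_inj hPX h a.isLt hab'.symm
    · intro a b c hab hac hbc
      change orient (tr _ (raw q k1 a)) (tr _ (raw q k1 b)) (tr _ (raw q k1 c)) ≠ 0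
      rw [orient_tr]
      exact raw_ne hPP hPH a.isLt b.isLt c.isLt (fun h => hab (Fin.ext h))
        (fun h => hac (Fin.ext h)) (fun h => hbc (Fin.ext h))
  have hz : ∀ a b : Fin (2 * q + 2), orient (pt q k1 a) (pt q k1 b) (0, 0) =
      orient (raw q k1 a) (raw q k1 b) (hh (q + 1)) := by
    intro a b
    rw [← tr_self (hh (q + 1))]
    exact orient_tr _ _ _ _
  have hcn : ∀ a b : Fin (2 * q + 2), a ≠ b → orient (pt q k1 a) (pt q k1 b) (0, 0) ≠ 0 := by
    intro a b hab
    have hne' : (a : ℕ) ≠ b := fun h => hab (Fin.ext h)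
    rw [hz]
    rcases lt_or_gt_of_ne hne' with h | h
    · exact raw_centre hPH hHHs hk h b.isLt
    · rw [Place.orient_swap]
      exact neg_ne_zero.2 (raw_centre hPH hHHs hk h a.isLt)
  obtain ⟨p, hp, hq, hs⟩ := centre (2 * q + 2) M (fun i => pt q k1 i) hpl hcn
  have hsig : ∀ (k a b : ℕ) (y : ℝ), a < b → (0 < y ↔ 0 < orient (pp q a) (pp q b) (hh k)) →
      (y < 0 ↔ orient (pp q a) (pp q b) (hh k) < 0) →
      (Abv q k a b → 0 < y) ∧ (¬ Abv q k a b → y < 0) := by
    intro k a b y hab h1 h2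
    obtain ⟨h3, h4⟩ := hPH q k a b hab
    refine ⟨fun h => h1.2 (h3.2 h), fun h => h2.2 ?_⟩
    rcases lt_or_gt_of_ne h4 with h5 | h5
    · exact h5
    · exact absurd (h3.1 h5) h
  have hor : ∀ a b c : Fin (2 * q + 2), orient (p (Sum.inl a)) (p (Sum.inl b)) (p (Sum.inl c)) =
      orient (raw q k1 a) (raw q k1 b) (raw q k1 c) := by
    intro a b c
    rw [hq, hq, hq]
    exact orient_tr _ _ _ _
  refine ⟨p, hp, ?_, ?_, ?_⟩
  · intro i s hi
    refine (sep p (Sum.inr s) (Sum.inl i) (Bset q (q + 1) i M) ?_).trans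
      (Nat.add_le_add_right (card_Bset _ _ _ _) _)
    intro a b hab hb _ hay _ hby hsep
    have hab' : (a : ℕ) < b := hab
    have hai : (a : ℕ) ≠ i := fun h => hay (by rw [Fin.ext h])
    have hbi : (b : ℕ) ≠ i := fun h => hby (by rw [Fin.ext h])
    have hss := hs a b s (ne_of_lt hab)
    unfold Separates at hsep
    rw [hor, raw_lt hb, raw_lt (show (a : ℕ) < 2 * q + 1 by omega), raw_lt hi] at hsep
    refine mem_Bset (count hPP hab' hb hai hbi (y := orient (p (Sum.inl a)) (p (Sum.inl b))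
      (p (Sum.inr s))) ?_ hsep)
    have hss' : 0 < orient (pp q a) (pp q b) (hh (q + 1)) *
        orient (p (Sum.inl a)) (p (Sum.inl b)) (p (Sum.inr s)) := by
      have e := hz a b
      rw [raw_lt hb, raw_lt (show (a : ℕ) < 2 * q + 1 by omega)] at e
      rw [← e, hq, hq]
      exact hss
    exact hsig (q + 1) a b _ hab' (pos_iff_pos_of_mul_pos hss').symm
      (neg_iff_neg_of_mul_pos hss').symm
  · intro i c hi hc
    refine (sep p (Sum.inl c) (Sum.inl i) (Bset q k1 i M) ?_).trans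
      (Nat.add_le_add_right (card_Bset _ _ _ _) _)
    intro a b hab hb _ hay _ hby hsep
    have hab' : (a : ℕ) < b := hab
    have hai : (a : ℕ) ≠ i := fun h => hay (by rw [Fin.ext h])
    have hbi : (b : ℕ) ≠ i := fun h => hby (by rw [Fin.ext h])
    unfold Separates at hsep
    rw [hor, hor, raw_lt hb, raw_lt (show (a : ℕ) < 2 * q + 1 by omega), raw_lt hi,
      raw_last hc] at hsep
    exact mem_Bset (count hPP hab' hb hai hbi (hsig k1 a b _ hab' Iff.rfl Iff.rfl) hsep)
  · intro i j hij hj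
    have hij' : (i : ℕ) < j := hij
    set B : Finset (Sym2 (Fin (2 * q + 2) ⊕ Fin M)) :=
      ((Finset.Ioo i j) ×ˢ (Finset.univ : Finset (Fin (2 * q + 2)))).image
        (fun x => s(Sum.inl x.1, Sum.inl x.2)) with hBdef
    have hBcard : B.card ≤ ((j : ℕ) - i) * (2 * q + 2 + M) := by
      rw [hBdef]
      refine Finset.card_image_le.trans ?_
      rw [Finset.card_product, Fin.card_Ioo, Finset.card_univ, Fintype.card_fin]
      exact Nat.mul_le_mul (by omega) (by omega)
    refine (sep p (Sum.inl i) (Sum.inl j) B ?_).trans (Nat.add_le_add_right hBcard _)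
    intro a b hab hb hax hay hbx hby hsep
    have hab' : (a : ℕ) < b := hab
    have hai : (a : ℕ) ≠ i := fun h => hax (by rw [Fin.ext h])
    have hbi : (b : ℕ) ≠ i := fun h => hbx (by rw [Fin.ext h])
    have haj : (a : ℕ) ≠ j := fun h => hay (by rw [Fin.ext h])
    have hbj : (b : ℕ) ≠ j := fun h => hby (by rw [Fin.ext h])
    rw [hBdef, Finset.mem_image]
    unfold Separates at hsep
    rw [hor, hor, raw_lt hb, raw_lt (show (a : ℕ) < 2 * q + 1 by omega),
      raw_lt (show (i : ℕ) < 2 * q + 1 by omega), raw_lt hj] at hsep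
    by_cases hA : (i : ℕ) < a ∧ (a : ℕ) < j
    · refine ⟨(a, b), ?_, rfl⟩
      rw [Finset.mem_product, Finset.mem_Ioo]
      exact ⟨⟨hA.1, hA.2⟩, Finset.mem_univ _⟩
    by_cases hB' : (i : ℕ) < b ∧ (b : ℕ) < j
    · refine ⟨(b, a), ?_, Sym2.eq_swap⟩
      rw [Finset.mem_product, Finset.mem_Ioo]
      exact ⟨⟨hB'.1, hB'.2⟩, Finset.mem_univ _⟩
    exfalso
    by_cases hin : (a : ℕ) < i ∧ (i : ℕ) < b
    · have h3' := pp_in hPP (l := q) hin.1 hin.2
      have h4 := pp_in hPP (l := q) (a := (a : ℕ)) (b := (b : ℕ)) (i := (j : ℕ)) (by omega)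
        (by omega)
      have := mul_pos_of_neg_of_neg h3' h4
      linarith
    · have h3' := pp_out hPP (l := q) (i := (i : ℕ)) hab' (by omega)
      have h4 := pp_out hPP (l := q) (i := (j : ℕ)) hab' (by omega)
      have := mul_pos h3' h4
      linarith

end Pool.Agent.Lib.MP_00ece3_co.EX
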